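import Pool.Agent.H52.BE.KA

/-!
# Project BE: Lemma K (induction)

`adjK`: if `c1 ∈ KS x b0 k`, `b0 (inl x') = 0`, `x'` smaller than all left vertices of `b0`,
`x < x'`, and `H x' j` for all neighbours `j` of `x` in the support of `b0`, then there is `r0` free of
`e_x'` with `E x' c1 + r0 ∈ KS x (b0 + dl x') k`.  Span induction; generators:
`dd w`: `E x' (dd w) = w - dd (E x' w)`, `r0 = - w`.  Level: `r0 = 0` (`E_Lv`).
`DD A g2` (`g2 = EE B g` or `DD B g`): `E x' (DD A g2) = EE A g2 - DD (x' :: A) g2`,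
`r0 = - EE A g2` (free of `e_x'`: `b0 (inl x') = 0`, `b0 = b' + cl A + cr B`, so `x' ∉ A` and `g` is free
of it), generator with `x' :: A` (`x' <` elements of `A` as these are in the support of `b0`).

`KM` (Lemma K), strong induction on `∑ v, b v`:
 1. `x` has no neighbour in the support: `HypK` gives `c = dd ω + μ`, `Lv_iso`, `KS_bd`.
 2. some neighbour `y` of `x` in the support is isolated in `b`: `cone_Zv` with `v = inr y`, `KS_bd`.
 3. otherwise there is a left vertex in the support; `x'` the first one.  `x'` isolated in `b`: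
    `cone_Zv`.
 4. otherwise `H x' y` for every neighbour `y` of `x` in the support: let `H x' y*` (in the support).
    `y* < y`: `SO x x' y* y`.  `y* = y` ok.  `y < y*`: `y` has a neighbour `x''` in the support,
    `x' ≤ x''`; if `x' < x''`: `SO x' x'' y y*`.
    Let `b0 = b - dl x'`.  If `1 ≤ b0 (inl x')`: `Zv_e_eq_b`, `KA`.
    If `b0 (inl x') = 0`: split `c = c0 + E x' c1`; `c1 ∈ HypK x b0 k` (`split_Zv`; split `ω`, `μ` with
    `split_Lv` for `e = dl x` and compare the `e_x'` components: `c1 = - dd ω1 + μ1`).  Induction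
    hypothesis: `c1 ∈ KS x b0 k`.  `adjK` gives `r0`; `c2 = c - (E x' c1 + r0) = c0 - r0` is free of
    `e_x'` and in `HypK x b k` (`hyp_KS`), in `Zt_x' b0 k` by `Fr_Zv0`.  `KA` for `c2`.
-/

namespace Pool.Agent.H52.BE

open Finset

variable {V : Type*} [Fintype V] [LinearOrder V]
variable {K : Type*} [CommRing K] {H : V → V → Prop}

omit [Fintype V] in
private theorem KM_cnt_pos {A : List V} {i : V} (h : i ∈ A) : 1 ≤ cl A (Sum.inl i) := by
  have : Sum.inl i ∈ A.map (Sum.inl : V → V ⊕ V) := List.mem_map_of_mem h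
  exact (@List.count_pos_iff (V ⊕ V) instBEqOfDecidableEq inferInstance _ _).mpr this

omit [Fintype V] in
private theorem KM_cnt_pos' {B : List V} {i : V} (h : i ∈ B) : 1 ≤ cr B (Sum.inr i) := by
  have : Sum.inr i ∈ B.map (Sum.inr : V → V ⊕ V) := List.mem_map_of_mem h
  exact (@List.count_pos_iff (V ⊕ V) instBEqOfDecidableEq inferInstance _ _).mpr this

omit [Fintype V] in
private theorem KM_cl_cons (x : V) (A : List V) : cl (x :: A) = cl A + dl (Sum.inl x) := by
  funext v
  simp only [cl, cnt, dl, List.map_cons, Pi.add_apply, List.count_cons, beq_iff_eq]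
  by_cases h : Sum.inl x = v
  · simp [h]
  · simp [h, Ne.symm h]

omit [Fintype V] in
/-- the common part of the two list generators in `adjK` -/
private theorem KM_adj_gen (x' : V) (b0 b' : V ⊕ V → ℕ) (A B : List V)
    (h0 : b0 (Sum.inl x') = 0) (hfirst : ∀ i, 1 ≤ b0 (Sum.inl i) → x' ≤ i)
    (hA : A.Pairwise (· < ·)) (hb : b0 = b' + cl A + cr B) :
    (x' :: A).Pairwise (· < ·) ∧ b' (Sum.inl x') = 0 ∧ x' ∉ A ∧
      b0 + dl (Sum.inl x') = b' + cl (x' :: A) + cr B := by
  have hge : ∀ v, b0 v = b' v + cl A v + cr B v := by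
    intro v; rw [hb]; rfl
  have hnotin : x' ∉ A := by
    intro h
    have h1 := KM_cnt_pos h
    have h2 := hge (Sum.inl x')
    omega
  refine ⟨?_, ?_, hnotin, ?_⟩
  · rw [List.pairwise_cons]
    refine ⟨fun i hi => ?_, hA⟩
    have h1 := KM_cnt_pos hi
    have h2 := hge (Sum.inl i)
    have h3 := hfirst i (by omega)
    rcases h3.lt_or_eq with h | h
    · exact h
    · exact absurd (h ▸ hi) hnotin
  · have h2 := hge (Sum.inl x')
    omega
  · rw [KM_cl_cons, hb]
    funext v
    simp only [Pi.add_apply]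
    omega

theorem adjK (x x' : V) (b0 : V ⊕ V → ℕ) (k : ℕ) (hxx : x < x') (h0 : b0 (Sum.inl x') = 0)
    (hfirst : ∀ i, 1 ≤ b0 (Sum.inl i) → x' ≤ i)
    (hN : ∀ j, 1 ≤ b0 (Sum.inr j) → H x j → H x' j)
    (c1 : Finset (V ⊕ V) → K) (hc : c1 ∈ KS K H x b0 k) :
    ∃ r0 : Finset (V ⊕ V) → K, Fr (Sum.inl x') r0 ∧
      E1 K (Sum.inl x') c1 + r0 ∈ KS K H x (b0 + dl (Sum.inl x')) k := by
  unfold KS at hc
  induction hc using Submodule.span_induction with
  | mem c hcg =>
    rcases hcg with ⟨w, hw, rfl⟩ | hl | ⟨A, B, b', g, hA, hB, hAs, hBs, hAB, hxB, hb, hg, rfl⟩ |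
      ⟨A, B, b', j, g, hA, hB, hAs, hBs, hAB, hxB, hb, hk, hg, rfl⟩
    · refine ⟨-w, Fr_neg _ _ (Lv_Fr h0 hw), ?_⟩
      have h1 : E1 K (Sum.inl x') (dd K w) + -w = dd K (-(E1 K (Sum.inl x') w)) := by
        rw [map_neg, dd_E]
        abel
      rw [h1]
      apply Submodule.subset_span
      left
      exact ⟨_, Submodule.neg_mem _ (E_Lv _ hw), rfl⟩
    · refine ⟨0, fun τ _ => rfl, ?_⟩
      rw [add_zero]
      apply Submodule.subset_span
      right; left
      exact E_Lv _ hl
    · obtain ⟨hs, hb0, hnot, hdeg⟩ := KM_adj_gen x' b0 b' A B h0 hfirst hAs hb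
      refine ⟨-(EE K (A.map Sum.inl) (EE K (B.map Sum.inr) g)), ?_, ?_⟩
      · apply Fr_neg
        apply Fr_EL
        · simpa using hnot
        · apply Fr_EL
          · simp
          · exact Lv_Fr hb0 (mem_Zv.mp hg).1
      · have h1 : E1 K (Sum.inl x') (DD K (A.map Sum.inl) (EE K (B.map Sum.inr) g))
            + -(EE K (A.map Sum.inl) (EE K (B.map Sum.inr) g))
            = -(DD K ((x' :: A).map Sum.inl) (EE K (B.map Sum.inr) g)) := by
          rw [List.map_cons, DD_cons]
          abel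
        rw [h1]
        apply Submodule.neg_mem
        apply Submodule.subset_span
        right; right; left
        refine ⟨x' :: A, B, b', g, by simp, hB, hs, hBs, ?_, hxB, hdeg, hg, rfl⟩
        intro i hi j hj
        rcases List.mem_cons.mp hi with rfl | hi
        · apply hN j _ (hxB j hj)
          have h2 := KM_cnt_pos' hj
          rw [hb]
          simp only [Pi.add_apply]
          omega
        · exact hAB i hi j hj
    · obtain ⟨hs, hb0, hnot, hdeg⟩ := KM_adj_gen x' b0 b' A B h0 hfirst hAs hb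
      refine ⟨-(EE K (A.map Sum.inl) (DD K (B.map Sum.inr) g)), ?_, ?_⟩
      · apply Fr_neg
        apply Fr_EL
        · simpa using hnot
        · apply Fr_DL
          · simp
          · exact Lv_Fr hb0 (mem_Zv.mp hg).1
      · have h1 : E1 K (Sum.inl x') (DD K (A.map Sum.inl) (DD K (B.map Sum.inr) g))
            + -(EE K (A.map Sum.inl) (DD K (B.map Sum.inr) g))
            = -(DD K ((x' :: A).map Sum.inl) (DD K (B.map Sum.inr) g)) := by
          rw [List.map_cons, DD_cons]
          abel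
        rw [h1]
        apply Submodule.neg_mem
        apply Submodule.subset_span
        right; right; right
        refine ⟨x' :: A, B, b', j, g, by simp, hB, hs, hBs, ?_, hxB, hdeg, hk, hg, rfl⟩
        intro i hi j' hj
        rcases List.mem_cons.mp hi with rfl | hi
        · apply hN j' _ (hxB j' hj)
          have h2 := KM_cnt_pos' hj
          rw [hb]
          simp only [Pi.add_apply]
          omega
        · exact hAB i hi j' hj
  | zero =>
    refine ⟨0, fun τ _ => rfl, ?_⟩
    rw [map_zero, add_zero]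
    exact Submodule.zero_mem _
  | add a b _ _ iha ihb =>
    obtain ⟨ra, hra, hra'⟩ := iha
    obtain ⟨rb, hrb, hrb'⟩ := ihb
    refine ⟨ra + rb, Fr_add _ _ _ hra hrb, ?_⟩
    have : E1 K (Sum.inl x') (a + b) + (ra + rb)
        = (E1 K (Sum.inl x') a + ra) + (E1 K (Sum.inl x') b + rb) := by
      rw [map_add]; abel
    rw [this]
    exact Submodule.add_mem _ hra' hrb'
  | smul t a _ iha =>
    obtain ⟨ra, hra, hra'⟩ := iha
    refine ⟨t • ra, fun τ hτ => ?_, ?_⟩
    · rw [Pi.smul_apply, hra τ hτ, smul_zero]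
    · have : E1 K (Sum.inl x') (t • a) + t • ra = t • (E1 K (Sum.inl x') a + ra) := by
        rw [map_smul, smul_add]
      rw [this]
      exact Submodule.smul_mem _ _ hra'

/-- the case without `e_x'` and the case of exponent one of `x'` -/
private theorem KM_step (hSO : SO H) (x x' : V) (b0 : V ⊕ V → ℕ) (k : ℕ) (hxx : x < x')
    (hfirst : ∀ i, 1 ≤ b0 (Sum.inl i) → x' ≤ i)
    (hex : ∃ y, H x y ∧ 1 ≤ b0 (Sum.inr y))
    (hN : ∀ j, 1 ≤ b0 (Sum.inr j) → H x j → H x' j)
    (hind : b0 (Sum.inl x') = 0 → ∀ c1 : Finset (V ⊕ V) → K, c1 ∈ HypK K H x b0 k →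
      c1 ∈ KS K H x b0 k)
    (c : Finset (V ⊕ V) → K) (hc : c ∈ HypK K H x (b0 + dl (Sum.inl x')) k) :
    c ∈ KS K H x (b0 + dl (Sum.inl x')) k := by
  classical
  set Y : List V := ((Finset.univ : Finset V).filter
    (fun y => H x y ∧ 1 ≤ b0 (Sum.inr y))).sort (· ≤ ·) with hYdef
  have hYm : ∀ y, y ∈ Y ↔ H x y ∧ 1 ≤ b0 (Sum.inr y) := by
    intro y
    rw [hYdef, Finset.mem_sort]
    simp
  have hYs : Y.Pairwise (· < ·) := by
    rw [hYdef]
    exact Finset.sortedLT_sort _ |>.pairwise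
  have hYne : Y ≠ [] := by
    obtain ⟨y, hy⟩ := hex
    intro h
    have := (hYm y).mpr hy
    rw [h] at this
    simp at this
  have hx'Y : ∀ y ∈ Y, H x' y := fun y hy => hN y ((hYm y).mp hy).2 ((hYm y).mp hy).1
  by_cases hb : 1 ≤ b0 (Sum.inl x')
  · apply KA hSO x x' Y b0 k hxx hfirst hYne hYs hYm hx'Y c hc
    rw [Zv_e_eq_b _ hb]
    exact hc.1
  · have hb0 : b0 (Sum.inl x') = 0 := by omega
    obtain ⟨c0, c1, hcs, hF0, hF1, -, -⟩ := split (R := K) (Sum.inl x') c
    have hc1 : c1 ∈ HypK K H x b0 k := by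
      refine ⟨?_, ?_⟩
      · have := split_Zv (K := K) (H := H) (e := 0) (k := k) hb0 hF0 hF1 (by
          have h := hc.1
          rw [hcs] at h
          exact h)
        exact this.2.1
      · obtain ⟨-, hc2⟩ := hc
        obtain ⟨a, ha, μ, hμ, hsum⟩ := Submodule.mem_sup.mp hc2
        obtain ⟨ω, hω, rfl⟩ := ha
        obtain ⟨ω0, ω1, hωs, hω0, hω1, -, -⟩ := split (R := K) (Sum.inl x') ω
        obtain ⟨μ0, μ1, hμs, hμ0, hμ1, -, -⟩ := split (R := K) (Sum.inl x') μ
        have h1 := split_Lv (K := K) (H := H) hb0 hω0 hω1 (by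
          have h := hω
          rw [hωs] at h
          exact h)
        have h2 := split_Lv (K := K) (H := H) hb0 hμ0 hμ1 (by
          have h := hμ
          rw [hμs] at h
          exact h)
        have hkey : (c0 - (dd K ω0 + ω1 + μ0))
            + E1 K (Sum.inl x') (c1 - (-(dd K ω1) + μ1)) = 0 := by
          have h3 : c0 + E1 K (Sum.inl x') c1 = dd K (ω0 + E1 K (Sum.inl x') ω1)
              + (μ0 + E1 K (Sum.inl x') μ1) := by
            calc c0 + E1 K (Sum.inl x') c1 = c := hcs.symm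
              _ = dd K ω + μ := hsum.symm
              _ = _ := by
                conv_lhs => rw [hωs, hμs]
          rw [map_add, dd_E] at h3
          have h4 : (c0 - (dd K ω0 + ω1 + μ0))
              + E1 K (Sum.inl x') (c1 - (-(dd K ω1) + μ1))
              = (c0 + E1 K (Sum.inl x') c1) - (dd K ω0 + (ω1 - E1 K (Sum.inl x') (dd K ω1))
                + (μ0 + E1 K (Sum.inl x') μ1)) := by
            rw [map_sub, map_add, map_neg]
            abel
          rw [h4, h3, sub_self]
        have hfr0 : Fr (Sum.inl x') (c0 - (dd K ω0 + ω1 + μ0)) := by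
          apply Fr_sub _ _ _ hF0
          apply Fr_add _ _ _ _ hμ0
          exact Fr_add _ _ _ (Fr_kd _ _ _ hω0) hω1
        have hfr1 : Fr (Sum.inl x') (c1 - (-(dd K ω1) + μ1)) := by
          apply Fr_sub _ _ _ hF1
          exact Fr_add _ _ _ (Fr_neg _ _ (Fr_kd _ _ _ hω1)) hμ1
        have h5 := (split_unique (R := K) (Sum.inl x') _ _ hfr0 hfr1 hkey).2
        have h6 : c1 = dd K (-ω1) + μ1 := by
          rw [map_neg]
          exact sub_eq_zero.mp h5
        rw [h6]
        exact Submodule.add_mem_sup ⟨-ω1, Submodule.neg_mem _ h1.2, rfl⟩ h2.2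
    have hKS1 := hind hb0 c1 hc1
    obtain ⟨r0, hr0, hr0'⟩ := adjK x x' b0 k hxx hb0 hfirst hN c1 hKS1
    have hc2H : c - (E1 K (Sum.inl x') c1 + r0) ∈ HypK K H x (b0 + dl (Sum.inl x')) k :=
      Submodule.sub_mem _ hc (hyp_KS x _ k hr0')
    have hc2e : c - (E1 K (Sum.inl x') c1 + r0) = c0 - r0 := by
      have : c = c0 + E1 K (Sum.inl x') c1 := hcs
      rw [this]
      abel
    have hc2Z : c - (E1 K (Sum.inl x') c1 + r0) ∈ Zv K H (dl (Sum.inl x')) b0 k := by
      apply Fr_Zv0 _ hc2H.1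
      rw [hc2e]
      exact Fr_sub _ _ _ hF0 hr0
    have hc2K := KA hSO x x' Y b0 k hxx hfirst hYne hYs hYm hx'Y _ hc2H hc2Z
    have : c = (c - (E1 K (Sum.inl x') c1 + r0)) + (E1 K (Sum.inl x') c1 + r0) := by abel
    rw [this]
    exact Submodule.add_mem _ hc2K hr0'

theorem KM (hSO : SO H) : ∀ (n : ℕ) (b : V ⊕ V → ℕ), ∑ v, b v = n →
    ∀ (x : V) (k : ℕ) (c : Finset (V ⊕ V) → K), (∀ i, 1 ≤ b (Sum.inl i) → x < i) →
      c ∈ HypK K H x b k → c ∈ KS K H x b k := by
  classical
  intro n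
  induction n using Nat.strong_induction_on with
  | _ n ih =>
    intro b hbn x k c hx hc
    by_cases h1 : ∀ u, 1 ≤ b u → ¬ adj H (Sum.inl x) u
    · obtain ⟨-, hc2⟩ := hc
      rw [Lv_iso h1, Lv_iso h1] at hc2
      obtain ⟨a, ha, μ, hμ, rfl⟩ := Submodule.mem_sup.mp hc2
      obtain ⟨ω, hω, rfl⟩ := ha
      exact KS_bd x b k ω μ hω hμ
    by_cases h2 : ∃ v, 1 ≤ b v ∧ ∀ u, 1 ≤ b u → ¬ adj H v u
    · obtain ⟨v, hv, hiso⟩ := h2
      obtain ⟨w, hw, l, hl, rfl⟩ := cone_Zv (K := K) (H := H) (e := 0) (k := k) hv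
        (by simpa using hiso) hc.1
      exact KS_bd x b k w l hw hl
    push Not at h1 h2
    obtain ⟨u, hu, hxu⟩ := h1
    obtain ⟨y, rfl⟩ : ∃ y, u = Sum.inr y := by
      rcases u with i | y
      · exact absurd hxu (by simp [adj])
      · exact ⟨y, rfl⟩
    have hxy : H x y := hxu
    have hleft : ∃ i, 1 ≤ b (Sum.inl i) := by
      obtain ⟨u, hu', hyu⟩ := h2 (Sum.inr y) hu
      rcases u with i | j
      · exact ⟨i, hu'⟩
      · exact absurd hyu (by simp [adj])
    have hne : ((Finset.univ : Finset V).filter (fun i => 1 ≤ b (Sum.inl i))).Nonempty := by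
      obtain ⟨i, hi⟩ := hleft
      exact ⟨i, by simpa using hi⟩
    set x' : V := ((Finset.univ : Finset V).filter (fun i => 1 ≤ b (Sum.inl i))).min' hne
      with hx'def
    have hx'b : 1 ≤ b (Sum.inl x') := by
      have := Finset.min'_mem _ hne
      rw [← hx'def] at this
      simpa using this
    have hmin : ∀ i, 1 ≤ b (Sum.inl i) → x' ≤ i := by
      intro i hi
      exact Finset.min'_le _ _ (by simpa using hi)
    have hxx : x < x' := hx x' hx'b
    obtain ⟨u, hu', hx'u⟩ := h2 (Sum.inl x') hx'b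
    obtain ⟨ys, rfl⟩ : ∃ y, u = Sum.inr y := by
      rcases u with i | y
      · exact absurd hx'u (by simp [adj])
      · exact ⟨y, rfl⟩
    have hx'ys : H x' ys := hx'u
    have hN : ∀ j, 1 ≤ b (Sum.inr j) → H x j → H x' j := by
      intro j hj hxj
      rcases lt_trichotomy ys j with h | h | h
      · exact (hSO x x' ys j hxx h hxj hx'ys).2
      · rw [← h]; exact hx'ys
      · obtain ⟨u, hu3, hju⟩ := h2 (Sum.inr j) hj
        rcases u with i | j'
        · have hij : H i j := hju
          rcases (hmin i hu3).lt_or_eq with h' | h'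
          · exact (hSO x' i j ys h' h hx'ys hij).1
          · rw [h']; exact hij
        · exact absurd hju (by simp [adj])
    have hbb : b = (b - dl (Sum.inl x')) + dl (Sum.inl x') := by
      funext v
      simp only [Pi.add_apply, Pi.sub_apply, dl]
      split_ifs with h
      · rw [h]; omega
      · omega
    have hinr : ∀ j, (b - dl (Sum.inl x') : V ⊕ V → ℕ) (Sum.inr j) = b (Sum.inr j) := by
      intro j
      simp [dl]
    have hle : ∀ i, 1 ≤ (b - dl (Sum.inl x') : V ⊕ V → ℕ) (Sum.inl i) → 1 ≤ b (Sum.inl i) := by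
      intro i hi
      simp only [Pi.sub_apply] at hi
      omega
    rw [hbb] at hc ⊢
    refine KM_step hSO x x' (b - dl (Sum.inl x')) k hxx (fun i hi => hmin i (hle i hi))
      ⟨y, hxy, by rw [hinr]; exact hu⟩ (fun j hj hxj => hN j (by rw [← hinr]; exact hj) hxj) ?_ c hc
    intro _ c1 hc1
    have hsum : ∑ v, (b - dl (Sum.inl x') : V ⊕ V → ℕ) v + 1 = n := by
      rw [← hbn]
      conv_rhs => rw [hbb]
      simp only [Pi.add_apply]
      rw [Finset.sum_add_distrib]
      congr 1
      simp [dl]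
    exact ih _ (by omega) (b - dl (Sum.inl x')) rfl x k c1 (fun i hi => hx i (hle i hi)) hc1

end Pool.Agent.H52.BE
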