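import Pool.Agent.H52.BE.PX
import Pool.Agent.H52.BE.KM

/-!
# Project BE: Theorem B'

`adjG`: `c1 ∈ KS x b k`, `b (inl x) = 0`, `x` smaller than all left vertices of `b`; then
there is `r0` free of `e_x` with `Gn (b + dl x) k (E x c1 + r0)` (`IH` for the degrees smaller
than `b + dl x`).  Span induction as in `adjK`: `E x (DD A g2) = EE A g2 - DD (x :: A) g2`,
`Gn.de`/`Gn.dd'` with `x :: A` (`H x j` for `j ∈ B` is part of `KS`), `g ∈ Z b' k` is `Gn` by `IH`.

`Bp`: strong induction on `∑ v, a v`.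
 * `a = 0`: `k = 0`: `Gn.unit`; `k ≥ 1`: `Lv 0 0 k` is zero (`Mt_pos`).
 * no left vertex in the support, or no right vertex: any vertex of the support is isolated, `Gn_cone`.
 * `x` first left, `y` first right vertex, `¬ H x y`: `iso_or`, `Gn_cone`.
 * `H x y`, `2 ≤ a (inl x)`: `b = a - dl x`, `Zv_e_eq_b`, `PX`.
 * `a (inl x) = 1`: `b = a - dl x`, `b (inl x) = 0`; split `c = c0 + E x c1`, `split_Zv`:
   `c1 ∈ Z b k`, `dd c0 + c1 ∈ Ch a (k+1)`.  `c0`, `dd c0 + c1` are free of `e_x`, so `c0 ∈ Ct_x b k`,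
   `dd c0 + c1 ∈ Ct_x b (k+1)` (`Fr_Lv0`) and `c1 = dd (-c0) + (dd c0 + c1)`: `c1 ∈ HypK x b k`.
   `KM`: `c1 ∈ KS x b k`.  `adjG`: `r0`.  `c - (E x c1 + r0) = c0 - r0` is free of `e_x` and in
   `Z a k` (`Gn_Zv`), so in `Zt_x b k` (`Fr_Zv0`): `PX`.
-/

namespace Pool.Agent.H52.BE

open Finset

variable {V : Type*} [Fintype V] [LinearOrder V]
variable {K : Type*} [CommRing K] {H : V → V → Prop}

omit [Fintype V] in
private theorem cl_cons (x : V) (A : List V) : cl (x :: A) = dl (Sum.inl x) + cl A := by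
  funext w
  simp only [cl, cnt, dl, List.map_cons, List.count_cons, Pi.add_apply, beq_iff_eq]
  by_cases h : w = Sum.inl x
  · simp [h, add_comm]
  · have h' : ¬ (Sum.inl x = w) := fun h2 => h h2.symm
    simp [h, h']

omit [Fintype V] in
private theorem cl_mem {A : List V} {i : V} (h : i ∈ A) : 1 ≤ cl A (Sum.inl i) := by
  have h1 : (Sum.inl i : V ⊕ V) ∈ A.map Sum.inl := List.mem_map_of_mem h
  simp only [cl, cnt]
  exact (@List.count_pos_iff (V ⊕ V) instBEqOfDecidableEq inferInstance _ _).2 h1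

private theorem sum_lt_dl {b b' : V ⊕ V → ℕ} (v : V ⊕ V) (h : b' ≤ b) :
    ∑ w, b' w < ∑ w, (b + dl v : V ⊕ V → ℕ) w := by
  apply Finset.sum_lt_sum
  · intro w _
    have h1 : b' w ≤ b w := h w
    simp only [Pi.add_apply]
    omega
  · refine ⟨v, Finset.mem_univ _, ?_⟩
    have h1 : b' v ≤ b v := h v
    simp only [Pi.add_apply, dl, if_true]
    omega

theorem adjG (x : V) (b : V ⊕ V → ℕ) (k : ℕ) (h0 : b (Sum.inl x) = 0)
    (hfirst : ∀ i, 1 ≤ b (Sum.inl i) → x < i)
    (IH : ∀ a' : V ⊕ V → ℕ, ∑ v, a' v < ∑ v, (b + dl (Sum.inl x) : V ⊕ V → ℕ) v →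
      ∀ (k' : ℕ) (c' : Finset (V ⊕ V) → K), c' ∈ Zv K H 0 a' k' → Gn K H a' k' c')
    (c1 : Finset (V ⊕ V) → K) (hc : c1 ∈ KS K H x b k) :
    ∃ r0 : Finset (V ⊕ V) → K, Fr (Sum.inl x) r0 ∧
      Gn K H (b + dl (Sum.inl x)) k (E1 K (Sum.inl x) c1 + r0) := by
  unfold KS at hc
  induction hc using Submodule.span_induction with
  | mem c hc =>
    -- the facts about the lists
    have key : ∀ (A B : List V) (b' : V ⊕ V → ℕ), b = b' + cl A + cr B →
        (∀ i ∈ A, x < i) ∧ b' (Sum.inl x) = 0 ∧ b' ≤ b := by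
      intro A B b' hb
      refine ⟨?_, ?_, ?_⟩
      · intro i hi
        apply hfirst
        rw [hb]
        have := cl_mem hi
        simp only [Pi.add_apply]
        omega
      · rw [hb] at h0
        simp only [Pi.add_apply] at h0
        omega
      · intro w
        rw [hb]
        simp only [Pi.add_apply]
        omega
    have nmem : ∀ A : List V, (∀ i ∈ A, x < i) → (Sum.inl x : V ⊕ V) ∉ A.map Sum.inl := by
      intro A hA hm
      obtain ⟨i, hi, he⟩ := List.mem_map.1 hm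
      have : i = x := Sum.inl.inj he
      exact absurd (hA i hi) (by rw [this]; exact lt_irrefl _)
    have nmem' : ∀ B : List V, (Sum.inl x : V ⊕ V) ∉ B.map Sum.inr := by
      intro B hm
      obtain ⟨i, _, he⟩ := List.mem_map.1 hm
      exact absurd he (by simp)
    have degs : ∀ (A B : List V) (b' : V ⊕ V → ℕ), b = b' + cl A + cr B →
        b + dl (Sum.inl x) = b' + cl (x :: A) + cr B := by
      intro A B b' hb
      rw [hb, cl_cons]
      abel
    rcases hc with ⟨w, hw, rfl⟩ | hl | ⟨A, B, b', g, hA, hB, hAs, hBs, hAB, hxB, hb, hg, rfl⟩ |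
      ⟨A, B, b', j, g, hA, hB, hAs, hBs, hAB, hxB, hb, hk, hg, rfl⟩
    · refine ⟨-w, Fr_neg _ _ (Lv_Fr h0 hw), ?_⟩
      have e1 : E1 K (Sum.inl x) (dd K w) + -w = dd K (-(E1 K (Sum.inl x) w)) := by
        rw [map_neg, dd_E]
        abel
      rw [e1]
      exact Gn.bd _ _ _ (Submodule.neg_mem _ (E_Lv _ hw))
    · refine ⟨0, fun τ _ => rfl, ?_⟩
      rw [add_zero]
      exact Gn.lev _ _ _ (E_Lv _ hl)
    · obtain ⟨k1, k2, k3⟩ := key A B b' hb
      refine ⟨-(EE K (A.map Sum.inl) (EE K (B.map Sum.inr) g)), ?_, ?_⟩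
      · exact Fr_neg _ _ (Fr_EL _ _ (nmem A k1) _ (Fr_EL _ _ (nmem' B) _ (Lv_Fr k2 hg.1)))
      · have e1 : E1 K (Sum.inl x) (DD K (A.map Sum.inl) (EE K (B.map Sum.inr) g)) +
            -(EE K (A.map Sum.inl) (EE K (B.map Sum.inr) g)) =
            -(DD K ((x :: A).map Sum.inl) (EE K (B.map Sum.inr) g)) := by
          rw [List.map_cons, DD_cons]
          abel
        rw [e1]
        apply Gn_neg
        refine Gn.de (x :: A) B (by simp) hB ?_ hBs ?_ b' k g (IH b' (sum_lt_dl _ k3) k g hg) _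
          (degs A B b' hb)
        · rw [List.pairwise_cons]
          exact ⟨fun i hi => k1 i hi, hAs⟩
        · intro i hi j hj
          rcases List.mem_cons.1 hi with rfl | hi
          · exact hxB j hj
          · exact hAB i hi j hj
    · obtain ⟨k1, k2, k3⟩ := key A B b' hb
      subst hk
      refine ⟨-(EE K (A.map Sum.inl) (DD K (B.map Sum.inr) g)), ?_, ?_⟩
      · exact Fr_neg _ _ (Fr_EL _ _ (nmem A k1) _ (Fr_DL _ _ _ (nmem' B) _ (Lv_Fr k2 hg.1)))
      · have e1 : E1 K (Sum.inl x) (DD K (A.map Sum.inl) (DD K (B.map Sum.inr) g)) +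
            -(EE K (A.map Sum.inl) (DD K (B.map Sum.inr) g)) =
            -(DD K ((x :: A).map Sum.inl) (DD K (B.map Sum.inr) g)) := by
          rw [List.map_cons, DD_cons]
          abel
        rw [e1]
        apply Gn_neg
        refine Gn.dd' (x :: A) B (by simp) hB ?_ hBs ?_ b' j g (IH b' (sum_lt_dl _ k3) j g hg) _
          (degs A B b' hb)
        · rw [List.pairwise_cons]
          exact ⟨fun i hi => k1 i hi, hAs⟩
        · intro i hi j hj
          rcases List.mem_cons.1 hi with rfl | hi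
          · exact hxB j hj
          · exact hAB i hi j hj
  | zero =>
    refine ⟨0, fun τ _ => rfl, ?_⟩
    rw [map_zero, add_zero]
    exact Gn.zero _ _
  | add c d _ _ hc hd =>
    obtain ⟨r, hr, hr'⟩ := hc
    obtain ⟨s, hs, hs'⟩ := hd
    refine ⟨r + s, Fr_add _ _ _ hr hs, ?_⟩
    have e1 : E1 K (Sum.inl x) (c + d) + (r + s) =
        (E1 K (Sum.inl x) c + r) + (E1 K (Sum.inl x) d + s) := by
      rw [map_add]
      abel
    rw [e1]
    exact Gn.add _ _ _ _ hr' hs'
  | smul t c _ hc =>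
    obtain ⟨r, hr, hr'⟩ := hc
    refine ⟨t • r, ?_, ?_⟩
    · intro τ hτ
      rw [Pi.smul_apply, hr τ hτ, smul_zero]
    · have e1 : E1 K (Sum.inl x) (t • c) + t • r = t • (E1 K (Sum.inl x) c + r) := by
        rw [map_smul, smul_add]
      rw [e1]
      exact Gn.smul _ _ _ _ hr'

theorem Bp (hSO : SO H) : ∀ (n : ℕ) (a : V ⊕ V → ℕ), ∑ v, a v = n →
    ∀ (k : ℕ) (c : Finset (V ⊕ V) → K), c ∈ Zv K H 0 a k → Gn K H a k c := by
  intro n
  induction n using Nat.strong_induction_on with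
  | _ n ih =>
  intro a ha k c hc
  have IH0 : ∀ a' : V ⊕ V → ℕ, ∑ v, a' v < ∑ v, a v →
      ∀ (k' : ℕ) (c' : Finset (V ⊕ V) → K), c' ∈ Zv K H 0 a' k' → Gn K H a' k' c' :=
    fun a' h k' c' hc' => ih _ (by rw [← ha]; exact h) a' rfl k' c' hc'
  by_cases ha0 : a = 0
  · subst ha0
    rcases k with _ | k
    · exact Gn.unit c hc.1
    · have hc0 : c = 0 := by
        funext τ
        by_contra hne
        obtain ⟨_, hm⟩ := hc.1 τ hne
        obtain ⟨i, j, _, h1, _⟩ := Mt_pos hm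
        simp at h1
      rw [hc0]
      exact Gn.zero _ _
  · obtain ⟨v, hv⟩ : ∃ v, 1 ≤ a v := by
      by_contra hcon
      push Not at hcon
      apply ha0
      funext w
      have := hcon w
      simp only [Pi.zero_apply]
      omega
    by_cases hL : ∃ i, 1 ≤ a (Sum.inl i)
    swap
    · push Not at hL
      refine Gn_cone v hv ?_ hc
      intro u hu hadj
      rcases v with i | j
      · have := hL i
        omega
      · rcases u with i' | j'
        · have := hL i'
          omega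
        · exact hadj
    by_cases hR : ∃ j, 1 ≤ a (Sum.inr j)
    swap
    · push Not at hR
      refine Gn_cone v hv ?_ hc
      intro u hu hadj
      rcases v with i | j
      · rcases u with i' | j'
        · exact hadj
        · have := hR j'
          omega
      · have := hR j
        omega
    obtain ⟨x, hx1, hx2⟩ : ∃ x, 1 ≤ a (Sum.inl x) ∧ ∀ i, 1 ≤ a (Sum.inl i) → x ≤ i := by
      classical
      have hne : (Finset.univ.filter (fun i : V => 1 ≤ a (Sum.inl i))).Nonempty := by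
        obtain ⟨i, hi⟩ := hL
        exact ⟨i, by simp [hi]⟩
      refine ⟨_, (Finset.mem_filter.1 (Finset.min'_mem _ hne)).2, ?_⟩
      intro i hi
      exact Finset.min'_le _ _ (by simp [hi])
    obtain ⟨y, hy1, hy2⟩ : ∃ y, 1 ≤ a (Sum.inr y) ∧ ∀ j, 1 ≤ a (Sum.inr j) → y ≤ j := by
      classical
      have hne : (Finset.univ.filter (fun j : V => 1 ≤ a (Sum.inr j))).Nonempty := by
        obtain ⟨j, hj⟩ := hR
        exact ⟨j, by simp [hj]⟩
      refine ⟨_, (Finset.mem_filter.1 (Finset.min'_mem _ hne)).2, ?_⟩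
      intro j hj
      exact Finset.min'_le _ _ (by simp [hj])
    by_cases hH : H x y
    swap
    · rcases iso_or hSO hH hx2 hy2 with h | h
      · exact Gn_cone _ hx1 h hc
      · exact Gn_cone _ hy1 h hc
    -- remove `x`
    obtain ⟨b, hb⟩ : ∃ b : V ⊕ V → ℕ, a = b + dl (Sum.inl x) := by
      refine ⟨a - dl (Sum.inl x), ?_⟩
      funext w
      simp only [Pi.add_apply, Pi.sub_apply, dl]
      by_cases hw : w = Sum.inl x
      · subst hw
        simp only [if_true]
        omega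
      · simp [hw]
    have hby : 1 ≤ b (Sum.inr y) := by
      rw [hb] at hy1
      simp only [Pi.add_apply, dl] at hy1
      simpa using hy1
    have hbfirst : ∀ i, 1 ≤ b (Sum.inl i) → x ≤ i := by
      intro i hi
      apply hx2
      rw [hb]
      simp only [Pi.add_apply]
      omega
    subst hb
    by_cases h2 : 1 ≤ b (Sum.inl x)
    · rw [← Zv_e_eq_b _ h2] at hc
      exact PX hSO x b k hbfirst ⟨y, hH, hby⟩ IH0 c hc
    · have h0 : b (Sum.inl x) = 0 := by omega
      have hbfirst' : ∀ i, 1 ≤ b (Sum.inl i) → x < i := by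
        intro i hi
        refine lt_of_le_of_ne (hbfirst i hi) ?_
        rintro rfl
        omega
      obtain ⟨c0, c1, hcc, f0, f1, _, _⟩ := split (R := K) (Sum.inl x : V ⊕ V) c
      have hc' : c0 + E1 K (Sum.inl x) c1 ∈ Zv K H 0 (b + dl (Sum.inl x)) k := by
        rw [← hcc]
        exact hc
      obtain ⟨s1, s2, s3⟩ := split_Zv h0 f0 f1 hc'
      have g0 : c0 ∈ Lv K H (dl (Sum.inl x)) b k := Fr_Lv0 f0 s1
      have f2 : Fr (Sum.inl x) (dd K c0 + c1) := Fr_add _ _ _ (Fr_kd _ _ _ f0) f1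
      have g1 : dd K c0 + c1 ∈ Lv K H (dl (Sum.inl x)) b (k + 1) := Fr_Lv0 f2 s3
      have hyp : c1 ∈ HypK K H x b k := by
        refine ⟨s2, ?_⟩
        refine Submodule.mem_sup.2 ⟨dd K (-c0), ⟨-c0, Submodule.neg_mem _ g0, rfl⟩,
          dd K c0 + c1, g1, ?_⟩
        rw [map_neg]
        abel
      have hKS : c1 ∈ KS K H x b k := KM hSO _ b rfl x k c1 hbfirst' hyp
      obtain ⟨r0, fr0, hr0⟩ := adjG x b k h0 hbfirst' IH0 c1 hKS
      have hZ : c0 - r0 ∈ Zv K H 0 (b + dl (Sum.inl x)) k := by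
        have e1 : c0 - r0 = (c0 + E1 K (Sum.inl x) c1) - (E1 K (Sum.inl x) c1 + r0) := by abel
        rw [e1]
        exact Submodule.sub_mem _ hc' (Gn_Zv hr0)
      have hZ2 : c0 - r0 ∈ Zv K H (dl (Sum.inl x)) b k := Fr_Zv0 (Fr_sub _ _ _ f0 fr0) hZ
      have hG := PX hSO x b k hbfirst ⟨y, hH, hby⟩ IH0 (c0 - r0) hZ2
      have e2 : c = (c0 - r0) + (E1 K (Sum.inl x) c1 + r0) := by
        rw [hcc]
        abel
      rw [e2]
      exact Gn.add _ _ _ _ hG hr0

end Pool.Agent.H52.BE
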