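import Pool.Agent.H52.BE.JD

/-!
# Project BE: the multigraded components of a chain with polynomial coefficients

Chains: `Finset (V ⊕ V) → MvPolynomial (V ⊕ V) K`, differential `kd MvPolynomial.X`.
`comp a C τ` = coefficient of the monomial `a - ind τ` in `C τ` (zero if not `ind τ ≤ a`).

`comp_kd`: `(kd X C) τ = ∑_{v ∉ τ} ± X v * C (insert v τ)`; the coefficient of `X v * p` at
`a - ind τ` is the coefficient of `p` at `a - ind (insert v τ)` if `1 ≤ a v`, else `0`.
`comp_E`, `comp_X`: similarly.
`single a c` = the chain `∑_τ c τ z^(a - τ) e_τ`.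
-/

namespace Pool.Agent.H52.BE

open Finset

variable {V : Type*} [Fintype V] [DecidableEq V] {K : Type*} [Field K]

/-- chains with polynomial coefficients -/
abbrev PC (V : Type*) (K : Type*) [CommRing K] : Type _ :=
  Finset (V ⊕ V) → MvPolynomial (V ⊕ V) K

open scoped Classical in
/-- the multigraded component -/
noncomputable def comp (a : V ⊕ V → ℕ) (C : PC V K) : Finset (V ⊕ V) → K :=
  fun τ => if ind τ ≤ a then cf (a - ind τ) (C τ) else 0

open scoped Classical in
/-- the chain with the single component `c` in the degree `a` -/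
noncomputable def single (a : V ⊕ V → ℕ) (c : Finset (V ⊕ V) → K) : PC V K :=
  fun τ => if ind τ ≤ a then MvPolynomial.C (c τ) * mo K (a - ind τ) else 0

/-- the Koszul differential with polynomial coefficients -/
noncomputable def kX : PC V K →ₗ[MvPolynomial (V ⊕ V) K] PC V K :=
  kd (fun v => (MvPolynomial.X v : MvPolynomial (V ⊕ V) K))

/-- left multiplication by `e_v` on chains with polynomial coefficients -/
noncomputable abbrev EX (v : V ⊕ V) : PC V K →ₗ[MvPolynomial (V ⊕ V) K] PC V K :=
  E v

private theorem cf_add (b : V ⊕ V → ℕ) (p q : MvPolynomial (V ⊕ V) K) :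
    cf b (p + q) = cf b p + cf b q := by
  unfold cf
  exact MvPolynomial.coeff_add _ _ _

private theorem cf_sub (b : V ⊕ V → ℕ) (p q : MvPolynomial (V ⊕ V) K) :
    cf b (p - q) = cf b p - cf b q := by
  unfold cf
  exact MvPolynomial.coeff_sub _ _ _ _

private theorem cf_neg (b : V ⊕ V → ℕ) (p : MvPolynomial (V ⊕ V) K) :
    cf b (-p) = - cf b p := by
  unfold cf
  exact MvPolynomial.coeff_neg _ _ _

private theorem cf_zero (b : V ⊕ V → ℕ) : cf b (0 : MvPolynomial (V ⊕ V) K) = 0 := by
  unfold cf
  exact MvPolynomial.coeff_zero _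

private theorem cf_zsmul (b : V ⊕ V → ℕ) (n : ℤ) (p : MvPolynomial (V ⊕ V) K) :
    cf b (n • p) = n • cf b p := by
  unfold cf
  exact MvPolynomial.coeff_smul _ _ _

private theorem cf_Cmul (b : V ⊕ V → ℕ) (r : K) (p : MvPolynomial (V ⊕ V) K) :
    cf b (MvPolynomial.C r * p) = r * cf b p := by
  unfold cf
  exact MvPolynomial.coeff_C_mul _ _ _

private theorem cf_sum {ι : Type*} (s : Finset ι) (b : V ⊕ V → ℕ)
    (f : ι → MvPolynomial (V ⊕ V) K) : cf b (∑ i ∈ s, f i) = ∑ i ∈ s, cf b (f i) := by
  unfold cf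
  exact MvPolynomial.coeff_sum _ _ _

private theorem cf_mo (b b' : V ⊕ V → ℕ) : cf b (mo K b') = if b' = b then 1 else 0 := by
  unfold cf mo
  rw [MvPolynomial.coeff_monomial]
  by_cases h : b' = b
  · simp [h]
  · rw [if_neg h, if_neg]
    intro h'
    exact h (Finsupp.equivFunOnFinite.symm.injective h')

theorem cf_X_mul' (v : V ⊕ V) (b : V ⊕ V → ℕ) (p : MvPolynomial (V ⊕ V) K) :
    cf b (MvPolynomial.X v * p) = if 1 ≤ b v then cf (b - dl v) p else 0 := by
  unfold cf
  rw [MvPolynomial.coeff_X_mul']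
  have h1 : v ∈ (Finsupp.equivFunOnFinite.symm b).support ↔ 1 ≤ b v := by
    rw [Finsupp.mem_support_iff]
    simp only [Finsupp.equivFunOnFinite_symm_apply_apply]
    omega
  have h2 : (Finsupp.equivFunOnFinite.symm b) - Finsupp.single v 1
      = Finsupp.equivFunOnFinite.symm (b - dl v) := by
    ext w
    simp only [Finsupp.coe_tsub, Pi.sub_apply, Finsupp.equivFunOnFinite_symm_apply_apply, dl,
      Finsupp.single_apply]
    by_cases h : w = v
    · simp [h]
    · simp [h, Ne.symm h]
  by_cases h : 1 ≤ b v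
  · rw [if_pos (h1.2 h), if_pos h, h2]
  · rw [if_neg (fun h' => h (h1.1 h')), if_neg h]

theorem comp_add (a : V ⊕ V → ℕ) (C D : PC V K) : comp a (C + D) = comp a C + comp a D := by
  funext τ
  by_cases h : ind τ ≤ a
  · simp only [comp, if_pos h, Pi.add_apply, cf_add]
  · simp only [comp, if_neg h, Pi.add_apply, add_zero]

theorem comp_sub (a : V ⊕ V → ℕ) (C D : PC V K) : comp a (C - D) = comp a C - comp a D := by
  funext τ
  by_cases h : ind τ ≤ a
  · simp only [comp, if_pos h, Pi.sub_apply, cf_sub]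
  · simp only [comp, if_neg h, Pi.sub_apply, sub_zero]

theorem comp_neg (a : V ⊕ V → ℕ) (C : PC V K) : comp a (-C) = - comp a C := by
  funext τ
  by_cases h : ind τ ≤ a
  · simp only [comp, if_pos h, Pi.neg_apply, cf_neg]
  · simp only [comp, if_neg h, Pi.neg_apply, neg_zero]

theorem comp_zero (a : V ⊕ V → ℕ) : comp a (0 : PC V K) = 0 := by
  funext τ
  by_cases h : ind τ ≤ a
  · simp only [comp, if_pos h, Pi.zero_apply, cf_zero]
  · simp only [comp, if_neg h, Pi.zero_apply]

theorem comp_zsmul (a : V ⊕ V → ℕ) (n : ℤ) (C : PC V K) : comp a (n • C) = n • comp a C := by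
  funext τ
  by_cases h : ind τ ≤ a
  · simp only [comp, if_pos h, Pi.smul_apply, cf_zsmul]
  · simp only [comp, if_neg h, Pi.smul_apply, smul_zero]

theorem comp_Csmul (a : V ⊕ V → ℕ) (r : K) (C : PC V K) :
    comp a (MvPolynomial.C (σ := V ⊕ V) r • C) = r • comp a C := by
  funext τ
  by_cases h : ind τ ≤ a
  · simp only [comp, if_pos h, Pi.smul_apply, smul_eq_mul, cf_Cmul]
  · simp only [comp, if_neg h, Pi.smul_apply, smul_zero]

theorem comp_sum {ι : Type*} (s : Finset ι) (a : V ⊕ V → ℕ) (f : ι → PC V K) :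
    comp a (∑ i ∈ s, f i) = ∑ i ∈ s, comp a (f i) := by
  classical
  induction s using Finset.induction_on with
  | empty => simp only [Finset.sum_empty, comp_zero]
  | insert i s hi ih => rw [Finset.sum_insert hi, Finset.sum_insert hi, comp_add, ih]

private theorem ind_insert_le (a : V ⊕ V → ℕ) (τ : Finset (V ⊕ V)) (v : V ⊕ V) :
    ind (insert v τ) ≤ a ↔ ind τ ≤ a ∧ 1 ≤ a v := by
  constructor
  · intro h
    refine ⟨fun w => ?_, ?_⟩
    · have := h w
      simp only [ind, Finset.mem_insert] at this ⊢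
      by_cases hw : w ∈ τ
      · simpa [hw] using this
      · simp [hw]
    · have := h v
      simpa [ind] using this
  · rintro ⟨h1, h2⟩ w
    have := h1 w
    simp only [ind, Finset.mem_insert] at this ⊢
    by_cases hw : w = v
    · subst hw
      simpa using h2
    · simpa [hw] using this

private theorem sub_ind_insert (a : V ⊕ V → ℕ) (τ : Finset (V ⊕ V)) (v : V ⊕ V) (hv : v ∉ τ) :
    a - ind τ - dl v = a - ind (insert v τ) := by
  funext w
  simp only [Pi.sub_apply, ind, dl, Finset.mem_insert]
  by_cases hw : w = v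
  · subst hw
    simp [hv]
  · simp [hw]

theorem comp_kd (a : V ⊕ V → ℕ) (C : PC V K) : comp a (kX C) = dd K (comp a C) := by
  funext τ
  unfold kX dd
  rw [kd_apply]
  unfold comp
  rw [kd_apply]
  by_cases h : ind τ ≤ a
  · rw [if_pos h, cf_sum]
    refine Finset.sum_congr rfl (fun v _ => ?_)
    by_cases hv : v ∈ τ
    · rw [if_pos hv, if_pos hv, cf_zero]
    · rw [if_neg hv, if_neg hv, cf_zsmul, smul_eq_mul, cf_X_mul', one_smul]
      congr 1
      have h1 : (a - ind τ) v = a v := by simp [ind, hv]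
      rw [h1, sub_ind_insert a τ v hv]
      by_cases hav : 1 ≤ a v
      · rw [if_pos hav, if_pos ((ind_insert_le a τ v).2 ⟨h, hav⟩)]
      · rw [if_neg hav, if_neg (fun h' => hav ((ind_insert_le a τ v).1 h').2)]
  · rw [if_neg h]
    symm
    refine Finset.sum_eq_zero (fun v _ => ?_)
    by_cases hv : v ∈ τ
    · rw [if_pos hv]
    · rw [if_neg hv, if_neg (fun h' => h ((ind_insert_le a τ v).1 h').1), smul_zero, smul_zero]

theorem comp_E (a : V ⊕ V → ℕ) (v : V ⊕ V) (C : PC V K) :
    comp (a + dl v) (EX v C) = E1 K v (comp a C) := by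
  funext τ
  unfold comp EX E1
  rw [E_apply, E_apply]
  by_cases hv : v ∈ τ
  · rw [if_pos hv, if_pos hv, cf_zsmul]
    have h1 : ind τ ≤ a + dl v ↔ ind (τ.erase v) ≤ a := by
      constructor
      · intro h w
        have := h w
        simp only [ind, dl, Pi.add_apply, Finset.mem_erase] at this ⊢
        by_cases hw : w = v
        · simp [hw]
        · simpa [hw] using this
      · intro h w
        have := h w
        simp only [ind, dl, Pi.add_apply, Finset.mem_erase] at this ⊢
        by_cases hw : w = v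
        · subst hw
          simp [hv]
        · simpa [hw] using this
    have h2 : a + dl v - ind τ = a - ind (τ.erase v) := by
      funext w
      simp only [Pi.sub_apply, Pi.add_apply, ind, dl, Finset.mem_erase]
      by_cases hw : w = v
      · subst hw
        simp [hv]
      · simp [hw]
    by_cases h : ind (τ.erase v) ≤ a
    · rw [if_pos (h1.2 h), if_pos h, h2]
    · rw [if_neg (fun h' => h (h1.1 h')), if_neg h, smul_zero]
  · rw [if_neg hv, if_neg hv, cf_zero]
    split_ifs <;> rfl

theorem comp_E_zero (a : V ⊕ V → ℕ) (v : V ⊕ V) (h : a v = 0) (C : PC V K) :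
    comp a (EX v C) = 0 := by
  funext τ
  unfold comp EX
  rw [E_apply]
  by_cases hv : v ∈ τ
  · have h1 : ¬ ind τ ≤ a := by
      intro h'
      have := h' v
      simp [ind, hv, h] at this
    rw [if_neg h1]
    rfl
  · rw [if_neg hv, cf_zero]
    split_ifs <;> rfl

theorem comp_X (a : V ⊕ V → ℕ) (v : V ⊕ V) (C : PC V K) :
    comp (a + dl v) ((MvPolynomial.X v : MvPolynomial (V ⊕ V) K) • C) = comp a C := by
  funext τ
  unfold comp
  rw [Pi.smul_apply, smul_eq_mul, cf_X_mul']
  by_cases h : ind τ ≤ a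
  · have h1 : ind τ ≤ a + dl v := fun w => (h w).trans (Nat.le_add_right _ _)
    have h2 : 1 ≤ (a + dl v - ind τ) v := by
      have h4 : ind τ v ≤ a v := h v
      simp only [Pi.sub_apply, Pi.add_apply, dl, if_true]
      omega
    have h3 : a + dl v - ind τ - dl v = a - ind τ := by
      funext w
      have h4 : ind τ w ≤ a w := h w
      simp only [Pi.sub_apply, Pi.add_apply]
      omega
    rw [if_pos h1, if_pos h2, if_pos h, h3]
  · rw [if_neg h]
    by_cases h1 : ind τ ≤ a + dl v
    · have h2 : ¬ 1 ≤ (a + dl v - ind τ) v := by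
        intro h2
        apply h
        intro w
        have h4 : ind τ w ≤ a w + dl v w := h1 w
        by_cases hw : w = v
        · subst hw
          simp only [Pi.add_apply, Pi.sub_apply, dl, if_true] at h2
          show ind τ w ≤ a w
          omega
        · simpa [dl, hw] using h4
      rw [if_pos h1, if_neg h2]
    · rw [if_neg h1]

theorem comp_X_zero (a : V ⊕ V → ℕ) (v : V ⊕ V) (h : a v = 0) (C : PC V K) :
    comp a ((MvPolynomial.X v : MvPolynomial (V ⊕ V) K) • C) = 0 := by
  funext τ
  unfold comp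
  rw [Pi.smul_apply, smul_eq_mul, cf_X_mul']
  have h2 : ¬ 1 ≤ (a - ind τ) v := by
    simp only [Pi.sub_apply, h]
    omega
  rw [if_neg h2]
  split_ifs <;> rfl

/-- a chain is determined by its components: the coefficient of `C τ` at `b` is
`comp (b + ind τ) C τ` -/
theorem comp_ext (C : PC V K) (h : ∀ a, comp a C = 0) : C = 0 := by
  funext τ
  rw [Pi.zero_apply]
  apply MvPolynomial.ext
  intro m
  have h1 := congrFun (h (⇑m + ind τ)) τ
  have h2 : ind τ ≤ ⇑m + ind τ := fun w => Nat.le_add_left _ _
  have h3 : ⇑m + ind τ - ind τ = ⇑m := by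
    funext w
    simp
  unfold comp at h1
  rw [if_pos h2, h3] at h1
  unfold cf at h1
  have h4 : Finsupp.equivFunOnFinite.symm (⇑m) = m := by
    ext w
    simp
  rw [h4] at h1
  rw [h1]
  simp

/-- only finitely many components are nonzero -/
theorem comp_finite (C : PC V K) : {a | comp a C ≠ 0}.Finite := by
  classical
  refine Set.Finite.subset (Set.Finite.biUnion (Finset.univ : Finset (Finset (V ⊕ V))).finite_toSet
    (t := fun τ => (fun m : (V ⊕ V) →₀ ℕ => ⇑m + ind τ) '' ((C τ).support : Set ((V ⊕ V) →₀ ℕ)))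
    (fun τ _ => (Finset.finite_toSet _).image _)) ?_
  intro a ha
  have ha : comp a C ≠ 0 := ha
  obtain ⟨τ, hτ⟩ := Function.ne_iff.1 ha
  rw [Set.mem_iUnion₂]
  refine ⟨τ, by simp, ?_⟩
  unfold comp at hτ
  rw [Pi.zero_apply] at hτ
  by_cases h : ind τ ≤ a
  · rw [if_pos h] at hτ
    refine ⟨Finsupp.equivFunOnFinite.symm (a - ind τ), ?_, ?_⟩
    · rw [Finset.mem_coe, MvPolynomial.mem_support_iff]
      exact hτ
    · funext w
      have h4 : ind τ w ≤ a w := h w
      simp only [Finsupp.equivFunOnFinite_symm_apply_apply, Pi.add_apply, Pi.sub_apply]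
      omega
  · rw [if_neg h] at hτ
    exact absurd rfl hτ

theorem comp_support (a : V ⊕ V → ℕ) (C : PC V K) (τ : Finset (V ⊕ V)) (h : ¬ ind τ ≤ a) :
    comp a C τ = 0 := by
  unfold comp
  rw [if_neg h]

theorem comp_single (a : V ⊕ V → ℕ) (c : Finset (V ⊕ V) → K)
    (hc : ∀ τ, c τ ≠ 0 → ind τ ≤ a) : comp a (single a c) = c := by
  funext τ
  unfold comp single
  by_cases h : ind τ ≤ a
  · rw [if_pos h, if_pos h, cf_Cmul, cf_mo, if_pos rfl, mul_one]
  · rw [if_neg h]
    by_contra h'
    exact h (hc τ (Ne.symm h'))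

theorem comp_single_ne (a a' : V ⊕ V → ℕ) (h : a' ≠ a) (c : Finset (V ⊕ V) → K) :
    comp a' (single a c) = 0 := by
  funext τ
  unfold comp single
  rw [Pi.zero_apply]
  by_cases h1 : ind τ ≤ a'
  · rw [if_pos h1]
    by_cases h2 : ind τ ≤ a
    · rw [if_pos h2, cf_Cmul, cf_mo, if_neg, mul_zero]
      intro h3
      apply h
      funext w
      have h4 : a w - ind τ w = a' w - ind τ w := congrFun h3 w
      have h5 : ind τ w ≤ a' w := h1 w
      have h6 : ind τ w ≤ a w := h2 w
      omega
    · rw [if_neg h2, cf_zero]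
  · rw [if_neg h1]

/-- exactness of the Koszul complex of the polynomial ring.

Proof: `S` = the finite set of `a` with `comp a C ≠ 0`; for `a ∈ S`, `a ≠ 0` choose `v_a` with
`1 ≤ a v_a`; `D = ∑_{a ∈ S} single a (E v_a (comp a C))`; `dd (comp a C) = comp a (kX C) = 0`, so
`comp a (kX D) = dd (E v_a (comp a C)) = comp a C` (`dd_E`).  `comp 0 C = 0` by `h0`. -/
theorem exact_poly (C : PC V K) (h : kX C = 0) (h0 : cf 0 (C ∅) = 0) : ∃ D, kX D = C := by
  classical
  have hfin := comp_finite C
  have hdd : ∀ a, dd K (comp a C) = 0 := by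
    intro a
    rw [← comp_kd, h, comp_zero]
  have hc0 : comp 0 C = 0 := by
    funext τ
    unfold comp
    by_cases h1 : ind τ ≤ 0
    · have h2 : τ = ∅ := by
        apply Finset.eq_empty_of_forall_notMem
        intro w hw
        have := h1 w
        simp [ind, hw] at this
      subst h2
      rw [if_pos h1]
      have h3 : (0 : V ⊕ V → ℕ) - ind (∅ : Finset (V ⊕ V)) = 0 := by
        funext w
        simp
      rw [h3, h0]
      rfl
    · rw [if_neg h1]
      rfl
  have hv : ∀ a : V ⊕ V → ℕ, ∃ b : Finset (V ⊕ V) → K,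
      (∀ τ, b τ ≠ 0 → ind τ ≤ a) ∧ dd K b = comp a C := by
    intro a
    by_cases ha : a = 0
    · refine ⟨0, fun τ hτ => absurd rfl hτ, ?_⟩
      rw [ha, hc0, map_zero]
    · obtain ⟨v, hv⟩ := Function.ne_iff.1 ha
      refine ⟨E1 K v (comp a C), fun τ hτ => ?_, ?_⟩
      · unfold E1 at hτ
        rw [E_apply] at hτ
        by_cases hvτ : v ∈ τ
        · rw [if_pos hvτ] at hτ
          have h1 : comp a C (τ.erase v) ≠ 0 := by
            intro h1
            rw [h1, smul_zero] at hτ
            exact hτ rfl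
          have h2 : ind (τ.erase v) ≤ a := by
            by_contra h2
            exact h1 (comp_support a C _ h2)
          have h3 : ind (insert v (τ.erase v)) ≤ a := by
            rw [ind_insert_le]
            refine ⟨h2, ?_⟩
            have : a v ≠ 0 := hv
            omega
          rwa [Finset.insert_erase hvτ] at h3
        · rw [if_neg hvτ] at hτ
          exact absurd rfl hτ
      · rw [dd_E, hdd, map_zero, sub_zero]
  choose b hb1 hb2 using hv
  refine ⟨∑ a ∈ hfin.toFinset, single a (b a), ?_⟩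
  rw [← sub_eq_zero]
  apply comp_ext
  intro a
  rw [comp_sub, comp_kd, comp_sum]
  by_cases ha : a ∈ hfin.toFinset
  · rw [Finset.sum_eq_single_of_mem a ha, comp_single a (b a) (hb1 a), hb2, sub_self]
    intro a' _ ha'
    exact comp_single_ne a' a (Ne.symm ha') _
  · rw [Finset.sum_eq_zero, map_zero]
    · have h1 : comp a C = 0 := by
        by_contra h1
        exact ha (hfin.mem_toFinset.2 h1)
      rw [h1, sub_zero]
    · intro a' ha'
      apply comp_single_ne
      intro h1
      rw [h1] at ha
      exact ha ha'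

end Pool.Agent.H52.BE
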