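import Pool.Agent.H52.BE.Mat

/-!
# Project BE: corners from the strong ordering

`cor_inl`: `x` is the first left vertex of the support of `a` (it may be absent), `j` is its first
neighbour in the support.  Let `v' = inl i'`, `u' = inr j'` with `H i' j`, `H x j'` (all other
shapes of `v'`, `u'` are excluded by `adj`).  If `i' = x` or `j' = j` done.  Otherwise `x < i'`,
`j < j'`, and `SO` gives `H i' j'`.  `cor_inr`: symmetric.
`iso_or`: if `H i y` and `H x j'` for some `i`, `j'` in the support, then `x < i`, `y < j'` (as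
`¬ H x y`) and `SO x i y j'` gives `H x y`.
-/

namespace Pool.Agent.H52.BE

open Finset

variable {V : Type*} [LinearOrder V] {H : V → V → Prop}

theorem cor_inl (hSO : SO H) {a : V ⊕ V → ℕ} {x j : V} (hx : H x j)
    (h1 : ∀ i, 1 ≤ a (Sum.inl i) → x ≤ i)
    (h2 : ∀ j', 1 ≤ a (Sum.inr j') → H x j' → j ≤ j') :
    Cor H a (Sum.inl x) (Sum.inr j) := by
  intro v' u' hv' hu' h3 h4
  rcases v' with i' | i' <;> rcases u' with j' | j' <;> simp only [adj] at h3 h4 ⊢
  have hi := h1 i' hv'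
  have hj := h2 j' hu' h4
  rcases hi.eq_or_lt with hi | hi
  · subst hi; exact h4
  rcases hj.eq_or_lt with hj | hj
  · subst hj; exact h3
  exact (hSO x i' j j' hi hj h4 h3).2

theorem cor_inr (hSO : SO H) {a : V ⊕ V → ℕ} {i y : V} (hy : H i y)
    (h1 : ∀ j, 1 ≤ a (Sum.inr j) → y ≤ j)
    (h2 : ∀ i', 1 ≤ a (Sum.inl i') → H i' y → i ≤ i') :
    Cor H a (Sum.inr y) (Sum.inl i) := by
  intro v' u' hv' hu' h3 h4
  rcases v' with i' | j' <;> rcases u' with i'' | j'' <;> simp only [adj] at h3 h4 ⊢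
  have hj := h1 j' hv'
  have hi := h2 i'' hu' h4
  rcases hi.eq_or_lt with hi | hi
  · subst hi; exact h3
  rcases hj.eq_or_lt with hj | hj
  · subst hj; exact h4
  exact (hSO i i'' y j' hi hj h3 h4).2

theorem iso_or (hSO : SO H) {a : V ⊕ V → ℕ} {x y : V} (hxy : ¬ H x y)
    (h1 : ∀ i, 1 ≤ a (Sum.inl i) → x ≤ i) (h2 : ∀ j, 1 ≤ a (Sum.inr j) → y ≤ j) :
    (∀ u, 1 ≤ a u → ¬ adj H (Sum.inl x) u) ∨ (∀ u, 1 ≤ a u → ¬ adj H (Sum.inr y) u) := by
  by_contra hcon
  push Not at hcon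
  obtain ⟨⟨u, hu, hau⟩, ⟨w, hw, haw⟩⟩ := hcon
  rcases u with i | j' <;> simp only [adj] at hau
  rcases w with i | j <;> simp only [adj] at haw
  have h3 := h1 i hw
  have h4 := h2 j' hu
  rcases h3.eq_or_lt with h3 | h3
  · subst h3; exact hxy haw
  rcases h4.eq_or_lt with h4 | h4
  · subst h4; exact hxy hau
  exact hxy (hSO x i y j' h3 h4 hau haw).1

end Pool.Agent.H52.BE
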