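import Mathlib

/-!
# Project BE (MP_5e9b13_al): definitions

Koszul operators on functions `Finset σ → M`, matchings in a bipartite graph, level spaces.
-/

namespace Pool.Agent.H52.BE

open Finset

/-! ## Koszul operators -/

section Kos

variable {σ : Type*} [Fintype σ] [DecidableEq σ]

/-- the sign of `e_v ∧ e_τ` -/
noncomputable def sg (v : σ) (τ : Finset σ) : ℤ :=
  (-1) ^ (τ.filter (fun u => Fintype.equivFin σ u < Fintype.equivFin σ v)).card

variable {R M : Type*} [CommRing R] [AddCommGroup M] [Module R M]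

/-- left multiplication by `e_v` -/
noncomputable def E (v : σ) : (Finset σ → M) →ₗ[R] (Finset σ → M) where
  toFun c := fun τ => if v ∈ τ then sg v τ • c (τ.erase v) else 0
  map_add' c d := by
    funext τ
    by_cases h : v ∈ τ <;> simp [h]
  map_smul' r c := by
    funext τ
    by_cases h : v ∈ τ
    · simp only [h, if_true, if_false, Pi.smul_apply, RingHom.id_apply, smul_zero]
      try rw [smul_comm]
    · simp only [h, if_true, if_false, Pi.smul_apply, RingHom.id_apply, smul_zero]
      try rw [smul_comm]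

/-- contraction with the dual basis vector of `e_v` -/
noncomputable def I (v : σ) : (Finset σ → M) →ₗ[R] (Finset σ → M) where
  toFun c := fun τ => if v ∈ τ then 0 else sg v τ • c (insert v τ)
  map_add' c d := by
    funext τ
    by_cases h : v ∈ τ <;> simp [h]
  map_smul' r c := by
    funext τ
    by_cases h : v ∈ τ
    · simp only [h, if_true, if_false, Pi.smul_apply, RingHom.id_apply, smul_zero]
      try rw [smul_comm]
    · simp only [h, if_true, if_false, Pi.smul_apply, RingHom.id_apply, smul_zero]
      try rw [smul_comm]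

/-- the Koszul differential, `∂ e_v = z v` -/
noncomputable def kd (z : σ → R) : (Finset σ → M) →ₗ[R] (Finset σ → M) :=
  ∑ v, z v • (I v : (Finset σ → M) →ₗ[R] (Finset σ → M))

/-- left multiplication by `e_L` -/
noncomputable def EL : List σ → (Finset σ → M) →ₗ[R] (Finset σ → M)
  | [] => LinearMap.id
  | v :: L => (E v).comp (EL L)

/-- left multiplication by `∂ e_L` -/
noncomputable def DL (z : σ → R) : List σ → (Finset σ → M) →ₗ[R] (Finset σ → M)
  | [] => 0
  | v :: L => z v • EL L - (E v).comp (DL z L)

/-- `c` does not involve `e_v` -/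
def Fr (v : σ) (c : Finset σ → M) : Prop := ∀ τ, v ∈ τ → c τ = 0

end Kos

/-! ## Multidegrees -/

section Deg

variable {σ : Type*} [DecidableEq σ]

/-- the unit multidegree -/
def dl (v : σ) : σ → ℕ := fun w => if w = v then 1 else 0

/-- the indicator multidegree of a finite set -/
def ind (τ : Finset σ) : σ → ℕ := fun w => if w ∈ τ then 1 else 0

/-- the multidegree of a list -/
def cnt (L : List σ) : σ → ℕ := fun w => L.count w

end Deg

/-! ## The bipartite graph: `inl i ~ inr j` iff `H i j` -/

section Mat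

variable {V : Type*}

/-- adjacency in the bipartite graph -/
def adj (H : V → V → Prop) : V ⊕ V → V ⊕ V → Prop
  | Sum.inl i, Sum.inr j => H i j
  | Sum.inr j, Sum.inl i => H i j
  | _, _ => False

/-- strong ordering -/
def SO [LT V] (H : V → V → Prop) : Prop :=
  ∀ i i' j j' : V, i < i' → j < j' → H i j' → H i' j → H i j ∧ H i' j'

variable [DecidableEq V]

/-- the multidegree of a multiset of pairs -/
def dg (m : Multiset (V × V)) : V ⊕ V → ℕ
  | Sum.inl i => (m.map Prod.fst).count i
  | Sum.inr j => (m.map Prod.snd).count j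

/-- `a` contains `k` edges -/
def Mt (H : V → V → Prop) (k : ℕ) (a : V ⊕ V → ℕ) : Prop :=
  ∃ m : Multiset (V × V), m.card = k ∧ (∀ p ∈ m, H p.1 p.2) ∧ dg m ≤ a

/-- the pair `v, u` is a corner in the degree `a` -/
def Cor (H : V → V → Prop) (a : V ⊕ V → ℕ) (v u : V ⊕ V) : Prop :=
  ∀ v' u', 1 ≤ a v' → 1 ≤ a u' → adj H v' u → adj H v u' → adj H v' u'

end Mat

/-! ## Level spaces -/

section Lev

variable {K : Type*} [CommRing K]

/-- functions supported where `P` holds -/
def Ls {σ : Type*} (K : Type*) [CommRing K] (P : Finset σ → Prop) :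
    Submodule K (Finset σ → K) where
  carrier := {c | ∀ τ, c τ ≠ 0 → P τ}
  zero_mem' := by intro τ h; simp at h
  add_mem' := by
    intro a b ha hb τ h
    by_cases h1 : a τ = 0
    · exact hb τ (by intro h2; apply h; simp [h1, h2])
    · exact ha τ h1
  smul_mem' := by
    intro r a ha τ h
    exact ha τ (by intro h1; apply h; simp [h1])

variable {V : Type*} [Fintype V] [DecidableEq V]

/-- level space: chains of multidegree `b + e` using only the vertices of `b`, with `k` edges
left -/
def Lv (K : Type*) [CommRing K] (H : V → V → Prop) (e b : V ⊕ V → ℕ) (k : ℕ) :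
    Submodule K (Finset (V ⊕ V) → K) :=
  Ls K (fun τ => ind τ ≤ b ∧ Mt H k (b + e - ind τ))

/-- the differential with `∂ e_v = 1` -/
noncomputable def dd (K : Type*) [CommRing K] :
    (Finset (V ⊕ V) → K) →ₗ[K] (Finset (V ⊕ V) → K) :=
  kd (fun _ => (1 : K))

/-- relative cycles -/
noncomputable def Zv (K : Type*) [CommRing K] (H : V → V → Prop) (e b : V ⊕ V → ℕ) (k : ℕ) :
    Submodule K (Finset (V ⊕ V) → K) :=
  Lv K H e b k ⊓ (Lv K H e b (k + 1)).comap (dd K)

/-- `e_L` for `∂ e_v = 1` -/
noncomputable abbrev EE (K : Type*) [CommRing K] (L : List (V ⊕ V)) :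
    (Finset (V ⊕ V) → K) →ₗ[K] (Finset (V ⊕ V) → K) := EL L

/-- `∂ e_L` for `∂ e_v = 1` -/
noncomputable abbrev DD (K : Type*) [CommRing K] (L : List (V ⊕ V)) :
    (Finset (V ⊕ V) → K) →ₗ[K] (Finset (V ⊕ V) → K) := DL (fun _ => (1 : K)) L

end Lev

end Pool.Agent.H52.BE
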