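import Pool.Agent.H52.BE.Kos

/-!
# Project BE: depth and Koszul homology, part 1

`Van z M p`: the Koszul homology `H_p(z; M)` vanishes.
`D1`: a weakly regular sequence of length `r` in the ideal of `z` gives `H_p = 0` for `p > N - r`.
Induction on the list (generalising `M`): `rs = g :: rs'`, `M' = QuotSMulTop g M`
(`RingTheory.Sequence.isWeaklyRegular_cons_iff`).  Let `c` be a cycle of degree `p`,
`N < p + (r'+1)`.  `g = ∑ r_v z_v` (`Submodule.mem_span_range_iff_exists_fun` or similar), so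
`g • c = kd z d`, `d = ∑ r_v • E v c` (degree `p+1`).  The image of `d` in `M'` is a cycle, hence a boundary
(`N < (p+1) + r'`), so `d = kd z e + g • f`, and `g • c = kd z d = g • kd z f`, so `c = kd z f`.
`Van_quot` (used in part 2): if `g` is regular on `M`, `g` in the ideal of `z`, and
`Van z M p`, `Van z M (p-1)` (or `p = 0`), then `Van z (QuotSMulTop g M) p`: lift the cycle to `c`
(degree `p`), `kd z c = g • c'`, `g • kd z c' = 0`, so `c'` is a cycle of degree `p-1`, `c' = kd z d`,
`kd z (c - g • d) = 0`; only the degree `p` part of `d` matters.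
Functorial lemma: for a linear map `f : M → M'`, `kd z (f ∘ c) = f ∘ kd z c`, same for `E`.
-/

namespace Pool.Agent.H52.BE

open Finset
open scoped Pointwise

variable {σ : Type*} [Fintype σ] [DecidableEq σ]
variable {R : Type*} [CommRing R]

/-- vanishing of Koszul homology in degree `p` -/
def Van (z : σ → R) (M : Type*) [AddCommGroup M] [Module R M] (p : ℕ) : Prop :=
  ∀ c : Finset σ → M, (∀ τ, τ.card ≠ p → c τ = 0) → kd z c = 0 →
    ∃ d : Finset σ → M, kd z d = c

variable {M M' : Type*} [AddCommGroup M] [Module R M] [AddCommGroup M'] [Module R M']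

theorem kd_map (z : σ → R) (f : M →ₗ[R] M') (c : Finset σ → M) :
    kd z (fun τ => f (c τ)) = fun τ => f (kd z c τ) := by
  ext τ
  rw [kd_apply, kd_apply, map_sum]
  refine Finset.sum_congr rfl fun v _ => ?_
  split_ifs
  · rw [map_zero]
  · rw [map_zsmul, map_smul]

/-- the degree `p` part -/
noncomputable def prj (p : ℕ) (c : Finset σ → M) : Finset σ → M :=
  fun τ => if τ.card = p then c τ else 0

/-- `kd` lowers the degree by one -/
theorem kd_prj (z : σ → R) (p : ℕ) (c : Finset σ → M) :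
    kd z (prj (p + 1) c) = prj p (kd z c) := by
  ext τ
  rw [kd_apply, prj, kd_apply]
  by_cases h : τ.card = p
  · rw [if_pos h]
    refine Finset.sum_congr rfl fun v _ => ?_
    split_ifs with hv
    · rfl
    · rw [prj, if_pos]
      rw [Finset.card_insert_of_notMem hv, h]
  · rw [if_neg h]
    refine Finset.sum_eq_zero fun v _ => ?_
    split_ifs with hv
    · rfl
    · rw [prj, if_neg, smul_zero, smul_zero]
      rw [Finset.card_insert_of_notMem hv]
      omega

theorem kd_prj_zero (z : σ → R) (c : Finset σ → M) : kd z (prj 0 c) = 0 := by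
  ext τ
  rw [kd_apply]
  refine Finset.sum_eq_zero fun v _ => ?_
  split_ifs with hv
  · rfl
  · rw [prj, if_neg, smul_zero, smul_zero]
    rw [Finset.card_insert_of_notMem hv]
    omega

/-- elements of the ideal of `z` kill the homology -/
theorem kill (z : σ → R) (g : R) (hg : g ∈ Ideal.span (Set.range z)) (c : Finset σ → M)
    (hc : kd z c = 0) : ∃ d : Finset σ → M, kd z d = g • c := by
  obtain ⟨a, ha⟩ := Ideal.mem_span_range_iff_exists_fun.mp hg
  refine ⟨∑ v, a v • E (R := R) v c, ?_⟩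
  rw [map_sum, ← ha, Finset.sum_smul]
  refine Finset.sum_congr rfl fun v _ => ?_
  rw [map_smul, kd_E, hc, map_zero, sub_zero, smul_smul]

private theorem Dep1_deg (z : σ → R) (p : ℕ) (c d : Finset σ → M)
    (hc : ∀ τ, τ.card ≠ p → c τ = 0) (h : kd z d = c) :
    ∃ d' : Finset σ → M, (∀ τ, τ.card ≠ p + 1 → d' τ = 0) ∧ kd z d' = c := by
  refine ⟨prj (p + 1) d, fun τ hτ => by rw [prj, if_neg hτ], ?_⟩
  rw [kd_prj, h]
  ext τ
  rw [prj]
  split_ifs with h1
  · rfl
  · exact (hc τ h1).symm

private theorem Dep1_lift {N : Submodule R M} (p : ℕ) (c : Finset σ → M ⧸ N)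
    (hc : ∀ τ, τ.card ≠ p → c τ = 0) :
    ∃ b : Finset σ → M, (∀ τ, τ.card ≠ p → b τ = 0) ∧ ∀ τ, N.mkQ (b τ) = c τ := by
  choose b hb using fun τ => N.mkQ_surjective (c τ)
  refine ⟨fun τ => if τ.card = p then b τ else 0, fun τ h => if_neg h, fun τ => ?_⟩
  by_cases h : τ.card = p
  · simp only [if_pos h]
    exact hb τ
  · simp only [if_neg h]
    rw [map_zero, hc τ h]

private theorem Dep1_div {g : R} (p : ℕ) (c : Finset σ → M)
    (hc : ∀ τ, τ.card ≠ p → c τ = 0)
    (h : ∀ τ, (g • (⊤ : Submodule R M)).mkQ (c τ) = 0) :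
    ∃ f : Finset σ → M, (∀ τ, τ.card ≠ p → f τ = 0) ∧ c = g • f := by
  have h1 : ∀ τ, ∃ y : M, g • y = c τ := by
    intro τ
    have := h τ
    rw [Submodule.mkQ_apply, Submodule.Quotient.mk_eq_zero,
      Submodule.mem_smul_pointwise_iff_exists] at this
    obtain ⟨y, _, hy⟩ := this
    exact ⟨y, hy⟩
  choose f hf using h1
  refine ⟨fun τ => if τ.card = p then f τ else 0, fun τ h => if_neg h, ?_⟩
  ext τ
  rw [Pi.smul_apply]
  by_cases h : τ.card = p
  · simp only [if_pos h]
    exact (hf τ).symm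
  · simp only [if_neg h]
    rw [smul_zero, hc τ h]

private theorem Dep1_up (z : σ → R) (g : R) (hg : g ∈ Ideal.span (Set.range z))
    (hreg : IsSMulRegular M g) (p : ℕ) (h : Van z (QuotSMulTop g M) (p + 1)) : Van z M p := by
  intro c hc h0
  obtain ⟨b0, hb0⟩ := kill z g hg c h0
  obtain ⟨b, hb, hbc⟩ := Dep1_deg z p (g • c) b0 (fun τ hτ => by
    rw [Pi.smul_apply, hc τ hτ, smul_zero]) hb0
  set N : Submodule R M := g • (⊤ : Submodule R M) with hN
  have h1 : kd z (fun τ => N.mkQ (b τ)) = 0 := by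
    rw [kd_map, hbc]
    ext τ
    simp only [Pi.smul_apply, Pi.zero_apply]
    rw [Submodule.mkQ_apply, Submodule.Quotient.mk_eq_zero]
    exact Submodule.smul_mem_pointwise_smul _ _ _ trivial
  have hdeg : ∀ τ, τ.card ≠ p + 1 → (fun τ => N.mkQ (b τ)) τ = 0 := fun τ hτ => by
    change N.mkQ (b τ) = 0
    rw [hb τ hτ, map_zero]
  obtain ⟨w0, hw0⟩ := h (fun τ => N.mkQ (b τ)) hdeg h1
  obtain ⟨w', hw', hww⟩ := Dep1_deg z (p + 1) _ w0 hdeg hw0
  obtain ⟨w, hw, hwl⟩ := Dep1_lift (N := N) (p + 1 + 1) w' hw'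
  have hkw : ∀ τ, τ.card ≠ p + 1 → (kd z w) τ = 0 := by
    intro τ hτ
    have : w = prj (p + 1 + 1) w := by
      ext ρ
      rw [prj]
      split_ifs with h5
      · rfl
      · exact hw ρ h5
    rw [this, kd_prj, prj, if_neg hτ]
  have h2 : ∀ τ, N.mkQ ((b - kd z w) τ) = 0 := by
    intro τ
    rw [Pi.sub_apply, map_sub]
    have := congrFun (kd_map z N.mkQ w) τ
    rw [← this]
    have h3 : (fun τ => N.mkQ (w τ)) = w' := funext hwl
    rw [h3, hww, sub_self]
  obtain ⟨f, hf, hbf⟩ := Dep1_div (p + 1) (b - kd z w) (fun τ hτ => by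
    rw [Pi.sub_apply, hb τ hτ, hkw τ hτ, sub_zero]) h2
  refine ⟨f, ?_⟩
  have h4 : g • kd z f = g • c := by
    rw [← map_smul, ← hbf, map_sub, kd_kd, sub_zero, hbc]
  ext τ
  exact hreg (congrFun h4 τ)

theorem D1 (z : σ → R) : ∀ (rs : List R) (M : Type*) [AddCommGroup M] [Module R M],
    (∀ r ∈ rs, r ∈ Ideal.span (Set.range z)) → RingTheory.Sequence.IsWeaklyRegular M rs →
    ∀ p, Fintype.card σ < p + rs.length → Van z M p := by
  intro rs
  induction rs with
  | nil =>
    intro M _ _ _ _ p hp c hc _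
    refine ⟨0, ?_⟩
    rw [map_zero]
    ext τ
    have : τ.card ≠ p := by
      have := Finset.card_le_univ τ
      simp only [List.length_nil] at hp
      omega
    rw [hc τ this]
    rfl
  | cons r rs ih =>
    intro M _ _ hrs hreg p hp
    rw [RingTheory.Sequence.isWeaklyRegular_cons_iff] at hreg
    refine Dep1_up z r (hrs r (by simp)) hreg.1 p
      (ih (QuotSMulTop r M) (fun s hs => hrs s (by simp [hs])) hreg.2 (p + 1) ?_)
    simp only [List.length_cons] at hp
    omega

theorem Van_quot (z : σ → R) (g : R) (hg : g ∈ Ideal.span (Set.range z))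
    (hr : IsSMulRegular M g) (p : ℕ) (h : Van z M p) (h' : ∀ q, q + 1 = p → Van z M q) :
    Van z (QuotSMulTop g M) p := by
  intro c' hc' hz
  set N : Submodule R M := g • (⊤ : Submodule R M) with hN
  obtain ⟨c, hc, hcl⟩ := Dep1_lift (N := N) p c' hc'
  have h2 : ∀ τ, N.mkQ ((kd z c) τ) = 0 := by
    intro τ
    have := congrFun (kd_map z N.mkQ c) τ
    rw [← this]
    have h3 : (fun τ => N.mkQ (c τ)) = c' := funext hcl
    rw [h3, hz]
    rfl
  have key : ∃ f : Finset σ → M, kd z (c - g • f) = 0 ∧ ∀ τ, τ.card ≠ p → f τ = 0 := by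
    cases p with
    | zero =>
      refine ⟨0, ?_, fun _ _ => rfl⟩
      rw [smul_zero, sub_zero]
      have : c = prj 0 c := by
        ext ρ
        rw [prj]
        split_ifs with h5
        · rfl
        · exact hc ρ h5
      rw [this, kd_prj_zero]
    | succ q =>
      have hkc : ∀ τ, τ.card ≠ q → (kd z c) τ = 0 := by
        intro τ hτ
        have : c = prj (q + 1) c := by
          ext ρ
          rw [prj]
          split_ifs with h5
          · rfl
          · exact hc ρ h5
        rw [this, kd_prj, prj, if_neg hτ]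
      obtain ⟨b, hb, hbc⟩ := Dep1_div q (kd z c) hkc h2
      have h3 : kd z b = 0 := by
        have h6 : g • kd z b = 0 := by rw [← map_smul, ← hbc, kd_kd]
        ext τ
        refine hr ?_
        have := congrFun h6 τ
        simpa using this
      obtain ⟨f0, hf0⟩ := h' q rfl b hb h3
      obtain ⟨f, hf, hfb⟩ := Dep1_deg z q b f0 hb hf0
      refine ⟨f, ?_, hf⟩
      rw [map_sub, map_smul, hfb, hbc, sub_self]
  obtain ⟨f, hf, hfd⟩ := key
  obtain ⟨w, hw⟩ := h (c - g • f) (fun τ hτ => by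
    rw [Pi.sub_apply, Pi.smul_apply, hc τ hτ, hfd τ hτ, smul_zero, sub_zero]) hf
  refine ⟨fun τ => N.mkQ (w τ), ?_⟩
  rw [kd_map, hw]
  ext τ
  rw [Pi.sub_apply, map_sub, hcl]
  have : N.mkQ ((g • f) τ) = 0 := by
    rw [Pi.smul_apply, Submodule.mkQ_apply, Submodule.Quotient.mk_eq_zero]
    exact Submodule.smul_mem_pointwise_smul _ _ _ trivial
  rw [this, sub_zero]

end Pool.Agent.H52.BE
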