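import Pool.Agent.H52.BE.Dep1

/-!
# Project BE: depth and Koszul homology, part 2

`D2`: `R` noetherian, `M` finite, `H_p(z; M) = 0` for `p > N - r`: there is a weakly regular sequence of
length `r` in the ideal `I` of `z`.  Induction on `r` (generalising `M`).  `r + 1`: `Van z M N`
(`N = card σ`).  `Hom(R/I, M) = 0`: for `φ : R ⧸ I →ₗ[R] M` and `m = φ 1` we have `z v • m = 0` for all
`v`; the chain `c τ = if τ = univ then m else 0` is a cycle, so `c = kd z d`, but
`(kd z d) univ = 0`; so `m = 0`.  `IsSMulRegular.subsingleton_linearMap_iff` (with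
`Ideal.annihilator_quotient`) gives `g ∈ I` regular on `M`.  `Van_quot` and the induction hypothesis for
`QuotSMulTop g M`; `isWeaklyRegular_cons_iff`.

`dep R M I` = supremum of the lengths of the `M`-regular sequences in `I`.
`dep_le`: transfer.  Let `rs` be an `M`-regular sequence in `I = (z)`, `r = length`.  `D1` gives
`Van z M p` for `N < p + r`, hence `Van z M' p`, and `D2` gives a weakly regular sequence on `M'` of length
`r` in `I`.  It is regular because `rs • ⊤ ≤ I • ⊤ ≠ ⊤`.
-/

namespace Pool.Agent.H52.BE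

open Finset

variable {σ : Type*} [Fintype σ] [DecidableEq σ]
variable {R : Type*} [CommRing R]

theorem Dep2_top {M : Type*} [AddCommGroup M] [Module R M] (z : σ → R)
    (h : Van z M (Fintype.card σ)) (m : M) (hm : ∀ v, z v • m = 0) : m = 0 := by
  classical
  obtain ⟨d, hd⟩ := h (fun τ => if τ = (univ : Finset σ) then m else 0) (by
    intro τ hτ
    rw [if_neg]
    intro h1
    apply hτ
    rw [h1, card_univ]) (by
    funext τ
    rw [kd_apply]
    apply Finset.sum_eq_zero
    intro v _
    by_cases hv : v ∈ τ
    · rw [if_pos hv]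
    · rw [if_neg hv]
      by_cases h2 : insert v τ = univ
      · rw [if_pos h2, hm v, smul_zero]
      · rw [if_neg h2, smul_zero, smul_zero])
  have h1 := congrFun hd (univ : Finset σ)
  rw [kd_apply] at h1
  simp only [mem_univ, if_true, Finset.sum_const_zero] at h1
  exact h1.symm

theorem D2 [IsNoetherianRing R] (z : σ → R) : ∀ (r : ℕ) (M : Type*) [AddCommGroup M]
    [Module R M] [Module.Finite R M], (∀ p, Fintype.card σ < p + r → Van z M p) →
    ∃ rs : List R, rs.length = r ∧ (∀ s ∈ rs, s ∈ Ideal.span (Set.range z)) ∧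
      RingTheory.Sequence.IsWeaklyRegular M rs := by
  intro r
  induction r with
  | zero =>
    intro M _ _ _ _
    exact ⟨[], rfl, by simp, RingTheory.Sequence.IsWeaklyRegular.nil R M⟩
  | succ r ih =>
    intro M _ _ _ hV
    have hN : Van z M (Fintype.card σ) := hV _ (by omega)
    have hsub : Subsingleton ((R ⧸ Ideal.span (Set.range z)) →ₗ[R] M) := by
      refine ⟨fun φ ψ => ?_⟩
      have key : ∀ φ : (R ⧸ Ideal.span (Set.range z)) →ₗ[R] M, φ = 0 := by
        intro φ
        have h1 : φ (Ideal.Quotient.mk _ 1) = 0 := by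
          apply Dep2_top z hN
          intro v
          rw [← map_smul]
          have h2 : z v • (Ideal.Quotient.mk (Ideal.span (Set.range z)) (1 : R)) = 0 := by
            rw [← Ideal.Quotient.mk_eq_mk, ← Submodule.Quotient.mk_smul, smul_eq_mul, mul_one,
              Submodule.Quotient.mk_eq_zero]
            exact Ideal.subset_span ⟨v, rfl⟩
          rw [h2, map_zero]
        apply LinearMap.ext
        intro x
        obtain ⟨y, rfl⟩ := Ideal.Quotient.mk_surjective x
        have h3 : Ideal.Quotient.mk (Ideal.span (Set.range z)) y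
            = y • (Ideal.Quotient.mk (Ideal.span (Set.range z)) (1 : R)) := by
          rw [← Ideal.Quotient.mk_eq_mk, ← Ideal.Quotient.mk_eq_mk, ← Submodule.Quotient.mk_smul,
            smul_eq_mul, mul_one]
        rw [h3, map_smul, h1, smul_zero, LinearMap.zero_apply]
      rw [key φ, key ψ]
    rw [IsSMulRegular.subsingleton_linearMap_iff, Ideal.annihilator_quotient] at hsub
    obtain ⟨g, hg, hreg⟩ := hsub
    obtain ⟨rs, h1, h2, h3⟩ := ih (QuotSMulTop g M) (by
      intro p hp
      apply Van_quot z g hg hreg p (hV p (by omega))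
      intro q hq
      exact hV q (by omega))
    refine ⟨g :: rs, by rw [List.length_cons, h1], ?_, ?_⟩
    · intro s hs
      rcases List.mem_cons.mp hs with rfl | hs
      · exact hg
      · exact h2 s hs
    · rw [RingTheory.Sequence.isWeaklyRegular_cons_iff]
      exact ⟨hreg, h3⟩

/-- the depth of `M` with respect to the ideal `I` -/
noncomputable def dep (R : Type*) [CommRing R] (M : Type*) [AddCommGroup M] [Module R M]
    (I : Ideal R) : ℕ∞ :=
  ⨆ rs : {rs : List R // (∀ r ∈ rs, r ∈ I) ∧ RingTheory.Sequence.IsRegular M rs},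
    (rs.1.length : ℕ∞)

theorem dep_le [IsNoetherianRing R] (z : σ → R) (M M' : Type*) [AddCommGroup M] [Module R M]
    [AddCommGroup M'] [Module R M'] [Module.Finite R M']
    (h : ∀ r : ℕ, (∀ p, Fintype.card σ < p + r → Van z M p) →
      (∀ p, Fintype.card σ < p + r → Van z M' p))
    (hM : (Ideal.span (Set.range z)) • (⊤ : Submodule R M') ≠ ⊤) :
    dep R M (Ideal.span (Set.range z)) ≤ dep R M' (Ideal.span (Set.range z)) := by
  refine iSup_le ?_
  rintro ⟨rs, hrs, hreg⟩
  have h1 := D1 z rs M hrs hreg.toIsWeaklyRegular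
  obtain ⟨rs', h2, h3, h4⟩ := D2 z rs.length M' (h rs.length h1)
  have h5 : RingTheory.Sequence.IsRegular M' rs' := by
    refine ⟨h4, ?_⟩
    intro htop
    apply hM
    rw [eq_top_iff]
    calc (⊤ : Submodule R M') = Ideal.ofList rs' • ⊤ := htop
      _ ≤ Ideal.span (Set.range z) • ⊤ := by
        apply Submodule.smul_mono_left
        rw [Ideal.ofList, Ideal.span_le]
        intro s hs
        exact h3 s hs
  have h6 := le_iSup (fun rs : {rs : List R // (∀ r ∈ rs, r ∈ Ideal.span (Set.range z)) ∧
    RingTheory.Sequence.IsRegular M' rs} => (rs.1.length : ℕ∞)) ⟨rs', h3, h5⟩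
  simp only [h2] at h6
  exact h6

end Pool.Agent.H52.BE
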