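import Pool.Agent.H52.BE.Comp

/-!
# Project BE: the lifting operators

`GE C m` = coefficient of `s^m` in left multiplication by `∏_{c ∈ C} (e_{y_c} + s e_{x_c})`,
`GD C m` = coefficient of `s^m` in `∑_c ± x_c ∏_{c' ≠ c} (e_{y_c'} + s e_{x_c'})`
(`m : ℤ`, zero for negative `m`).  `x = inl`, `y = inr`.

ALGEBRA.  `GB C m G = kX (GE C m G) - (-1)^|C| • GE C m (kX G)`,
`GF C m G = kX (GD C m G) + (-1)^|C| • GD C m (kX G)`.  With `kX (E v G) = X v • G - E v (kX G)`:
  `GB (c::C) m = y_c GE C m + x_c GE C (m-1) - E y_c (GB C m) - E x_c (GB C (m-1))`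
  `GF (c::C) m = [x_c GB C m - y_c GD C m - x_c GD C (m-1)] + E y_c (GF C m) + E x_c (GF C (m-1))`
and `GQ c C m = x_c GB C m - y_c GD C m - x_c GD C (m-1)` satisfies `GQ c [] m = 0` and
  `GQ c (d::C) m = fp c d • GE C m - E y_d (GQ c C m) - E x_d (GQ c C (m-1))`
(`x_c y_d - y_c x_d = fp c d`, the terms `x_c x_d GE C (m-1)` cancel).
Hence: if `c` is adjacent to all elements of `C` and `G` has coefficients in `J^k` then `GQ c C m G` has
coefficients in `J^(k+1)`; if `C` is pairwise adjacent then `GF C m G` has coefficients in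
`J^(k+1)`.  (Inductions on the list for all `m`.)
-/

namespace Pool.Agent.H52.BE

open Finset

variable {V : Type*} [Fintype V] [DecidableEq V] {K : Type*} [Field K]

/-- the coefficient of `s^m` in `∏ (e_{y_c} + s e_{x_c})` -/
noncomputable def GE (K : Type*) [Field K] :
    List V → ℤ → (PC V K →ₗ[MvPolynomial (V ⊕ V) K] PC V K)
  | [], m => if m = 0 then LinearMap.id else 0
  | c :: C, m => (EX (Sum.inr c)).comp (GE K C m) + (EX (Sum.inl c)).comp (GE K C (m - 1))

/-- the coefficient of `s^m` in `∑ ± x_c ∏ (e_{y_c'} + s e_{x_c'})` -/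
noncomputable def GD (K : Type*) [Field K] :
    List V → ℤ → (PC V K →ₗ[MvPolynomial (V ⊕ V) K] PC V K)
  | [], _ => 0
  | c :: C, m => (MvPolynomial.X (Sum.inl c) : MvPolynomial (V ⊕ V) K) • GE K C m
      - (EX (Sum.inr c)).comp (GD K C m) - (EX (Sum.inl c)).comp (GD K C (m - 1))

/-- coefficients in `J^k` -/
def InJ (K : Type*) [Field K] (G : SimpleGraph V) (k : ℕ) :
    Submodule (MvPolynomial (V ⊕ V) K) (PC V K) where
  carrier := {C | ∀ τ, C τ ∈ (JG K G) ^ k}
  zero_mem' := fun τ => Ideal.zero_mem _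
  add_mem' := fun {C D} hC hD τ => Ideal.add_mem _ (hC τ) (hD τ)
  smul_mem' := fun r C hC τ => Ideal.mul_mem_left _ r (hC τ)

variable {G : SimpleGraph V}

theorem mem_InJ {k : ℕ} {C : PC V K} : C ∈ InJ K G k ↔ ∀ τ, C τ ∈ (JG K G) ^ k := Iff.rfl

theorem InJ_succ (k : ℕ) : InJ K G (k + 1) ≤ InJ K G k :=
  fun _ hC τ => Ideal.pow_le_pow_right (Nat.le_succ k) (hC τ)

theorem InJ_fp {k : ℕ} {C : PC V K} (i j : V) (h : G.Adj i j) (hC : C ∈ InJ K G k) :
    fp K i j • C ∈ InJ K G (k + 1) := by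
  intro τ
  have h1 : fp K i j ∈ JG K G := Ideal.subset_span ⟨i, j, h, rfl⟩
  have h2 := Ideal.mul_mem_mul h1 (hC τ)
  rw [← pow_succ'] at h2
  exact h2

theorem InJ_E {k : ℕ} {C : PC V K} (v : V ⊕ V) (hC : C ∈ InJ K G k) : EX v C ∈ InJ K G k := by
  intro τ
  rw [E_apply]
  split_ifs with h
  · exact zsmul_mem (hC _) _
  · exact Ideal.zero_mem _

theorem InJ_kX {k : ℕ} {C : PC V K} (hC : C ∈ InJ K G k) : kX C ∈ InJ K G k := by
  intro τ
  unfold kX
  rw [kd_apply]
  refine Ideal.sum_mem _ (fun v _ => ?_)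
  split_ifs with h
  · exact Ideal.zero_mem _
  · exact zsmul_mem (Ideal.mul_mem_left _ _ (hC _)) _

theorem InJ_zsmul {k : ℕ} {C : PC V K} (n : ℤ) (hC : C ∈ InJ K G k) : n • C ∈ InJ K G k :=
  zsmul_mem hC n

private theorem GE_cons (c : V) (L : List V) (m : ℤ) (C : PC V K) :
    GE K (c :: L) m C = EX (Sum.inr c) (GE K L m C) + EX (Sum.inl c) (GE K L (m - 1) C) := rfl

private theorem GD_cons (c : V) (L : List V) (m : ℤ) (C : PC V K) :
    GD K (c :: L) m C = (MvPolynomial.X (Sum.inl c) : MvPolynomial (V ⊕ V) K) • GE K L m C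
      - EX (Sum.inr c) (GD K L m C) - EX (Sum.inl c) (GD K L (m - 1) C) := rfl

private theorem kX_E (v : V ⊕ V) (C : PC V K) :
    kX (EX v C) = (MvPolynomial.X v : MvPolynomial (V ⊕ V) K) • C - EX v (kX C) :=
  kd_E _ v C

theorem InJ_GE {k : ℕ} {C : PC V K} (L : List V) (m : ℤ) (hC : C ∈ InJ K G k) :
    GE K L m C ∈ InJ K G k := by
  induction L generalizing m with
  | nil =>
    unfold GE
    split_ifs with h
    · exact hC
    · exact Submodule.zero_mem _
  | cons c L ih =>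
    rw [GE_cons]
    exact Submodule.add_mem _ (InJ_E _ (ih _)) (InJ_E _ (ih _))

theorem InJ_GD {k : ℕ} {C : PC V K} (L : List V) (m : ℤ) (hC : C ∈ InJ K G k) :
    GD K L m C ∈ InJ K G k := by
  induction L generalizing m with
  | nil =>
    unfold GD
    exact Submodule.zero_mem _
  | cons c L ih =>
    rw [GD_cons]
    exact Submodule.sub_mem _ (Submodule.sub_mem _ (Submodule.smul_mem _ _ (InJ_GE _ _ hC))
      (InJ_E _ (ih _))) (InJ_E _ (ih _))

/-- the graded commutator of `kX` and `GD L m` -/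
noncomputable def GF (K : Type*) [Field K] (L : List V) (m : ℤ) (C : PC V K) : PC V K :=
  kX (GD K L m C) + ((-1 : ℤ) ^ L.length) • GD K L m (kX C)

/-- the graded commutator of `kX` and `GE L m` -/
private noncomputable def GB (K : Type*) [Field K] (L : List V) (m : ℤ) (C : PC V K) : PC V K :=
  kX (GE K L m C) - ((-1 : ℤ) ^ L.length) • GE K L m (kX C)

private theorem GB_nil (m : ℤ) (C : PC V K) : GB K [] m C = 0 := by
  unfold GB GE
  split_ifs with h
  · simp
  · simp

private theorem GB_cons (c : V) (L : List V) (m : ℤ) (C : PC V K) :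
    GB K (c :: L) m C = (MvPolynomial.X (Sum.inr c) : MvPolynomial (V ⊕ V) K) • GE K L m C
      + (MvPolynomial.X (Sum.inl c) : MvPolynomial (V ⊕ V) K) • GE K L (m - 1) C
      - EX (Sum.inr c) (GB K L m C) - EX (Sum.inl c) (GB K L (m - 1) C) := by
  unfold GB
  simp only [GE_cons, map_add, kX_E, map_sub, map_zsmul, List.length_cons, pow_succ, smul_add]
  simp only [mul_neg, mul_one, neg_smul]
  abel

private theorem GF_nil (m : ℤ) (C : PC V K) : GF K [] m C = 0 := by
  unfold GF GD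
  simp

private noncomputable def GQ (K : Type*) [Field K] (c : V) (L : List V) (m : ℤ) (C : PC V K) :
    PC V K :=
  (MvPolynomial.X (Sum.inl c) : MvPolynomial (V ⊕ V) K) • GB K L m C
    - (MvPolynomial.X (Sum.inr c) : MvPolynomial (V ⊕ V) K) • GD K L m C
    - (MvPolynomial.X (Sum.inl c) : MvPolynomial (V ⊕ V) K) • GD K L (m - 1) C

private theorem GF_cons (c : V) (L : List V) (m : ℤ) (C : PC V K) :
    GF K (c :: L) m C = GQ K c L m C + EX (Sum.inr c) (GF K L m C)
      + EX (Sum.inl c) (GF K L (m - 1) C) := by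
  unfold GF GQ GB
  simp only [GD_cons, map_add, kX_E, map_sub, map_zsmul, map_smul, List.length_cons, pow_succ,
    smul_add, smul_sub]
  simp only [mul_neg, mul_one, neg_smul, smul_comm ((-1 : ℤ) ^ L.length)
    (MvPolynomial.X (Sum.inl c) : MvPolynomial (V ⊕ V) K)]
  abel

private theorem GQ_nil (c : V) (m : ℤ) (C : PC V K) : GQ K c [] m C = 0 := by
  unfold GQ
  rw [GB_nil]
  unfold GD
  simp

private theorem GQ_cons (c d : V) (L : List V) (m : ℤ) (C : PC V K) :
    GQ K c (d :: L) m C = fp K c d • GE K L m C - EX (Sum.inr d) (GQ K c L m C)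
      - EX (Sum.inl d) (GQ K c L (m - 1) C) := by
  unfold GQ
  rw [GB_cons, GD_cons, GD_cons]
  have h1 : fp K c d • GE K L m C =
      (MvPolynomial.X (Sum.inl c) : MvPolynomial (V ⊕ V) K) •
        (MvPolynomial.X (Sum.inr d) : MvPolynomial (V ⊕ V) K) • GE K L m C
      - (MvPolynomial.X (Sum.inr c) : MvPolynomial (V ⊕ V) K) •
        (MvPolynomial.X (Sum.inl d) : MvPolynomial (V ⊕ V) K) • GE K L m C := by
    unfold fp
    rw [sub_smul, mul_smul, mul_comm (MvPolynomial.X (Sum.inl d)), mul_smul]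
  rw [h1]
  simp only [map_sub, map_smul, smul_sub, smul_add]
  abel

private theorem GQ_InJ {k : ℕ} {C : PC V K} (c : V) (L : List V) (hL : ∀ d ∈ L, G.Adj c d)
    (m : ℤ) (hC : C ∈ InJ K G k) : GQ K c L m C ∈ InJ K G (k + 1) := by
  induction L generalizing m with
  | nil =>
    rw [GQ_nil]
    exact Submodule.zero_mem _
  | cons d L ih =>
    rw [GQ_cons]
    have h1 := ih (fun e he => hL e (List.mem_cons_of_mem _ he))
    exact Submodule.sub_mem _ (Submodule.sub_mem _
      (InJ_fp c d (hL d List.mem_cons_self) (InJ_GE _ _ hC)) (InJ_E _ (h1 _))) (InJ_E _ (h1 _))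

theorem GF_InJ {k : ℕ} {C : PC V K} (L : List V) (hL : L.Pairwise G.Adj) (m : ℤ)
    (hC : C ∈ InJ K G k) : GF K L m C ∈ InJ K G (k + 1) := by
  induction L generalizing m with
  | nil =>
    rw [GF_nil]
    exact Submodule.zero_mem _
  | cons c L ih =>
    rw [GF_cons]
    rw [List.pairwise_cons] at hL
    exact Submodule.add_mem _ (Submodule.add_mem _ (GQ_InJ c L hL.1 m hC)
      (InJ_E _ (ih hL.2 _))) (InJ_E _ (ih hL.2 _))

end Pool.Agent.H52.BE
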