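import Pool.Agent.H52.BE.PL
import Pool.Agent.H52.BE.Cor

/-!
# Project BE: Lemma K

Notation: `Ch b k = Lv K H 0 b k`, `Ct_v b k = Lv K H (dl v) b k`, `Z`, `Zt_v` the relative cycles.
`HypK x b k c` : `c ∈ Z b k` and `c = dd ω + μ`, `ω ∈ Ct_x b k`, `μ ∈ Ct_x b (k+1)`
(`x` a left vertex which is smaller than all left vertices of the support of `b`).
`KS x b k` : the span of the boundaries of `Ch b k`, of `Ch b (k+1)`, and of
`DD A (EE B g)`, `g ∈ Z b' k`, and `DD A (DD B g)`, `g ∈ Z b' j`, `k = j+1`, where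
`b = b' + A + B`, `A`, `B` nonempty increasing lists of left/right vertices, `A × B ⊆ H`,
`B ⊆ N(x)`.
CLAIM `KL`: `HypK x b k c → c ∈ KS x b k`.

`hyp_KS` : every element of `KS x b k` satisfies `HypK x b k`.  Generators:
`dd w`: `Zv_boundary`, `ω = w` (`Lv_zero_le`).  Level `k+1`: `Lv_Zv`, `μ = c`.
`DD A (EE B g)`: in `Z` by `DE_Zv`; `dd (EE A (EE B g)) = DD A (EE B g) + s • EE A (dd (EE B g))`,
`dd (EE B g) = DD B g + s' • EE B (dd g)`; `ω = EE A (EE B g) ∈ Ch b k`,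
`EE A (DD B g) ∈ Ct_x b (k+1)` (`DD_Lv_adj'` with `v = x`, then `EE_Lv`),
`EE A (EE B (dd g)) ∈ Ch b (k+1)`.
`DD A (DD B g)`: in `Z` by `DDD_Zv`; `dd (EE A (DD B g)) = DD A (DD B g) + s • EE A (dd (DD B g))`,
`ω = EE A (DD B g) ∈ Ct_x b (j+1)`, `dd (DD B g) = -+ DD B (dd g)`, `EE A (DD B (dd g)) ∈ Ct_x b
(j+2)`.
HypK is closed under sums and scalars.
-/

namespace Pool.Agent.H52.BE

open Finset

variable {V : Type*} [Fintype V] [LinearOrder V]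

/-- the degree of a list of left vertices -/
abbrev cl (A : List V) : V ⊕ V → ℕ := cnt (A.map Sum.inl)

/-- the degree of a list of right vertices -/
abbrev cr (B : List V) : V ⊕ V → ℕ := cnt (B.map Sum.inr)

/-- the generators of `KS` -/
noncomputable def KG (K : Type*) [CommRing K] (H : V → V → Prop) (x : V) (b : V ⊕ V → ℕ) (k : ℕ) :
    Set (Finset (V ⊕ V) → K) :=
  {c | (∃ w ∈ Lv K H 0 b k, c = dd K w) ∨ c ∈ Lv K H 0 b (k + 1) ∨
    (∃ (A B : List V) (b' : V ⊕ V → ℕ) (g : Finset (V ⊕ V) → K), A ≠ [] ∧ B ≠ [] ∧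
      A.Pairwise (· < ·) ∧ B.Pairwise (· < ·) ∧ (∀ i ∈ A, ∀ j ∈ B, H i j) ∧
      (∀ j ∈ B, H x j) ∧ b = b' + cl A + cr B ∧ g ∈ Zv K H 0 b' k ∧
      c = DD K (A.map Sum.inl) (EE K (B.map Sum.inr) g)) ∨
    (∃ (A B : List V) (b' : V ⊕ V → ℕ) (j : ℕ) (g : Finset (V ⊕ V) → K), A ≠ [] ∧ B ≠ [] ∧
      A.Pairwise (· < ·) ∧ B.Pairwise (· < ·) ∧ (∀ i ∈ A, ∀ j ∈ B, H i j) ∧
      (∀ j ∈ B, H x j) ∧ b = b' + cl A + cr B ∧ k = j + 1 ∧ g ∈ Zv K H 0 b' j ∧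
      c = DD K (A.map Sum.inl) (DD K (B.map Sum.inr) g))}

/-- the span of the generators -/
noncomputable def KS (K : Type*) [CommRing K] (H : V → V → Prop) (x : V) (b : V ⊕ V → ℕ)
    (k : ℕ) : Submodule K (Finset (V ⊕ V) → K) := Submodule.span K (KG K H x b k)

/-- `c` is a relative cycle and `x * c` is a relative boundary -/
noncomputable def HypK (K : Type*) [CommRing K] (H : V → V → Prop) (x : V) (b : V ⊕ V → ℕ) (k : ℕ) :
    Submodule K (Finset (V ⊕ V) → K) :=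
  Zv K H 0 b k ⊓ ((Lv K H (dl (Sum.inl x)) b k).map (dd K) ⊔ Lv K H (dl (Sum.inl x)) b (k + 1))

variable {K : Type*} [CommRing K] {H : V → V → Prop}

private theorem KL_adj {A B : List V} (hAB : ∀ i ∈ A, ∀ j ∈ B, H i j) :
    ∀ x ∈ A.map (Sum.inl : V → V ⊕ V), ∀ y ∈ B.map (Sum.inr : V → V ⊕ V), adj H x y := by
  intro x hx y hy
  rw [List.mem_map] at hx hy
  obtain ⟨i, hi, rfl⟩ := hx
  obtain ⟨j, hj, rfl⟩ := hy
  exact hAB i hi j hj

private theorem KL_adj1 {x : V} {B : List V} (hB : ∀ j ∈ B, H x j) :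
    ∀ y ∈ B.map (Sum.inr : V → V ⊕ V), adj H (Sum.inl x) y := by
  intro y hy
  rw [List.mem_map] at hy
  obtain ⟨j, hj, rfl⟩ := hy
  exact hB j hj

theorem hyp_KS (x : V) (b : V ⊕ V → ℕ) (k : ℕ) : KS K H x b k ≤ HypK K H x b k := by
  refine Submodule.span_le.2 ?_
  rintro c (⟨w, hw, rfl⟩ | hc | ⟨A, B, b', g, _, _, _, _, hAB, hxB, rfl, hg, rfl⟩ |
    ⟨A, B, b', j, g, _, _, _, _, hAB, hxB, rfl, rfl, hg, rfl⟩)
  · exact ⟨Zv_boundary w hw, Submodule.mem_sup_left ⟨w, Lv_zero_le _ hw, rfl⟩⟩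
  · exact ⟨Lv_Zv hc, Submodule.mem_sup_right (Lv_zero_le _ hc)⟩
  · refine ⟨DE_Zv _ _ (KL_adj hAB) hg, ?_⟩
    obtain ⟨hg1, hg2⟩ := mem_Zv.1 hg
    have h1 := dd_EE (A.map Sum.inl) (EE K (B.map Sum.inr) g)
    have h2 := dd_EE (B.map (Sum.inr : V → V ⊕ V)) g
    have hb : b' + cnt (B.map Sum.inr) + cnt (A.map Sum.inl) = b' + cl A + cr B :=
      add_right_comm _ _ _
    have m1 : EE K (A.map Sum.inl) (EE K (B.map Sum.inr) g) ∈
        Lv K H (dl (Sum.inl x)) (b' + cl A + cr B) k := by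
      rw [← hb]
      exact Lv_zero_le _ (EE_Lv _ (EE_Lv _ hg1))
    have m2 : EE K (A.map Sum.inl) (DD K (B.map Sum.inr) g) ∈
        Lv K H (dl (Sum.inl x)) (b' + cl A + cr B) (k + 1) := by
      rw [← hb]
      exact EE_Lv _ (DD_Lv_adj' _ (KL_adj1 hxB) hg1)
    have m3 : EE K (A.map Sum.inl) (EE K (B.map Sum.inr) (dd K g)) ∈
        Lv K H (dl (Sum.inl x)) (b' + cl A + cr B) (k + 1) := by
      rw [← hb]
      exact Lv_zero_le _ (EE_Lv _ (EE_Lv _ hg2))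
    rw [h2, map_add, map_zsmul] at h1
    rw [← sub_eq_iff_eq_add.2 h1]
    refine Submodule.sub_mem _ (Submodule.mem_sup_left ⟨_, m1, rfl⟩) (Submodule.mem_sup_right ?_)
    exact zsmul_mem (Submodule.add_mem _ m2 (zsmul_mem m3 _)) _
  · refine ⟨DDD_Zv _ _ (KL_adj hAB) hg, ?_⟩
    obtain ⟨hg1, hg2⟩ := mem_Zv.1 hg
    have h1 := dd_EE (A.map Sum.inl) (DD K (B.map Sum.inr) g)
    have h2 := dd_DD (B.map (Sum.inr : V → V ⊕ V)) g
    have hb : b' + cnt (B.map Sum.inr) + cnt (A.map Sum.inl) = b' + cl A + cr B :=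
      add_right_comm _ _ _
    have m1 : EE K (A.map Sum.inl) (DD K (B.map Sum.inr) g) ∈
        Lv K H (dl (Sum.inl x)) (b' + cl A + cr B) (j + 1) := by
      rw [← hb]
      exact EE_Lv _ (DD_Lv_adj' _ (KL_adj1 hxB) hg1)
    have m2 : EE K (A.map Sum.inl) (DD K (B.map Sum.inr) (dd K g)) ∈
        Lv K H (dl (Sum.inl x)) (b' + cl A + cr B) (j + 1 + 1) := by
      rw [← hb]
      exact EE_Lv _ (DD_Lv_adj' _ (KL_adj1 hxB) hg2)
    rw [h2, map_neg, map_zsmul] at h1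
    rw [← sub_eq_iff_eq_add.2 h1]
    refine Submodule.sub_mem _ (Submodule.mem_sup_left ⟨_, m1, rfl⟩) (Submodule.mem_sup_right ?_)
    exact zsmul_mem (Submodule.neg_mem _ (zsmul_mem m2 _)) _

/-- a relative boundary plus level `k+1` is in `KS` -/
theorem KS_bd (x : V) (b : V ⊕ V → ℕ) (k : ℕ) (w l : Finset (V ⊕ V) → K)
    (hw : w ∈ Lv K H 0 b k) (hl : l ∈ Lv K H 0 b (k + 1)) : dd K w + l ∈ KS K H x b k :=
  Submodule.add_mem _ (Submodule.subset_span (Or.inl ⟨w, hw, rfl⟩))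
    (Submodule.subset_span (Or.inr (Or.inl hl)))

end Pool.Agent.H52.BE
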