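import Pool.Agent.H52.BE.Lf
import Pool.Agent.H52.BE.KL

/-!
# Project BE: the leading part of the lifting operators (see the header of `Lf`)
-/

namespace Pool.Agent.H52.BE

open Finset

variable {V : Type*} [Fintype V] [LinearOrder V] {K : Type*} [Field K] {G : SimpleGraph V}

/-- the sum of the weights of the first `m` elements -/
private def GamL_top (m : ℕ) (L : List V) : ℕ :=
  ((L.take m).map (fun i => wt (Sum.inl i : V ⊕ V))).sum

private theorem GamL_top_zero (L : List V) : GamL_top 0 L = 0 := by
  simp [GamL_top]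

private theorem GamL_top_nil (m : ℕ) : GamL_top m ([] : List V) = 0 := by
  simp [GamL_top]

private theorem GamL_top_cons (m : ℕ) (c : V) (L : List V) :
    GamL_top (m + 1) (c :: L) = wt (Sum.inl c : V ⊕ V) + GamL_top m L := by
  simp [GamL_top]

private theorem GamL_top_le (c : V) (L : List V) (h : ∀ d ∈ L, c < d) (m : ℕ) :
    GamL_top (m + 1) L ≤ wt (Sum.inl c : V ⊕ V) + GamL_top m L := by
  induction L generalizing m with
  | nil => simp [GamL_top_nil]
  | cons d L ih =>
    have hd : wt (Sum.inl d : V ⊕ V) < wt (Sum.inl c : V ⊕ V) := wt_lt (h d (by simp))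
    have ih' := fun m => ih (fun e he => h e (by simp [he])) m
    cases m with
    | zero =>
      rw [GamL_top_cons, GamL_top_zero, GamL_top_zero]
      omega
    | succ m =>
      rw [GamL_top_cons, GamL_top_cons]
      have := ih' m
      omega

private theorem GamL_GE_neg (L : List V) (m : ℤ) (hm : m < 0) : GE K L m = 0 := by
  induction L generalizing m with
  | nil =>
    have : m ≠ 0 := by omega
    simp [GE, this]
  | cons c L ih =>
    rw [GE, ih m hm, ih (m - 1) (by omega)]
    simp

private theorem GamL_GD_neg (L : List V) (m : ℤ) (hm : m < 0) : GD K L m = 0 := by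
  induction L generalizing m with
  | nil => simp [GD]
  | cons c L ih =>
    rw [GD, ih m hm, ih (m - 1) (by omega), GamL_GE_neg L m hm]
    simp

private theorem GamL_GE_cons (c : V) (L : List V) (m : ℤ) (C : PC V K) :
    GE K (c :: L) m C = EX (Sum.inr c) (GE K L m C) + EX (Sum.inl c) (GE K L (m - 1) C) := by
  rw [GE]
  rfl

private theorem GamL_GD_cons (c : V) (L : List V) (m : ℤ) (C : PC V K) :
    GD K (c :: L) m C = (MvPolynomial.X (Sum.inl c) : MvPolynomial (V ⊕ V) K) • GE K L m C
      - EX (Sum.inr c) (GD K L m C) - EX (Sum.inl c) (GD K L (m - 1) C) := by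
  rw [GD]
  rfl

private theorem GamL_GE_low (L : List V) (hL : L.Pairwise (· < ·)) (m : ℕ) {w : ℕ} {C : PC V K}
    (h : Low w C) : Low (w + GamL_top m L) (GE K L (m : ℤ) C) := by
  induction L generalizing m with
  | nil =>
    rw [GamL_top_nil, add_zero]
    cases m with
    | zero => simpa [GE] using h
    | succ m =>
      have : ((m + 1 : ℕ) : ℤ) ≠ 0 := by omega
      rw [GE, if_neg this]
      exact Low_zero w
  | cons c L ih =>
    rw [List.pairwise_cons] at hL
    have ih' := ih hL.2
    rw [GamL_GE_cons]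
    cases m with
    | zero =>
      rw [GamL_GE_neg L ((0 : ℕ) - 1 : ℤ) (by simp)]
      have h1 := Low_E (Sum.inr c) (ih' 0)
      rw [GamL_top_zero] at h1 ⊢
      simpa [wt] using h1
    | succ m =>
      rw [GamL_top_cons]
      have h1 := Low_E (Sum.inr c) (ih' (m + 1))
      have h2 := Low_E (Sum.inl c) (ih' m)
      have e : ((m + 1 : ℕ) : ℤ) - 1 = (m : ℤ) := by push_cast; ring
      rw [e]
      have h3 := GamL_top_le c L hL.1 m
      refine Low_add (Low_mono ?_ h1) (Low_mono ?_ h2)
      · have : wt (Sum.inr c : V ⊕ V) = 0 := rfl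
        omega
      · omega

private theorem GamL_GD_low (L : List V) (hL : L.Pairwise (· < ·)) (m : ℕ) {w : ℕ} {C : PC V K}
    (h : Low w C) : Low (w + GamL_top (m + 1) L) (GD K L (m : ℤ) C) := by
  induction L generalizing m with
  | nil =>
    rw [GD]
    exact Low_zero _
  | cons c L ih =>
    rw [List.pairwise_cons] at hL
    have ih' := ih hL.2
    have hr : wt (Sum.inr c : V ⊕ V) = 0 := rfl
    have h3 := GamL_top_le c L hL.1 m
    rw [GamL_GD_cons, GamL_top_cons]
    have h1 := Low_X (Sum.inl c) (GamL_GE_low L hL.2 m h)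
    have h2 := Low_E (Sum.inr c) (ih' m)
    refine Low_sub (Low_sub (Low_mono ?_ h1) (Low_mono ?_ h2)) ?_
    · omega
    · omega
    · cases m with
      | zero =>
        rw [GamL_GD_neg L ((0 : ℕ) - 1 : ℤ) (by simp)]
        have : EX (Sum.inl c) ((0 : PC V K →ₗ[MvPolynomial (V ⊕ V) K] PC V K) C)
            = (0 : PC V K) := by simp
        rw [this]
        exact Low_zero _
      | succ m =>
        have e : ((m + 1 : ℕ) : ℤ) - 1 = (m : ℤ) := by push_cast; ring
        rw [e]
        have h4 := Low_E (Sum.inl c) (ih' m)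
        refine Low_mono ?_ h4
        omega

private theorem GamL_cl_cons (i : V) (A : List V) : cl (i :: A) = cl A + dl (Sum.inl i) := by
  funext w
  simp only [cl, cnt, dl, List.map_cons, List.count_cons, Pi.add_apply]
  by_cases h : w = Sum.inl i
  · simp [h]
  · have h' : ¬ (Sum.inl i = w) := fun h2 => h h2.symm
    simp [h, h']

private theorem GamL_cr_cons (i : V) (A : List V) : cr (i :: A) = cr A + dl (Sum.inr i) := by
  funext w
  simp only [cr, cnt, dl, List.map_cons, List.count_cons, Pi.add_apply]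
  by_cases h : w = Sum.inr i
  · simp [h]
  · have h' : ¬ (Sum.inr i = w) := fun h2 => h h2.symm
    simp [h, h']

private theorem GamL_cl_nil : cl ([] : List V) = 0 := by
  funext w
  simp [cl, cnt]

private theorem GamL_cr_nil : cr ([] : List V) = 0 := by
  funext w
  simp [cr, cnt]

private theorem GamL_wd_zero : wd (0 : V ⊕ V → ℕ) = 0 := by
  simp [wd]

private theorem GamL_wd_cr (B : List V) : wd (cr B) = 0 := by
  induction B with
  | nil => rw [GamL_cr_nil, GamL_wd_zero]
  | cons b B ih =>
    rw [GamL_cr_cons, wd_add, wd_dl, ih]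
    rfl

private theorem GamL_top_append (A B : List V) (b : V) :
    GamL_top (A.length + 1) (A ++ b :: B) = wd (cl A) + wt (Sum.inl b : V ⊕ V) := by
  induction A with
  | nil =>
    rw [GamL_cl_nil, GamL_wd_zero]
    simp only [List.length_nil, List.nil_append]
    rw [GamL_top_cons, GamL_top_zero]
    omega
  | cons c A ih =>
    simp only [List.length_cons, List.cons_append]
    rw [GamL_top_cons, ih, GamL_cl_cons, wd_add, wd_dl]
    omega

private theorem GamL_Lf_zero (a : V ⊕ V → ℕ) : Lf a (0 : Finset (V ⊕ V) → K) (0 : PC V K) :=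
  ⟨comp_zero _, fun _ _ _ => comp_zero _⟩

private theorem GamL_base (B : List V) {a : V ⊕ V → ℕ}
    {c : Finset (V ⊕ V) → K} {C : PC V K} (h : Lf a c C) :
    Lf (a + cr B) (EE K (B.map Sum.inr) c) (GE K B 0 C) := by
  induction B with
  | nil =>
    rw [GamL_cr_nil, add_zero]
    simpa [GE, EE, EL] using h
  | cons b B ih =>
    rw [GamL_GE_cons, GamL_GE_neg B (0 - 1) (by omega), GamL_cr_cons, ← add_assoc,
      List.map_cons, EE_cons]
    have h1 := Lf_E (Sum.inr b) ih
    simpa using h1

/-- the bound needed in the induction step -/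
private theorem GamL_bound (a0 : V) (A B : List V) (hB : B ≠ [])
    (hs : (a0 :: (A ++ B)).Pairwise (· < ·)) (a : V ⊕ V → ℕ) :
    wd a + 1 + GamL_top (A.length + 1) (A ++ B) ≤ wd (a + cl A + cr B + dl (Sum.inl a0)) := by
  obtain ⟨b, B', rfl⟩ := List.exists_cons_of_ne_nil hB
  rw [GamL_top_append, wd_add, wd_add, wd_add, GamL_wd_cr, wd_dl]
  rw [List.pairwise_cons] at hs
  have : a0 < b := hs.1 b (by simp)
  have := wt_lt this
  omega

theorem GE_Lf (A B : List V) (hB : B ≠ []) (hs : (A ++ B).Pairwise (· < ·)) {a : V ⊕ V → ℕ}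
    {c : Finset (V ⊕ V) → K} {C : PC V K} (h : Lf a c C) :
    Lf (a + cl A + cr B) (EE K (A.map Sum.inl) (EE K (B.map Sum.inr) c))
      (GE K (A ++ B) A.length C) := by
  induction A with
  | nil =>
    rw [GamL_cl_nil, add_zero]
    simpa [EE, EL] using GamL_base B h
  | cons a0 A ih =>
    have hs' : (A ++ B).Pairwise (· < ·) := by
      rw [List.cons_append, List.pairwise_cons] at hs
      exact hs.2
    have ih' := Lf_E (Sum.inl a0) (ih hs')
    have hlow := Low_E (Sum.inr a0) (GamL_GE_low (A ++ B) hs' (A.length + 1) (Lf_Low h))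
    have hb := GamL_bound a0 A B hB hs a
    have hr : wt (Sum.inr a0 : V ⊕ V) = 0 := rfl
    have hlow' := Low_mono (by omega) hlow
      (w' := wd (a + cl A + cr B + dl (Sum.inl a0)))
    have e1 : a + cl (a0 :: A) + cr B = a + cl A + cr B + dl (Sum.inl a0) := by
      rw [GamL_cl_cons]; abel
    have e2 : ((A.length + 1 : ℕ) : ℤ) - 1 = (A.length : ℤ) := by push_cast; ring
    rw [e1, List.map_cons, EE_cons, List.cons_append, List.length_cons, GamL_GE_cons, e2, add_comm
      (EX (Sum.inr a0) _)]
    exact Lf_low ih' hlow'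

theorem GD_Lf (A B : List V) (hB : B ≠ []) (hs : (A ++ B).Pairwise (· < ·)) {a : V ⊕ V → ℕ}
    {c : Finset (V ⊕ V) → K} {C : PC V K} (h : Lf a c C) :
    Lf (a + cl A + cr B) (DD K (A.map Sum.inl) (EE K (B.map Sum.inr) c))
      (GD K (A ++ B) ((A.length : ℤ) - 1) C) := by
  induction A with
  | nil =>
    rw [GamL_GD_neg _ _ (by simp)]
    simpa [DD, DL] using GamL_Lf_zero (K := K) (a + cl [] + cr B)
  | cons a0 A ih =>
    have hs' : (A ++ B).Pairwise (· < ·) := by
      rw [List.cons_append, List.pairwise_cons] at hs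
      exact hs.2
    have h3 := Lf_E (Sum.inl a0) (ih hs')
    have h1 := Lf_X (Sum.inl a0) (GE_Lf A B hB hs' h)
    have hlow := Low_E (Sum.inr a0) (GamL_GD_low (A ++ B) hs' A.length (Lf_Low h))
    have hb := GamL_bound a0 A B hB hs a
    have hr : wt (Sum.inr a0 : V ⊕ V) = 0 := rfl
    have hlow' := Low_mono (by omega) hlow
      (w' := wd (a + cl A + cr B + dl (Sum.inl a0)))
    have e1 : a + cl (a0 :: A) + cr B = a + cl A + cr B + dl (Sum.inl a0) := by
      rw [GamL_cl_cons]; abel
    have e2 : ((A.length + 1 : ℕ) : ℤ) - 1 = (A.length : ℤ) := by push_cast; ring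
    rw [e1, List.map_cons, DD_cons, List.cons_append, List.length_cons, e2, GamL_GD_cons]
    have h4 := Lf_low (Lf_sub h1 h3) (Low_neg hlow')
    have e3 : ∀ x y z : PC V K, x - y - z = x - z + -y := by
      intro x y z; abel
    rw [e3]
    exact h4

end Pool.Agent.H52.BE
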