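import Pool.Agent.H52.BE.KL

/-!
# Project BE: the generated family `Gn`

`Gn a k c`: `c` is obtained from constants, boundaries, chains of higher level by the operators
`g ↦ DD A (EE B g)` and `g ↦ DD A (DD B g)`.
-/

namespace Pool.Agent.H52.BE

open Finset

variable {V : Type*} [Fintype V] [LinearOrder V]

/-- the generated family -/
inductive Gn (K : Type*) [CommRing K] (H : V → V → Prop) :
    (V ⊕ V → ℕ) → ℕ → (Finset (V ⊕ V) → K) → Prop
  | zero (a : V ⊕ V → ℕ) (k : ℕ) : Gn K H a k 0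
  | unit (c : Finset (V ⊕ V) → K) (hc : c ∈ Lv K H 0 0 0) : Gn K H 0 0 c
  | add (a : V ⊕ V → ℕ) (k : ℕ) (c d : Finset (V ⊕ V) → K) (hc : Gn K H a k c)
      (hd : Gn K H a k d) : Gn K H a k (c + d)
  | smul (a : V ⊕ V → ℕ) (k : ℕ) (r : K) (c : Finset (V ⊕ V) → K) (hc : Gn K H a k c) :
      Gn K H a k (r • c)
  | bd (a : V ⊕ V → ℕ) (k : ℕ) (w : Finset (V ⊕ V) → K) (hw : w ∈ Lv K H 0 a k) :
      Gn K H a k (dd K w)
  | lev (a : V ⊕ V → ℕ) (k : ℕ) (l : Finset (V ⊕ V) → K) (hl : l ∈ Lv K H 0 a (k + 1)) :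
      Gn K H a k l
  | de (A B : List V) (hA : A ≠ []) (hB : B ≠ []) (hAs : A.Pairwise (· < ·))
      (hBs : B.Pairwise (· < ·)) (hAB : ∀ i ∈ A, ∀ j ∈ B, H i j) (b : V ⊕ V → ℕ) (k : ℕ)
      (g : Finset (V ⊕ V) → K) (hg : Gn K H b k g) (a : V ⊕ V → ℕ)
      (ha : a = b + cl A + cr B) :
      Gn K H a k (DD K (A.map Sum.inl) (EE K (B.map Sum.inr) g))
  | dd' (A B : List V) (hA : A ≠ []) (hB : B ≠ []) (hAs : A.Pairwise (· < ·))
      (hBs : B.Pairwise (· < ·)) (hAB : ∀ i ∈ A, ∀ j ∈ B, H i j) (b : V ⊕ V → ℕ) (k : ℕ)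
      (g : Finset (V ⊕ V) → K) (hg : Gn K H b k g) (a : V ⊕ V → ℕ)
      (ha : a = b + cl A + cr B) :
      Gn K H a (k + 1) (DD K (A.map Sum.inl) (DD K (B.map Sum.inr) g))

variable {K : Type*} [CommRing K] {H : V → V → Prop}

/-- everything generated is a relative cycle: induction, `Zv_boundary`, `Lv_Zv`, `DE_Zv`,
`DDD_Zv`; unit: `dd c = 0` for `c` supported on the empty set -/
theorem Gn_Zv {a : V ⊕ V → ℕ} {k : ℕ} {c : Finset (V ⊕ V) → K} (h : Gn K H a k c) :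
    c ∈ Zv K H 0 a k := by
  induction h with
  | zero a k => exact Submodule.zero_mem _
  | unit c hc =>
    refine mem_Zv.2 ⟨hc, ?_⟩
    have h0 : dd K c = 0 := by
      funext τ
      unfold dd
      rw [kd_apply]
      refine Finset.sum_eq_zero fun v _ => ?_
      split_ifs with hv
      · rfl
      · have hz : c (insert v τ) = 0 := by
          by_contra hne
          have h1 := (mem_Lv.1 hc _ hne).1 v
          simp [ind] at h1
        rw [hz, smul_zero, smul_zero]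
    rw [h0]
    exact Submodule.zero_mem _
  | add a k c d _ _ ihc ihd => exact Submodule.add_mem _ ihc ihd
  | smul a k r c _ ih => exact Submodule.smul_mem _ _ ih
  | bd a k w hw => exact Zv_boundary w hw
  | lev a k l hl => exact Lv_Zv hl
  | de A B _ _ _ _ hAB b k g _ a ha ih =>
    rw [ha]
    refine DE_Zv _ _ ?_ ih
    intro x hx y hy
    rw [List.mem_map] at hx hy
    obtain ⟨i, hi, rfl⟩ := hx
    obtain ⟨j, hj, rfl⟩ := hy
    exact hAB i hi j hj
  | dd' A B _ _ _ _ hAB b k g _ a ha ih =>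
    rw [ha]
    refine DDD_Zv _ _ ?_ ih
    intro x hx y hy
    rw [List.mem_map] at hx hy
    obtain ⟨i, hi, rfl⟩ := hx
    obtain ⟨j, hj, rfl⟩ := hy
    exact hAB i hi j hj

/-- the submodule version -/
def GnS (K : Type*) [CommRing K] (H : V → V → Prop) (a : V ⊕ V → ℕ) (k : ℕ) :
    Submodule K (Finset (V ⊕ V) → K) where
  carrier := {c | Gn K H a k c}
  zero_mem' := Gn.zero a k
  add_mem' := fun {c d} hc hd => Gn.add a k c d hc hd
  smul_mem' := fun r c hc => Gn.smul a k r c hc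

theorem Gn_neg {a : V ⊕ V → ℕ} {k : ℕ} {c : Finset (V ⊕ V) → K} (h : Gn K H a k c) :
    Gn K H a k (-c) := (GnS K H a k).neg_mem h

theorem Gn_sub {a : V ⊕ V → ℕ} {k : ℕ} {c d : Finset (V ⊕ V) → K} (h : Gn K H a k c)
    (h' : Gn K H a k d) : Gn K H a k (c - d) := (GnS K H a k).sub_mem h h'

/-- a vertex of the support which is isolated: `cone_Zv`, `bd`, `lev` -/
theorem Gn_cone {a : V ⊕ V → ℕ} {k : ℕ} {c : Finset (V ⊕ V) → K} (v : V ⊕ V) (hv : 1 ≤ a v)
    (hiso : ∀ u, 1 ≤ a u → ¬ adj H v u) (hc : c ∈ Zv K H 0 a k) : Gn K H a k c := by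
  obtain ⟨w, hw, l, hl, rfl⟩ := cone_Zv hv (by simpa using hiso) hc
  exact Gn.add a k _ _ (Gn.bd a k w hw) (Gn.lev a k l hl)

end Pool.Agent.H52.BE
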