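import Pool.Agent.H52.BE.JD

/-!
# Project BE: products of binomials and their leading terms

`PP u m` = monomial `u` times the product of the binomials of the pairs in `m`.
`LS G k w` = the `K`-span of the `PP u m` with `m` a multiset of `k` oriented edges and
`wd (u + dg m) < w`.

`PP_lead`: induction on `m`: multiplication with `x_i y_j - x_j y_i`, `i < j`
(`wt (inl j) < wt (inl i)`, `wt (inr _) = 0`): if `g` has leading exponent `b` (coefficient 1, all
other exponents of weight `≥ wd b` have coefficient 0) then so has `fp i j * g` with the exponent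
`b + dl (inl i) + dl (inr j)`.  (`cf b' (X v * g) = cf (b' - dl v) g` if `1 ≤ b' v`, otherwise `0`.)
`exists_LS`: `g ∈ J^k` implies `g ∈ LS G k w` for some `w`: induction on `k`
(`Submodule.span_induction`, `J^(k+1) = J^k * J`; the union over `w` of `LS G k w` is a
submodule over `K` closed under multiplication with monomials; generators of `J` with `i > j`:
`fp i j = - fp j i`).
-/

namespace Pool.Agent.H52.BE

open Finset

variable {V : Type*} [Fintype V] [LinearOrder V] {K : Type*} [Field K] {G : SimpleGraph V}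

/-- monomial times product of binomials -/
noncomputable def PP (K : Type*) [Field K] (u : V ⊕ V → ℕ) (m : Multiset (V × V)) :
    MvPolynomial (V ⊕ V) K :=
  mo K u * (m.map (fun p => fp K p.1 p.2)).prod

/-- the span of the products of small weight -/
noncomputable def LS (K : Type*) [Field K] (G : SimpleGraph V) (k w : ℕ) :
    Submodule K (MvPolynomial (V ⊕ V) K) :=
  Submodule.span K {g | ∃ (u : V ⊕ V → ℕ) (m : Multiset (V × V)), m.card = k ∧
    (∀ p ∈ m, GH G p.1 p.2) ∧ wd (u + dg m) < w ∧ g = PP K u m}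

private theorem iniA_symm_sub (v : V ⊕ V) (b : V ⊕ V → ℕ) :
    Finsupp.equivFunOnFinite.symm (b - dl v) =
      Finsupp.equivFunOnFinite.symm b - Finsupp.single v 1 := by
  ext w
  simp only [Finsupp.equivFunOnFinite_symm_apply_apply, Pi.sub_apply, Finsupp.tsub_apply,
    Finsupp.single_apply, dl]
  by_cases h : w = v
  · subst h; simp
  · have h' : ¬ v = w := fun hh => h hh.symm
    simp [h, h']

private theorem iniA_symm_add (v : V ⊕ V) (b : V ⊕ V → ℕ) :
    Finsupp.equivFunOnFinite.symm (b + dl v) =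
      Finsupp.single v 1 + Finsupp.equivFunOnFinite.symm b := by
  ext w
  simp only [Finsupp.equivFunOnFinite_symm_apply_apply, Pi.add_apply, Finsupp.add_apply,
    Finsupp.single_apply, dl]
  by_cases h : w = v
  · subst h; simp [add_comm]
  · have h' : ¬ v = w := fun hh => h hh.symm
    simp [h, h']

theorem cf_X_mul (v : V ⊕ V) (b : V ⊕ V → ℕ) (p : MvPolynomial (V ⊕ V) K) :
    cf b (MvPolynomial.X v * p) = if 1 ≤ b v then cf (b - dl v) p else 0 := by
  classical
  unfold cf
  rw [MvPolynomial.coeff_X_mul', iniA_symm_sub]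
  by_cases h : 1 ≤ b v
  · rw [if_pos h, if_pos]
    simp only [Finsupp.mem_support_iff, Finsupp.equivFunOnFinite_symm_apply_apply]
    omega
  · rw [if_neg h, if_neg]
    simp only [Finsupp.mem_support_iff, Finsupp.equivFunOnFinite_symm_apply_apply]
    omega

theorem X_mul_mo (v : V ⊕ V) (b : V ⊕ V → ℕ) :
    MvPolynomial.X v * mo K b = mo K (b + dl v) := by
  unfold mo
  rw [iniA_symm_add, MvPolynomial.X, MvPolynomial.monomial_mul, one_mul]

private theorem iniA_sub_add {v : V ⊕ V} {b : V ⊕ V → ℕ} (h : 1 ≤ b v) :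
    b - dl v + dl v = b := by
  funext w
  by_cases hw : w = v
  · subst hw
    simp [dl]
    omega
  · simp [dl, hw]

/-- multiplication by a product of two variables -/
private theorem iniA_two (a c : V ⊕ V) (b' : V ⊕ V → ℕ) (g : MvPolynomial (V ⊕ V) K) :
    (∃ b'', b'' + dl a + dl c = b' ∧ cf b' (MvPolynomial.X a * (MvPolynomial.X c * g)) = cf b'' g)
      ∨ ((∀ b'', b'' + dl a + dl c ≠ b') ∧
        cf b' (MvPolynomial.X a * (MvPolynomial.X c * g)) = 0) := by
  by_cases h1 : 1 ≤ b' a
  · by_cases h2 : 1 ≤ (b' - dl a) c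
    · left
      refine ⟨b' - dl a - dl c, ?_, ?_⟩
      · rw [add_right_comm, iniA_sub_add h2, iniA_sub_add h1]
      · rw [cf_X_mul, if_pos h1, cf_X_mul, if_pos h2]
    · right
      refine ⟨?_, ?_⟩
      · intro b'' hb
        apply h2
        rw [← hb, add_right_comm, add_tsub_cancel_right]
        simp [dl]
      · rw [cf_X_mul, if_pos h1, cf_X_mul, if_neg h2]
  · right
    refine ⟨?_, ?_⟩
    · intro b'' hb
      apply h1
      rw [← hb]
      simp [dl]
      omega
    · rw [cf_X_mul, if_neg h1]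

private theorem iniA_lead (i j : V) (hij : i < j) (b0 : V ⊕ V → ℕ)
    (g : MvPolynomial (V ⊕ V) K) (h1 : cf b0 g = 1)
    (h2 : ∀ b, b ≠ b0 → wd b0 ≤ wd b → cf b g = 0) :
    cf (b0 + dl (Sum.inl i) + dl (Sum.inr j)) (fp K i j * g) = 1 ∧
      ∀ b, b ≠ b0 + dl (Sum.inl i) + dl (Sum.inr j) →
        wd (b0 + dl (Sum.inl i) + dl (Sum.inr j)) ≤ wd b → cf b (fp K i j * g) = 0 := by
  have hw : wd (b0 + dl (Sum.inl i) + dl (Sum.inr j)) = wd b0 + wt (Sum.inl i : V ⊕ V) := by
    rw [wd_add, wd_add, wd_dl, wd_dl]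
    rfl
  have hlt := wt_lt hij
  have hfp : fp K i j * g =
      MvPolynomial.X (Sum.inl i) * (MvPolynomial.X (Sum.inr j) * g)
        - MvPolynomial.X (Sum.inl j) * (MvPolynomial.X (Sum.inr i) * g) := by
    unfold fp
    ring
  have hcf : ∀ b, cf b (fp K i j * g) =
      cf b (MvPolynomial.X (Sum.inl i) * (MvPolynomial.X (Sum.inr j) * g))
        - cf b (MvPolynomial.X (Sum.inl j) * (MvPolynomial.X (Sum.inr i) * g)) := by
    intro b
    rw [hfp]
    unfold cf
    rw [MvPolynomial.coeff_sub]
  have hB : ∀ b, wd (b0 + dl (Sum.inl i) + dl (Sum.inr j)) ≤ wd b →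
      cf b (MvPolynomial.X (Sum.inl j) * (MvPolynomial.X (Sum.inr i) * g)) = 0 := by
    intro b hb
    rcases iniA_two (K := K) (Sum.inl j) (Sum.inr i) b g with ⟨b'', hb'', he⟩ | ⟨_, he⟩
    · rw [he]
      have hwb : wd b'' + wt (Sum.inl j : V ⊕ V) = wd b := by
        rw [← hb'', wd_add, wd_add, wd_dl, wd_dl]
        rfl
      apply h2
      · rintro rfl
        omega
      · omega
    · exact he
  refine ⟨?_, ?_⟩
  · rw [hcf, hB _ le_rfl, sub_zero]
    rcases iniA_two (K := K) (Sum.inl i) (Sum.inr j)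
      (b0 + dl (Sum.inl i) + dl (Sum.inr j)) g with ⟨b'', hb'', he⟩ | ⟨hn, _⟩
    · rw [he]
      have : b'' = b0 := by
        have h3 := add_right_cancel hb''
        exact add_right_cancel h3
      rw [this, h1]
    · exact absurd rfl (hn b0)
  · intro b hb hwb
    rw [hcf, hB _ hwb, sub_zero]
    rcases iniA_two (K := K) (Sum.inl i) (Sum.inr j) b g with ⟨b'', hb'', he⟩ | ⟨_, he⟩
    · rw [he]
      have hwb' : wd b'' + wt (Sum.inl i : V ⊕ V) = wd b := by
        rw [← hb'', wd_add, wd_add, wd_dl, wd_dl]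
        rfl
      apply h2
      · rintro rfl
        exact hb hb''.symm
      · omega
    · exact he

private theorem iniA_dg_cons (p : V × V) (m : Multiset (V × V)) :
    dg (p ::ₘ m) = dg m + dl (Sum.inl p.1) + dl (Sum.inr p.2) := by
  funext w
  rcases w with w | w
  · simp only [dg, Multiset.map_cons, Pi.add_apply, dl, Multiset.count_cons]
    simp
  · simp only [dg, Multiset.map_cons, Pi.add_apply, dl, Multiset.count_cons]
    simp

private theorem iniA_dg_zero : dg (0 : Multiset (V × V)) = 0 := by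
  funext w
  rcases w with w | w <;> simp [dg]

private theorem iniA_PP_cons (u : V ⊕ V → ℕ) (p : V × V) (m : Multiset (V × V)) :
    PP K u (p ::ₘ m) = fp K p.1 p.2 * PP K u m := by
  unfold PP
  rw [Multiset.map_cons, Multiset.prod_cons]
  ring

theorem PP_lead (u : V ⊕ V → ℕ) (m : Multiset (V × V)) (hm : ∀ p ∈ m, p.1 < p.2) :
    cf (u + dg m) (PP K u m) = 1 ∧
      ∀ b, b ≠ u + dg m → wd (u + dg m) ≤ wd b → cf b (PP K u m) = 0 := by
  induction m using Multiset.induction_on with
  | empty =>
    rw [iniA_dg_zero, add_zero]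
    have h0 : PP K u (0 : Multiset (V × V)) = mo K u := by
      unfold PP
      simp
    rw [h0]
    refine ⟨?_, ?_⟩
    · unfold cf mo
      rw [MvPolynomial.coeff_monomial, if_pos rfl]
    · intro b hb _
      unfold cf mo
      rw [MvPolynomial.coeff_monomial, if_neg]
      intro h
      exact hb (Finsupp.equivFunOnFinite.symm.injective h).symm
  | cons p m ih =>
    have ih' := ih (fun q hq => hm q (Multiset.mem_cons_of_mem hq))
    have h := iniA_lead (K := K) p.1 p.2 (hm p (Multiset.mem_cons_self p m)) (u + dg m)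
      (PP K u m) ih'.1 ih'.2
    rw [iniA_PP_cons, iniA_dg_cons, ← add_assoc, ← add_assoc]
    exact h

private theorem iniA_fp_mem {i j : V} (h : G.Adj i j) : fp K i j ∈ JG K G :=
  Ideal.subset_span ⟨i, j, h, rfl⟩

theorem PP_mem (u : V ⊕ V → ℕ) (m : Multiset (V × V)) (hm : ∀ p ∈ m, GH G p.1 p.2) :
    PP K u m ∈ (JG K G) ^ m.card := by
  induction m using Multiset.induction_on with
  | empty => simp
  | cons p m ih =>
    have ih' := ih (fun q hq => hm q (Multiset.mem_cons_of_mem hq))
    rw [iniA_PP_cons, Multiset.card_cons, pow_succ']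
    exact Ideal.mul_mem_mul (iniA_fp_mem (hm p (Multiset.mem_cons_self p m)).2) ih'

theorem LS_mono (k : ℕ) {w w' : ℕ} (h : w ≤ w') : LS K G k w ≤ LS K G k w' := by
  apply Submodule.span_mono
  rintro g ⟨u, m, h1, h2, h3, h4⟩
  exact ⟨u, m, h1, h2, h3.trans_le h, h4⟩

theorem X_mul_LS (k w : ℕ) (v : V ⊕ V) (g : MvPolynomial (V ⊕ V) K) (hg : g ∈ LS K G k w) :
    MvPolynomial.X v * g ∈ LS K G k (w + wt v) := by
  unfold LS at hg
  induction hg using Submodule.span_induction with
  | mem g hg =>
    obtain ⟨u, m, h1, h2, h3, h4⟩ := hg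
    apply Submodule.subset_span
    refine ⟨u + dl v, m, h1, h2, ?_, ?_⟩
    · rw [add_right_comm, wd_add, wd_dl]
      omega
    · rw [h4]
      unfold PP
      rw [← mul_assoc, X_mul_mo]
  | zero => rw [mul_zero]; exact Submodule.zero_mem _
  | add a b _ _ ha hb => rw [mul_add]; exact Submodule.add_mem _ ha hb
  | smul c a _ ha => rw [mul_smul_comm]; exact Submodule.smul_mem _ _ ha

theorem fp_mul_LS (k w : ℕ) (i j : V) (hij : GH G i j) (g : MvPolynomial (V ⊕ V) K)
    (hg : g ∈ LS K G k w) : fp K i j * g ∈ LS K G (k + 1) (w + wt (Sum.inl i)) := by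
  unfold LS at hg
  induction hg using Submodule.span_induction with
  | mem g hg =>
    obtain ⟨u, m, h1, h2, h3, h4⟩ := hg
    apply Submodule.subset_span
    refine ⟨u, (i, j) ::ₘ m, ?_, ?_, ?_, ?_⟩
    · rw [Multiset.card_cons, h1]
    · intro p hp
      rcases Multiset.mem_cons.1 hp with rfl | hp
      · exact hij
      · exact h2 p hp
    · rw [iniA_dg_cons, ← add_assoc, ← add_assoc, wd_add, wd_add, wd_dl, wd_dl]
      change wd (u + dg m) + wt (Sum.inl i) + 0 < w + wt (Sum.inl i)
      omega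
    · rw [h4, iniA_PP_cons]
  | zero => rw [mul_zero]; exact Submodule.zero_mem _
  | add a b _ _ ha hb => rw [mul_add]; exact Submodule.add_mem _ ha hb
  | smul c a _ ha => rw [mul_smul_comm]; exact Submodule.smul_mem _ _ ha

private theorem iniA_add {k : ℕ} {a b : MvPolynomial (V ⊕ V) K}
    (ha : ∃ w, a ∈ LS K G k w) (hb : ∃ w, b ∈ LS K G k w) : ∃ w, a + b ∈ LS K G k w := by
  obtain ⟨w, hw⟩ := ha
  obtain ⟨w', hw'⟩ := hb
  exact ⟨max w w', Submodule.add_mem _ (LS_mono k (le_max_left _ _) hw)
    (LS_mono k (le_max_right _ _) hw')⟩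

private theorem iniA_mul {k : ℕ} (p : MvPolynomial (V ⊕ V) K) :
    ∀ a : MvPolynomial (V ⊕ V) K, (∃ w, a ∈ LS K G k w) → ∃ w, p * a ∈ LS K G k w := by
  induction p using MvPolynomial.induction_on with
  | C c =>
    rintro a ⟨w, hw⟩
    refine ⟨w, ?_⟩
    rw [← MvPolynomial.smul_eq_C_mul]
    exact Submodule.smul_mem _ _ hw
  | add p q hp hq =>
    intro a ha
    rw [add_mul]
    exact iniA_add (hp a ha) (hq a ha)
  | mul_X p v hp =>
    rintro a ⟨w, hw⟩
    rw [mul_assoc]
    exact hp _ ⟨_, X_mul_LS k w v a hw⟩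

theorem exists_LS (k : ℕ) (g : MvPolynomial (V ⊕ V) K) (hg : g ∈ (JG K G) ^ k) :
    ∃ w, g ∈ LS K G k w := by
  induction k generalizing g with
  | zero =>
    have h1 : ∃ w, (1 : MvPolynomial (V ⊕ V) K) ∈ LS K G 0 w := by
      refine ⟨1, Submodule.subset_span ⟨0, 0, rfl, by simp, ?_, ?_⟩⟩
      · rw [iniA_dg_zero]
        simp [wd]
      · have : (Finsupp.equivFunOnFinite.symm (0 : V ⊕ V → ℕ)) = 0 := by
          ext w
          simp
        simp [PP, mo, this]
    have h2 := iniA_mul (G := G) g 1 h1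
    rwa [mul_one] at h2
  | succ k ih =>
    rw [pow_succ'] at hg
    refine Submodule.mul_induction_on hg ?_ ?_
    · intro a ha b hb
      have hb' := ih b hb
      unfold JG Ideal.span at ha
      induction ha using Submodule.span_induction with
      | mem a ha =>
        obtain ⟨i, j, hij, rfl⟩ := ha
        obtain ⟨w, hw⟩ := hb'
        rcases lt_trichotomy i j with h | h | h
        · exact ⟨_, fp_mul_LS k w i j ⟨h, hij⟩ b hw⟩
        · subst h
          exact absurd hij (G.irrefl)
        · have he : fp K i j * b = - (fp K j i * b) := by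
            unfold fp
            ring
          rw [he]
          exact ⟨_, Submodule.neg_mem _ (fp_mul_LS k w j i ⟨h, hij.symm⟩ b hw)⟩
      | zero => exact ⟨0, by rw [zero_mul]; exact Submodule.zero_mem _⟩
      | add x y _ _ hx hy => rw [add_mul]; exact iniA_add hx hy
      | smul c x _ hx =>
        rw [smul_eq_mul, mul_assoc]
        exact iniA_mul c _ hx
    · intro x y hx hy
      exact iniA_add hx hy

/-- the leading coefficient statement for the lifts -/
theorem lead_exists (k : ℕ) (b : V ⊕ V → ℕ) (h : Mt (GH G) k b) :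
    ∃ g ∈ (JG K G) ^ k, cf b g = 1 ∧ ∀ b', b' ≠ b → wd b ≤ wd b' → cf b' g = 0 := by
  obtain ⟨m, h1, h2, h3⟩ := h
  have he : b - dg m + dg m = b := tsub_add_cancel_of_le h3
  have hl := PP_lead (K := K) (b - dg m) m (fun p hp => (h2 p hp).1)
  rw [he] at hl
  refine ⟨PP K (b - dg m) m, ?_, hl.1, hl.2⟩
  have := PP_mem (K := K) (b - dg m) m h2
  rwa [h1] at this

end Pool.Agent.H52.BE
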