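import Pool.Agent.H52.BE.Defs

/-!
# Project BE: matching facts

`Mt H k a`: there is a multiset `m` of `k` pairs `(i, j)` with `H i j` whose degree `dg m` is
`≤ a`.

`Mt_remove` (M3): if `dg m v ≥ 1` erase a pair of `m` which covers `v`, otherwise erase any pair.
`Mt_corner` (M2): let `v = inl i`, `u = inr j` (the other case is symmetric; the remaining
cases are excluded by `adj`).  Take `m` with `k + 1` pairs.
 * `(i, j) ∈ m`: erase it.
 * `(i, j') ∈ m` and `(i', j) ∈ m`, `j' ≠ j`, `i' ≠ i`: `m = (i,j') ::ₘ (i',j) ::ₘ m'`, replace by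
   `(i',j') ::ₘ m'` (`H i' j'` by `Cor`, since `1 ≤ a (inl i')`, `1 ≤ a (inr j')` by `dg m ≤ a`).
 * `(i, j') ∈ m`, no pair covers `inr j`: erase `(i, j')`; as `dg m (inr j) = 0 < a (inr j)` the
   rest is `≤ a - dl v - dl u`.
 * symmetric.
 * no pair covers `inl i` or `inr j`: erase any pair.
`Mt_iso` (M4): no pair of `m` covers the isolated vertex `v`.
Useful: `dg (p ::ₘ m) = dg m + dl (inl p.1) + dl (inr p.2)`, `dg` is monotone and additive.
-/

namespace Pool.Agent.H52.BE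

open Finset

variable {V : Type*} [DecidableEq V] {H : V → V → Prop}

private theorem Mat_le {f g : V ⊕ V → ℕ} : f ≤ g ↔ ∀ w, f w ≤ g w := Iff.rfl

private theorem Mat_dg_inl (m : Multiset (V × V)) (i : V) :
    dg m (Sum.inl i) = (m.map Prod.fst).count i := rfl

private theorem Mat_dg_inr (m : Multiset (V × V)) (j : V) :
    dg m (Sum.inr j) = (m.map Prod.snd).count j := rfl

theorem adj_symm {v u : V ⊕ V} (h : adj H v u) : adj H u v := by
  rcases v with i | j <;> rcases u with i' | j' <;> first | exact h | exact h.elim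

theorem adj_irrefl (v : V ⊕ V) : ¬ adj H v v := by
  rcases v with i | j <;> exact fun h => h

theorem dg_cons (p : V × V) (m : Multiset (V × V)) :
    dg (p ::ₘ m) = dg m + dl (Sum.inl p.1) + dl (Sum.inr p.2) := by
  funext w
  rcases w with i | j
  · simp only [Pi.add_apply, Mat_dg_inl, Multiset.map_cons, Multiset.count_cons, dl,
      Sum.inl.injEq, reduceCtorEq, if_false, add_zero]
  · simp only [Pi.add_apply, Mat_dg_inr, Multiset.map_cons, Multiset.count_cons, dl,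
      Sum.inr.injEq, reduceCtorEq, if_false, add_zero]

theorem dg_zero : dg (0 : Multiset (V × V)) = 0 := by
  funext w
  rcases w with i | j
  · simp [Mat_dg_inl]
  · simp [Mat_dg_inr]

theorem dg_add (m m' : Multiset (V × V)) : dg (m + m') = dg m + dg m' := by
  funext w
  rcases w with i | j
  · simp [Mat_dg_inl]
  · simp [Mat_dg_inr]

theorem Mt_mono {k : ℕ} {a b : V ⊕ V → ℕ} (h : a ≤ b) (hm : Mt H k a) : Mt H k b := by
  obtain ⟨m, h1, h2, h3⟩ := hm
  exact ⟨m, h1, h2, h3.trans h⟩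

theorem Mt_zero (a : V ⊕ V → ℕ) : Mt H 0 a := by
  refine ⟨0, rfl, by simp, ?_⟩
  rw [dg_zero]
  intro w
  exact Nat.zero_le _

/-- splitting off an element -/
private theorem Mat_split {m : Multiset (V × V)} {p : V × V} (hp : p ∈ m) :
    ∃ m', m = p ::ₘ m' := ⟨m.erase p, (Multiset.cons_erase hp).symm⟩

private theorem Mat_any {m : Multiset (V × V)} {k : ℕ} (h : m.card = k + 1) :
    ∃ p m', m = p ::ₘ m' ∧ m'.card = k := by
  have h0 : m ≠ 0 := by
    intro h0
    rw [h0] at h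
    simp at h
  obtain ⟨p, hp⟩ := Multiset.exists_mem_of_ne_zero h0
  obtain ⟨m', rfl⟩ := Mat_split hp
  refine ⟨p, m', rfl, ?_⟩
  rw [Multiset.card_cons] at h
  omega

private theorem Mat_inl {m : Multiset (V × V)} {i : V} (h : 1 ≤ dg m (Sum.inl i)) :
    ∃ j, (i, j) ∈ m := by
  rw [Mat_dg_inl] at h
  have h1 : i ∈ m.map Prod.fst := Multiset.one_le_count_iff_mem.mp h
  obtain ⟨p, hp, rfl⟩ := Multiset.mem_map.mp h1
  exact ⟨p.2, hp⟩

private theorem Mat_inr {m : Multiset (V × V)} {j : V} (h : 1 ≤ dg m (Sum.inr j)) :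
    ∃ i, (i, j) ∈ m := by
  rw [Mat_dg_inr] at h
  have h1 : j ∈ m.map Prod.snd := Multiset.one_le_count_iff_mem.mp h
  obtain ⟨p, hp, rfl⟩ := Multiset.mem_map.mp h1
  exact ⟨p.1, hp⟩

private theorem Mat_pos {m : Multiset (V × V)} {p : V × V} (h : p ∈ m) :
    1 ≤ dg m (Sum.inl p.1) ∧ 1 ≤ dg m (Sum.inr p.2) := by
  obtain ⟨m', rfl⟩ := Mat_split h
  rw [dg_cons]
  simp only [Pi.add_apply, dl, if_true, reduceCtorEq, if_false]
  omega

private theorem Mat_cons_apply (p : V × V) (m : Multiset (V × V)) (w : V ⊕ V) :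
    dg (p ::ₘ m) w = dg m w + dl (Sum.inl p.1) w + dl (Sum.inr p.2) w := by
  rw [dg_cons]
  rfl

theorem Mt_pred {k : ℕ} {a : V ⊕ V → ℕ} (hm : Mt H (k + 1) a) : Mt H k a := by
  obtain ⟨m, h1, h2, h3⟩ := hm
  obtain ⟨p, m', rfl, h4⟩ := Mat_any h1
  refine ⟨m', h4, fun q hq => h2 q (Multiset.mem_cons_of_mem hq), Mat_le.mpr fun w => ?_⟩
  have h5 := Mat_le.mp h3 w
  rw [Mat_cons_apply] at h5
  omega

theorem Mt_edge {k : ℕ} {a : V ⊕ V → ℕ} {v u : V ⊕ V} (h : adj H v u) (hm : Mt H k a) :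
    Mt H (k + 1) (a + dl v + dl u) := by
  obtain ⟨m, h1, h2, h3⟩ := hm
  rcases v with i | j <;> rcases u with i' | j'
  · exact h.elim
  · refine ⟨(i, j') ::ₘ m, by rw [Multiset.card_cons, h1], ?_, Mat_le.mpr fun w => ?_⟩
    · intro p hp
      rcases Multiset.mem_cons.mp hp with rfl | hp
      · exact h
      · exact h2 p hp
    · rw [Mat_cons_apply]
      have h4 := Mat_le.mp h3 w
      simp only [Pi.add_apply]
      omega
  · refine ⟨(i', j) ::ₘ m, by rw [Multiset.card_cons, h1], ?_, Mat_le.mpr fun w => ?_⟩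
    · intro p hp
      rcases Multiset.mem_cons.mp hp with rfl | hp
      · exact h
      · exact h2 p hp
    · rw [Mat_cons_apply]
      have h4 := Mat_le.mp h3 w
      simp only [Pi.add_apply]
      omega
  · exact h.elim

private theorem Mat_dl_self (v : V ⊕ V) : dl v v = 1 := by simp [dl]

private theorem Mat_dl_lr (i j : V) : dl (Sum.inl i : V ⊕ V) (Sum.inr j) = 0 := by simp [dl]

private theorem Mat_dl_rl (i j : V) : dl (Sum.inr j : V ⊕ V) (Sum.inl i) = 0 := by simp [dl]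

private theorem Mat_dl_ne {v w : V ⊕ V} (h : w ≠ v) : dl v w = 0 := by simp [dl, h]

theorem Mt_remove {k : ℕ} {a : V ⊕ V → ℕ} (v : V ⊕ V) (hm : Mt H (k + 1) a) :
    Mt H k (a - dl v) := by
  obtain ⟨m, h1, h2, h3⟩ := hm
  by_cases hv : 1 ≤ dg m v
  · obtain ⟨p, hp, hpv⟩ : ∃ p ∈ m, v = Sum.inl p.1 ∨ v = Sum.inr p.2 := by
      rcases v with i | j
      · obtain ⟨j, hj⟩ := Mat_inl hv
        exact ⟨(i, j), hj, Or.inl rfl⟩
      · obtain ⟨i, hi⟩ := Mat_inr hv
        exact ⟨(i, j), hi, Or.inr rfl⟩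
    obtain ⟨m', rfl⟩ := Mat_split hp
    rw [Multiset.card_cons] at h1
    refine ⟨m', by omega, fun q hq => h2 q (Multiset.mem_cons_of_mem hq), Mat_le.mpr fun w => ?_⟩
    have h5 := Mat_le.mp h3 w
    rw [Mat_cons_apply] at h5
    rw [Pi.sub_apply]
    rcases hpv with h6 | h6
    · rw [← h6] at h5
      omega
    · rw [← h6] at h5
      omega
  · obtain ⟨p, m', rfl, h4⟩ := Mat_any h1
    refine ⟨m', h4, fun q hq => h2 q (Multiset.mem_cons_of_mem hq), Mat_le.mpr fun w => ?_⟩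
    have h5 := Mat_le.mp h3 w
    rw [Mat_cons_apply] at h5 hv
    rw [Pi.sub_apply]
    by_cases hw : w = v
    · subst hw
      rw [Mat_dl_self]
      omega
    · rw [Mat_dl_ne hw]
      omega

private theorem Mat_corner_aux {k : ℕ} {a : V ⊕ V → ℕ} {i j : V} (hc : ∀ i' j',
    1 ≤ a (Sum.inl i') → 1 ≤ a (Sum.inr j') → H i' j → H i j' → H i' j')
    (hv : 1 ≤ a (Sum.inl i)) (hu : 1 ≤ a (Sum.inr j)) (hm : Mt H (k + 1) a) :
    Mt H k (a - dl (Sum.inl i) - dl (Sum.inr j)) := by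
  obtain ⟨m, h1, h2, h3⟩ := hm
  by_cases hi : 1 ≤ dg m (Sum.inl i)
  · obtain ⟨j', hj'⟩ := Mat_inl hi
    obtain ⟨m1, rfl⟩ := Mat_split hj'
    rw [Multiset.card_cons] at h1
    have h2' : ∀ q ∈ m1, H q.1 q.2 := fun q hq => h2 q (Multiset.mem_cons_of_mem hq)
    have hij' : H i j' := h2 _ (Multiset.mem_cons_self _ _)
    by_cases hj : 1 ≤ dg m1 (Sum.inr j)
    · obtain ⟨i', hi'⟩ := Mat_inr hj
      obtain ⟨m2, rfl⟩ := Mat_split hi'
      rw [Multiset.card_cons] at h1
      have hi'j : H i' j := h2' _ (Multiset.mem_cons_self _ _)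
      refine ⟨(i', j') ::ₘ m2, by rw [Multiset.card_cons]; omega, ?_, Mat_le.mpr fun w => ?_⟩
      · intro p hp
        rcases Multiset.mem_cons.mp hp with rfl | hp
        · apply hc _ _ _ _ hi'j hij'
          · have h5 := Mat_le.mp h3 (Sum.inl i')
            rw [Mat_cons_apply, Mat_cons_apply, Mat_dl_self] at h5
            omega
          · have h5 := Mat_le.mp h3 (Sum.inr j')
            rw [Mat_cons_apply, Mat_dl_self] at h5
            omega
        · exact h2' p (Multiset.mem_cons_of_mem hp)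
      · have h5 := Mat_le.mp h3 w
        rw [Mat_cons_apply, Mat_cons_apply] at h5
        rw [Mat_cons_apply, Pi.sub_apply, Pi.sub_apply]
        dsimp only at h5 ⊢
        omega
    · refine ⟨m1, by omega, h2', Mat_le.mpr fun w => ?_⟩
      have h5 := Mat_le.mp h3 w
      rw [Mat_cons_apply] at h5
      rw [Pi.sub_apply, Pi.sub_apply]
      dsimp only at h5
      by_cases hw : w = Sum.inr j
      · subst hw
        rw [Mat_dl_self, Mat_dl_lr]
        omega
      · rw [Mat_dl_ne hw]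
        omega
  · by_cases hj : 1 ≤ dg m (Sum.inr j)
    · obtain ⟨i', hi'⟩ := Mat_inr hj
      obtain ⟨m1, rfl⟩ := Mat_split hi'
      rw [Multiset.card_cons] at h1
      refine ⟨m1, by omega, fun q hq => h2 q (Multiset.mem_cons_of_mem hq), Mat_le.mpr fun w => ?_⟩
      have h5 := Mat_le.mp h3 w
      rw [Mat_cons_apply] at h5 hi
      rw [Pi.sub_apply, Pi.sub_apply]
      dsimp only at h5 hi
      by_cases hw : w = Sum.inl i
      · subst hw
        rw [Mat_dl_self, Mat_dl_rl]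
        omega
      · rw [Mat_dl_ne hw]
        omega
    · obtain ⟨p, m', rfl, h4⟩ := Mat_any h1
      refine ⟨m', h4, fun q hq => h2 q (Multiset.mem_cons_of_mem hq), Mat_le.mpr fun w => ?_⟩
      have h5 := Mat_le.mp h3 w
      rw [Mat_cons_apply] at h5 hi hj
      rw [Pi.sub_apply, Pi.sub_apply]
      by_cases hw : w = Sum.inl i
      · subst hw
        rw [Mat_dl_self, Mat_dl_rl]
        omega
      · by_cases hw' : w = Sum.inr j
        · subst hw'
          rw [Mat_dl_self, Mat_dl_lr]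
          omega
        · rw [Mat_dl_ne hw, Mat_dl_ne hw']
          omega

theorem Mt_corner {k : ℕ} {a : V ⊕ V → ℕ} {v u : V ⊕ V} (h : adj H v u) (hc : Cor H a v u)
    (hv : 1 ≤ a v) (hu : 1 ≤ a u) (hm : Mt H (k + 1) a) : Mt H k (a - dl v - dl u) := by
  rcases v with i | j <;> rcases u with i' | j'
  · exact h.elim
  · exact Mat_corner_aux (fun x y hx hy h1 h2 => hc (Sum.inl x) (Sum.inr y) hx hy h1 h2) hv hu hm
  · rw [tsub_right_comm]
    exact Mat_corner_aux (fun x y hx hy h1 h2 => hc (Sum.inr y) (Sum.inl x) hy hx h2 h1) hu hv hm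
  · exact h.elim

theorem Mt_iso {k : ℕ} {a : V ⊕ V → ℕ} (v : V ⊕ V) (h : ∀ u, 1 ≤ a u → ¬ adj H v u)
    (hm : Mt H k a) : Mt H k (a - dl v) := by
  obtain ⟨m, h1, h2, h3⟩ := hm
  refine ⟨m, h1, h2, Mat_le.mpr fun w => ?_⟩
  rw [Pi.sub_apply]
  have h5 := Mat_le.mp h3 w
  by_cases hw : w = v
  · subst hw
    have h6 : ¬ 1 ≤ dg m w := by
      intro h6
      rcases w with i | j
      · obtain ⟨j, hj⟩ := Mat_inl h6
        have h7 := (Mat_pos hj).2
        exact h (Sum.inr j) (h7.trans (Mat_le.mp h3 _)) (h2 _ hj)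
      · obtain ⟨i, hi⟩ := Mat_inr h6
        have h7 := (Mat_pos hi).1
        exact h (Sum.inl i) (h7.trans (Mat_le.mp h3 _)) (h2 _ hi)
    rw [Mat_dl_self]
    omega
  · rw [Mat_dl_ne hw]
    omega

theorem Mt_iso' {k : ℕ} {a : V ⊕ V → ℕ} (v : V ⊕ V) (h : ∀ u, 1 ≤ a u → ¬ adj H v u)
    (hm : Mt H k (a + dl v)) : Mt H k a := by
  have h1 := Mt_iso (a := a + dl v) v (fun u hu hadj => ?_) hm
  · rwa [add_tsub_cancel_right] at h1
  · by_cases hw : u = v
    · subst hw
      exact adj_irrefl u hadj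
    · rw [Pi.add_apply, Mat_dl_ne hw] at hu
      exact h u hu hadj

theorem Mt_pos {k : ℕ} {a : V ⊕ V → ℕ} (hm : Mt H (k + 1) a) :
    ∃ i j, H i j ∧ 1 ≤ a (Sum.inl i) ∧ 1 ≤ a (Sum.inr j) := by
  obtain ⟨m, h1, h2, h3⟩ := hm
  obtain ⟨p, m', rfl, -⟩ := Mat_any h1
  have h4 := Mat_pos (Multiset.mem_cons_self p m')
  exact ⟨p.1, p.2, h2 p (Multiset.mem_cons_self _ _), h4.1.trans (Mat_le.mp h3 _), h4.2.trans (Mat_le.mp h3 _)⟩

theorem Cor_symm {a : V ⊕ V → ℕ} {v u : V ⊕ V} (h : Cor H a v u) : Cor H a u v := by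
  intro u' v' hu hv h1 h2
  exact adj_symm (h v' u' hv hu (adj_symm h2) (adj_symm h1))

theorem Cor_mono {a b : V ⊕ V → ℕ} {v u : V ⊕ V} (hab : a ≤ b) (h : Cor H b v u) :
    Cor H a v u := by
  intro v' u' hv hu h1 h2
  exact h v' u' (hv.trans (hab _)) (hu.trans (hab _)) h1 h2

end Pool.Agent.H52.BE
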