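import Pool.Agent.H52.BE.IniA
import Pool.Agent.H52.BE.Mat

/-!
# Project BE: exchange moves

`exch`: `a = u + dg m`, `m` has `k+1` oriented edges, `x` / `y` are the first left / right vertices of the
support of `a`, `GH x y`.  There are `u''`, `m''` with `k` edges, `u'' + dg m'' + dl x + dl y = a` and
`PP u m - fp x y * PP u'' m'' ∈ LS (k+1) (wd a)`.
Write `i = x`, `j = y`, `f = fp`.  For another pair `(i', b)` of `m`: `i ≤ i'`, `j ≤ b`, `i' < b`.
 (a) `(i, j) ∈ m`: `m'' = m.erase (i,j)`, `u'' = u`, difference 0.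
 (b) `(i, b) ∈ m`, `(a', j) ∈ m`, `b ≠ j`, `a' ≠ i`: `f i b * f a' j - f i j * f a' b = - f i a' * f j b`
     (`ring`); `i < a' < j < b`; `(C)` gives `GH i a'` (from `i j`), `GH j b` and `GH a' b` (from `i b`).
     `m'' = (a', b) ::ₘ rest`, weight: `wt j < wt a'`.
 (c) `(i, b) ∈ m` (`b ≠ j`), `1 ≤ u (inr j)`: `y_j f i b - y_b f i j = y_i f j b`, `GH j b`;
     `u'' = u - dl (inr j) + dl (inr b)`, weight: `wt j < wt i`.
 (d) `1 ≤ u (inl i)`, `(a', j) ∈ m` (`a' ≠ i`): `x_i f a' j - x_a' f i j = - x_j f i a'`, `GH i a'`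
     (from `i j`, `i < a' < j`); `u'' = u - dl (inl i) + dl (inl a')`, weight: `wt j < wt a'`.
 (e) `1 ≤ u (inl i)`, `1 ≤ u (inr j)`, any `(a', b') ∈ m`:
     `x_i y_j f a' b' - x_a' y_b' f i j = x_j y_i f a' b' - x_b' y_a' f i j`;
     `u'' = u - dl i - dl j + dl (inl a') + dl (inr b')`, weights: `wt j + wt a' < wt i + wt a'`,
     `wt b' + wt i < wt i + wt a'`.
As `1 ≤ a (inl i)`: `1 ≤ u (inl i)` or some `(i, b) ∈ m`; as `1 ≤ a (inr j)`: `1 ≤ u (inr j)` or some
`(a', j) ∈ m`.  So (a)-(e) exhaust all cases.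
It may be convenient to prove identities in the form
`PP u (p ::ₘ m) = fp p.1 p.2 * PP u m`, `PP (u + dl v) m = X v * PP u m`.
-/

namespace Pool.Agent.H52.BE

open Finset

variable {V : Type*} [Fintype V] [LinearOrder V] {K : Type*} [Field K] {G : SimpleGraph V}

theorem IniB_PP_cons (u : V ⊕ V → ℕ) (p : V × V) (m : Multiset (V × V)) :
    PP K u (p ::ₘ m) = fp K p.1 p.2 * PP K u m := by
  unfold PP
  rw [Multiset.map_cons, Multiset.prod_cons]
  ring

theorem IniB_PP_dl (u : V ⊕ V → ℕ) (v : V ⊕ V) (m : Multiset (V × V)) :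
    PP K (u + dl v) m = MvPolynomial.X v * PP K u m := by
  unfold PP
  rw [← X_mul_mo]
  ring

theorem IniB_mem (k w : ℕ) (u : V ⊕ V → ℕ) (m : Multiset (V × V)) (h1 : m.card = k)
    (h2 : ∀ p ∈ m, GH G p.1 p.2) (h3 : wd (u + dg m) < w) : PP K u m ∈ LS K G k w :=
  Submodule.subset_span ⟨u, m, h1, h2, h3, rfl⟩

theorem IniB_wdcons (u : V ⊕ V → ℕ) (p : V × V) (m : Multiset (V × V)) :
    wd (u + dg (p ::ₘ m)) = wd (u + dg m) + wt (Sum.inl p.1 : V ⊕ V) := by
  rw [dg_cons, ← add_assoc, ← add_assoc, wd_add, wd_add, wd_dl, wd_dl]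
  simp [wt]

theorem IniB_wddl (u : V ⊕ V → ℕ) (v : V ⊕ V) (m : Multiset (V × V)) :
    wd (u + dl v + dg m) = wd (u + dg m) + wt v := by
  rw [add_right_comm, wd_add, wd_dl]

theorem IniB_dl_le {u : V ⊕ V → ℕ} {v : V ⊕ V} (h : 1 ≤ u v) : u = (u - dl v) + dl v := by
  symm
  apply tsub_add_cancel_of_le
  intro w
  by_cases hw : w = v
  · subst hw; simpa [dl] using h
  · simp [dl, hw]

theorem IniB_dg_pos_inl {m : Multiset (V × V)} {x : V} (h : 1 ≤ dg m (Sum.inl x)) :
    ∃ b, (x, b) ∈ m := by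
  have h1 : x ∈ m.map Prod.fst := Multiset.one_le_count_iff_mem.1 h
  obtain ⟨p, hp, rfl⟩ := Multiset.mem_map.1 h1
  exact ⟨p.2, hp⟩

theorem IniB_dg_pos_inr {m : Multiset (V × V)} {y : V} (h : 1 ≤ dg m (Sum.inr y)) :
    ∃ a, (a, y) ∈ m := by
  have h1 : y ∈ m.map Prod.snd := Multiset.one_le_count_iff_mem.1 h
  obtain ⟨p, hp, rfl⟩ := Multiset.mem_map.1 h1
  exact ⟨p.1, hp⟩

theorem IniB_mem_pos {u : V ⊕ V → ℕ} {m : Multiset (V × V)} {p : V × V} (h : p ∈ m) :
    1 ≤ (u + dg m : V ⊕ V → ℕ) (Sum.inl p.1) ∧ 1 ≤ (u + dg m : V ⊕ V → ℕ) (Sum.inr p.2) := by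
  obtain ⟨m', rfl⟩ := Multiset.exists_cons_of_mem h
  rw [dg_cons]
  constructor <;> simp [dl] <;> omega

theorem exch (hC : CC G) (k : ℕ) (u : V ⊕ V → ℕ) (m : Multiset (V × V)) (hm : m.card = k + 1)
    (hmG : ∀ p ∈ m, GH G p.1 p.2) (x y : V) (hxy : GH G x y)
    (hx : 1 ≤ (u + dg m : V ⊕ V → ℕ) (Sum.inl x)) (hy : 1 ≤ (u + dg m : V ⊕ V → ℕ) (Sum.inr y))
    (hfx : ∀ i, 1 ≤ (u + dg m : V ⊕ V → ℕ) (Sum.inl i) → x ≤ i)
    (hfy : ∀ j, 1 ≤ (u + dg m : V ⊕ V → ℕ) (Sum.inr j) → y ≤ j) :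
    ∃ (u'' : V ⊕ V → ℕ) (m'' : Multiset (V × V)), m''.card = k ∧ (∀ p ∈ m'', GH G p.1 p.2) ∧
      u'' + dg m'' + dl (Sum.inl x) + dl (Sum.inr y) = u + dg m ∧
      PP K u m - fp K x y * PP K u'' m'' ∈ LS K G (k + 1) (wd (u + dg m)) := by
  have hxylt : x < y := hxy.1
  -- every pair of `m` has `x ≤ p.1` and `y ≤ p.2`
  have hp1 : ∀ p ∈ m, x ≤ p.1 := fun p hp => hfx _ (IniB_mem_pos hp).1
  have hp2 : ∀ p ∈ m, y ≤ p.2 := fun p hp => hfy _ (IniB_mem_pos hp).2
  by_cases ha : (x, y) ∈ m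
  · obtain ⟨m', rfl⟩ := Multiset.exists_cons_of_mem ha
    refine ⟨u, m', by simpa using hm, fun p hp => hmG p (Multiset.mem_cons_of_mem hp), ?_, ?_⟩
    · rw [dg_cons]; simp only [← add_assoc]
    · rw [IniB_PP_cons, sub_self]; exact Submodule.zero_mem _
  -- adjacency of the other vertices
  have adj1 : ∀ a', a' ≠ x → (a', y) ∈ m → GH G x a' := by
    intro a' hne h
    have h1 : x < a' := lt_of_le_of_ne (hp1 _ h) (Ne.symm hne)
    exact ⟨h1, (hC x a' y h1 (hmG _ h).1 hxy.2).1⟩
  have adj2 : ∀ b, b ≠ y → (x, b) ∈ m → GH G y b := by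
    intro b hne h
    have h1 : y < b := lt_of_le_of_ne (hp2 _ h) (Ne.symm hne)
    exact ⟨h1, (hC x y b hxylt h1 (hmG _ h).2).2⟩
  by_cases hx1 : 1 ≤ u (Sum.inl x)
  · by_cases hy1 : 1 ≤ u (Sum.inr y)
    · -- case (e)
      obtain ⟨p, hp⟩ : ∃ p, p ∈ m := by
        apply Multiset.exists_mem_of_ne_zero
        rintro rfl
        simp at hm
      obtain ⟨a', b'⟩ := p
      obtain ⟨m', rfl⟩ := Multiset.exists_cons_of_mem hp
      have hu1 := IniB_dl_le hx1
      set u1 := u - dl (Sum.inl x) with hu1d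
      have hy1' : 1 ≤ u1 (Sum.inr y) := by
        rw [hu1] at hy1
        simpa [dl] using hy1
      have hu2 := IniB_dl_le hy1'
      set u2 := u1 - dl (Sum.inr y) with hu2d
      have hu : u = u2 + dl (Sum.inr y) + dl (Sum.inl x) := by rw [← hu2, ← hu1]
      have hab : GH G a' b' := hmG _ hp
      have hm'G : ∀ p ∈ m', GH G p.1 p.2 := fun p h => hmG p (Multiset.mem_cons_of_mem h)
      have hxa : x ≤ a' := hp1 _ hp
      refine ⟨u2 + dl (Sum.inl a') + dl (Sum.inr b'), m', by simpa using hm, hm'G, ?_, ?_⟩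
      · rw [hu, dg_cons]
        abel
      · have e : PP K u ((a', b') ::ₘ m')
            - fp K x y * PP K (u2 + dl (Sum.inl a') + dl (Sum.inr b')) m'
            = PP K (u2 + dl (Sum.inl y) + dl (Sum.inr x)) ((a', b') ::ₘ m')
              - PP K (u2 + dl (Sum.inl b') + dl (Sum.inr a')) ((x, y) ::ₘ m') := by
          rw [hu]
          simp only [IniB_PP_cons, IniB_PP_dl, fp]
          ring
        rw [e]
        have w1 : wt (Sum.inl y : V ⊕ V) < wt (Sum.inl x : V ⊕ V) := wt_lt hxylt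
        have w2 : wt (Sum.inl b' : V ⊕ V) < wt (Sum.inl a' : V ⊕ V) := wt_lt hab.1
        have w3 : ∀ v : V, wt (Sum.inr v : V ⊕ V) = 0 := fun v => rfl
        apply Submodule.sub_mem
        · apply IniB_mem _ _ _ _ (by simpa using hm) hmG
          rw [hu]
          simp only [IniB_wdcons, IniB_wddl, w3]
          omega
        · apply IniB_mem _ _ _ _ (by simpa using hm)
          · intro p h
            rcases Multiset.mem_cons.1 h with h | h
            · subst h; exact hxy
            · exact hm'G p h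
          · rw [hu]
            simp only [IniB_wdcons, IniB_wddl, w3]
            omega
    · -- case (d): `x` in `u`, `(a', y)` in `m`
      have hy2 : 1 ≤ dg m (Sum.inr y) := by
        have : (u + dg m : V ⊕ V → ℕ) (Sum.inr y) = u (Sum.inr y) + dg m (Sum.inr y) := rfl
        omega
      obtain ⟨a', hp⟩ := IniB_dg_pos_inr hy2
      have hne : a' ≠ x := by rintro rfl; exact ha hp
      have hxa := adj1 a' hne hp
      have hay : a' < y := (hmG _ hp).1
      obtain ⟨m', rfl⟩ := Multiset.exists_cons_of_mem hp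
      have hm'G : ∀ p ∈ m', GH G p.1 p.2 := fun p h => hmG p (Multiset.mem_cons_of_mem h)
      have hu := IniB_dl_le hx1
      set u1 := u - dl (Sum.inl x) with hu1d
      refine ⟨u1 + dl (Sum.inl a'), m', by simpa using hm, hm'G, ?_, ?_⟩
      · rw [hu, dg_cons]
        abel
      · have e : PP K u ((a', y) ::ₘ m') - fp K x y * PP K (u1 + dl (Sum.inl a')) m'
            = - PP K (u1 + dl (Sum.inl y)) ((x, a') ::ₘ m') := by
          rw [hu]
          simp only [IniB_PP_cons, IniB_PP_dl, fp]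
          ring
        rw [e]
        apply Submodule.neg_mem
        have w1 : wt (Sum.inl y : V ⊕ V) < wt (Sum.inl a' : V ⊕ V) := wt_lt hay
        apply IniB_mem _ _ _ _ (by simpa using hm)
        · intro p h
          rcases Multiset.mem_cons.1 h with h | h
          · subst h; exact hxa
          · exact hm'G p h
        · rw [hu]
          simp only [IniB_wdcons, IniB_wddl]
          omega
  · have hx2 : 1 ≤ dg m (Sum.inl x) := by
      have : (u + dg m : V ⊕ V → ℕ) (Sum.inl x) = u (Sum.inl x) + dg m (Sum.inl x) := rfl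
      omega
    obtain ⟨b, hpb⟩ := IniB_dg_pos_inl hx2
    have hneb : b ≠ y := by rintro rfl; exact ha hpb
    have hyb := adj2 b hneb hpb
    by_cases hy1 : 1 ≤ u (Sum.inr y)
    · -- case (c)
      obtain ⟨m', rfl⟩ := Multiset.exists_cons_of_mem hpb
      have hm'G : ∀ p ∈ m', GH G p.1 p.2 := fun p h => hmG p (Multiset.mem_cons_of_mem h)
      have hu := IniB_dl_le hy1
      set u1 := u - dl (Sum.inr y) with hu1d
      refine ⟨u1 + dl (Sum.inr b), m', by simpa using hm, hm'G, ?_, ?_⟩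
      · rw [hu, dg_cons]
        abel
      · have e : PP K u ((x, b) ::ₘ m') - fp K x y * PP K (u1 + dl (Sum.inr b)) m'
            = PP K (u1 + dl (Sum.inr x)) ((y, b) ::ₘ m') := by
          rw [hu]
          simp only [IniB_PP_cons, IniB_PP_dl, fp]
          ring
        rw [e]
        have w1 : wt (Sum.inl y : V ⊕ V) < wt (Sum.inl x : V ⊕ V) := wt_lt hxylt
        have w3 : ∀ v : V, wt (Sum.inr v : V ⊕ V) = 0 := fun v => rfl
        apply IniB_mem _ _ _ _ (by simpa using hm)
        · intro p h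
          rcases Multiset.mem_cons.1 h with h | h
          · subst h; exact hyb
          · exact hm'G p h
        · rw [hu]
          simp only [IniB_wdcons, IniB_wddl, w3]
          omega
    · -- case (b)
      have hy2 : 1 ≤ dg m (Sum.inr y) := by
        have : (u + dg m : V ⊕ V → ℕ) (Sum.inr y) = u (Sum.inr y) + dg m (Sum.inr y) := rfl
        omega
      obtain ⟨a', hpa⟩ := IniB_dg_pos_inr hy2
      have hnea : a' ≠ x := by rintro rfl; exact ha hpa
      have hxa := adj1 a' hnea hpa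
      have hay : a' < y := (hmG _ hpa).1
      have hxb : G.Adj x b := (hmG _ hpb).2
      have hab : GH G a' b :=
        ⟨hay.trans hyb.1, (hC x a' b hxa.1 (hay.trans hyb.1) hxb).2⟩
      obtain ⟨m1, rfl⟩ := Multiset.exists_cons_of_mem hpb
      have hpa' : (a', y) ∈ m1 := by
        rcases Multiset.mem_cons.1 hpa with h | h
        · exact absurd (congrArg Prod.fst h) hnea
        · exact h
      obtain ⟨m', rfl⟩ := Multiset.exists_cons_of_mem hpa'
      have hm'G : ∀ p ∈ m', GH G p.1 p.2 := fun p h =>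
        hmG p (Multiset.mem_cons_of_mem (Multiset.mem_cons_of_mem h))
      refine ⟨u, (a', b) ::ₘ m', by simpa using hm, ?_, ?_, ?_⟩
      · intro p h
        rcases Multiset.mem_cons.1 h with h | h
        · subst h; exact hab
        · exact hm'G p h
      · simp only [dg_cons]
        abel
      · have e : PP K u ((x, b) ::ₘ (a', y) ::ₘ m') - fp K x y * PP K u ((a', b) ::ₘ m')
            = - PP K u ((x, a') ::ₘ (y, b) ::ₘ m') := by
          simp only [IniB_PP_cons, fp]
          ring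
        rw [e]
        apply Submodule.neg_mem
        have w1 : wt (Sum.inl y : V ⊕ V) < wt (Sum.inl a' : V ⊕ V) := wt_lt hay
        apply IniB_mem _ _ _ _ (by simpa using hm)
        · intro p h
          rcases Multiset.mem_cons.1 h with h | h
          · subst h; exact hxa
          rcases Multiset.mem_cons.1 h with h | h
          · subst h; exact hyb
          · exact hm'G p h
        · simp only [IniB_wdcons]
          omega

end Pool.Agent.H52.BE
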