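import Pool.Agent.H52.BE.IniB
import Pool.Agent.H52.BE.Cor

/-!
# Project BE: two factorisations

`two_fact`: two factorisations `u + dg m = u' + dg m'` with the same number of edges:
`PP u m - PP u' m' ∈ LS k (wd a)`.  Strong induction on `∑ a`.  `k = 0`: `m = m' = 0`, `u = u'`.
`k ≥ 1`: the support has a left and a right vertex; `x`, `y` the first ones.  `GH x y`: `exch` twice,
induction hypothesis for `u'' + dg m'' = u''' + dg m'''` (`= a - dl x - dl y`), `fp_mul_LS`
(`wd (a - dl x - dl y) + wt x ≤ wd a`).  Not `GH x y`: `x` or `y` is isolated in the support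
(`iso_or`-type argument with `SO_GH`; import `Cor`), say `v`: no pair of `m`, `m'` covers `v`, so
`u v, u' v ≥ 1`; induction hypothesis for `u - dl v`, `u' - dl v`, `X_mul_LS`.
-/

namespace Pool.Agent.H52.BE

open Finset

variable {V : Type*} [Fintype V] [LinearOrder V] {K : Type*} [Field K] {G : SimpleGraph V}

private theorem dg_pos_l {m : Multiset (V × V)} {p : V × V} (hp : p ∈ m) :
    1 ≤ dg m (Sum.inl p.1) := by
  show 1 ≤ (m.map Prod.fst).count p.1
  exact Multiset.one_le_count_iff_mem.2 (Multiset.mem_map_of_mem _ hp)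

private theorem dg_pos_r {m : Multiset (V × V)} {p : V × V} (hp : p ∈ m) :
    1 ≤ dg m (Sum.inr p.2) := by
  show 1 ≤ (m.map Prod.snd).count p.2
  exact Multiset.one_le_count_iff_mem.2 (Multiset.mem_map_of_mem _ hp)

private theorem dg_iso {u : V ⊕ V → ℕ} {m : Multiset (V × V)} (hmG : ∀ p ∈ m, GH G p.1 p.2)
    (v : V ⊕ V) (h : ∀ w, 1 ≤ (u + dg m : V ⊕ V → ℕ) w → ¬ adj (GH G) v w) : dg m v = 0 := by
  by_contra hne
  have hpos : 0 < dg m v := Nat.pos_of_ne_zero hne
  cases v with
  | inl i =>
    have h1 : 0 < (m.map Prod.fst).count i := hpos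
    have h2 : i ∈ m.map Prod.fst := Multiset.count_pos.1 h1
    obtain ⟨p, hp, rfl⟩ := Multiset.mem_map.1 h2
    refine h (Sum.inr p.2) ?_ ?_
    · have := dg_pos_r hp
      simp only [Pi.add_apply]
      omega
    · exact hmG p hp
  | inr j =>
    have h1 : 0 < (m.map Prod.snd).count j := hpos
    have h2 : j ∈ m.map Prod.snd := Multiset.count_pos.1 h1
    obtain ⟨p, hp, rfl⟩ := Multiset.mem_map.1 h2
    refine h (Sum.inl p.1) ?_ ?_
    · have := dg_pos_l hp
      simp only [Pi.add_apply]
      omega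
    · exact hmG p hp

private theorem PP_add_dl (u : V ⊕ V → ℕ) (v : V ⊕ V) (m : Multiset (V × V)) :
    PP K (u + dl v) m = MvPolynomial.X v * PP K u m := by
  unfold PP
  rw [← mul_assoc, X_mul_mo]

private theorem sub_add_dl {u : V ⊕ V → ℕ} {v : V ⊕ V} (h : 1 ≤ u v) : u - dl v + dl v = u := by
  funext w
  simp only [Pi.add_apply, Pi.sub_apply, dl]
  by_cases hw : w = v
  · subst hw
    simp only [if_true]
    omega
  · simp only [hw, if_false]
    omega

private theorem sum_dl (v : V ⊕ V) : ∑ w, (dl v : V ⊕ V → ℕ) w = 1 := by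
  simp [dl]

theorem two_fact (hC : CC G) : ∀ (n k : ℕ) (u u' : V ⊕ V → ℕ) (m m' : Multiset (V × V)),
    ∑ v, (u + dg m : V ⊕ V → ℕ) v = n → m.card = k → m'.card = k →
    (∀ p ∈ m, GH G p.1 p.2) → (∀ p ∈ m', GH G p.1 p.2) → u + dg m = u' + dg m' →
    PP K u m - PP K u' m' ∈ LS K G k (wd (u + dg m)) := by
  intro n
  induction n using Nat.strong_induction_on with
  | _ n ih =>
  intro k u u' m m' hn hm hm' hmG hmG' he
  rcases k with _ | k
  · have h1 : m = 0 := Multiset.card_eq_zero.1 hm
    have h2 : m' = 0 := Multiset.card_eq_zero.1 hm'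
    subst h1 h2
    have h3 : u = u' := add_right_cancel he
    rw [h3, sub_self]
    exact Submodule.zero_mem _
  · -- first left and right vertices of the support
    have hmpos : 0 < m.card := by omega
    obtain ⟨p, hp⟩ := Multiset.card_pos_iff_exists_mem.1 hmpos
    have hL : (univ.filter (fun i : V => 1 ≤ (u + dg m : V ⊕ V → ℕ) (Sum.inl i))).Nonempty := by
      refine ⟨p.1, ?_⟩
      have := dg_pos_l hp
      simp only [mem_filter, mem_univ, true_and, Pi.add_apply]
      omega
    have hR : (univ.filter (fun j : V => 1 ≤ (u + dg m : V ⊕ V → ℕ) (Sum.inr j))).Nonempty := by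
      refine ⟨p.2, ?_⟩
      have := dg_pos_r hp
      simp only [mem_filter, mem_univ, true_and, Pi.add_apply]
      omega
    obtain ⟨x, hx, hfx⟩ : ∃ x, 1 ≤ (u + dg m : V ⊕ V → ℕ) (Sum.inl x) ∧
        ∀ i, 1 ≤ (u + dg m : V ⊕ V → ℕ) (Sum.inl i) → x ≤ i := by
      refine ⟨Finset.min' _ hL, (mem_filter.1 (Finset.min'_mem _ hL)).2, fun i hi => ?_⟩
      have hmem : i ∈ univ.filter (fun i : V => 1 ≤ (u + dg m : V ⊕ V → ℕ) (Sum.inl i)) :=
        mem_filter.2 ⟨mem_univ _, hi⟩
      exact Finset.min'_le _ i hmem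
    obtain ⟨y, hy, hfy⟩ : ∃ y, 1 ≤ (u + dg m : V ⊕ V → ℕ) (Sum.inr y) ∧
        ∀ j, 1 ≤ (u + dg m : V ⊕ V → ℕ) (Sum.inr j) → y ≤ j := by
      refine ⟨Finset.min' _ hR, (mem_filter.1 (Finset.min'_mem _ hR)).2, fun i hi => ?_⟩
      have hmem : i ∈ univ.filter (fun i : V => 1 ≤ (u + dg m : V ⊕ V → ℕ) (Sum.inr i)) :=
        mem_filter.2 ⟨mem_univ _, hi⟩
      exact Finset.min'_le _ i hmem
    by_cases hxy : GH G x y
    · obtain ⟨u1, m1, hc1, hG1, he1, hd1⟩ :=
        exch (K := K) hC k u m hm hmG x y hxy hx hy hfx hfy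
      obtain ⟨u2, m2, hc2, hG2, he2, hd2⟩ :=
        exch (K := K) hC k u' m' hm' hmG' x y hxy (by rw [← he]; exact hx)
          (by rw [← he]; exact hy) (by rw [← he]; exact hfx) (by rw [← he]; exact hfy)
      have he3 : u1 + dg m1 = u2 + dg m2 := by
        have h1 : u1 + dg m1 + dl (Sum.inl x) + dl (Sum.inr y)
            = u2 + dg m2 + dl (Sum.inl x) + dl (Sum.inr y) := by
          rw [he1, he2, he]
        exact add_right_cancel (add_right_cancel h1)
      have hs : ∑ v, (u1 + dg m1 : V ⊕ V → ℕ) v < n := by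
        rw [← hn, ← he1]
        simp only [Pi.add_apply (f := u1 + dg m1 + dl (Sum.inl x)),
          Pi.add_apply (f := u1 + dg m1), Finset.sum_add_distrib, sum_dl]
        omega
      have hI := ih _ hs k u1 u2 m1 m2 rfl hc1 hc2 hG1 hG2 he3
      have hF := fp_mul_LS k _ x y hxy _ hI
      have hw : wd (u1 + dg m1) + wt (Sum.inl x) ≤ wd (u + dg m) := by
        rw [← he1, wd_add (u1 + dg m1 + dl (Sum.inl x)), wd_add (u1 + dg m1), wd_dl, wd_dl]
        omega
      have hF' := LS_mono (k + 1) hw hF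
      rw [← he] at hd2
      have hsum := Submodule.add_mem _ (Submodule.sub_mem _ hd1 hd2) hF'
      have heq : PP K u m - PP K u' m' = PP K u m - fp K x y * PP K u1 m1
          - (PP K u' m' - fp K x y * PP K u2 m2)
          + fp K x y * (PP K u1 m1 - PP K u2 m2) := by ring
      rw [heq]
      exact hsum
    · have key : ∀ v : V ⊕ V, 1 ≤ (u + dg m : V ⊕ V → ℕ) v →
          (∀ w, 1 ≤ (u + dg m : V ⊕ V → ℕ) w → ¬ adj (GH G) v w) →
          PP K u m - PP K u' m' ∈ LS K G (k + 1) (wd (u + dg m)) := by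
        intro v hv hiso
        have h1 : dg m v = 0 := dg_iso hmG v hiso
        have h2 : dg m' v = 0 := dg_iso (u := u') hmG' v (by rw [← he]; exact hiso)
        have hu : 1 ≤ u v := by
          simp only [Pi.add_apply] at hv
          omega
        have hu' : 1 ≤ u' v := by
          rw [he] at hv
          simp only [Pi.add_apply] at hv
          omega
        have e1 := sub_add_dl hu
        have e2 := sub_add_dl hu'
        have he3 : u - dl v + dg m = u' - dl v + dg m' := by
          have h3 : u - dl v + dg m + dl v = u' - dl v + dg m' + dl v := by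
            rw [add_right_comm, e1, he, add_right_comm, e2]
          exact add_right_cancel h3
        have he4 : u - dl v + dg m + dl v = u + dg m := by
          rw [add_right_comm, e1]
        have hs : ∑ w, (u - dl v + dg m : V ⊕ V → ℕ) w < n := by
          rw [← hn, ← he4]
          simp only [Pi.add_apply (f := u - dl v + dg m), Finset.sum_add_distrib, sum_dl]
          omega
        have hI := ih _ hs (k + 1) (u - dl v) (u' - dl v) m m' rfl hm hm' hmG hmG' he3
        have hX := X_mul_LS (k + 1) _ v _ hI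
        have hw : wd (u - dl v + dg m) + wt v = wd (u + dg m) := by
          rw [← he4, wd_add (u - dl v + dg m), wd_dl]
        rw [hw, mul_sub, ← PP_add_dl, ← PP_add_dl, e1, e2] at hX
        exact hX
      rcases iso_or (SO_GH hC) hxy hfx hfy with h | h
      · exact key _ hx h
      · exact key _ hy h

end Pool.Agent.H52.BE
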