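import Pool.Agent.H52.BE.IniB2

/-!
# Project BE: the initial ideal of `J^k`

`ini`: `g ∈ J^k`, all exponents of `g` of weight `≤ w`; then every exponent `b` of `g` of weight `w`
satisfies `Mt (GH G) k b`.
PROOF.  (1) `reduce`: `g ∈ LS k (w+2)` and all exponents of `g` have weight `≤ w` implies
`g ∈ LS k (w+1)`.  For `b` with `Mt (GH G) k b` choose a factorisation `b = u_b + dg m_b` with `k`
edges (`Mt` gives `dg m ≤ b`, `u = b - dg m`).  Define the `K`-linear map `φ`
(`MvPolynomial.basisMonomials` / `Finsupp.lsum`, or as a finite sum over the exponents)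
`φ (mo b) = PP u_b m_b` if `wd b = w+1` and `Mt (GH G) k b`, and `0` otherwise.
For every `h ∈ LS k (w+2)`: `h - φ h ∈ LS k (w+1)` (span induction: for a generator `PP u m` with
`b = u + dg m`: if `wd b = w+1` then `φ (PP u m) = PP u_b m_b` since all other exponents of `PP u m` have
smaller weight (`PP_lead`), and `two_fact`; if `wd b ≤ w` then `φ (PP u m) = 0`).
For `g` with exponents of weight `≤ w`: `φ g = 0`.
(2) `exists_LS` and (1) repeatedly: `g ∈ LS k (w+1)`.
(3) for every `g ∈ LS k (w+1)`: an exponent `b` of `g` with `wd b = w` has `Mt (GH G) k b` (span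
induction with `PP_lead`).
-/

namespace Pool.Agent.H52.BE

open Finset

variable {V : Type*} [Fintype V] [LinearOrder V] {K : Type*} [Field K] {G : SimpleGraph V}

theorem IniC_choose (k : ℕ) (b : V ⊕ V → ℕ) (h : Mt (GH G) k b) :
    ∃ (u : V ⊕ V → ℕ) (m : Multiset (V × V)), m.card = k ∧ (∀ p ∈ m, GH G p.1 p.2) ∧
      u + dg m = b := by
  obtain ⟨m, h1, h2, h3⟩ := h
  exact ⟨b - dg m, m, h1, h2, tsub_add_cancel_of_le h3⟩

open scoped Classical in
/-- the canonical product with leading exponent `b` -/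
noncomputable def fbC (K : Type*) [Field K] (G : SimpleGraph V) (k w : ℕ)
    (b : (V ⊕ V) →₀ ℕ) : MvPolynomial (V ⊕ V) K :=
  if h : wd (b : V ⊕ V → ℕ) = w + 1 ∧ Mt (GH G) k (b : V ⊕ V → ℕ) then
    PP K (IniC_choose k _ h.2).choose (IniC_choose k _ h.2).choose_spec.choose
  else 0

theorem fbC_zero (k w : ℕ) (b : (V ⊕ V) →₀ ℕ) (h : wd (b : V ⊕ V → ℕ) ≠ w + 1) :
    fbC K G k w b = 0 := by
  unfold fbC
  rw [dif_neg]
  intro h1
  exact h h1.1

/-- the linear map `mo b ↦ fbC b` -/
noncomputable def phiC (K : Type*) [Field K] (G : SimpleGraph V) (k w : ℕ) :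
    MvPolynomial (V ⊕ V) K →ₗ[K] MvPolynomial (V ⊕ V) K :=
  (MvPolynomial.basisMonomials (V ⊕ V) K).constr K (fbC K G k w)

theorem phiC_apply (k w : ℕ) (g : MvPolynomial (V ⊕ V) K) :
    phiC K G k w g = ∑ b ∈ g.support, MvPolynomial.coeff b g • fbC K G k w b := by
  unfold phiC
  rw [Module.Basis.constr_apply]
  rfl

theorem phiC_low (k w : ℕ) (g : MvPolynomial (V ⊕ V) K)
    (hg : ∀ b, w < wd b → cf b g = 0) : phiC K G k w g = 0 := by
  rw [phiC_apply]
  apply Finset.sum_eq_zero
  intro b hb
  by_cases h : wd (b : V ⊕ V → ℕ) = w + 1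
  · have h1 := hg (b : V ⊕ V → ℕ) (by omega)
    have h2 : Finsupp.equivFunOnFinite.symm (b : V ⊕ V → ℕ) = b :=
      Finsupp.equivFunOnFinite.symm_apply_apply b
    unfold cf at h1
    rw [h2] at h1
    rw [h1, zero_smul]
  · rw [fbC_zero k w b h, smul_zero]

theorem phiC_PP (hC : CC G) (k w : ℕ) (u : V ⊕ V → ℕ) (m : Multiset (V × V))
    (hm : m.card = k) (hmG : ∀ p ∈ m, GH G p.1 p.2) (hw : wd (u + dg m) = w + 1) :
    PP K u m - phiC K G k w (PP K u m) ∈ LS K G k (w + 1) := by
  set b0 : (V ⊕ V) →₀ ℕ := Finsupp.equivFunOnFinite.symm (u + dg m) with hb0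
  have hb0' : (b0 : V ⊕ V → ℕ) = u + dg m := by
    rw [hb0]; rfl
  have hlead := PP_lead (K := K) u m (fun p hp => (hmG p hp).1)
  have hMt : Mt (GH G) k (u + dg m) :=
    ⟨m, hm, hmG, le_add_of_nonneg_left (fun _ => Nat.zero_le _)⟩
  have hphi : phiC K G k w (PP K u m) = fbC K G k w b0 := by
    rw [phiC_apply]
    have h1 : MvPolynomial.coeff b0 (PP K u m) = 1 := hlead.1
    rw [Finset.sum_eq_single b0]
    · rw [h1, one_smul]
    · intro b _ hb
      by_cases h : wd (b : V ⊕ V → ℕ) = w + 1
      · have h2 : Finsupp.equivFunOnFinite.symm (b : V ⊕ V → ℕ) = b :=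
          Finsupp.equivFunOnFinite.symm_apply_apply b
        have h3 := hlead.2 (b : V ⊕ V → ℕ) (by
          intro heq
          apply hb
          rw [← h2, heq]) (by omega)
        unfold cf at h3
        rw [h2] at h3
        rw [h3, zero_smul]
      · rw [fbC_zero k w b h, smul_zero]
    · intro h
      rw [MvPolynomial.notMem_support_iff] at h
      rw [h, zero_smul]
  rw [hphi]
  have hcond : wd (b0 : V ⊕ V → ℕ) = w + 1 ∧ Mt (GH G) k (b0 : V ⊕ V → ℕ) := by
    rw [hb0']; exact ⟨hw, hMt⟩
  unfold fbC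
  rw [dif_pos hcond]
  obtain ⟨h1, h2, h3⟩ := (IniC_choose k _ hcond.2).choose_spec.choose_spec
  have := two_fact (K := K) hC _ k u _ m _ rfl hm h1 hmG h2 (by rw [h3, hb0'])
  rw [hw] at this
  exact this

theorem reduceC (hC : CC G) (k w : ℕ) (g : MvPolynomial (V ⊕ V) K) (hg : g ∈ LS K G k (w + 2))
    (hw : ∀ b, w < wd b → cf b g = 0) : g ∈ LS K G k (w + 1) := by
  have key : ∀ h ∈ LS K G k (w + 2), h - phiC K G k w h ∈ LS K G k (w + 1) := by
    intro h hh
    unfold LS at hh
    induction hh using Submodule.span_induction with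
    | mem x hx =>
      obtain ⟨u, m, h1, h2, h3, rfl⟩ := hx
      by_cases h4 : wd (u + dg m) = w + 1
      · exact phiC_PP hC k w u m h1 h2 h4
      · have h5 : wd (u + dg m) < w + 1 := by omega
        have h6 : phiC K G k w (PP K u m) = 0 := by
          apply phiC_low
          intro b hb
          have hlead := PP_lead (K := K) u m (fun p hp => (h2 p hp).1)
          apply hlead.2 b
          · intro heq; rw [heq] at hb; omega
          · omega
        rw [h6, sub_zero]
        exact Submodule.subset_span ⟨u, m, h1, h2, h5, rfl⟩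
    | zero => simp
    | add x y hx hy h1 h2 =>
      rw [map_add, add_sub_add_comm]
      exact Submodule.add_mem _ h1 h2
    | smul r x hx h1 =>
      rw [map_smul, ← smul_sub]
      exact Submodule.smul_mem _ r h1
  have := key g hg
  rw [phiC_low k w g hw, sub_zero] at this
  exact this

theorem ini (hC : CC G) (k w : ℕ) (g : MvPolynomial (V ⊕ V) K) (hg : g ∈ (JG K G) ^ k)
    (hw : ∀ b, w < wd b → cf b g = 0) (b : V ⊕ V → ℕ) (hb : wd b = w) (hne : cf b g ≠ 0) :
    Mt (GH G) k b := by
  obtain ⟨N, hN⟩ := exists_LS k g hg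
  have hN' : g ∈ LS K G k (w + 1 + N) := LS_mono k (by omega) hN
  have hred : ∀ n, g ∈ LS K G k (w + 1 + n) → g ∈ LS K G k (w + 1) := by
    intro n
    induction n with
    | zero => intro h; exact h
    | succ n ih =>
      intro h
      apply ih
      have e : w + 1 + (n + 1) = (w + n) + 2 := by omega
      rw [e] at h
      have := reduceC hC k (w + n) g h (fun b hb => hw b (by omega))
      have e2 : w + 1 + n = (w + n) + 1 := by omega
      rw [e2]
      exact this
  have hfin := hred N hN'
  have key : ∀ h ∈ LS K G k (w + 1), ∀ b : V ⊕ V → ℕ, wd b = w → cf b h ≠ 0 →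
      Mt (GH G) k b := by
    intro h hh
    unfold LS at hh
    induction hh using Submodule.span_induction with
    | mem x hx =>
      obtain ⟨u, m, h1, h2, h3, rfl⟩ := hx
      intro b hb hne
      have hlead := PP_lead (K := K) u m (fun p hp => (h2 p hp).1)
      by_cases h4 : b = u + dg m
      · rw [h4]
        exact ⟨m, h1, h2, le_add_of_nonneg_left (fun _ => Nat.zero_le _)⟩
      · exact absurd (hlead.2 b h4 (by omega)) hne
    | zero => intro b _ hne; exact absurd (by simp [cf]) hne
    | add x y hx hy h1 h2 =>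
      intro b hb hne
      by_cases h3 : cf b x = 0
      · apply h2 b hb
        intro h4
        apply hne
        unfold cf at *
        rw [MvPolynomial.coeff_add, h3, h4, add_zero]
      · exact h1 b hb h3
    | smul r x hx h1 =>
      intro b hb hne
      apply h1 b hb
      intro h3
      apply hne
      unfold cf at *
      rw [MvPolynomial.coeff_smul, h3, smul_zero]
  exact key g hfin b hb hne

end Pool.Agent.H52.BE
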