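import Pool.Agent.H52.BE.Lev2
import Pool.Agent.H52.BE.Cor

/-!
# Project BE: injectivity of the first edge for the monomial ideal

`x0` is the first left vertex with a neighbour, `y0` has `x0` as its only neighbour.

`keyI`: `u ∈ Lv (dl x0) a (k+1)`, `dd u = 0` implies `u = dd w`, `w ∈ Lv 0 a k`.
If `x0` has a neighbour in the support of `a`, let `y` be the smallest one; `(x0, y)` is a corner in
`a + dl x0` (for `v' = inl i'`, `u' = inr j'` in the support with `H i' y`, `H x0 j'`: `x0 ≤ i'` by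
`hx`, `y ≤ j'`; if both are strict use `SO`); `w = E y u` (`apex_corner`), `dd (E y u) = u - E y (dd u)`.
If not: `x0` is isolated, `u ∈ Lv 0 a (k+1)` (`Lv_iso`); if the support of `a` has a vertex `v`:
`w = E v u` (`apex_any`); if `a = 0`: `u = 0` by `Mt_pos`.

`InjI`: `c ∈ Lv 0 a k`, `c = dd w`, `w ∈ Lv 0 (a + dl x0 + dl y0) (k+1)`.  Put `X = inl x0`,
`Y = inr y0`.  `Cor _ X Y` always holds (the only neighbour of `y0` is `x0`).
 (1) `a X, a Y ≥ 1`: every `τ` with `ind τ ≤ a + dl X + dl Y` has `ind τ ≤ a`, and `Mt_corner` gives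
     `w ∈ Lv 0 a k`.
 (2) `a X ≥ 1`, `a Y = 0`: split `w = w0 + E Y w1`; `c` is free of `e_Y`; `c = dd w0 + w1`,
     `dd w1 = 0`.  `w0 ∈ Lv 0 a k` (supports in `a`, `Mt_corner`), `w1 ∈ Lv 0 (a + dl X) (k+1)
     = Lv (dl X) a (k+1)` (`Lv_e_eq_b`); `keyI`.
 (3) `a X = 0`, `a Y ≥ 1`: split `w = w0 + E X w1`, `c = dd w0 + w1`, `dd w1 = 0`, `w0 ∈ Lv 0 a k`;
     `w1 ∈ Lv 0 (a + dl Y) (k+1) = Lv (dl Y) a (k+1) = Lv 0 a (k+1)` (`Lv_iso`: `Y` is isolated in `a`),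
     `w1 = dd (E Y w1)`, `apex_any`.
 (4) both zero: `w = w0 + E X w1 + E Y w2 + E X (E Y w3)`; comparing components: `dd w3 = 0`,
     `dd w1 = - w3`, `dd w2 = w3`, `c = dd w0 + w1 + w2`.  `w0 ∈ Lv 0 a k`;
     `w1 ∈ Lv (dl Y) a (k+1) = Lv 0 a (k+1) ≤ Lv (dl X) a (k+1)`, `w2 ∈ Lv (dl X) a (k+1)`;
     `u = w1 + w2`, `dd u = 0`; `keyI`.
-/

namespace Pool.Agent.H52.BE

open Finset

variable {V : Type*} [Fintype V] [LinearOrder V]
variable {K : Type*} [CommRing K] {H : V → V → Prop}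

private theorem Xcor (hSO : SO H) (x0 y : V) (hx : ∀ i j, H i j → x0 ≤ i) (_hxy : H x0 y)
    (a : V ⊕ V → ℕ) (hmin : ∀ y', 1 ≤ a (Sum.inr y') → H x0 y' → y ≤ y') :
    Cor H (a + dl (Sum.inl x0)) (Sum.inl x0) (Sum.inr y) := by
  intro v' u' _ hu' h1 h2
  rcases v' with i' | j'
  · rcases u' with i'' | j'
    · exact absurd h2 (by simp [adj])
    · have h1' : H i' y := h1
      have h2' : H x0 j' := h2
      show H i' j'
      have e1 : x0 ≤ i' := hx _ _ h1'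
      have hu1 : 1 ≤ a (Sum.inr j') := by simpa [dl] using hu'
      have e2 : y ≤ j' := hmin _ hu1 h2'
      rcases eq_or_lt_of_le e1 with e1 | e1
      · rw [← e1]; exact h2'
      · rcases eq_or_lt_of_le e2 with e2 | e2
        · rw [← e2]; exact h1'
        · exact (hSO _ _ _ _ e1 e2 h2' h1').2
  · exact absurd h1 (by simp [adj])

theorem keyI (hSO : SO H) (x0 : V) (hx : ∀ i j, H i j → x0 ≤ i) (a : V ⊕ V → ℕ) (k : ℕ)
    (u : Finset (V ⊕ V) → K) (hu : u ∈ Lv K H (dl (Sum.inl x0)) a (k + 1))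
    (hd : dd K u = 0) : ∃ w ∈ Lv K H 0 a k, dd K w = u := by
  classical
  by_cases hy : ∃ y, 1 ≤ a (Sum.inr y) ∧ H x0 y
  · have hne : (Finset.univ.filter (fun y : V => 1 ≤ a (Sum.inr y) ∧ H x0 y)).Nonempty := by
      obtain ⟨y, h⟩ := hy
      exact ⟨y, by simpa using h⟩
    obtain ⟨y, hyS, hmin⟩ := Finset.exists_min_image _ id hne
    simp only [Finset.mem_filter, Finset.mem_univ, true_and, id] at hyS hmin
    refine ⟨E1 K (Sum.inr y) u, ?_, ?_⟩
    · refine apex_corner (v := Sum.inl x0) (show adj H (Sum.inl x0) (Sum.inr y) from hyS.2)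
        hyS.1 ?_ hu
      exact Xcor hSO x0 y hx hyS.2 a (fun y' h1 h2 => hmin y' ⟨h1, h2⟩)
    · rw [dd_E, hd, map_zero, sub_zero]
  · have hiso : ∀ w, 1 ≤ a w → ¬ adj H (Sum.inl x0) w := by
      intro w hw hadj
      rcases w with i | j
      · exact absurd hadj (by simp [adj])
      · exact hy ⟨j, hw, hadj⟩
    rw [Lv_iso hiso] at hu
    by_cases ha : ∃ v, 1 ≤ a v
    · obtain ⟨v, hv⟩ := ha
      exact ⟨E1 K v u, apex_any hv hu, by rw [dd_E, hd, map_zero, sub_zero]⟩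
    · refine ⟨0, Submodule.zero_mem _, ?_⟩
      rw [map_zero]
      by_contra hne
      have : ∃ τ, u τ ≠ 0 := by
        by_contra h
        push Not at h
        exact hne (funext fun τ => (h τ).symm)
      obtain ⟨τ, hτ⟩ := this
      obtain ⟨i, j, -, h1, -⟩ := Mt_pos (hu τ hτ).2
      apply ha
      refine ⟨Sum.inl i, ?_⟩
      have : (a + 0 - ind τ) (Sum.inl i) ≤ a (Sum.inl i) := by
        simp
      exact h1.trans this

private theorem shrink {X Y : V ⊕ V} (hadj : adj H X Y) (a : V ⊕ V → ℕ)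
    (hc : Cor H (a + dl X + dl Y) X Y) (k : ℕ) (w : Finset (V ⊕ V) → K)
    (hw : w ∈ Lv K H 0 (a + dl X + dl Y) (k + 1)) (hs : ∀ τ, w τ ≠ 0 → ind τ ≤ a) :
    w ∈ Lv K H 0 a k := by
  refine corner_Lv hadj hc ?_
  intro τ hτ
  refine ⟨hs τ hτ, ?_⟩
  have := (hw τ hτ).2
  rwa [add_zero, add_assoc] at this

private theorem ind_le_of {X Y : V ⊕ V} {a : V ⊕ V → ℕ} {τ : Finset (V ⊕ V)}
    (h : ind τ ≤ a + dl X + dl Y) (hX : 1 ≤ a X ∨ X ∉ τ) (hY : 1 ≤ a Y ∨ Y ∉ τ) : ind τ ≤ a := by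
  intro v
  by_cases hv : v ∈ τ
  · have h1 := h v
    simp only [ind, hv, if_true, Pi.add_apply, dl] at h1 ⊢
    by_cases e1 : v = X
    · subst e1
      rcases hX with hX | hX
      · exact hX
      · exact absurd hv hX
    · by_cases e2 : v = Y
      · subst e2
        rcases hY with hY | hY
        · exact hY
        · exact absurd hv hY
      · simpa [e1, e2] using h1
  · simp [ind, hv]

private theorem dd_split {Y : V ⊕ V} {w0 w1 c : Finset (V ⊕ V) → K}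
    (h0 : Fr Y w0) (h1 : Fr Y w1) (hc : Fr Y c) (h : dd K (w0 + E1 K Y w1) = c) :
    dd K w1 = 0 ∧ dd K w0 + w1 = c := by
  rw [map_add, dd_E] at h
  have f0 : Fr Y (dd K w0 + w1 - c) :=
    Fr_sub Y _ _ (Fr_add Y _ _ (Fr_kd _ Y _ h0) h1) hc
  have f1 : Fr Y (- dd K w1) := Fr_neg Y _ (Fr_kd _ Y _ h1)
  have hz : (dd K w0 + w1 - c) + E (R := K) Y (- dd K w1) = 0 := by
    rw [map_neg]
    have h' : dd K w0 + (w1 - E (R := K) Y (dd K w1)) = c := h
    rw [← h']; abel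
  obtain ⟨g0, g1⟩ := split_unique (R := K) Y _ _ f0 f1 hz
  exact ⟨neg_eq_zero.mp g1, sub_eq_zero.mp g0⟩

theorem InjI (hSO : SO H) (x0 y0 : V) (h0 : H x0 y0) (hy : ∀ i, H i y0 → i = x0)
    (hx : ∀ i j, H i j → x0 ≤ i) (a : V ⊕ V → ℕ) (k : ℕ) (c w : Finset (V ⊕ V) → K)
    (hc : c ∈ Lv K H 0 a k)
    (hw : w ∈ Lv K H 0 (a + dl (Sum.inl x0) + dl (Sum.inr y0)) (k + 1))
    (h : dd K w = c) : ∃ w' ∈ Lv K H 0 a k, dd K w' = c := by
  classical
  obtain ⟨X, hX⟩ : ∃ X : V ⊕ V, X = Sum.inl x0 := ⟨_, rfl⟩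
  obtain ⟨Y, hY⟩ : ∃ Y : V ⊕ V, Y = Sum.inr y0 := ⟨_, rfl⟩
  have hXY : X ≠ Y := by rw [hX, hY]; simp
  have hadj : adj H X Y := by rw [hX, hY]; exact h0
  have hYadj : ∀ u, adj H Y u → u = X := by
    intro u hu
    rw [hY] at hu
    rcases u with i | j
    · rw [hX, hy i hu]
    · exact absurd hu (by simp [adj])
  have hcor : ∀ b : V ⊕ V → ℕ, Cor H b X Y := by
    intro b v' u' _ _ h1 h2
    rw [hYadj v' (adj_symm h1)]
    exact h2
  rw [← hX, ← hY] at hw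
  have hYiso : a X = 0 → ∀ u, 1 ≤ a u → ¬ adj H Y u := by
    intro haX u hu h1
    rw [hYadj u h1, haX] at hu
    omega
  have key : ∀ u : Finset (V ⊕ V) → K, u ∈ Lv K H (dl X) a (k + 1) → dd K u = 0 →
      ∃ w ∈ Lv K H 0 a k, dd K w = u := by
    intro u hu hd
    rw [hX] at hu
    exact keyI hSO x0 hx a k u hu hd
  have hcomm : a + dl X + dl Y = a + dl Y + dl X := by
    rw [add_assoc, add_comm (dl X), ← add_assoc]
  by_cases haX : 1 ≤ a X
  · by_cases haY : 1 ≤ a Y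
    · exact ⟨w, shrink hadj a (hcor _) k w hw
        (fun τ hτ => ind_le_of (hw τ hτ).1 (Or.inl haX) (Or.inl haY)), h⟩
    · have haY0 : a Y = 0 := by omega
      obtain ⟨w0, w1, e, f0, f1, -, -⟩ := split (R := K) Y w
      have hb : (a + dl X) Y = 0 := by
        simp [dl, haY0, hXY.symm]
      rw [e] at hw h
      obtain ⟨m0, m1⟩ := split_Lv hb f0 f1 hw
      obtain ⟨d1, d0⟩ := dd_split f0 f1 (Lv_Fr haY0 hc) h
      have m0' : w0 ∈ Lv K H 0 a k := shrink hadj a (hcor _) k w0 m0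
        (fun τ hτ => ind_le_of (m0 τ hτ).1 (Or.inl haX) (Or.inr fun hmem => hτ (f0 τ hmem)))
      rw [← Lv_e_eq_b X haX] at m1
      obtain ⟨w2, m2, d2⟩ := key w1 m1 d1
      exact ⟨w0 + w2, Submodule.add_mem _ m0' m2, by rw [map_add, d2, d0]⟩
  · have haX0 : a X = 0 := by omega
    have hiso := hYiso haX0
    by_cases haY : 1 ≤ a Y
    · obtain ⟨w0, w1, e, f0, f1, -, -⟩ := split (R := K) X w
      have hb : (a + dl Y) X = 0 := by
        simp [dl, haX0, hXY]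
      rw [hcomm] at hw
      rw [e] at hw h
      obtain ⟨m0, m1⟩ := split_Lv hb f0 f1 hw
      obtain ⟨d1, d0⟩ := dd_split f0 f1 (Lv_Fr haX0 hc) h
      rw [← hcomm] at m0
      have m0' : w0 ∈ Lv K H 0 a k := shrink hadj a (hcor _) k w0 m0
        (fun τ hτ => ind_le_of (m0 τ hτ).1 (Or.inr fun hmem => hτ (f0 τ hmem)) (Or.inl haY))
      rw [← Lv_e_eq_b Y haY, Lv_iso hiso] at m1
      exact ⟨w0 + E1 K Y w1, Submodule.add_mem _ m0' (apex_any haY m1), by
        rw [map_add, dd_E, d1, map_zero, sub_zero, d0]⟩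
    · have haY0 : a Y = 0 := by omega
      obtain ⟨p, q, e, f0, f1, -, -⟩ := split (R := K) X w
      have hb : (a + dl Y) X = 0 := by
        simp [dl, haX0, hXY]
      have hb' : (a + dl X) Y = 0 := by
        simp [dl, haY0, hXY.symm]
      rw [hcomm] at hw
      rw [e] at hw h
      obtain ⟨m0, m1⟩ := split_Lv hb f0 f1 hw
      obtain ⟨d1, d0⟩ := dd_split f0 f1 (Lv_Fr haX0 hc) h
      rw [← hcomm] at m0
      -- split `p` and `q` at `Y`
      obtain ⟨p0, p1, ep, fp0, fp1, vp0, vp1⟩ := split (R := K) Y p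
      obtain ⟨q0, q1, eq, fq0, fq1, -, -⟩ := split (R := K) Y q
      have mp := m0
      rw [ep] at mp
      obtain ⟨mp0, mp1⟩ := split_Lv hb' fp0 fp1 mp
      have mq := m1
      rw [eq] at mq
      obtain ⟨mq0, mq1⟩ := split_Lv haY0 fq0 fq1 mq
      have dq := d1
      rw [eq] at dq
      obtain ⟨dq1, dq0⟩ := dd_split fq0 fq1 (fun _ _ => rfl) dq
      -- `dd p = c - q`
      have hz : (dd K p0 + p1 + q0 - c) + E (R := K) Y (q1 - dd K p1) = 0 := by
        have h1 : dd K p + q = c := d0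
        rw [ep, eq] at h1
        have h2 : dd K (E (R := K) Y p1) = p1 - E (R := K) Y (dd K p1) := dd_E Y p1
        rw [map_add, h2] at h1
        rw [map_sub, ← h1]; abel
      obtain ⟨g0, g1⟩ := split_unique (R := K) Y _ _
        (Fr_sub Y _ _ (Fr_add Y _ _ (Fr_add Y _ _ (Fr_kd _ Y _ fp0) fp1) fq0) (Lv_Fr haY0 hc))
        (Fr_sub Y _ _ fq1 (Fr_kd _ Y _ fp1)) hz
      have Xp0 : Fr X p0 := by
        intro τ hτ
        by_cases hYτ : Y ∈ τ
        · exact fp0 τ hYτ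
        · rw [vp0 τ hYτ]; exact f0 τ hτ
      have Xp1 : Fr X p1 := by
        intro τ hτ
        by_cases hYτ : Y ∈ τ
        · exact fp1 τ hYτ
        · rw [vp1 τ hYτ, f0 _ (Finset.mem_insert_of_mem hτ), smul_zero]
      have mp0' : p0 ∈ Lv K H 0 a k := shrink hadj a (hcor _) k p0 mp0
        (fun τ hτ => ind_le_of (mp0 τ hτ).1 (Or.inr fun hmem => hτ (Xp0 τ hmem))
          (Or.inr fun hmem => hτ (fp0 τ hmem)))
      have mp1' : p1 ∈ Lv K H (dl X) a (k + 1) := Fr_Lv0 Xp1 mp1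
      have mq0' : q0 ∈ Lv K H (dl X) a (k + 1) := by
        have := Fr_Lv0 fq0 mq0
        rw [Lv_iso hiso] at this
        exact Lv_zero_le _ this
      have hdu : dd K (q0 + p1) = 0 := by
        have e1 : dd K p1 = q1 := (sub_eq_zero.mp g1).symm
        rw [map_add, e1]; exact dq0
      obtain ⟨w2, m2, d2⟩ := key (q0 + p1) (Submodule.add_mem _ mq0' mp1') hdu
      refine ⟨p0 + w2, Submodule.add_mem _ mp0' m2, ?_⟩
      rw [map_add, d2]
      have h3 : dd K p0 + p1 + q0 = c := sub_eq_zero.mp g0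
      rw [← h3]; abel

end Pool.Agent.H52.BE
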