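import Pool.Agent.H52.BE.Lev

/-!
# Project BE: the binomial edge ideal, weights

`JG K G` does not use an order on `V`.  `GH G i j` iff `i < j` and `G.Adj i j`.
`CC G`: the labelling (the order of `V`) is such that for every edge `i k` with `i < k` all pairs
`i j`, `j k` with `i < j < k` are edges.  Weight `wt (inl i) = #{j | i < j}`, `wt (inr j) = 0`.
-/

namespace Pool.Agent.H52.BE

open Finset

section Ideal

variable {V : Type*}

/-- the binomial `x_i y_j - x_j y_i` -/
noncomputable def fp (K : Type*) [CommRing K] (i j : V) : MvPolynomial (V ⊕ V) K :=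
  MvPolynomial.X (Sum.inl i) * MvPolynomial.X (Sum.inr j)
    - MvPolynomial.X (Sum.inl j) * MvPolynomial.X (Sum.inr i)

/-- the binomial edge ideal -/
noncomputable def JG (K : Type*) [CommRing K] (G : SimpleGraph V) :
    Ideal (MvPolynomial (V ⊕ V) K) :=
  Ideal.span {p | ∃ i j, G.Adj i j ∧ p = fp K i j}

variable [Fintype V]

/-- the coefficient at the exponent `b` -/
noncomputable def cf {K : Type*} [CommRing K] (b : V ⊕ V → ℕ) (p : MvPolynomial (V ⊕ V) K) : K :=
  MvPolynomial.coeff (Finsupp.equivFunOnFinite.symm b) p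

/-- the monomial with exponent `b` -/
noncomputable def mo (K : Type*) [CommRing K] (b : V ⊕ V → ℕ) : MvPolynomial (V ⊕ V) K :=
  MvPolynomial.monomial (Finsupp.equivFunOnFinite.symm b) 1

end Ideal

section Weight

variable {V : Type*} [Fintype V] [LinearOrder V]

/-- the weight of a variable -/
def wt : V ⊕ V → ℕ
  | Sum.inl i => (univ.filter (fun j => i < j)).card
  | Sum.inr _ => 0

/-- the weight of a multidegree -/
def wd (a : V ⊕ V → ℕ) : ℕ := ∑ v, a v * wt v

/-- oriented edges -/
def GH (G : SimpleGraph V) (i j : V) : Prop := i < j ∧ G.Adj i j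

/-- the condition on the labelling -/
def CC (G : SimpleGraph V) : Prop :=
  ∀ i j k, i < j → j < k → G.Adj i k → G.Adj i j ∧ G.Adj j k

/-- `SO`: `i < i'`, `j < j'`, `i < j'` adjacent, `i' < j` adjacent: `i < i' < j < j'` -/
theorem SO_GH {G : SimpleGraph V} (hC : CC G) : SO (GH G) := by
  intro i i' j j' hi hj h1 h2
  have h3 : i' < j := h2.1
  exact ⟨⟨hi.trans h3, (hC i j j' (hi.trans h3) hj h1.2).1⟩,
    ⟨h3.trans hj, (hC i i' j' hi (h3.trans hj) h1.2).2⟩⟩

theorem wd_add (a b : V ⊕ V → ℕ) : wd (a + b) = wd a + wd b := by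
  simp [wd, add_mul, Finset.sum_add_distrib]

theorem wd_dl (v : V ⊕ V) : wd (dl v) = wt v := by
  simp [wd, dl]

theorem wd_mono {a b : V ⊕ V → ℕ} (h : a ≤ b) : wd a ≤ wd b :=
  Finset.sum_le_sum (fun v _ => Nat.mul_le_mul_right _ (h v))

theorem wt_lt {i j : V} (h : i < j) : wt (Sum.inl j) < wt (Sum.inl i : V ⊕ V) := by
  unfold wt
  apply Finset.card_lt_card
  refine ⟨fun t ht => ?_, fun hcon => ?_⟩
  · simp only [mem_filter, mem_univ, true_and] at ht ⊢
    exact h.trans ht
  · have := hcon (by simpa using h : j ∈ univ.filter (fun t => i < t))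
    simp at this

end Weight

end Pool.Agent.H52.BE
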