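import Pool.Agent.H52.BE.Lift
import Pool.Agent.H52.BE.InjI

/-!
# Project BE: multiplication with the first binomial is injective on Koszul homology

`x0` is the first vertex with an oriented edge, `x0` is the only left neighbour of `y0`,
`f = fp K x0 y0`.  `N0 = wt (inl x0)`.

`redW`: let `D ∈ InJ (k+1)` be `Low w'`, `kX W = D`?  Precisely: `W ∈ InJ k'`, `kX W` is `Low w`, `Low N W`.
Then there is `W' ∈ InJ k'`, `kX W' = kX W`, `Low w W'`.  Induction on `N` (if `N ≤ w` take `W' = W`).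
`N = N' + 1`, `N' ≥ w`: `S` = finite set of the `a` with `wd a = N'`, `comp a W ≠ 0`
(`comp_finite`).  For `a ∈ S`: `comp a W ∈ Lv 0 a k'` (`comp_lead`), `dd (comp a W) = comp a (kX W) = 0`;
`liftCyc` gives `C_a`.  `W1 = W - ∑_{a ∈ S} C_a` is `Low N'` (for `wd a' ≥ N'`:
`comp a' C_a = 0` for `a' ≠ a`, `comp a C_a = comp a W`).

`JInj`: induction on `w` with `Low w C`.  `w = 0`: `C = 0` (`comp_ext`).  `w+1`: `f • C` is
`Low (w + 1 + N0)` (`Low_X`; `fp = X_x0 X_y0 - X_(inl y0) X_(inr x0)`), so by `redW` we may assume that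
`W` is `Low (w + 1 + N0)`.  `S` = the `a` with `wd a = w`, `comp a C ≠ 0`.  For `a ∈ S` put
`a1 = a + dl (inl x0) + dl (inr y0)`, `wd a1 = w + N0`: `comp a1 W ∈ Lv 0 a1 (k+1)`
(`comp_lead`), `dd (comp a1 W) = comp a1 (f • C) = comp a C`: `comp_X` twice for the first term; the
second term `X (inl y0) • X (inr x0) • C` is `Low (w + 1 + wt (inl y0))` and
`w + 1 + wt (inl y0) ≤ w + N0 = wd a1`.  `comp a C ∈ Lv 0 a k`.  `InjI` gives `w_a ∈ Lv 0 a k` with
`dd w_a = comp a C`; `liftCh`: `Ω_a`.  `C' = C - ∑ kX Ω_a` is `Low w`, in `InJ k`, a cycle, and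
`kX (W - ∑ f • Ω_a) = f • C'`; induction.
-/

namespace Pool.Agent.H52.BE

open Finset

variable {V : Type*} [Fintype V] [LinearOrder V] {K : Type*} [Field K] {G : SimpleGraph V}

/-- removing the leading components -/
theorem JInj_low_sub (w : ℕ) (C : PC V K) (hl : Low (w + 1) C)
    (S : Finset (V ⊕ V → ℕ)) (hS : ∀ a, wd a = w → comp a C ≠ 0 → a ∈ S)
    (hS' : ∀ a ∈ S, wd a = w) (F : (V ⊕ V → ℕ) → PC V K)
    (hF : ∀ a ∈ S, Lf a (comp a C) (F a)) : Low w (C - ∑ a ∈ S, F a) := by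
  intro a' ha'
  rw [comp_sub, comp_sum]
  have hne : ∀ a ∈ S, a ≠ a' → comp a' (F a) = 0 := by
    intro a ha hna
    exact (hF a ha).2 a' (Ne.symm hna) (by rw [hS' a ha]; exact ha')
  by_cases hm : a' ∈ S
  · rw [Finset.sum_eq_single a' (fun a ha hna => hne a ha hna) (fun h => absurd hm h),
      (hF a' hm).1, sub_self]
  · have h1 : comp a' C = 0 := by
      rcases Nat.lt_or_ge w (wd a') with h | h
      · exact hl a' h
      · by_contra hc
        exact hm (hS a' (le_antisymm h ha') hc)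
    rw [h1, Finset.sum_eq_zero, sub_zero]
    intro a ha
    exact hne a ha (fun h => hm (h ▸ ha))

/-- the degrees of weight `w` which occur in `C` -/
theorem JInj_set (w : ℕ) (C : PC V K) : ∃ S : Finset (V ⊕ V → ℕ),
    (∀ a, wd a = w → comp a C ≠ 0 → a ∈ S) ∧ (∀ a ∈ S, wd a = w) := by
  classical
  refine ⟨(comp_finite C).toFinset.filter (fun a => wd a = w), ?_, ?_⟩
  · intro a ha hc
    rw [Finset.mem_filter]
    exact ⟨(Set.Finite.mem_toFinset _).2 hc, ha⟩
  · intro a ha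
    exact (Finset.mem_filter.1 ha).2

theorem redW (hC : CC G) (k w : ℕ) : ∀ (N : ℕ) (W : PC V K), W ∈ InJ K G k → Low w (kX W) →
    Low N W → ∃ W' : PC V K, W' ∈ InJ K G k ∧ kX W' = kX W ∧ Low w W' := by
  intro N
  induction N with
  | zero =>
    intro W hW _ hN
    exact ⟨W, hW, rfl, Low_mono (Nat.zero_le _) hN⟩
  | succ N ih =>
    intro W hW hk hN
    rcases Nat.lt_or_ge N w with hlt | hge
    · exact ⟨W, hW, rfl, Low_mono hlt hN⟩
    · obtain ⟨S, hS, hS'⟩ := JInj_set N W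
      have hex : ∀ a : V ⊕ V → ℕ, ∃ F : PC V K, wd a = N →
          F ∈ InJ K G k ∧ Lf a (comp a W) F ∧ kX F = 0 := by
        intro a
        by_cases ha : wd a = N
        · obtain ⟨F, h1, h2, h3⟩ := liftCyc hC a k (comp a W)
            (comp_lead hC k N W hW hN a ha)
            (by rw [← comp_kd]; exact hk a (by rw [ha]; exact hge))
          exact ⟨F, fun _ => ⟨h1, h2, h3⟩⟩
        · exact ⟨0, fun h => absurd h ha⟩
      choose F hF using hex
      have hlow : Low N (W - ∑ a ∈ S, F a) :=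
        JInj_low_sub N W hN S hS hS' F (fun a ha => (hF a (hS' a ha)).2.1)
      have hmem : W - ∑ a ∈ S, F a ∈ InJ K G k :=
        Submodule.sub_mem _ hW (Submodule.sum_mem _ (fun a ha => (hF a (hS' a ha)).1))
      have hkX : kX (W - ∑ a ∈ S, F a) = kX W := by
        rw [map_sub, map_sum, Finset.sum_eq_zero (fun a ha => (hF a (hS' a ha)).2.2), sub_zero]
      obtain ⟨W', h1, h2, h3⟩ := ih (W - ∑ a ∈ S, F a) hmem (by rw [hkX]; exact hk) hlow
      exact ⟨W', h1, h2.trans hkX, h3⟩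

theorem wt_inr' (v : V) : wt (Sum.inr v : V ⊕ V) = 0 := rfl

/-- the leading behaviour of `f • C` -/
theorem JInj_snd_low (w : ℕ) (x0 y0 : V) (C : PC V K) (hl : Low w C) :
    Low (w + wt (Sum.inl y0 : V ⊕ V))
      ((MvPolynomial.X (Sum.inl y0) * MvPolynomial.X (Sum.inr x0) : MvPolynomial (V ⊕ V) K) • C) := by
  rw [mul_smul]
  have h1 := Low_X (Sum.inl y0) (Low_X (Sum.inr x0) hl)
  rw [wt_inr', add_zero] at h1
  exact h1

theorem JInj_fst_low (w : ℕ) (x0 y0 : V) (C : PC V K) (hl : Low w C) :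
    Low (w + wt (Sum.inl x0 : V ⊕ V))
      ((MvPolynomial.X (Sum.inl x0) * MvPolynomial.X (Sum.inr y0) : MvPolynomial (V ⊕ V) K) • C) := by
  rw [mul_smul]
  have h1 := Low_X (Sum.inl x0) (Low_X (Sum.inr y0) hl)
  rw [wt_inr', add_zero] at h1
  exact h1

theorem JInj_f_low (w : ℕ) (x0 y0 : V) (hxy : x0 < y0) (C : PC V K) (hl : Low w C) :
    Low (w + wt (Sum.inl x0 : V ⊕ V)) (fp K x0 y0 • C) := by
  unfold fp
  rw [sub_smul]
  exact Low_sub (JInj_fst_low w x0 y0 C hl)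
    (Low_mono (Nat.add_le_add_left (le_of_lt (wt_lt hxy)) _) (JInj_snd_low w x0 y0 C hl))

theorem JInj_f_comp (w : ℕ) (x0 y0 : V) (hxy : x0 < y0) (C : PC V K) (hl : Low (w + 1) C)
    (a : V ⊕ V → ℕ) (ha : wd a = w) :
    comp (a + dl (Sum.inl x0) + dl (Sum.inr y0)) (fp K x0 y0 • C) = comp a C := by
  have h1 : comp (a + dl (Sum.inl x0) + dl (Sum.inr y0))
      ((MvPolynomial.X (Sum.inl x0) * MvPolynomial.X (Sum.inr y0) :
        MvPolynomial (V ⊕ V) K) • C) = comp a C := by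
    rw [mul_comm, mul_smul, comp_X, comp_X]
  have h2 : comp (a + dl (Sum.inl x0) + dl (Sum.inr y0))
      ((MvPolynomial.X (Sum.inl y0) * MvPolynomial.X (Sum.inr x0) :
        MvPolynomial (V ⊕ V) K) • C) = 0 := by
    apply JInj_snd_low (w + 1) x0 y0 C hl
    rw [wd_add, wd_add, wd_dl, wd_dl, ha, wt_inr']
    have := wt_lt hxy
    omega
  unfold fp
  rw [sub_smul, comp_sub, h1, h2, sub_zero]

theorem JInj (hC : CC G) (x0 y0 : V) (h0 : GH G x0 y0) (hy : ∀ i, GH G i y0 → i = x0)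
    (hx : ∀ i j, GH G i j → x0 ≤ i) (k : ℕ) : ∀ (w : ℕ) (C W : PC V K), Low w C →
      C ∈ InJ K G k → kX C = 0 → W ∈ InJ K G (k + 1) → kX W = fp K x0 y0 • C →
      ∃ D : PC V K, D ∈ InJ K G k ∧ kX D = C := by
  intro w
  induction w with
  | zero =>
    intro C W hl _ _ _ _
    refine ⟨0, Submodule.zero_mem _, ?_⟩
    rw [map_zero]
    exact (comp_ext C (fun a => hl a (Nat.zero_le _))).symm
  | succ w ih =>
    intro C W hl hCJ hk hW hWk
    obtain ⟨N, hN⟩ := exists_Low W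
    have hfl : Low (w + 1 + wt (Sum.inl x0 : V ⊕ V)) (kX W) := by
      rw [hWk]
      exact JInj_f_low (w + 1) x0 y0 h0.1 C hl
    obtain ⟨W', hW', hkW', hlW'⟩ := redW hC (k + 1) _ N W hW hfl hN
    obtain ⟨S, hS, hS'⟩ := JInj_set w C
    have hex : ∀ a : V ⊕ V → ℕ, ∃ F : PC V K, wd a = w →
        F ∈ InJ K G k ∧ Lf a (comp a C) (kX F) := by
      intro a
      by_cases ha : wd a = w
      · have hwd : wd (a + dl (Sum.inl x0) + dl (Sum.inr y0)) = w + wt (Sum.inl x0 : V ⊕ V) := by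
          rw [wd_add, wd_add, wd_dl, wd_dl, ha, wt_inr', add_zero]
        have hc : comp a C ∈ Lv K (GH G) 0 a k := comp_lead hC k w C hCJ hl a ha
        have hw1 : comp (a + dl (Sum.inl x0) + dl (Sum.inr y0)) W'
            ∈ Lv K (GH G) 0 (a + dl (Sum.inl x0) + dl (Sum.inr y0)) (k + 1) := by
          apply comp_lead hC (k + 1) (w + wt (Sum.inl x0 : V ⊕ V)) W' hW' _ _ hwd
          have he : w + wt (Sum.inl x0 : V ⊕ V) + 1 = w + 1 + wt (Sum.inl x0 : V ⊕ V) := by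
            omega
          rw [he]
          exact hlW'
        have hd : dd K (comp (a + dl (Sum.inl x0) + dl (Sum.inr y0)) W') = comp a C := by
          rw [← comp_kd, hkW', hWk]
          exact JInj_f_comp w x0 y0 h0.1 C hl a ha
        obtain ⟨u, hu, hdu⟩ := InjI (SO_GH hC) x0 y0 h0 hy hx a k _ _ hc hw1 hd
        obtain ⟨F, hF1, hF2⟩ := liftCh a k u hu
        refine ⟨F, fun _ => ⟨hF1, ?_⟩⟩
        have h3 := Lf_kX hF2
        rw [hdu] at h3
        exact h3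
      · exact ⟨0, fun h => absurd h ha⟩
    choose F hF using hex
    have hlow : Low w (C - ∑ a ∈ S, kX (F a)) :=
      JInj_low_sub w C hl S hS hS' (fun a => kX (F a)) (fun a ha => (hF a (hS' a ha)).2)
    have hmem : C - ∑ a ∈ S, kX (F a) ∈ InJ K G k :=
      Submodule.sub_mem _ hCJ
        (Submodule.sum_mem _ (fun a ha => InJ_kX (hF a (hS' a ha)).1))
    have hkk : ∀ B : PC V K, kX (kX B) = 0 := fun B => kd_kd _ B
    have hkC : kX (C - ∑ a ∈ S, kX (F a)) = 0 := by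
      rw [map_sub, map_sum, hk, Finset.sum_eq_zero (fun a _ => hkk (F a)), sub_zero]
    have hWm : W' - ∑ a ∈ S, fp K x0 y0 • F a ∈ InJ K G (k + 1) :=
      Submodule.sub_mem _ hW'
        (Submodule.sum_mem _ (fun a ha => InJ_fp x0 y0 h0.2 (hF a (hS' a ha)).1))
    have hWk' : kX (W' - ∑ a ∈ S, fp K x0 y0 • F a)
        = fp K x0 y0 • (C - ∑ a ∈ S, kX (F a)) := by
      rw [map_sub, map_sum, hkW', hWk, smul_sub, Finset.smul_sum]
      congr 1
      exact Finset.sum_congr rfl (fun a _ => map_smul _ _ _)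
    obtain ⟨D, hD1, hD2⟩ := ih _ _ hlow hmem hkC hWm hWk'
    refine ⟨D + ∑ a ∈ S, F a, Submodule.add_mem _ hD1
      (Submodule.sum_mem _ (fun a ha => (hF a (hS' a ha)).1)), ?_⟩
    rw [map_add, map_sum, hD2, sub_add_cancel]

/-- existence of the first edge: `x0` = smallest `i` with an oriented edge, `y0` = smallest
neighbour of `x0`; if `GH i y0`, `i ≠ x0` then `x0 < i < y0`, so `GH x0 i` by `CC` -/
theorem first_edge (hC : CC G) (h : ∃ i j, GH G i j) :
    ∃ x0 y0, GH G x0 y0 ∧ (∀ i, GH G i y0 → i = x0) ∧ (∀ i j, GH G i j → x0 ≤ i) := by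
  classical
  obtain ⟨i1, j1, h1⟩ := h
  have hne : (Finset.univ.filter (fun i : V => ∃ j, GH G i j)).Nonempty :=
    ⟨i1, Finset.mem_filter.2 ⟨Finset.mem_univ _, j1, h1⟩⟩
  obtain ⟨x0, hx0, hmin⟩ := Finset.exists_min_image _ (fun i : V => i) hne
  obtain ⟨j0, hj0⟩ := (Finset.mem_filter.1 hx0).2
  have hne2 : (Finset.univ.filter (fun j : V => GH G x0 j)).Nonempty :=
    ⟨j0, Finset.mem_filter.2 ⟨Finset.mem_univ _, hj0⟩⟩
  obtain ⟨y0, hy0, hmin2⟩ := Finset.exists_min_image _ (fun i : V => i) hne2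
  have hxy : GH G x0 y0 := (Finset.mem_filter.1 hy0).2
  have hle : ∀ i j, GH G i j → x0 ≤ i := fun i j hij =>
    hmin i (Finset.mem_filter.2 ⟨Finset.mem_univ _, j, hij⟩)
  refine ⟨x0, y0, hxy, ?_, hle⟩
  intro i hi
  by_contra hne3
  have hlt : x0 < i := lt_of_le_of_ne (hle i y0 hi) (Ne.symm hne3)
  have h2 := hC x0 i y0 hlt hi.1 hxy.2
  have h3 : GH G x0 i := ⟨hlt, h2.1⟩
  have h4 := hmin2 i (Finset.mem_filter.2 ⟨Finset.mem_univ _, h3⟩)
  exact absurd hi.1 (not_lt.2 h4)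

end Pool.Agent.H52.BE
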