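import Pool.Agent.H52.BE.KB

/-!
# Project BE: Lemma K, the step without `e_x'`

SETTING: `x` smaller than all left vertices of the support of `b' + cl [..]`; `x' > x` is the first
left vertex of `b = b0 + dl (inl x')`; `Y` is the increasing list of all neighbours of `x` in the
support of `b0`, nonempty; `H x' y` for all `y ∈ Y`.

`KA`: if `c ∈ HypK x (b0 + dl x') k` and `c ∈ Zt_x' b0 k` (i.e. either `1 ≤ b0 (inl x')` or `c` is
free of `e_x'`) then `c ∈ KS x (b0 + dl x') k`.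

CORNERS.  For `y ∈ Y`: `(x', y)` is a corner in the degree obtained from `b0 + dl x'` by removing all
elements of `Y` smaller than `y` (`cor_inl` with `a` = that degree: if `j'` is in the support,
`H x' j'`, `j' < y` then `SO x x' j' y` (from `H x y`, `H x' j'`) gives `H x j'`, so `j' ∈ Y`, `j' < y`
was removed).  If `y'` is the smallest neighbour of `x'` in the support of `b0 - Y`, then `(x', y')`
is a corner in `b0 - Y + dl x'`.

PROOF of `KA`.
CASE 1: some element of `Y` has exponent `>= 2` in `b0`.  Let `Y = P ++ y :: Q` with all elements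
of `P` of exponent 1 and `2 ≤ b0 (inr y)`.  Put `b' = b0 - cr P`, so `b0 = b' + cr P`,
`b' (inr u) = 0` for `u ∈ P`.  Apply `PL1` with `v = inl x'`, `u' = inr y`, `L = P.map inr`,
`N = KS x b k ⊓ Zt_x' b0 k`.
Prefix terms `DD (P1.map inr) g`, `g ∈ Z (b' + cr P2) j`, `k = j+1`: this is
`DD [inl x'] (DD (P1.map inr) g)` (`DD_single`), a generator with `A = [x']`, `B = P1`,
`b = (b' + cr P2) + cl [x'] + cr P1`.  Tail terms `DD (P.map inr ++ [inr y]) g`, `g ∈ Zt_x' b' k`: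
`b' = b'' + dl (inr y)` with `1 ≤ b'' (inr y)`; if `k = j+1`, `corner_Zv2` gives `g ∈ Z b'' j`:
generator with `A = [x']`, `B = P ++ [y]`.  If `k = 0`: `level_one2` gives
`g ∈ Ct_x' b' 1`, so `tail_Lv` (with `k = 1`) gives that the term is in `Ct_x' b0 1 ≤ Ch b 1`.
CASE 2: all exponents are 1.  Put `b' = b0 - cr Y`, `P = Y`; `b0 = b' + cr P`.
CASE 2a: `x'` has no neighbour in `b'`.  `PL2` with `N` as before; the tail term is
`EE (P.map inr) g = DD [inl x'] (EE (P.map inr) g)`, `g ∈ Z b' k`, a generator with `A = [x']`,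
`B = P`.
CASE 2b: `y'` = smallest neighbour of `x'` in the support of `b'`.  `PL1` with `u' = inr y'` and
`N = (KS x b k ⊔ T) ⊓ Zt_x' b0 k`, `T` = the submodule (image of `Zt_x' b' k` under the linear map
`DD (P.map inr ++ [inr y'])`).  So `c = m + t`, `m ∈ KS x b k`, `t = DD (P ++ [y']) g'`,
`g' ∈ Zt_x' b' k`, and `t = c - m ∈ HypK x b k` by `hyp_KS`.  Now use `KB` below.

`KB` (kappa): all elements of `P` have exponent 0 in `b'`, `x` has no neighbour in `b' + dl x'`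
(all its neighbours are in `P`), `t = DD (P ++ [y']) g' ∈ HypK x (b' + cr P + dl x') k` with
`g' ∈ Zt_x' b' k`.  Then `t ∈ KS x (b' + cr P + dl x') k`.
-/

namespace Pool.Agent.H52.BE

open Finset

variable {V : Type*} [Fintype V] [LinearOrder V]
variable {K : Type*} [CommRing K] {H : V → V → Prop}

set_option linter.unusedSectionVars false

/-! ### degree bookkeeping -/

private theorem KA_cnt_cons {σ : Type*} [DecidableEq σ] (v : σ) (L : List σ) :
    cnt (v :: L) = cnt L + dl v := by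
  funext w
  show cnt (v :: L) w = cnt L w + dl v w
  unfold cnt dl
  rw [List.count_cons]
  by_cases h : w = v
  · simp [h]
  · rw [if_neg h, if_neg (by simpa using fun h' => h h'.symm)]

private theorem KA_cnt_append {σ : Type*} [DecidableEq σ] (L L' : List σ) :
    cnt (L ++ L') = cnt L + cnt L' := by
  funext w
  show cnt (L ++ L') w = cnt L w + cnt L' w
  unfold cnt
  rw [List.count_append]

private theorem KA_cnt_nil {σ : Type*} [DecidableEq σ] : cnt ([] : List σ) = 0 := by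
  funext w
  simp [cnt]

private theorem KA_cnt_notMem {σ : Type*} [DecidableEq σ] (L : List σ) (w : σ) (h : w ∉ L) :
    cnt L w = 0 := by
  unfold cnt
  exact List.count_eq_zero.2 h

private theorem KA_cnt_mem {σ : Type*} [DecidableEq σ] (L : List σ) (hL : L.Nodup) (w : σ)
    (h : w ∈ L) : cnt L w = 1 := by
  unfold cnt
  exact List.count_eq_one_of_mem hL h

private theorem KA_cr_notMem (P : List V) (u : V) (hu : u ∉ P) : cr P (Sum.inr u) = 0 := by
  refine KA_cnt_notMem _ _ ?_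
  intro h
  obtain ⟨p, hp, h2⟩ := List.mem_map.1 h
  rw [Sum.inr_injective h2] at hp
  exact hu hp

private theorem KA_cr_mem (P : List V) (hP : P.Nodup) (u : V) (hu : u ∈ P) :
    cr P (Sum.inr u) = 1 :=
  KA_cnt_mem _ (hP.map Sum.inr_injective) _ (List.mem_map_of_mem hu)

private theorem KA_cr_inl (P : List V) (u : V) : cr P (Sum.inl u : V ⊕ V) = 0 := by
  refine KA_cnt_notMem _ _ ?_
  intro h
  obtain ⟨p, hp, h2⟩ := List.mem_map.1 h
  exact absurd h2 (by simp)

private theorem KA_cl_single (x : V) : cl [x] = dl (Sum.inl x : V ⊕ V) := by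
  show cnt [Sum.inl x] = _
  rw [KA_cnt_cons, KA_cnt_nil, zero_add]

private theorem KA_cr_single (x : V) : cr [x] = dl (Sum.inr x : V ⊕ V) := by
  show cnt [Sum.inr x] = _
  rw [KA_cnt_cons, KA_cnt_nil, zero_add]

private theorem KA_cr_append (P Q : List V) : (cr (P ++ Q) : V ⊕ V → ℕ) = cr P + cr Q := by
  show cnt ((P ++ Q).map Sum.inr) = _
  rw [List.map_append, KA_cnt_append]

private theorem KA_sub_add (b : V ⊕ V → ℕ) (P : List V) (hP : P.Nodup)
    (h : ∀ u ∈ P, 1 ≤ b (Sum.inr u)) : b - cr P + cr P = b := by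
  funext w
  show b w - cr P w + cr P w = b w
  have hle : cr P w ≤ b w := by
    rcases w with u | u
    · rw [KA_cr_inl]; exact Nat.zero_le _
    · by_cases hu : u ∈ P
      · rw [KA_cr_mem P hP u hu]; exact h u hu
      · rw [KA_cr_notMem P u hu]; exact Nat.zero_le _
  omega

private theorem KA_sub_zero (b : V ⊕ V → ℕ) (P : List V) (hP : P.Nodup)
    (h : ∀ u ∈ P, b (Sum.inr u) = 1) (u : V) (hu : u ∈ P) :
    (b - cr P : V ⊕ V → ℕ) (Sum.inr u) = 0 := by
  show b (Sum.inr u) - cr P (Sum.inr u) = 0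
  rw [KA_cr_mem P hP u hu, h u hu]

private theorem KA_sub_of_notMem (b : V ⊕ V → ℕ) (P : List V) (u : V) (hu : u ∉ P) :
    (b - cr P : V ⊕ V → ℕ) (Sum.inr u) = b (Sum.inr u) := by
  show b (Sum.inr u) - cr P (Sum.inr u) = _
  rw [KA_cr_notMem P u hu]
  rfl

/-- either every element satisfies `p` or there is a first one which does not -/
private theorem KA_first (p : V → Prop) : ∀ Y : List V, (∀ y ∈ Y, p y) ∨
    ∃ P y Q, Y = P ++ y :: Q ∧ (∀ u ∈ P, p u) ∧ ¬ p y
  | [] => Or.inl (by simp)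
  | y :: Y => by
    by_cases hy : p y
    · rcases KA_first p Y with h | ⟨P, z, Q, h1, h2, h3⟩
      · left
        intro u hu
        rcases List.mem_cons.1 hu with rfl | hu
        · exact hy
        · exact h u hu
      · right
        refine ⟨y :: P, z, Q, by rw [h1]; rfl, ?_, h3⟩
        intro u hu
        rcases List.mem_cons.1 hu with rfl | hu
        · exact hy
        · exact h2 u hu
    · exact Or.inr ⟨[], y, Y, rfl, by simp, hy⟩

private theorem KA_map_split (P : List V) (P1 Q1 : List (V ⊕ V))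
    (h : P.map Sum.inr = P1 ++ Q1) :
    ∃ P2 Q2 : List V, P = P2 ++ Q2 ∧ P1 = P2.map Sum.inr ∧ Q1 = Q2.map Sum.inr := by
  obtain ⟨P2, Q2, h1, h2, h3⟩ := List.map_eq_append_iff.1 h
  exact ⟨P2, Q2, h1, h2.symm, h3.symm⟩

private theorem KA_corners (x : V) (b : V ⊕ V → ℕ) (P : List V)
    (hPs : P.Pairwise (· < ·)) (hP1 : ∀ u ∈ P, b (Sum.inr u) = 1)
    (hcor : ∀ u ∈ P, ∀ a : V ⊕ V → ℕ, a ≤ b + dl (Sum.inl x) →
      (∀ p ∈ P, p < u → a (Sum.inr p) = 0) → Cor H a (Sum.inl x) (Sum.inr u)) :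
    ∀ P1 u Q1, P.map Sum.inr = P1 ++ u :: Q1 →
      Cor H (b - cr P + cnt (u :: Q1) + dl (Sum.inl x)) (Sum.inl x) u := by
  intro P1 u Q1 h
  obtain ⟨P2, Q2, h1, h2, h3⟩ := KA_map_split P P1 (u :: Q1) h
  cases Q2 with
  | nil => simp at h3
  | cons q Q3 =>
    simp only [List.map_cons, List.cons.injEq] at h3
    obtain ⟨rfl, rfl⟩ := h3
    have hnd : P.Nodup := hPs.imp (fun h => ne_of_lt h)
    have e1 : (cnt (Sum.inr q :: Q3.map Sum.inr) : V ⊕ V → ℕ) = cr (q :: Q3) := rfl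
    rw [e1]
    have hq : q ∈ P := by rw [h1]; simp
    refine hcor q hq _ ?_ ?_
    · have hb := KA_sub_add b P hnd (fun u hu => by rw [hP1 u hu])
      have h4 : (cr (q :: Q3) : V ⊕ V → ℕ) ≤ cr P := by
        rw [h1, KA_cr_append]
        exact le_add_of_nonneg_left (fun _ => Nat.zero_le _)
      intro w
      have h6 : (b - cr P : V ⊕ V → ℕ) w + cr P w = b w := congrFun hb w
      have h5 : cr (q :: Q3) w ≤ cr P w := h4 w
      show (b - cr P : V ⊕ V → ℕ) w + cr (q :: Q3) w + dl (Sum.inl x) w ≤ b w + dl (Sum.inl x) w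
      omega
    · intro p hp hpq
      have hnp : p ∉ q :: Q3 := by
        intro hp'
        have h6 := hPs
        rw [h1, List.pairwise_append] at h6
        rcases List.mem_cons.1 hp' with rfl | hp''
        · exact lt_irrefl _ hpq
        · exact lt_irrefl _ (lt_trans hpq ((List.pairwise_cons.1 h6.2.1).1 p hp''))
      show (b - cr P : V ⊕ V → ℕ) (Sum.inr p) + cr (q :: Q3) (Sum.inr p)
        + dl (Sum.inl x) (Sum.inr p) = 0
      rw [KA_sub_zero b P hnd hP1 p hp, KA_cr_notMem _ _ hnp]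
      rfl

/-- expansion with a tail of the first kind -/
private theorem KA_exp1 (x y : V) (b : V ⊕ V → ℕ) (k : ℕ) (P : List V)
    (hPs : P.Pairwise (· < ·)) (hP1 : ∀ u ∈ P, b (Sum.inr u) = 1) (hPx : ∀ u ∈ P, H x u)
    (hcor : ∀ u ∈ P, ∀ a : V ⊕ V → ℕ, a ≤ b + dl (Sum.inl x) →
      (∀ p ∈ P, p < u → a (Sum.inr p) = 0) → Cor H a (Sum.inl x) (Sum.inr u))
    (hxy : H x y) (hby : 1 ≤ (b - cr P : V ⊕ V → ℕ) (Sum.inr y))
    (hcy : Cor H (b - cr P + dl (Sum.inl x)) (Sum.inl x) (Sum.inr y))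
    (M : Submodule K (Finset (V ⊕ V) → K))
    (hbd : ∀ w ∈ Lv K H 0 (b + dl (Sum.inl x)) k, dd K w ∈ M)
    (hlev : Lv K H 0 (b + dl (Sum.inl x)) (k + 1) ≤ M)
    (hpre : ∀ (B : List V) (b' : V ⊕ V → ℕ) (j : ℕ), B ≠ [] → B.Pairwise (· < ·) →
      (∀ u ∈ B, u ∈ P) → b = b' + cr B → k = j + 1 → ∀ g ∈ Zv K H 0 b' j,
      DD K (B.map Sum.inr) g ∈ M)
    (htail : ∀ g ∈ Zv K H (dl (Sum.inl x)) (b - cr P) k,
      DD K (P.map Sum.inr ++ [Sum.inr y]) g ∈ M) :
    Zv K H (dl (Sum.inl x)) b k ≤ M := by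
  have hnd : P.Nodup := hPs.imp (fun h => ne_of_lt h)
  have hb : b - cr P + cnt (P.map Sum.inr) = b :=
    KA_sub_add b P hnd (fun u hu => by rw [hP1 u hu])
  have hadj : ∀ u ∈ P.map (Sum.inr : V → V ⊕ V), adj H (Sum.inl x) u := by
    intro u hu
    obtain ⟨p, hp, rfl⟩ := List.mem_map.1 hu
    exact hPx p hp
  have main := PL1 (K := K) (H := H) (Sum.inl x) (Sum.inr y) (b - cr P) k hxy hby hcy
    (P.map Sum.inr) (M ⊓ Zv K H (dl (Sum.inl x)) b k)
    (hnd.map Sum.inr_injective)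
    (by
      intro u hu
      obtain ⟨p, hp, rfl⟩ := List.mem_map.1 hu
      exact KA_sub_zero b P hnd hP1 p hp)
    hadj (KA_corners x b P hPs hP1 hcor)
    (by rw [hb]; exact inf_le_right)
    (by
      rw [hb]
      intro w hw
      exact ⟨hbd w (Lv_e_to_b' _ hw), Zv_boundary w hw⟩)
    (by
      rw [hb]
      intro w hw
      exact ⟨hlev (Lv_e_to_b' _ hw), Lv_Zv hw⟩)
    (by
      intro P1 Q1 hPQ hne j hkj g hg
      obtain ⟨P2, Q2, h1, rfl, rfl⟩ := KA_map_split P P1 Q1 hPQ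
      have hb2 : b = (b - cr P + cnt (Q2.map Sum.inr)) + cr P2 := by
        have h9 : cnt (P.map Sum.inr) = cr P2 + (cnt (Q2.map Sum.inr) : V ⊕ V → ℕ) := by
          rw [h1, List.map_append, KA_cnt_append]
        rw [h9] at hb
        calc b = b - cr P + (cr P2 + cnt (Q2.map Sum.inr)) := hb.symm
          _ = _ := by rw [add_comm (cr P2), add_assoc]
      refine ⟨hpre P2 _ j (fun h => hne (by rw [h]; rfl))
        ((List.pairwise_append.1 (h1 ▸ hPs)).1) (fun u hu => by rw [h1]; simp [hu]) hb2 hkj g hg, ?_⟩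
      have h7 := DD_Zv_adj (K := K) (H := H) (v := Sum.inl x) (P2.map Sum.inr)
        (fun u hu => hadj u (by rw [h1, List.map_append]; exact List.mem_append_left _ hu)) hg
      have h8 : b - cr P + cnt (Q2.map Sum.inr) + cnt (P2.map Sum.inr) = b := hb2.symm
      rw [h8] at h7
      rw [hkj]
      exact h7)
    (by
      intro g hg
      refine ⟨htail g hg, ?_⟩
      have h7 := tail_Zv (K := K) (H := H) (P.map Sum.inr) hadj (show adj H (Sum.inl x)
        (Sum.inr y) from hxy) hby hcy hg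
      rw [hb] at h7
      exact h7)
  rw [hb] at main
  exact fun c hc => (main hc).1

/-- expansion with a tail of the second kind -/
private theorem KA_exp2 (x : V) (b : V ⊕ V → ℕ) (k : ℕ) (P : List V)
    (hPs : P.Pairwise (· < ·)) (hP1 : ∀ u ∈ P, b (Sum.inr u) = 1) (hPx : ∀ u ∈ P, H x u)
    (hcor : ∀ u ∈ P, ∀ a : V ⊕ V → ℕ, a ≤ b + dl (Sum.inl x) →
      (∀ p ∈ P, p < u → a (Sum.inr p) = 0) → Cor H a (Sum.inl x) (Sum.inr u))
    (hiso : ∀ j, H x j → 1 ≤ (b - cr P : V ⊕ V → ℕ) (Sum.inr j) → False)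
    (M : Submodule K (Finset (V ⊕ V) → K))
    (hbd : ∀ w ∈ Lv K H 0 (b + dl (Sum.inl x)) k, dd K w ∈ M)
    (hlev : Lv K H 0 (b + dl (Sum.inl x)) (k + 1) ≤ M)
    (hpre : ∀ (B : List V) (b' : V ⊕ V → ℕ) (j : ℕ), B ≠ [] → B.Pairwise (· < ·) →
      (∀ u ∈ B, u ∈ P) → b = b' + cr B → k = j + 1 → ∀ g ∈ Zv K H 0 b' j,
      DD K (B.map Sum.inr) g ∈ M)
    (htail : ∀ g ∈ Zv K H 0 (b - cr P) k, EE K (P.map Sum.inr) g ∈ M) :
    Zv K H (dl (Sum.inl x)) b k ≤ M := by
  have hnd : P.Nodup := hPs.imp (fun h => ne_of_lt h)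
  have hb : b - cr P + cnt (P.map Sum.inr) = b :=
    KA_sub_add b P hnd (fun u hu => by rw [hP1 u hu])
  have hadj : ∀ u ∈ P.map (Sum.inr : V → V ⊕ V), adj H (Sum.inl x) u := by
    intro u hu
    obtain ⟨p, hp, rfl⟩ := List.mem_map.1 hu
    exact hPx p hp
  have hiso' : ∀ u, 1 ≤ (b - cr P : V ⊕ V → ℕ) u → ¬ adj H (Sum.inl x) u := by
    intro u hu ha
    rcases u with u | u
    · exact ha
    · exact hiso u ha hu
  have main := PL2 (K := K) (H := H) (Sum.inl x) (b - cr P) k hiso'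
    (P.map Sum.inr) (M ⊓ Zv K H (dl (Sum.inl x)) b k)
    (hnd.map Sum.inr_injective)
    (by
      intro u hu
      obtain ⟨p, hp, rfl⟩ := List.mem_map.1 hu
      exact KA_sub_zero b P hnd hP1 p hp)
    hadj (KA_corners x b P hPs hP1 hcor)
    (by rw [hb]; exact inf_le_right)
    (by
      rw [hb]
      intro w hw
      exact ⟨hbd w (Lv_e_to_b' _ hw), Zv_boundary w hw⟩)
    (by
      rw [hb]
      intro w hw
      exact ⟨hlev (Lv_e_to_b' _ hw), Lv_Zv hw⟩)
    (by
      intro P1 Q1 hPQ hne j hkj g hg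
      obtain ⟨P2, Q2, h1, rfl, rfl⟩ := KA_map_split P P1 Q1 hPQ
      have hb2 : b = (b - cr P + cnt (Q2.map Sum.inr)) + cr P2 := by
        have h9 : cnt (P.map Sum.inr) = cr P2 + (cnt (Q2.map Sum.inr) : V ⊕ V → ℕ) := by
          rw [h1, List.map_append, KA_cnt_append]
        rw [h9] at hb
        calc b = b - cr P + (cr P2 + cnt (Q2.map Sum.inr)) := hb.symm
          _ = _ := by rw [add_comm (cr P2), add_assoc]
      refine ⟨hpre P2 _ j (fun h => hne (by rw [h]; rfl))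
        ((List.pairwise_append.1 (h1 ▸ hPs)).1) (fun u hu => by rw [h1]; simp [hu]) hb2 hkj g hg, ?_⟩
      have h7 := DD_Zv_adj (K := K) (H := H) (v := Sum.inl x) (P2.map Sum.inr)
        (fun u hu => hadj u (by rw [h1, List.map_append]; exact List.mem_append_left _ hu)) hg
      have h8 : b - cr P + cnt (Q2.map Sum.inr) + cnt (P2.map Sum.inr) = b := hb2.symm
      rw [h8] at h7
      rw [hkj]
      exact h7)
    (by
      intro g hg
      refine ⟨htail g hg, ?_⟩
      have h7 := EE_Zv_iso (K := K) (H := H) (v := Sum.inl x) (P.map Sum.inr) hadj hg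
      rw [hb] at h7
      exact h7)
  rw [hb] at main
  exact fun c hc => (main hc).1

/-- both cases: `Y` is a list of neighbours -/
private theorem KA_exp (x : V) (b : V ⊕ V → ℕ) (k : ℕ) (Y : List V)
    (hYs : Y.Pairwise (· < ·)) (hY1 : ∀ u ∈ Y, 1 ≤ b (Sum.inr u)) (hYx : ∀ u ∈ Y, H x u)
    (hcor : ∀ u ∈ Y, ∀ a : V ⊕ V → ℕ, a ≤ b + dl (Sum.inl x) →
      (∀ p ∈ Y, p < u → a (Sum.inr p) = 0) → Cor H a (Sum.inl x) (Sum.inr u))
    (M : Submodule K (Finset (V ⊕ V) → K))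
    (hbd : ∀ w ∈ Lv K H 0 (b + dl (Sum.inl x)) k, dd K w ∈ M)
    (hlev : Lv K H 0 (b + dl (Sum.inl x)) (k + 1) ≤ M)
    (hpre : ∀ (B : List V) (b' : V ⊕ V → ℕ) (j : ℕ), B ≠ [] → B.Pairwise (· < ·) →
      (∀ u ∈ B, u ∈ Y) → b = b' + cr B → k = j + 1 → ∀ g ∈ Zv K H 0 b' j,
      DD K (B.map Sum.inr) g ∈ M)
    (hall : (∀ u ∈ Y, b (Sum.inr u) = 1) → Zv K H (dl (Sum.inl x)) b k ≤ M) :
    Zv K H (dl (Sum.inl x)) b k ≤ M := by
  rcases KA_first (fun u => b (Sum.inr u) = 1) Y with h | ⟨P, y, Q, hYe, hP1, hy1⟩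
  · exact hall h
  have hndY : Y.Nodup := hYs.imp (fun h => ne_of_lt h)
  have hyY : y ∈ Y := by rw [hYe]; simp
  have hPY : ∀ u ∈ P, u ∈ Y := fun u hu => by rw [hYe]; simp [hu]
  have hsp := hYs
  rw [hYe, List.pairwise_append] at hsp
  have hPs := hsp.1
  have hPy : ∀ u ∈ P, u < y := fun u hu => hsp.2.2 u hu y (by simp)
  have hnd : P.Nodup := hPs.imp (fun h => ne_of_lt h)
  have hyP : y ∉ P := fun h => lt_irrefl _ (hPy y h)
  have hb2 : 2 ≤ b (Sum.inr y) := by
    have h1 := hY1 y hyY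
    have h2 : b (Sum.inr y) ≠ 1 := hy1
    omega
  have hby : 2 ≤ (b - cr P : V ⊕ V → ℕ) (Sum.inr y) := by
    rw [KA_sub_of_notMem b P y hyP]; exact hb2
  have hb : b - cr P + cr P = b :=
    KA_sub_add b P hnd (fun u hu => by rw [hP1 u hu])
  have hPless : ∀ u ∈ P, ∀ p ∈ Y, p < u → p ∈ P := by
    intro u hu p hp hpu
    rw [hYe, List.mem_append] at hp
    rcases hp with hp | hp
    · exact hp
    · exact absurd (lt_trans hpu (hsp.2.2 u hu p hp)) (lt_irrefl _)
  have hPless' : ∀ p ∈ Y, p < y → p ∈ P := by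
    intro p hp hpu
    rw [hYe, List.mem_append] at hp
    rcases hp with hp | hp
    · exact hp
    · rcases List.mem_cons.1 hp with rfl | hp'
      · exact absurd hpu (lt_irrefl _)
      · exact absurd (lt_trans hpu ((List.pairwise_cons.1 hsp.2.1).1 p hp')) (lt_irrefl _)
  have hcy : Cor H (b - cr P + dl (Sum.inl x)) (Sum.inl x) (Sum.inr y) := by
    refine hcor y hyY _ ?_ ?_
    · intro w
      show b w - cr P w + dl (Sum.inl x) w ≤ b w + dl (Sum.inl x) w
      omega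
    · intro p hp hpy
      show (b - cr P : V ⊕ V → ℕ) (Sum.inr p) + dl (Sum.inl x) (Sum.inr p) = 0
      rw [KA_sub_zero b P hnd hP1 p (hPless' p hp hpy)]
      rfl
  have hxy : H x y := hYx y hyY
  refine KA_exp1 x y b k P hPs hP1 (fun u hu => hYx u (hPY u hu)) ?_ hxy (by omega) hcy M hbd hlev
    (fun B b' j h1 h2 h3 => hpre B b' j h1 h2 (fun u hu => hPY u (h3 u hu))) ?_
  · intro u hu a ha hz
    exact hcor u (hPY u hu) a ha (fun p hp hpu => hz p (hPless u hu p hp hpu) hpu)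
  · -- the tail
    have hb'' : b - cr P = (b - cr P - dl (Sum.inr y)) + dl (Sum.inr y : V ⊕ V) := by
      funext w
      show (b - cr P : V ⊕ V → ℕ) w = (b - cr P : V ⊕ V → ℕ) w - dl (Sum.inr y) w
        + dl (Sum.inr y) w
      have : dl (Sum.inr y) w ≤ (b - cr P : V ⊕ V → ℕ) w := by
        unfold dl
        by_cases hw : w = Sum.inr y
        · rw [if_pos hw, hw]; omega
        · rw [if_neg hw]; exact Nat.zero_le _
      omega
    have hb''1 : 1 ≤ (b - cr P - dl (Sum.inr y) : V ⊕ V → ℕ) (Sum.inr y) := by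
      show 1 ≤ (b - cr P : V ⊕ V → ℕ) (Sum.inr y) - dl (Sum.inr y) (Sum.inr y : V ⊕ V)
      have : dl (Sum.inr y) (Sum.inr y : V ⊕ V) = 1 := by simp [dl]
      omega
    have hadj : adj H (Sum.inl x) (Sum.inr y) := hxy
    have hcy' : Cor H ((b - cr P - dl (Sum.inr y)) + dl (Sum.inl x) + dl (Sum.inr y))
        (Sum.inl x) (Sum.inr y) := by
      have : (b - cr P - dl (Sum.inr y)) + dl (Sum.inl x) + dl (Sum.inr y)
          = b - cr P + dl (Sum.inl x : V ⊕ V) := by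
        calc _ = (b - cr P - dl (Sum.inr y)) + dl (Sum.inr y) + dl (Sum.inl x : V ⊕ V) :=
              add_right_comm _ _ _
          _ = _ := by rw [← hb'']
      rw [this]; exact hcy
    have hadjP : ∀ u ∈ P.map (Sum.inr : V → V ⊕ V), adj H (Sum.inl x) u := by
      intro u hu
      obtain ⟨p, hp, rfl⟩ := List.mem_map.1 hu
      exact hYx p (hPY p hp)
    intro g hg
    rcases Nat.eq_zero_or_pos k with hk | hk
    · subst hk
      have h1 : g ∈ Lv K H (dl (Sum.inl x)) (b - cr P) 1 := by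
        rw [hb'']
        refine level_one2 hadj hb''1 ?_
        rw [← hb'']
        exact hg.1
      have h2 := tail_Lv (K := K) (H := H) (P.map Sum.inr) hadjP hadj (by omega) hcy h1
      refine hlev ?_
      have h3 : b - cr P + cnt (P.map Sum.inr) = b := hb
      rw [h3] at h2
      exact Lv_e_to_b' _ h2
    · obtain ⟨j, rfl⟩ : ∃ j, k = j + 1 := ⟨k - 1, by omega⟩
      rw [hb''] at hg
      have hg' := corner_Zv2 hadj hb''1 hcy' hg
      have h4 := hpre (P ++ [y]) (b - cr P - dl (Sum.inr y)) j (by simp)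
        (by
          rw [List.pairwise_append]
          exact ⟨hPs, by simp, fun u hu v hv => by
            rw [List.mem_singleton] at hv; rw [hv]; exact hPy u hu⟩)
        (by
          intro u hu
          rcases List.mem_append.1 hu with hu | hu
          · exact hPY u hu
          · rw [List.mem_singleton] at hu; rw [hu]; exact hyY)
        (by
          rw [KA_cr_append, KA_cr_single]
          calc b = b - cr P + cr P := hb.symm
            _ = (b - cr P - dl (Sum.inr y)) + dl (Sum.inr y) + cr P := by rw [← hb'']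
            _ = _ := by rw [add_assoc, add_comm (dl (Sum.inr y))])
        rfl g hg'
      rw [List.map_append] at h4
      exact h4

/-- see the header -/
theorem KA (hSO : SO H) (x x' : V) (Y : List V) (b0 : V ⊕ V → ℕ) (k : ℕ) (hxx : x < x')
    (hfirst : ∀ i, 1 ≤ b0 (Sum.inl i) → x' ≤ i)
    (hY : Y ≠ []) (hYs : Y.Pairwise (· < ·))
    (hYm : ∀ y, y ∈ Y ↔ H x y ∧ 1 ≤ b0 (Sum.inr y)) (hx'Y : ∀ y ∈ Y, H x' y)
    (c : Finset (V ⊕ V) → K) (hc : c ∈ HypK K H x (b0 + dl (Sum.inl x')) k)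
    (hc' : c ∈ Zv K H (dl (Sum.inl x')) b0 k) :
    c ∈ KS K H x (b0 + dl (Sum.inl x')) k := by
  classical
  have hnd : Y.Nodup := hYs.imp (fun h => ne_of_lt h)
  have hYx : ∀ u ∈ Y, H x u := fun u hu => ((hYm u).1 hu).1
  have hY1 : ∀ u ∈ Y, 1 ≤ b0 (Sum.inr u) := fun u hu => ((hYm u).1 hu).2
  -- the first left vertex
  have hleft : ∀ a : V ⊕ V → ℕ, a ≤ b0 + dl (Sum.inl x') → ∀ i, 1 ≤ a (Sum.inl i) → x' ≤ i := by
    intro a ha i hi
    have h1 : a (Sum.inl i) ≤ b0 (Sum.inl i) + dl (Sum.inl x') (Sum.inl i) := ha (Sum.inl i)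
    by_cases hix : i = x'
    · exact le_of_eq hix.symm
    · have h2 : dl (Sum.inl x') (Sum.inl i : V ⊕ V) = 0 := by
        unfold dl
        rw [if_neg]
        intro h
        exact hix (Sum.inl_injective h)
      exact hfirst i (by omega)
  have hright : ∀ a : V ⊕ V → ℕ, a ≤ b0 + dl (Sum.inl x') → ∀ j, a (Sum.inr j) ≤ b0 (Sum.inr j) := by
    intro a ha j
    have h1 : a (Sum.inr j) ≤ b0 (Sum.inr j) + dl (Sum.inl x') (Sum.inr j) := ha (Sum.inr j)
    have h2 : dl (Sum.inl x') (Sum.inr j : V ⊕ V) = 0 := by simp [dl]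
    omega
  have hcor : ∀ u ∈ Y, ∀ a : V ⊕ V → ℕ, a ≤ b0 + dl (Sum.inl x') →
      (∀ p ∈ Y, p < u → a (Sum.inr p) = 0) → Cor H a (Sum.inl x') (Sum.inr u) := by
    intro u hu a ha hz
    refine cor_inl hSO (hx'Y u hu) (hleft a ha) ?_
    intro j' hj' hxj'
    by_contra hlt
    have hlt' : j' < u := not_le.1 hlt
    have h1 := hright a ha j'
    have h2 : H x j' := (hSO x x' j' u hxx hlt' (hYx u hu) hxj').1
    have h3 := hz j' ((hYm j').2 ⟨h2, by omega⟩) hlt'
    omega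
  have hpre : ∀ (B : List V) (b' : V ⊕ V → ℕ) (j : ℕ), B ≠ [] → B.Pairwise (· < ·) →
      (∀ u ∈ B, u ∈ Y) → b0 = b' + cr B → k = j + 1 → ∀ g ∈ Zv K H 0 b' j,
      DD K (B.map Sum.inr) g ∈ KS K H x (b0 + dl (Sum.inl x')) k := by
    intro B b' j hB hBs hBY hb hk g hg
    refine Submodule.subset_span (Or.inr (Or.inr (Or.inr
      ⟨[x'], B, b', j, g, by simp, hB, by simp, hBs, ?_, fun j hj => hYx j (hBY j hj), ?_, hk, hg,
        ?_⟩)))
    · intro i hi j hj
      rw [List.mem_singleton] at hi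
      rw [hi]
      exact hx'Y j (hBY j hj)
    · rw [hb, KA_cl_single, add_right_comm]
    · exact (DD_single (K := K) _ _).symm
  have hbd : ∀ w ∈ Lv K H 0 (b0 + dl (Sum.inl x')) k,
      dd K w ∈ KS K H x (b0 + dl (Sum.inl x')) k :=
    fun w hw => Submodule.subset_span (Or.inl ⟨w, hw, rfl⟩)
  have hlev : Lv K H 0 (b0 + dl (Sum.inl x')) (k + 1) ≤ KS K H x (b0 + dl (Sum.inl x')) k :=
    fun w hw => Submodule.subset_span (Or.inr (Or.inl hw))
  by_cases hall : ∀ u ∈ Y, b0 (Sum.inr u) = 1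
  swap
  · exact KA_exp x' b0 k Y hYs hY1 hx'Y hcor (KS K H x (b0 + dl (Sum.inl x')) k) hbd hlev hpre
      (fun h => absurd h hall) hc'
  have hbe : b0 - cr Y + cr Y = b0 := KA_sub_add b0 Y hnd hY1
  have hsub : ∀ w, (b0 - cr Y : V ⊕ V → ℕ) w ≤ b0 w := fun w => Nat.sub_le _ _
  have hz0 : ∀ u ∈ Y, (b0 - cr Y : V ⊕ V → ℕ) (Sum.inr u) = 0 := KA_sub_zero b0 Y hnd hall
  by_cases hnb : ∃ j, H x' j ∧ 1 ≤ (b0 - cr Y : V ⊕ V → ℕ) (Sum.inr j)
  swap
  · -- case 2a
    refine KA_exp2 x' b0 k Y hYs hall hx'Y hcor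
      (fun j h1 h2 => hnb ⟨j, h1, h2⟩) (KS K H x (b0 + dl (Sum.inl x')) k) hbd hlev hpre ?_ hc'
    intro g hg
    refine Submodule.subset_span (Or.inr (Or.inr (Or.inl
      ⟨[x'], Y, b0 - cr Y, g, by simp, hY, by simp, hYs, ?_, hYx, ?_, hg, ?_⟩)))
    · intro i hi j hj
      rw [List.mem_singleton] at hi
      rw [hi]
      exact hx'Y j hj
    · calc b0 + dl (Sum.inl x') = (b0 - cr Y + cr Y) + dl (Sum.inl x') := by rw [hbe]
        _ = _ := by rw [KA_cl_single, add_right_comm]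
    · exact (DD_single (K := K) _ _).symm
  -- case 2b
  obtain ⟨y', hxy', hy'1, hmin⟩ : ∃ y', H x' y' ∧ 1 ≤ (b0 - cr Y : V ⊕ V → ℕ) (Sum.inr y') ∧
      ∀ j, H x' j → 1 ≤ (b0 - cr Y : V ⊕ V → ℕ) (Sum.inr j) → y' ≤ j := by
    have hne : (univ.filter (fun j : V => H x' j ∧
        1 ≤ (b0 - cr Y : V ⊕ V → ℕ) (Sum.inr j))).Nonempty := by
      obtain ⟨j, hj⟩ := hnb
      exact ⟨j, by simpa using hj⟩
    have h1 := Finset.min'_mem _ hne
    rw [Finset.mem_filter] at h1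
    refine ⟨_, h1.2.1, h1.2.2, ?_⟩
    intro j h2 h3
    exact Finset.min'_le _ j (by simpa using ⟨h2, h3⟩)
  have hle' : b0 - cr Y + dl (Sum.inl x') ≤ b0 + dl (Sum.inl x' : V ⊕ V) := by
    intro w
    show (b0 - cr Y : V ⊕ V → ℕ) w + dl (Sum.inl x') w ≤ b0 w + dl (Sum.inl x') w
    have := hsub w
    omega
  have hcy : Cor H (b0 - cr Y + dl (Sum.inl x')) (Sum.inl x') (Sum.inr y') := by
    refine cor_inl hSO hxy' (hleft _ hle') ?_
    intro j' hj' hxj'
    refine hmin j' hxj' ?_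
    have h1 : 1 ≤ (b0 - cr Y : V ⊕ V → ℕ) (Sum.inr j') + dl (Sum.inl x') (Sum.inr j') := hj'
    have h2 : dl (Sum.inl x') (Sum.inr j' : V ⊕ V) = 0 := by simp [dl]
    omega
  have hmem := KA_exp1 x' y' b0 k Y hYs hall hx'Y hcor hxy' hy'1 hcy
    (KS K H x (b0 + dl (Sum.inl x')) k ⊔
      (Zv K H (dl (Sum.inl x')) (b0 - cr Y) k).map (DD K (Y.map Sum.inr ++ [Sum.inr y'])))
    (fun w hw => Submodule.mem_sup_left (hbd w hw))
    (fun w hw => Submodule.mem_sup_left (hlev hw))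
    (fun B b' j h1 h2 h3 h4 h5 g hg => Submodule.mem_sup_left (hpre B b' j h1 h2 h3 h4 h5 g hg))
    (fun g hg => Submodule.mem_sup_right (Submodule.mem_map_of_mem hg)) hc'
  obtain ⟨m, hm, t, ht, hmt⟩ := Submodule.mem_sup.1 hmem
  obtain ⟨g', hg', rfl⟩ := Submodule.mem_map.1 ht
  have hHyp : DD K (Y.map Sum.inr ++ [Sum.inr y']) g' ∈ HypK K H x (b0 + dl (Sum.inl x')) k := by
    have h1 : DD K (Y.map Sum.inr ++ [Sum.inr y']) g' = c - m := by
      rw [← hmt]; simp
    rw [h1]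
    exact Submodule.sub_mem _ hc (hyp_KS x _ k hm)
  have hKB := KB (K := K) (H := H) x x' y' Y (b0 - cr Y) k hY hYs hz0 hYx hx'Y ?_ hxy' hy'1 hcy g'
    hg' (by rw [hbe]; exact hHyp)
  · rw [hbe] at hKB
    rw [← hmt]
    exact Submodule.add_mem _ hm hKB
  · intro u hu hadj
    rcases u with u | u
    · exact hadj
    · have h1 : 1 ≤ (b0 - cr Y : V ⊕ V → ℕ) (Sum.inr u) := by
        have h2 : 1 ≤ (b0 - cr Y : V ⊕ V → ℕ) (Sum.inr u) + dl (Sum.inl x') (Sum.inr u) := hu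
        have h3 : dl (Sum.inl x') (Sum.inr u : V ⊕ V) = 0 := by simp [dl]
        omega
      have h4 : u ∈ Y := (hYm u).2 ⟨hadj, le_trans h1 (hsub _)⟩
      have := hz0 u h4
      omega

end Pool.Agent.H52.BE
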