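import Pool.Agent.H52.BE.Lev2

/-!
# Project BE: Lemma PL (expansion along the neighbours of a vertex)

`v` is extra (`e = dl v`), `L = [u_1, ..., u_s]` are neighbours of `v` which do not occur in `b'`
(so they have exponent exactly 1 in `b' + cnt L`); `(v, u_i)` is a corner after removing
`u_1, ..., u_(i-1)`.  `N` is a subspace of the relative cycles containing all boundaries, all
chains of level `k+1`, all `DD P g` for the nonempty prefixes `P` of `L` and the tail terms.
Then `N` is everything.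

PROOF (both versions), induction on `L` (generalising `N`).
`L = []`: `DD [u'] g = g` resp. `EE [] g = g` (with `Zv_iso`).
`L = u :: L'`: let `c ∈ Zv (dl v) (b' + cnt (u :: L')) k`, note
`b' + cnt (u :: L') = (b' + cnt L') + dl u` and `(b' + cnt L') u = 0`.
Split `c = c0 + E u c1` (`split`, `split_Zv`), `c1 ∈ Zv (dl v) (b' + cnt L') k`.  Let
`N' = {c1 ∈ Zv (dl v) (b' + cnt L') k | ∃ r0, Fr u r0 ∧ E u c1 + r0 ∈ N}` (a submodule).
Induction hypothesis for `L'`, `N'`:
 * boundaries `dd w`, `w ∈ Lv (dl v) (b' + cnt L') k`: `E u (dd w) = w - dd (E u w)`, take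
   `r0 = -w` (free of `e_u`: `Lv_Fr`), `E u w ∈ Lv (dl v) (b' + cnt (u::L')) k` (`E_Lv`).
 * level `k+1`: `r0 = 0`, `E_Lv`.
 * prefixes: `E u (DD P g) = EE P g - DD (u :: P) g` (`DD_cons`), `r0 = - EE P g` (`Fr_EL`), and
   `DD (u :: P) g ∈ N`; `DD P g ∈ Zv ..` by `DD_Zv_adj`.  Same for the tail terms
   (`tail_Zv`, `EE_Zv_iso`; in the second version `E u (EE L' g) = EE (u :: L') g`, `r0 = 0`).
So `E u c1 + r0 ∈ N` for some free `r0`; `r = c - (E u c1 + r0) = c0 - r0` is free of `e_u` and lies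
in `Zv (dl v) (b' + cnt L' + dl u) k` (as `N ≤ Zv`).  If `k = j + 1`: `Fr_Zv` and `corner_Zv` give
`r ∈ Zv 0 (b' + cnt L') j`, so `r = DD [u] r ∈ N` (prefix `[u]`).  If `k = 0`: `Fr_Lv`,
`level_one` give `r ∈ Lv (dl v + dl u) (b' + cnt L') 1`, which is `≤ Lv (dl v) (b' + cnt L) 1 ≤ N`
(`Lv_e_to_b`).
-/

namespace Pool.Agent.H52.BE

open Finset

variable {K : Type*} [CommRing K]
variable {V : Type*} [Fintype V] [DecidableEq V] {H : V → V → Prop}

omit [Fintype V] in
private theorem PL_cnt_cons (u : V ⊕ V) (L : List (V ⊕ V)) (b : V ⊕ V → ℕ) :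
    b + cnt (u :: L) = b + cnt L + dl u := by
  funext w
  simp only [Pi.add_apply, cnt, dl, List.count_cons, beq_iff_eq]
  by_cases h : w = u
  · subst h; simp [add_assoc]
  · have h' : ¬ u = w := fun hh => h hh.symm
    simp [h, h']

omit [Fintype V] in
private theorem PL_cnt_append (P Q : List (V ⊕ V)) (b : V ⊕ V → ℕ) :
    b + cnt (P ++ Q) = b + cnt Q + cnt P := by
  funext w
  simp only [Pi.add_apply, cnt, List.count_append]
  omega

omit [Fintype V] in
private theorem PL_cnt_nil (b : V ⊕ V → ℕ) : b + cnt ([] : List (V ⊕ V)) = b := by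
  funext w
  simp [cnt]

private theorem PL_cnt_zero {σ : Type*} [DecidableEq σ] {u : σ} {L : List σ} (hu : u ∉ L) :
    cnt L u = 0 := List.count_eq_zero.2 hu

omit [Fintype V] in
private theorem PL_zero {u : V ⊕ V} {L : List (V ⊕ V)} {b : V ⊕ V → ℕ} (hb : b u = 0) (hu : u ∉ L) :
    (b + cnt L) u = 0 := by
  rw [Pi.add_apply, hb, zero_add]
  exact PL_cnt_zero hu

/-- the auxiliary submodule -/
private def PL_N (N Z : Submodule K (Finset (V ⊕ V) → K)) (u : V ⊕ V) :
    Submodule K (Finset (V ⊕ V) → K) where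
  carrier := {c | c ∈ Z ∧ ∃ r0, Fr u r0 ∧ E1 K u c + r0 ∈ N}
  zero_mem' := ⟨Z.zero_mem, 0, fun _ _ => rfl, by
    rw [map_zero, add_zero]
    exact N.zero_mem⟩
  add_mem' := by
    rintro a d ⟨ha, r, hr, hra⟩ ⟨hd, t, ht, htd⟩
    refine ⟨Z.add_mem ha hd, r + t, Fr_add u r t hr ht, ?_⟩
    have e : E1 K u (a + d) + (r + t) = (E1 K u a + r) + (E1 K u d + t) := by
      rw [map_add]; abel
    rw [e]
    exact N.add_mem hra htd
  smul_mem' := by
    rintro x a ⟨ha, r, hr, hra⟩
    refine ⟨Z.smul_mem x ha, x • r, ?_, ?_⟩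
    · intro τ hτ
      rw [Pi.smul_apply, hr τ hτ, smul_zero]
    · rw [map_smul, ← smul_add]
      exact N.smul_mem x hra

private theorem PL_step (v u : V ⊕ V) (b' : V ⊕ V → ℕ) (k : ℕ) (L : List (V ⊕ V))
    (N : Submodule K (Finset (V ⊕ V) → K)) (hu : u ∉ L) (hb : b' u = 0) (hadj : adj H v u)
    (hcor : Cor H (b' + cnt (u :: L) + dl v) v u)
    (hNZ : N ≤ Zv K H (dl v) (b' + cnt (u :: L)) k)
    (hN1 : Lv K H (dl v) (b' + cnt (u :: L)) (k + 1) ≤ N)
    (hpre : ∀ j, k = j + 1 → ∀ g ∈ Zv K H 0 (b' + cnt L) j, DD K [u] g ∈ N)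
    (hIH : ∀ c1 ∈ Zv K H (dl v) (b' + cnt L) k, ∃ r0, Fr u r0 ∧ E1 K u c1 + r0 ∈ N) :
    Zv K H (dl v) (b' + cnt (u :: L)) k ≤ N := by
  intro c hc
  have hb0 : (b' + cnt L) u = 0 := PL_zero hb hu
  rw [PL_cnt_cons] at hcor hNZ hN1 hc
  obtain ⟨c0, c1, hcc, h0, h1, -, -⟩ := split (R := K) u c
  have hc' := hc
  rw [hcc] at hc'
  obtain ⟨-, hz1, -⟩ := split_Zv hb0 h0 h1 hc'
  obtain ⟨r0, hr0, hmem⟩ := hIH c1 hz1
  have hr : Fr u (c0 - r0) := Fr_sub u c0 r0 h0 hr0
  have he : c0 - r0 = c - (E1 K u c1 + r0) := by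
    rw [hcc]
    change c0 - r0 = c0 + E1 K u c1 - (E1 K u c1 + r0)
    abel
  have hrZ : c0 - r0 ∈ Zv K H (dl v) (b' + cnt L + dl u) k := by
    rw [he]
    exact Submodule.sub_mem _ hc (hNZ hmem)
  have hrN : c0 - r0 ∈ N := by
    rcases k with _ | j
    · have h2 : c0 - r0 ∈ Lv K H (dl v + dl u) (b' + cnt L) 0 := Fr_Lv hr (mem_Zv.1 hrZ).1
      exact hN1 (Lv_e_to_b u (level_one hadj h2))
    · have h2 := Fr_Zv hr hrZ
      have hcor' : Cor H (b' + cnt L + dl v + dl u) v u := by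
        rwa [add_right_comm] at hcor
      have h3 := corner_Zv hadj hcor' h2
      have h4 := hpre j rfl _ h3
      rwa [DD_single] at h4
  have h5 : c = (c0 - r0) + (E1 K u c1 + r0) := by
    rw [he]; abel
  rw [h5]
  exact N.add_mem hrN hmem

theorem PL1 (v u' : V ⊕ V) (b' : V ⊕ V → ℕ) (k : ℕ) (hv' : adj H v u') (hu' : 1 ≤ b' u')
    (hc' : Cor H (b' + dl v) v u') :
    ∀ (L : List (V ⊕ V)) (N : Submodule K (Finset (V ⊕ V) → K)), L.Nodup →
      (∀ u ∈ L, b' u = 0) → (∀ u ∈ L, adj H v u) →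
      (∀ P u Q, L = P ++ u :: Q → Cor H (b' + cnt (u :: Q) + dl v) v u) →
      N ≤ Zv K H (dl v) (b' + cnt L) k →
      (∀ w ∈ Lv K H (dl v) (b' + cnt L) k, dd K w ∈ N) →
      Lv K H (dl v) (b' + cnt L) (k + 1) ≤ N →
      (∀ P Q, L = P ++ Q → P ≠ [] → ∀ j, k = j + 1 → ∀ g ∈ Zv K H 0 (b' + cnt Q) j,
        DD K P g ∈ N) →
      (∀ g ∈ Zv K H (dl v) b' k, DD K (L ++ [u']) g ∈ N) →
      Zv K H (dl v) (b' + cnt L) k ≤ N := by
  intro L
  induction L with
  | nil =>
    intro N _ _ _ _ _ _ _ _ htail c hc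
    rw [PL_cnt_nil] at hc
    have h1 := htail c hc
    rw [List.nil_append, DD_single] at h1
    exact h1
  | cons u L ih =>
    intro N hnd hb hadj hcor hNZ hbd hN1 hpre htail
    rw [List.nodup_cons] at hnd
    obtain ⟨hu, hndL⟩ := hnd
    have hbu : b' u = 0 := hb u (by simp)
    have hadju : adj H v u := hadj u (by simp)
    have hadjL : ∀ w ∈ L, adj H v w := fun w hw => hadj w (by simp [hw])
    have hb0 : (b' + cnt L) u = 0 := PL_zero hbu hu
    refine PL_step v u b' k L N hu hbu hadju (hcor [] u L rfl) hNZ hN1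
      (fun j hj g hg => hpre [u] L rfl (by simp) j hj g hg) ?_
    have hIH : Zv K H (dl v) (b' + cnt L) k ≤ PL_N N (Zv K H (dl v) (b' + cnt L) k) u := by
      apply ih (PL_N N (Zv K H (dl v) (b' + cnt L) k) u) hndL (fun w hw => hb w (by simp [hw])) hadjL
        (fun P w Q hPQ => hcor (u :: P) w Q (by rw [hPQ]; rfl)) (fun c hc => hc.1)
      · -- boundaries
        intro w hw
        refine ⟨Zv_boundary w hw, -w, Fr_neg u w (Lv_Fr hb0 hw), ?_⟩
        have e : E1 K u (dd K w) + -w = -(dd K (E1 K u w)) := by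
          rw [dd_E]; abel
        rw [e]
        apply N.neg_mem
        apply hbd
        rw [PL_cnt_cons]
        exact E_Lv u hw
      · -- level k + 1
        intro w hw
        refine ⟨Lv_Zv hw, 0, fun _ _ => rfl, ?_⟩
        rw [add_zero]
        apply hN1
        rw [PL_cnt_cons]
        exact E_Lv u hw
      · -- prefixes
        intro P Q hPQ hP j hj g hg
        have huP : u ∉ P := fun h => hu (by rw [hPQ]; exact List.mem_append_left _ h)
        have huQ : u ∉ Q := fun h => hu (by rw [hPQ]; exact List.mem_append_right _ h)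
        have hZ : DD K P g ∈ Zv K H (dl v) (b' + cnt L) k := by
          rw [hPQ, PL_cnt_append, hj]
          exact DD_Zv_adj P (fun w hw => hadjL w (by rw [hPQ]; exact List.mem_append_left _ hw)) hg
        have hFg : Fr u g := Lv_Fr (PL_zero hbu huQ) (mem_Zv.1 hg).1
        refine ⟨hZ, -(EE K P g), Fr_neg u _ (Fr_EL u P huP g hFg), ?_⟩
        have e : E1 K u (DD K P g) + -(EE K P g) = -(DD K (u :: P) g) := by
          rw [DD_cons]; abel
        rw [e]
        apply N.neg_mem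
        exact hpre (u :: P) Q (by rw [hPQ]; rfl) (by simp) j hj g hg
      · -- tail
        intro g hg
        have hne : u ≠ u' := by
          rintro rfl
          omega
        have hnot : u ∉ L ++ [u'] := by
          rw [List.mem_append, List.mem_singleton]
          rintro (h | h)
          · exact hu h
          · exact hne h
        have hFg : Fr u g := Lv_Fr hbu (mem_Zv.1 hg).1
        refine ⟨tail_Zv L hadjL hv' hu' hc' hg, -(EE K (L ++ [u']) g),
          Fr_neg u _ (Fr_EL u _ hnot g hFg), ?_⟩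
        have e : E1 K u (DD K (L ++ [u']) g) + -(EE K (L ++ [u']) g) =
            -(DD K (u :: (L ++ [u'])) g) := by
          rw [DD_cons]; abel
        rw [e]
        apply N.neg_mem
        exact htail g hg
    intro c1 hc1
    exact (hIH hc1).2

theorem PL2 (v : V ⊕ V) (b' : V ⊕ V → ℕ) (k : ℕ) (hiso : ∀ u, 1 ≤ b' u → ¬ adj H v u) :
    ∀ (L : List (V ⊕ V)) (N : Submodule K (Finset (V ⊕ V) → K)), L.Nodup →
      (∀ u ∈ L, b' u = 0) → (∀ u ∈ L, adj H v u) →
      (∀ P u Q, L = P ++ u :: Q → Cor H (b' + cnt (u :: Q) + dl v) v u) →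
      N ≤ Zv K H (dl v) (b' + cnt L) k →
      (∀ w ∈ Lv K H (dl v) (b' + cnt L) k, dd K w ∈ N) →
      Lv K H (dl v) (b' + cnt L) (k + 1) ≤ N →
      (∀ P Q, L = P ++ Q → P ≠ [] → ∀ j, k = j + 1 → ∀ g ∈ Zv K H 0 (b' + cnt Q) j,
        DD K P g ∈ N) →
      (∀ g ∈ Zv K H 0 b' k, EE K L g ∈ N) →
      Zv K H (dl v) (b' + cnt L) k ≤ N := by
  intro L
  induction L with
  | nil =>
    intro N _ _ _ _ _ _ _ _ htail c hc
    rw [PL_cnt_nil, Zv_iso hiso] at hc
    exact htail c hc
  | cons u L ih =>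
    intro N hnd hb hadj hcor hNZ hbd hN1 hpre htail
    rw [List.nodup_cons] at hnd
    obtain ⟨hu, hndL⟩ := hnd
    have hbu : b' u = 0 := hb u (by simp)
    have hadju : adj H v u := hadj u (by simp)
    have hadjL : ∀ w ∈ L, adj H v w := fun w hw => hadj w (by simp [hw])
    have hb0 : (b' + cnt L) u = 0 := PL_zero hbu hu
    refine PL_step v u b' k L N hu hbu hadju (hcor [] u L rfl) hNZ hN1
      (fun j hj g hg => hpre [u] L rfl (by simp) j hj g hg) ?_
    have hIH : Zv K H (dl v) (b' + cnt L) k ≤ PL_N N (Zv K H (dl v) (b' + cnt L) k) u := by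
      apply ih (PL_N N (Zv K H (dl v) (b' + cnt L) k) u) hndL (fun w hw => hb w (by simp [hw])) hadjL
        (fun P w Q hPQ => hcor (u :: P) w Q (by rw [hPQ]; rfl)) (fun c hc => hc.1)
      · -- boundaries
        intro w hw
        refine ⟨Zv_boundary w hw, -w, Fr_neg u w (Lv_Fr hb0 hw), ?_⟩
        have e : E1 K u (dd K w) + -w = -(dd K (E1 K u w)) := by
          rw [dd_E]; abel
        rw [e]
        apply N.neg_mem
        apply hbd
        rw [PL_cnt_cons]
        exact E_Lv u hw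
      · -- level k + 1
        intro w hw
        refine ⟨Lv_Zv hw, 0, fun _ _ => rfl, ?_⟩
        rw [add_zero]
        apply hN1
        rw [PL_cnt_cons]
        exact E_Lv u hw
      · -- prefixes
        intro P Q hPQ hP j hj g hg
        have huP : u ∉ P := fun h => hu (by rw [hPQ]; exact List.mem_append_left _ h)
        have huQ : u ∉ Q := fun h => hu (by rw [hPQ]; exact List.mem_append_right _ h)
        have hZ : DD K P g ∈ Zv K H (dl v) (b' + cnt L) k := by
          rw [hPQ, PL_cnt_append, hj]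
          exact DD_Zv_adj P (fun w hw => hadjL w (by rw [hPQ]; exact List.mem_append_left _ hw)) hg
        have hFg : Fr u g := Lv_Fr (PL_zero hbu huQ) (mem_Zv.1 hg).1
        refine ⟨hZ, -(EE K P g), Fr_neg u _ (Fr_EL u P huP g hFg), ?_⟩
        have e : E1 K u (DD K P g) + -(EE K P g) = -(DD K (u :: P) g) := by
          rw [DD_cons]; abel
        rw [e]
        apply N.neg_mem
        exact hpre (u :: P) Q (by rw [hPQ]; rfl) (by simp) j hj g hg
      · -- tail
        intro g hg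
        refine ⟨EE_Zv_iso L hadjL hg, 0, fun _ _ => rfl, ?_⟩
        rw [add_zero]
        exact htail g hg
    intro c1 hc1
    exact (hIH hc1).2

end Pool.Agent.H52.BE
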