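import Pool.Agent.H52.BE.KL
import Pool.Agent.H52.BE.PL

/-!
# Project BE: Lemma K, the kappa argument (`kappa`, `KB`)
-/

namespace Pool.Agent.H52.BE

open Finset

set_option linter.unusedSectionVars false

variable {V : Type*} [Fintype V] [LinearOrder V]
variable {K : Type*} [CommRing K] {H : V → V → Prop}

theorem KB_cnt_cons {σ : Type*} [DecidableEq σ] (b : σ → ℕ) (p : σ) (P : List σ) :
    b + cnt (p :: P) = b + cnt P + dl p := by
  funext w
  simp only [Pi.add_apply, cnt, dl, List.count_cons, beq_iff_eq]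
  by_cases h : w = p
  · subst h; simp; omega
  · rw [if_neg h, if_neg (fun h' => h h'.symm)]; omega

theorem KB_cnt_zero {σ : Type*} [DecidableEq σ] {p : σ} {P : List σ} (h : p ∉ P) :
    cnt P p = 0 := by
  simp only [cnt]
  exact List.count_eq_zero_of_not_mem h

theorem KB_cnt_nil {σ : Type*} [DecidableEq σ] (b : σ → ℕ) : b + cnt ([] : List σ) = b := by
  funext w
  simp [cnt]

theorem KB_cl_single (x' : V) : cl [x'] = dl (Sum.inl x') := by
  have h := KB_cnt_cons (0 : V ⊕ V → ℕ) (Sum.inl x') []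
  rw [KB_cnt_nil, zero_add, zero_add] at h
  exact h

theorem KB_level0 {e b : V ⊕ V → ℕ} : Lv K H e b 0 ≤ Lv K H 0 b 0 := by
  intro c hc τ hτ
  exact ⟨(hc τ hτ).1, Mt_zero _⟩

theorem KB_Fr_zsmul {v : V ⊕ V} (n : ℤ) {c : Finset (V ⊕ V) → K} (hc : Fr v c) : Fr v (n • c) := by
  intro τ hτ
  rw [Pi.smul_apply, hc τ hτ, smul_zero]

theorem KB_Fr_neg {v : V ⊕ V} {c : Finset (V ⊕ V) → K} (hc : Fr v c) : Fr v (-c) := by
  intro τ hτ
  rw [Pi.neg_apply, hc τ hτ, neg_zero]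

theorem KB_sq (r : ℕ) (c : Finset (V ⊕ V) → K) : ((-1 : ℤ) ^ r) • ((-1 : ℤ) ^ r) • c = c := by
  rw [smul_smul, ← mul_pow]
  simp

/-- component of `e_P`: if `c = dd ω + μ` where `c = c' + e_P u`, `c'` has no term containing `P`,
`u` free of `P`, then `u` is again of this form.  Statement in terms of the degrees: `x` isolated in
`b1`, `P` of exponent 0 in `b1`.  (Here `b1 = b' + dl x'`.)

Proof: induction on `P` with general hypothesis: `DD P G + EE P u = dd ω + μ`, `G`, `u` free of `P`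
(`P` without repetition), `ω ∈ Ct_x (b1 + cnt P) k`, `μ ∈ Ct_x (b1 + cnt P) (k+1)`.  `P = []`: `DD [] G = 0`;
`Lv_iso`.  `P = p :: P'`: split `ω = ω0 + E p ω1`, `μ = μ0 + E p μ1` (`split_Lv`), compare the
`e_p`-components (`split_unique`): `- DD P' G + EE P' u = - dd ω1 + μ1`; induction hypothesis. -/
theorem kappa (x : V) (b1 : V ⊕ V → ℕ) (k : ℕ)
    (hiso : ∀ u, 1 ≤ b1 u → ¬ adj H (Sum.inl x) u) :
    ∀ (P : List (V ⊕ V)) (G u ω μ : Finset (V ⊕ V) → K), P.Nodup → (∀ p ∈ P, b1 p = 0) →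
      (∀ p ∈ P, Fr p G) → (∀ p ∈ P, Fr p u) →
      ω ∈ Lv K H (dl (Sum.inl x)) (b1 + cnt P) k →
      μ ∈ Lv K H (dl (Sum.inl x)) (b1 + cnt P) (k + 1) →
      DD K P G + EE K P u = dd K ω + μ →
      ∃ w ∈ Lv K H 0 b1 k, ∃ l ∈ Lv K H 0 b1 (k + 1), u = dd K w + l := by
  intro P
  induction P with
  | nil =>
    intro G u ω μ _ _ _ _ hω hμ h
    rw [KB_cnt_nil, Lv_iso hiso] at hω hμ
    refine ⟨ω, hω, μ, hμ, ?_⟩
    rw [← h]
    have h1 : DD K ([] : List (V ⊕ V)) G = 0 := rfl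
    have h2 : EE K ([] : List (V ⊕ V)) u = u := rfl
    rw [h1, h2, zero_add]
  | cons p P ih =>
    intro G u ω μ hnd hb hG hu hω hμ h
    obtain ⟨hpP, hnd'⟩ := List.nodup_cons.mp hnd
    have hbp : b1 p = 0 := hb p List.mem_cons_self
    have hb0 : (b1 + cnt P) p = 0 := by
      rw [Pi.add_apply, hbp, KB_cnt_zero hpP]
    rw [KB_cnt_cons] at hω hμ
    obtain ⟨ω0, ω1, hωE, hω0, hω1, _, _⟩ := split (R := K) p ω
    obtain ⟨μ0, μ1, hμE, hμ0, hμ1, _, _⟩ := split (R := K) p μ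
    rw [hωE] at hω
    rw [hμE] at hμ
    have hω1' := (split_Lv hb0 hω0 hω1 hω).2
    have hμ1' := (split_Lv hb0 hμ0 hμ1 hμ).2
    have hGp : Fr p G := hG p List.mem_cons_self
    have hup : Fr p u := hu p List.mem_cons_self
    have f1 : Fr p (EE K P G) := Fr_EL p P hpP G hGp
    have f2 : Fr p (DD K P G) := Fr_DL _ p P hpP G hGp
    have f3 : Fr p (EE K P u) := Fr_EL p P hpP u hup
    have f4 : Fr p (dd K ω0) := Fr_kd _ p ω0 hω0
    have f5 : Fr p (dd K ω1) := Fr_kd _ p ω1 hω1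
    have hkey : (EE K P G - (dd K ω0 + ω1 + μ0)) +
        E1 K p (-(DD K P G) + EE K P u + dd K ω1 - μ1) = 0 := by
      rw [DD_cons, EE_cons, hωE, hμE] at h
      have h' : EE K P G - E1 K p (DD K P G) + E1 K p (EE K P u) =
          dd K ω0 + (ω1 - E1 K p (dd K ω1)) + (μ0 + E1 K p μ1) := by
        rw [h, map_add]
        congr 1
        congr 1
        exact dd_E p ω1
      rw [map_sub, map_add, map_add, map_neg]
      have h'' := sub_eq_zero.mpr h'
      rw [← h'']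
      abel
    have g1 : Fr p (EE K P G - (dd K ω0 + ω1 + μ0)) :=
      Fr_sub p _ _ f1 (Fr_add p _ _ (Fr_add p _ _ f4 hω1) hμ0)
    have g2 : Fr p (-(DD K P G) + EE K P u + dd K ω1 - μ1) :=
      Fr_sub p _ _ (Fr_add p _ _ (Fr_add p _ _ (KB_Fr_neg f2) f3) f5) hμ1
    have hu2 := (split_unique (R := K) p _ _ g1 g2 hkey).2
    refine ih (-G) u (-ω1) μ1 hnd' (fun q hq => hb q (List.mem_cons_of_mem _ hq))
      (fun q hq => KB_Fr_neg (hG q (List.mem_cons_of_mem _ hq)))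
      (fun q hq => hu q (List.mem_cons_of_mem _ hq)) (Submodule.neg_mem _ hω1') hμ1' ?_
    rw [map_neg, map_neg]
    have h3 := hu2
    rw [← sub_eq_zero, ← h3]
    abel

/-- see the header.

Proof: `t = DD P (E y' g') + (-1)^r • EE P g'` (`DD_tail`); `kappa` with `b1 = b' + dl x'` gives
`g' = dd w + l`, `w ∈ Ch (b' + dl x') k`, `l ∈ Ch (b' + dl x') (k+1)`.
(i) `1 ≤ b' (inl x')`: `t = DD P (E y' g' - w) + dd (EE P w) + (-1)^r • EE P l`
(`dd (EE P w) = DD P w + (-1)^r • EE P (dd w)`).  If `k = j+1`: `E y' g' - w ∈ Z b' j`: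
`apex_corner`; `w ∈ Ch (b' + dl x') (j+1) = Ct_x' b' (j+1) ≤ Ch b' j` (`Lv_e_eq_b`, `Lv_remove`),
`dd (E y' g' - w) = g' - E y' (dd g') - (g' - l) = l - E y' (dd g') ∈ Ch b' (j+1)`.  So
`DD P (E y' g' - w) = DD [x'] (DD P ..)` is a generator (`A = [x']`, `B = P`).
If `k = 0`: `DD P (..) ∈ Ct_x' (b' + cr P) 1` by `DD_Lv_adj'` (level 0 of `Ch b' 0`), which is
`≤ Ch b 1`; `E y' g' ∈ Ch b' 0`, `w ∈ Ch b' 0` trivially (`Mt_zero`, supports).
(ii) `b' (inl x') = 0`: split `w = w0 + E x' w1`, `l = l0 + E x' l1`; `g'` is free of `e_x'`: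
`g' = dd w0 + w1 + l0`, `dd w1 = l1`.  `w1 ∈ Z b' k` (`split_Zv`, `w ∈ Zv`? no: use
`split_Lv` and `dd w1 = l1`), `w0 ∈ Ct_x' b' k`, `l0 ∈ Ct_x' b' (k+1)` (`Fr_Lv0`).
`t = DD P (E y' g' - w0) + dd (EE P w0) + (-1)^r • EE P w1 + (-1)^r • EE P l0`;
`EE P w1 = DD [x'] (EE P w1)` is a generator; the first term as in (i) with
`dd (E y' g' - w0) = w1 + l0 - E y' (dd g') ∈ Ch b' (j+1)`. -/
theorem KB (x x' y' : V) (P : List V) (b' : V ⊕ V → ℕ) (k : ℕ)
    (hP : P ≠ []) (hPs : P.Pairwise (· < ·)) (hP0 : ∀ p ∈ P, b' (Sum.inr p) = 0)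
    (hxP : ∀ p ∈ P, H x p) (hx'P : ∀ p ∈ P, H x' p)
    (hiso : ∀ u, 1 ≤ (b' + dl (Sum.inl x') : V ⊕ V → ℕ) u → ¬ adj H (Sum.inl x) u)
    (hy' : H x' y') (hb : 1 ≤ b' (Sum.inr y'))
    (hc : Cor H (b' + dl (Sum.inl x')) (Sum.inl x') (Sum.inr y'))
    (g' : Finset (V ⊕ V) → K) (hg : g' ∈ Zv K H (dl (Sum.inl x')) b' k)
    (ht : DD K (P.map Sum.inr ++ [Sum.inr y']) g' ∈
      HypK K H x (b' + cr P + dl (Sum.inl x')) k) :
    DD K (P.map Sum.inr ++ [Sum.inr y']) g' ∈ KS K H x (b' + cr P + dl (Sum.inl x')) k := by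
  set PP : List (V ⊕ V) := P.map Sum.inr with hPP
  set b : V ⊕ V → ℕ := b' + cr P + dl (Sum.inl x') with hbdef
  set r : ℕ := PP.length with hr
  have hbE : b = b' + dl (Sum.inl x') + cnt PP := by
    rw [hbdef]
    change b' + cnt PP + dl (Sum.inl x') = _
    abel
  have hPPmem : ∀ p ∈ PP, ∃ q ∈ P, p = Sum.inr q := by
    intro p hp
    rw [hPP, List.mem_map] at hp
    obtain ⟨q, hq, rfl⟩ := hp
    exact ⟨q, hq, rfl⟩
  have hPnd : PP.Nodup := by
    rw [hPP]
    refine List.Nodup.map Sum.inr_injective ?_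
    exact hPs.imp (fun h => ne_of_lt h)
  have hadj : ∀ u ∈ PP, adj H (Sum.inl x') u := by
    intro u hu
    obtain ⟨q, hq, rfl⟩ := hPPmem u hu
    exact hx'P q hq
  have hadjY : adj H (Sum.inl x') (Sum.inr y') := hy'
  -- the decomposition of `t`
  obtain ⟨_, ht2⟩ := ht
  obtain ⟨_, ⟨ω, hω, rfl⟩, μ, hμ, hωμ⟩ := Submodule.mem_sup.mp ht2
  have htail := DD_tail (K := K) PP (Sum.inr y') g'
  have hgL : g' ∈ Lv K H (dl (Sum.inl x')) b' k := hg.1
  have hgd : dd K g' ∈ Lv K H (dl (Sum.inl x')) b' (k + 1) := hg.2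
  have hb'0 : ∀ p ∈ PP, b' p = 0 := by
    intro p hp
    obtain ⟨q, hq, rfl⟩ := hPPmem p hp
    exact hP0 q hq
  have hFg : ∀ p ∈ PP, Fr p g' := fun p hp => Lv_Fr (hb'0 p hp) hgL
  obtain ⟨w', hw', l', hl', hwl'⟩ := kappa x (b' + dl (Sum.inl x')) k hiso PP
    (E1 K (Sum.inr y') g') (((-1 : ℤ) ^ r) • g') ω μ hPnd (by
      intro p hp
      obtain ⟨q, hq, rfl⟩ := hPPmem p hp
      rw [Pi.add_apply, hP0 q hq]
      simp [dl]) (by
      intro p hp
      refine Fr_E p _ ?_ g' (hFg p hp)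
      rintro rfl
      rw [hb'0 _ hp] at hb
      omega) (fun p hp => KB_Fr_zsmul _ (hFg p hp)) (by rw [← hbE]; exact hω)
    (by rw [← hbE]; exact hμ) (by
      rw [hωμ, htail, map_zsmul])
  obtain ⟨w, hw, l, hl, hwl⟩ : ∃ w ∈ Lv K H 0 (b' + dl (Sum.inl x')) k,
      ∃ l ∈ Lv K H 0 (b' + dl (Sum.inl x')) (k + 1), g' = dd K w + l := by
    refine ⟨((-1 : ℤ) ^ r) • w', zsmul_mem hw' _, ((-1 : ℤ) ^ r) • l', zsmul_mem hl' _, ?_⟩
    rw [map_zsmul, ← smul_add, ← hwl', KB_sq]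
  -- first terms
  have hfirst : ∀ h : Finset (V ⊕ V) → K, (∀ j, k = j + 1 → h ∈ Zv K H 0 b' j) →
      (k = 0 → h ∈ Lv K H 0 b' 0) → DD K PP h ∈ KS K H x b k := by
    intro h h1 h0
    rcases k with _ | j
    · have h2 := DD_Lv_adj' PP hadj (h0 rfl)
      have h3 := Lv_e_to_b' (Sum.inl x') h2
      exact Submodule.subset_span (Or.inr (Or.inl h3))
    · have h2 := h1 j rfl
      refine Submodule.subset_span (Or.inr (Or.inr (Or.inr
        ⟨[x'], P, b', j, h, by simp, hP, List.pairwise_singleton _ _, hPs, ?_, hxP, ?_, rfl, h2,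
          ?_⟩)))
      · intro i hi q hq
        rw [List.mem_singleton] at hi
        rw [hi]
        exact hx'P q hq
      · rw [KB_cl_single, hbdef]
        abel
      · exact (DD_single (K := K) (Sum.inl x') (DD K PP h)).symm
  have hEYd : ∀ j, k = j + 1 → E1 K (Sum.inr y') (dd K g') ∈ Lv K H 0 b' (j + 1) := by
    rintro j rfl
    exact apex_corner hadjY hb hc hgd
  have hEY : ∀ j, k = j + 1 → E1 K (Sum.inr y') g' ∈ Lv K H 0 b' j := by
    rintro j rfl
    exact apex_corner hadjY hb hc hgL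
  have hEY0 : k = 0 → E1 K (Sum.inr y') g' ∈ Lv K H 0 b' 0 := by
    rintro rfl
    have h1 := E_Lv (Sum.inr y') (KB_level0 hgL)
    rw [← Lv_e_eq_b _ hb] at h1
    exact KB_level0 h1
  by_cases hX : 1 ≤ b' (Sum.inl x')
  · -- first case
    rw [← Lv_e_eq_b _ hX] at hw hl
    have hw2 := hw
    have hl2 := hl
    rw [Lv_e_eq_b _ hX] at hw2 hl2
    have hE : DD K (PP ++ [Sum.inr y']) g' = DD K PP (E1 K (Sum.inr y') g' - w) +
        dd K (EE K PP w) + ((-1 : ℤ) ^ r) • EE K PP l := by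
      rw [htail, dd_EE, map_sub]
      nth_rewrite 2 [hwl]
      rw [map_add, smul_add]
      abel
    rw [hE]
    refine Submodule.add_mem _ (Submodule.add_mem _ (hfirst _ ?_ ?_) ?_) ?_
    · intro j hj
      refine ⟨Submodule.sub_mem _ (hEY j hj) ?_, ?_⟩
      · subst hj
        exact Lv_remove hw
      · change dd K (E1 K (Sum.inr y') g' - w) ∈ Lv K H 0 b' (j + 1)
        have h1 : dd K (E1 K (Sum.inr y') g' - w) = l - E1 K (Sum.inr y') (dd K g') := by
          rw [map_sub, dd_E]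
          nth_rewrite 1 [hwl]
          abel
        rw [h1]
        refine Submodule.sub_mem _ ?_ (hEYd j hj)
        subst hj
        exact Lv_remove hl
    · intro hk
      refine Submodule.sub_mem _ (hEY0 hk) ?_
      subst hk
      exact KB_level0 hw
    · refine Submodule.subset_span (Or.inl ⟨EE K PP w, ?_, rfl⟩)
      rw [hbE]
      exact EE_Lv PP hw2
    · have h1 : EE K PP l ∈ KS K H x b k := by
        refine Submodule.subset_span (Or.inr (Or.inl ?_))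
        rw [hbE]
        exact EE_Lv PP hl2
      exact zsmul_mem h1 _
  · -- second case
    have hX0 : b' (Sum.inl x') = 0 := by omega
    obtain ⟨w0, w1, hwE, fw0, fw1, _, _⟩ := split (R := K) (Sum.inl x') w
    obtain ⟨l0, l1, hlE, fl0, fl1, _, _⟩ := split (R := K) (Sum.inl x') l
    rw [hwE] at hw
    rw [hlE] at hl
    obtain ⟨hw0, hw1⟩ := split_Lv hX0 fw0 fw1 hw
    obtain ⟨hl0, hl1⟩ := split_Lv hX0 fl0 fl1 hl
    have fg : Fr (Sum.inl x') g' := Lv_Fr hX0 hgL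
    have hkey : (dd K w0 + w1 + l0 - g') + E1 K (Sum.inl x') (l1 - dd K w1) = 0 := by
      have h1 : dd K (w0 + E1 K (Sum.inl x') w1) =
          dd K w0 + (w1 - E1 K (Sum.inl x') (dd K w1)) := by rw [map_add, dd_E]
      have h2 : g' = dd K w0 + (w1 - E1 K (Sum.inl x') (dd K w1)) +
          (l0 + E1 K (Sum.inl x') l1) := by
        rw [← h1, hwl, hwE, hlE]
      rw [map_sub]
      nth_rewrite 1 [h2]
      abel
    obtain ⟨k1, k2⟩ := split_unique (R := K) (Sum.inl x') _ _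
      (Fr_sub _ _ _ (Fr_add _ _ _ (Fr_add _ _ _ (Fr_kd _ _ _ fw0) fw1) fl0) fg)
      (Fr_sub _ _ _ fl1 (Fr_kd _ _ _ fw1)) hkey
    have hg2 : g' = dd K w0 + w1 + l0 := (sub_eq_zero.mp k1).symm
    have hdw1 : dd K w1 = l1 := (sub_eq_zero.mp k2).symm
    have hw1Z : w1 ∈ Zv K H 0 b' k := ⟨hw1, by
      change dd K w1 ∈ Lv K H 0 b' (k + 1)
      rw [hdw1]; exact hl1⟩
    have hw0e := Fr_Lv0 fw0 hw0
    have hl0e := Fr_Lv0 fl0 hl0
    have hE : DD K (PP ++ [Sum.inr y']) g' = DD K PP (E1 K (Sum.inr y') g' - w0) +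
        dd K (EE K PP w0) + ((-1 : ℤ) ^ r) • EE K PP w1 + ((-1 : ℤ) ^ r) • EE K PP l0 := by
      rw [htail, dd_EE, map_sub]
      nth_rewrite 2 [hg2]
      rw [map_add, map_add, smul_add, smul_add]
      abel
    rw [hE]
    refine Submodule.add_mem _ (Submodule.add_mem _ (Submodule.add_mem _ (hfirst _ ?_ ?_) ?_) ?_) ?_
    · intro j hj
      refine ⟨Submodule.sub_mem _ (hEY j hj) ?_, ?_⟩
      · subst hj
        exact Lv_remove hw0e
      · change dd K (E1 K (Sum.inr y') g' - w0) ∈ Lv K H 0 b' (j + 1)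
        have h1 : dd K (E1 K (Sum.inr y') g' - w0) = w1 + l0 - E1 K (Sum.inr y') (dd K g') := by
          rw [map_sub, dd_E]
          nth_rewrite 1 [hg2]
          abel
        rw [h1]
        refine Submodule.sub_mem _ (Submodule.add_mem _ ?_ ?_) (hEYd j hj)
        · subst hj
          exact hw1
        · subst hj
          exact Lv_remove hl0e
    · intro hk
      refine Submodule.sub_mem _ (hEY0 hk) ?_
      subst hk
      exact KB_level0 hw0e
    · refine Submodule.subset_span (Or.inl ⟨EE K PP w0, ?_, rfl⟩)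
      rw [hbE]
      exact EE_Lv PP hw0
    · have h1 : EE K PP w1 ∈ KS K H x b k := by
        refine Submodule.subset_span (Or.inr (Or.inr (Or.inl
          ⟨[x'], P, b', w1, by simp, hP, List.pairwise_singleton _ _, hPs, ?_, hxP, ?_, hw1Z,
            ?_⟩)))
        · intro i hi q hq
          rw [List.mem_singleton] at hi
          rw [hi]
          exact hx'P q hq
        · rw [KB_cl_single, hbdef]
          abel
        · exact (DD_single (K := K) (Sum.inl x') (EE K PP w1)).symm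
      exact zsmul_mem h1 _
    · have h1 : EE K PP l0 ∈ KS K H x b k := by
        refine Submodule.subset_span (Or.inr (Or.inl ?_))
        rw [hbE]
        exact EE_Lv PP hl0
      exact zsmul_mem h1 _

end Pool.Agent.H52.BE
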