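import Pool.Agent.H52.BE.Defs

/-!
# Project BE: identities between the Koszul operators

`E v` is left multiplication by `e_v`, `I v` the contraction, `kd z = ∑ z v • I v` the Koszul
differential.  The sign is `sg v τ = (-1)^#{u ∈ τ : u before v}` for the enumeration
`Fintype.equivFin σ`.

Key facts about the sign: `sg v (τ.erase v) = sg v τ = sg v (insert v τ)`; for `v ≠ w`, `w ∉ τ`:
`sg v (insert w τ) * sg w τ = - (sg w (insert v τ) * sg v τ)` (exactly one of `w` before `v`,
`v` before `w` holds); `sg v τ * sg v τ = 1`.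

`I_E_self`, `I_E`, `E_E`, `I_I` are checked pointwise (funext, case distinction on the memberships
`v ∈ τ`, `w ∈ τ`).  Everything else follows formally:
`kd_kd`: `∑_{v,w} z v z w I v I w` and `I v I w = - I w I v`, `I v I v = 0`.
`kd_E`: from `I_E_self`, `I_E`.  `kd_EL`, `kd_DL`, `EL_append`, `DL_append`: induction on the
list (`(-1)^L.length` is an integer scalar).
-/

namespace Pool.Agent.H52.BE

open Finset

variable {σ : Type*} [Fintype σ] [DecidableEq σ]
variable {R M : Type*} [CommRing R] [AddCommGroup M] [Module R M]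

theorem E_apply (v : σ) (c : Finset σ → M) (τ : Finset σ) :
    E (R := R) v c τ = if v ∈ τ then sg v τ • c (τ.erase v) else 0 := rfl

theorem I_apply (v : σ) (c : Finset σ → M) (τ : Finset σ) :
    I (R := R) v c τ = if v ∈ τ then 0 else sg v τ • c (insert v τ) := rfl

theorem kos_kd_eq (z : σ → R) (c : Finset σ → M) : kd z c = ∑ v, z v • I (R := R) v c := by
  simp only [kd, LinearMap.sum_apply, LinearMap.smul_apply]

theorem kd_apply (z : σ → R) (c : Finset σ → M) (τ : Finset σ) :
    kd z c τ = ∑ v, if v ∈ τ then 0 else sg v τ • z v • c (insert v τ) := by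
  rw [kos_kd_eq, Finset.sum_apply]
  refine Finset.sum_congr rfl fun v _ => ?_
  rw [Pi.smul_apply, I_apply]
  split_ifs
  · rw [smul_zero]
  · rw [smul_comm]

theorem sg_sq (v : σ) (τ : Finset σ) : sg v τ * sg v τ = 1 := by
  rw [sg, ← mul_pow]
  norm_num

theorem sg_ne_zero (v : σ) (τ : Finset σ) : sg v τ = 1 ∨ sg v τ = -1 := by
  exact neg_one_pow_eq_or ℤ _

theorem sg_erase (v : σ) (τ : Finset σ) : sg v (τ.erase v) = sg v τ := by
  have h : (τ.erase v).filter (fun u => Fintype.equivFin σ u < Fintype.equivFin σ v)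
      = τ.filter (fun u => Fintype.equivFin σ u < Fintype.equivFin σ v) := by
    ext u
    simp only [mem_filter, mem_erase]
    constructor
    · rintro ⟨⟨_, h1⟩, h2⟩
      exact ⟨h1, h2⟩
    · rintro ⟨h1, h2⟩
      refine ⟨⟨?_, h1⟩, h2⟩
      rintro rfl
      exact lt_irrefl _ h2
  rw [sg, sg, h]

theorem sg_insert (v : σ) (τ : Finset σ) : sg v (insert v τ) = sg v τ := by
  have h : (insert v τ).filter (fun u => Fintype.equivFin σ u < Fintype.equivFin σ v)
      = τ.filter (fun u => Fintype.equivFin σ u < Fintype.equivFin σ v) := by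
    rw [filter_insert, if_neg (lt_irrefl _)]
  rw [sg, sg, h]

theorem kos_sg_ins (v w : σ) (τ : Finset σ) (hw : w ∉ τ) :
    sg v (insert w τ) = (if Fintype.equivFin σ w < Fintype.equivFin σ v then -1 else 1) * sg v τ := by
  rw [sg, sg, filter_insert]
  split_ifs with h
  · rw [card_insert_of_notMem (by simp [hw]), pow_succ]
    ring
  · rw [one_mul]

theorem sg_swap (v w : σ) (h : v ≠ w) (τ : Finset σ) (hv : v ∉ τ) (hw : w ∉ τ) :
    sg v (insert w τ) * sg w τ = - (sg w (insert v τ) * sg v τ) := by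
  rw [kos_sg_ins v w τ hw, kos_sg_ins w v τ hv]
  have hne : Fintype.equivFin σ v ≠ Fintype.equivFin σ w := fun h' => h ((Fintype.equivFin σ).injective h')
  rcases lt_or_gt_of_ne hne with h1 | h1
  · rw [if_neg (not_lt.mpr h1.le), if_pos h1]
    ring
  · rw [if_pos h1, if_neg (not_lt.mpr h1.le)]
    ring

theorem kos_sg_out (v w : σ) (h : v ≠ w) (τ : Finset σ) (hv : v ∉ τ) (hw : w ∉ τ) :
    sg v (insert w τ) * sg w (insert v τ) = - (sg w τ * sg v τ) := by
  have h1 := sg_swap v w h τ hv hw
  have h2 := sg_sq w τ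
  have h3 := sg_sq w (insert v τ)
  calc sg v (insert w τ) * sg w (insert v τ)
      = (sg v (insert w τ) * sg w τ) * (sg w τ * sg w (insert v τ)) := by
        have : sg v (insert w τ) * sg w τ * (sg w τ * sg w (insert v τ))
          = sg v (insert w τ) * (sg w τ * sg w τ) * sg w (insert v τ) := by ring
        rw [this, h2, mul_one]
    _ = - ((sg w (insert v τ) * sg w (insert v τ)) * (sg w τ * sg v τ)) := by rw [h1]; ring
    _ = _ := by rw [h3, one_mul]

/-- the sign of two erased vertices -/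
theorem kos_sg_er (v w : σ) (h : v ≠ w) (τ : Finset σ) (hv : v ∈ τ) (hw : w ∈ τ) :
    sg v τ * sg w (τ.erase v) = - (sg w τ * sg v (τ.erase w)) := by
  obtain ⟨ρ, hρv, hρw, rfl⟩ : ∃ ρ : Finset σ, v ∉ ρ ∧ w ∉ ρ ∧ τ = insert v (insert w ρ) := by
    refine ⟨(τ.erase v).erase w, by simp, by simp, ?_⟩
    rw [insert_erase (mem_erase.mpr ⟨h.symm, hw⟩), insert_erase hv]
  have h1 : v ∉ insert w ρ := by simp [h, hρv]
  have h2 : w ∉ insert v ρ := by simp [h.symm, hρw]
  rw [erase_insert h1, sg_insert, sg_insert, insert_comm, erase_insert h2, sg_insert, sg_insert]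
  exact sg_swap v w h ρ hρv hρw

theorem E_E_self (v : σ) (c : Finset σ → M) : E (R := R) v (E (R := R) v c) = 0 := by
  funext τ
  rw [E_apply, E_apply]
  simp

theorem E_E (v w : σ) (h : v ≠ w) (c : Finset σ → M) :
    E (R := R) v (E (R := R) w c) = - E (R := R) w (E (R := R) v c) := by
  funext τ
  rw [Pi.neg_apply, E_apply, E_apply, E_apply, E_apply]
  by_cases hv : v ∈ τ
  · by_cases hw : w ∈ τ
    · rw [if_pos hv, if_pos (mem_erase.mpr ⟨h.symm, hw⟩), if_pos hw, if_pos (mem_erase.mpr ⟨h, hv⟩),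
        smul_smul, smul_smul, kos_sg_er v w h τ hv hw, neg_smul, erase_right_comm]
    · have h1 : w ∉ τ.erase v := fun h' => hw (mem_erase.mp h').2
      rw [if_pos hv, if_neg h1, if_neg hw]
      simp
  · by_cases hw : w ∈ τ
    · have h1 : v ∉ τ.erase w := fun h' => hv (mem_erase.mp h').2
      rw [if_neg hv, if_pos hw, if_neg h1]
      simp
    · rw [if_neg hv, if_neg hw]
      simp

theorem I_I_self (v : σ) (c : Finset σ → M) : I (R := R) v (I (R := R) v c) = 0 := by
  funext τ
  rw [I_apply, I_apply]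
  simp

theorem I_I (v w : σ) (h : v ≠ w) (c : Finset σ → M) :
    I (R := R) v (I (R := R) w c) = - I (R := R) w (I (R := R) v c) := by
  funext τ
  rw [Pi.neg_apply, I_apply, I_apply, I_apply, I_apply]
  by_cases hv : v ∈ τ
  · by_cases hw : w ∈ τ
    · rw [if_pos hv, if_pos hw]
      simp
    · rw [if_pos hv, if_neg hw, if_pos (mem_insert_of_mem hv)]
      simp
  · by_cases hw : w ∈ τ
    · rw [if_neg hv, if_pos hw, if_pos (mem_insert_of_mem hw)]
      simp
    · have h1 : w ∉ insert v τ := by simp [h.symm, hw]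
      have h2 : v ∉ insert w τ := by simp [h, hv]
      rw [if_neg hv, if_neg h1, if_neg hw, if_neg h2, smul_smul, smul_smul,
        insert_comm w v τ, ← neg_smul]
      congr 1
      have := sg_swap v w h τ hv hw
      linarith [mul_comm (sg v τ) (sg w (insert v τ)), mul_comm (sg w τ) (sg v (insert w τ))]

theorem I_E_self (v : σ) (c : Finset σ → M) :
    I (R := R) v (E (R := R) v c) + E (R := R) v (I (R := R) v c) = c := by
  funext τ
  rw [Pi.add_apply, I_apply, E_apply, E_apply, I_apply]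
  by_cases hv : v ∈ τ
  · rw [if_pos hv, if_pos hv, if_neg (notMem_erase v τ), sg_erase, smul_smul, sg_sq, one_smul,
      insert_erase hv, zero_add]
  · rw [if_neg hv, if_neg hv, if_pos (mem_insert_self v τ), sg_insert, smul_smul, sg_sq, one_smul,
      erase_insert hv, add_zero]

theorem I_E (v w : σ) (h : v ≠ w) (c : Finset σ → M) :
    I (R := R) v (E (R := R) w c) = - E (R := R) w (I (R := R) v c) := by
  funext τ
  rw [Pi.neg_apply, I_apply, E_apply, E_apply, I_apply]
  by_cases hv : v ∈ τ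
  · by_cases hw : w ∈ τ
    · rw [if_pos hv, if_pos hw, if_pos (mem_erase.mpr ⟨h, hv⟩)]
      simp
    · rw [if_pos hv, if_neg hw]
      simp
  · by_cases hw : w ∈ τ
    · have h1 : v ∉ τ.erase w := fun h' => hv (mem_erase.mp h').2
      rw [if_neg hv, if_pos (mem_insert_of_mem hw), if_pos hw, if_neg h1]
      obtain ⟨ρ, hρw, rfl⟩ : ∃ ρ : Finset σ, w ∉ ρ ∧ τ = insert w ρ :=
        ⟨τ.erase w, notMem_erase w τ, (insert_erase hw).symm⟩
      have hρv : v ∉ ρ := fun h' => hv (mem_insert_of_mem h')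
      have h2 : w ∉ insert v ρ := by simp [h.symm, hρw]
      rw [insert_comm v w ρ, erase_insert h2, erase_insert hρw, sg_insert, sg_insert, smul_smul,
        smul_smul, kos_sg_out v w h ρ hρv hρw, neg_smul]
    · have h1 : w ∉ insert v τ := by simp [h.symm, hw]
      rw [if_neg hv, if_neg hw, if_neg h1]
      simp

theorem kd_kd (z : σ → R) (c : Finset σ → M) : kd z (kd z c) = 0 := by
  rw [kos_kd_eq z (kd z c), kos_kd_eq z c]
  have h1 : ∀ v, z v • I (R := R) v (∑ w, z w • I (R := R) w c)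
      = ∑ w, (z v * z w) • I (R := R) v (I (R := R) w c) := by
    intro v
    rw [map_sum, smul_sum]
    refine Finset.sum_congr rfl fun w _ => ?_
    rw [map_smul, smul_smul]
  simp_rw [h1]
  rw [← Finset.sum_product']
  refine Finset.sum_involution (fun p _ => (p.2, p.1)) ?_ ?_ (fun _ _ => by simp) (fun _ _ => rfl)
  · rintro ⟨v, w⟩ _
    by_cases h : v = w
    · subst h
      simp only [I_I_self, smul_zero, add_zero]
    · simp only
      rw [I_I v w h c, mul_comm (z w) (z v), smul_neg, neg_add_cancel]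
  · rintro ⟨v, w⟩ _ h0 h
    apply h0
    have hvw : w = v := congrArg Prod.fst h
    subst hvw
    simp only [I_I_self, smul_zero]

theorem kd_E (z : σ → R) (v : σ) (c : Finset σ → M) :
    kd z (E (R := R) v c) = z v • c - E (R := R) v (kd z c) := by
  rw [kos_kd_eq z (E (R := R) v c), kos_kd_eq z c]
  have h1 : ∀ w, z w • I (R := R) w (E (R := R) v c)
      = (if w = v then z v • c else 0) - z w • E (R := R) v (I (R := R) w c) := by
    intro w
    by_cases h : w = v
    · subst h
      rw [if_pos rfl, ← smul_sub]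
      congr 1
      exact eq_sub_of_add_eq (I_E_self w c)
    · rw [if_neg h, I_E w v h c, smul_neg, zero_sub]
  simp_rw [h1]
  rw [Finset.sum_sub_distrib, Finset.sum_ite_eq' Finset.univ v, if_pos (Finset.mem_univ v), map_sum]
  simp_rw [map_smul]

theorem EL_append (P Q : List σ) (c : Finset σ → M) :
    EL (R := R) (P ++ Q) c = EL (R := R) P (EL (R := R) Q c) := by
  induction P with
  | nil => rfl
  | cons v P ih => rw [List.cons_append, EL, EL, LinearMap.comp_apply, LinearMap.comp_apply, ih]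

theorem DL_cons (z : σ → R) (v : σ) (L : List σ) (c : Finset σ → M) :
    DL z (v :: L) c = z v • EL (R := R) L c - E (R := R) v (DL z L c) := rfl

theorem EL_cons (v : σ) (L : List σ) (c : Finset σ → M) :
    EL (R := R) (v :: L) c = E (R := R) v (EL (R := R) L c) := rfl

theorem DL_append (z : σ → R) (P Q : List σ) (c : Finset σ → M) :
    DL z (P ++ Q) c = DL z P (EL (R := R) Q c)
      + ((-1 : ℤ) ^ P.length) • EL (R := R) P (DL z Q c) := by
  induction P with
  | nil =>
    rw [List.nil_append, List.length_nil, pow_zero, one_smul]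
    change _ = (0 : (Finset σ → M) →ₗ[R] (Finset σ → M)) _ + DL z Q c
    rw [LinearMap.zero_apply, zero_add]
  | cons v P ih =>
    rw [List.cons_append, DL_cons, DL_cons, EL_cons, ih, EL_append, List.length_cons, map_add,
      map_zsmul, pow_succ, mul_neg_one, neg_smul]
    abel

theorem kd_EL (z : σ → R) (L : List σ) (c : Finset σ → M) :
    kd z (EL (R := R) L c) = DL z L c + ((-1 : ℤ) ^ L.length) • EL (R := R) L (kd z c) := by
  induction L with
  | nil =>
    rw [List.length_nil, pow_zero, one_smul]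
    change kd z c = (0 : (Finset σ → M) →ₗ[R] (Finset σ → M)) _ + kd z c
    rw [LinearMap.zero_apply, zero_add]
  | cons v L ih =>
    rw [EL_cons, EL_cons, DL_cons, kd_E, ih, List.length_cons, map_add, map_zsmul, pow_succ,
      mul_neg_one, neg_smul]
    abel

theorem kd_DL (z : σ → R) (L : List σ) (c : Finset σ → M) :
    kd z (DL z L c) = - (((-1 : ℤ) ^ L.length) • DL z L (kd z c)) := by
  induction L with
  | nil =>
    change kd z ((0 : (Finset σ → M) →ₗ[R] (Finset σ → M)) c)
      = - (_ • (0 : (Finset σ → M) →ₗ[R] (Finset σ → M)) (kd z c))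
    rw [LinearMap.zero_apply, LinearMap.zero_apply, map_zero, smul_zero, neg_zero]
  | cons v L ih =>
    rw [DL_cons, DL_cons, map_sub, map_smul, kd_E, kd_EL, ih, List.length_cons, map_neg, map_zsmul,
      pow_succ, mul_neg_one, neg_smul, neg_neg, smul_sub, smul_add, smul_comm (z v)]
    abel

/-! ### chains without `e_v` -/

theorem Fr_E (v w : σ) (h : v ≠ w) (c : Finset σ → M) (hc : Fr v c) :
    Fr v (E (R := R) w c) := by
  intro τ hτ
  rw [E_apply]
  split_ifs
  · rw [hc _ (mem_erase.mpr ⟨h, hτ⟩), smul_zero]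
  · rfl

theorem Fr_kd (z : σ → R) (v : σ) (c : Finset σ → M) (hc : Fr v c) : Fr v (kd z c) := by
  intro τ hτ
  rw [kd_apply]
  refine Finset.sum_eq_zero fun w _ => ?_
  split_ifs
  · rfl
  · rw [hc _ (mem_insert_of_mem hτ), smul_zero, smul_zero]

theorem Fr_I (v : σ) (c : Finset σ → M) : Fr v (I (R := R) v c) := by
  intro τ hτ
  rw [I_apply, if_pos hτ]

theorem Fr_add (v : σ) (c d : Finset σ → M) (hc : Fr v c) (hd : Fr v d) : Fr v (c + d) := by
  intro τ hτ
  rw [Pi.add_apply, hc τ hτ, hd τ hτ, add_zero]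

theorem Fr_sub (v : σ) (c d : Finset σ → M) (hc : Fr v c) (hd : Fr v d) : Fr v (c - d) := by
  intro τ hτ
  rw [Pi.sub_apply, hc τ hτ, hd τ hτ, sub_zero]

theorem Fr_neg (v : σ) (c : Finset σ → M) (hc : Fr v c) : Fr v (-c) := by
  intro τ hτ
  rw [Pi.neg_apply, hc τ hτ, neg_zero]

theorem Fr_EL (v : σ) (L : List σ) (h : v ∉ L) (c : Finset σ → M) (hc : Fr v c) :
    Fr v (EL (R := R) L c) := by
  induction L with
  | nil => exact hc
  | cons w L ih =>
    rw [EL_cons]
    exact Fr_E v w (fun h' => h (h' ▸ List.mem_cons_self)) _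
      (ih (fun h' => h (List.mem_cons_of_mem _ h')))

theorem Fr_DL (z : σ → R) (v : σ) (L : List σ) (h : v ∉ L) (c : Finset σ → M) (hc : Fr v c) :
    Fr v (DL z L c) := by
  induction L with
  | nil =>
    intro τ _
    rfl
  | cons w L ih =>
    rw [DL_cons]
    have h1 : v ∉ L := fun h' => h (List.mem_cons_of_mem _ h')
    have h2 : v ≠ w := fun h' => h (h' ▸ List.mem_cons_self)
    refine Fr_sub v _ _ ?_ (Fr_E v w h2 _ (ih h1))
    intro τ hτ
    rw [Pi.smul_apply, Fr_EL (R := R) v L h1 c hc τ hτ, smul_zero]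

/-- every chain is `c0 + e_v c1` with `c0`, `c1` free of `e_v` -/
theorem split (v : σ) (c : Finset σ → M) :
    ∃ c0 c1 : Finset σ → M, c = c0 + E (R := R) v c1 ∧ Fr v c0 ∧ Fr v c1 ∧
      (∀ τ, v ∉ τ → c0 τ = c τ) ∧ (∀ τ, v ∉ τ → c1 τ = sg v τ • c (insert v τ)) := by
  refine ⟨I (R := ℤ) v (E (R := ℤ) v c), I (R := ℤ) v c, ?_, Fr_I v _, Fr_I v _, ?_, ?_⟩
  · exact (I_E_self (R := ℤ) v c).symm
  · intro τ hτ
    rw [I_apply, if_neg hτ, E_apply, if_pos (mem_insert_self v τ), sg_insert, smul_smul, sg_sq,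
      one_smul, erase_insert hτ]
  · intro τ hτ
    rw [I_apply, if_neg hτ]

theorem split_unique (v : σ) (c0 c1 : Finset σ → M) (h0 : Fr v c0) (h1 : Fr v c1)
    (h : c0 + E (R := R) v c1 = 0) : c0 = 0 ∧ c1 = 0 := by
  have hv : ∀ τ, (c0 + E (R := R) v c1) τ = 0 := fun τ => by rw [h]; rfl
  have e0 : c0 = 0 := by
    funext τ
    by_cases hτ : v ∈ τ
    · exact h0 τ hτ
    · have := hv τ
      rwa [Pi.add_apply, E_apply, if_neg hτ, add_zero] at this
  refine ⟨e0, ?_⟩
  funext τ
  by_cases hτ : v ∈ τ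
  · exact h1 τ hτ
  · have h2 := hv (insert v τ)
    rw [Pi.add_apply, h0 _ (mem_insert_self v τ), zero_add, E_apply, if_pos (mem_insert_self v τ),
      sg_insert, erase_insert hτ] at h2
    have h3 : sg v τ • sg v τ • c1 τ = sg v τ • (0 : M) := by rw [h2]
    rwa [smul_smul, sg_sq, one_smul, smul_zero] at h3

/-- the values of `c0 + e_v c1` -/
theorem split_val (v : σ) (c0 c1 : Finset σ → M) (h0 : Fr v c0) (τ : Finset σ) :
    (v ∉ τ → (c0 + E (R := R) v c1) τ = c0 τ) ∧
    (v ∉ τ → (c0 + E (R := R) v c1) (insert v τ) = sg v τ • c1 τ) := by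
  constructor
  · intro hτ
    rw [Pi.add_apply, E_apply, if_neg hτ, add_zero]
  · intro hτ
    rw [Pi.add_apply, h0 _ (mem_insert_self v τ), zero_add, E_apply, if_pos (mem_insert_self v τ),
      sg_insert, erase_insert hτ]

end Pool.Agent.H52.BE
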