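import Pool.Agent.H52.BE.JD

/-!
# Project BE: from a closed labelling to the condition `CC`

`ρ : V → ℕ` injective labelling such that, whenever `i j` and `i k` are edges with
`ρ i < ρ j < ρ k` or `ρ k < ρ j < ρ i`, also `j k` is an edge.

(1) `mono`: let `R u v` := `ρ u < ρ v ∧ G.Adj u v`.  If `u`, `v` are connected (`G.Reachable u v`) then
`u = v`, `TransGen R u v` or `TransGen R v u`.  Induction on the walk: it suffices that if
`TransGen R u v` and `G.Adj v w` then `u = w`, `TransGen R u w` or `TransGen R w u` (and the mirror image,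
`TransGen R v u`).  `ρ v < ρ w`: `TransGen R u w`.  `ρ w < ρ v`: induction on the chain `u → ... → v' → v`
(last step `R v' v`): `w = v'`: `u = w` or `TransGen R u w`.  `w ≠ v'`: `v v'`, `v w` are edges with
`ρ v' , ρ w < ρ v`, so `v' w` is an edge (closedness, in both orders of `ρ v'`, `ρ w`).  If `u = v'` we have
an edge `u w`.  Otherwise `TransGen R u v'` (shorter chain) and `G.Adj v' w`: induction hypothesis.
(2) `strong`: if `ρ i < ρ j < ρ k`, `i k` an edge and `i`, `j` connected then `i j` and `j k` are edges: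
`TransGen R i j` by (1) (`TransGen R j i` would give `ρ j < ρ i`).  Along the chain
`i = v_0 → v_1 → ... → v_m = j`: every `v_t` (`t ≥ 1`) is adjacent to `k`: `v_t` adjacent to `k` and to
`v_(t+1)`, `ρ v_t < ρ v_(t+1) < ρ k`: closedness gives `v_(t+1) k` (order `i < j < k` case).  So `j k` is an
edge; `k i`, `k j` are edges with `ρ i < ρ j < ρ k`: closedness (`ρ k > ρ j > ρ i` case) gives `j i`.
(3) order: `κ v` = an injective numbering of `G.ConnectedComponent`, order `V` lexicographically by
`(κ v, ρ v)`.  If `i < j < k` and `i k` is an edge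
then `κ i = κ k`, so `κ j = κ i` and `i`, `j` are connected and `ρ i < ρ j < ρ k`: (2).
The linear order is `LinearOrder.lift'` along the injective map `v ↦ toLex (κ v, ρ v)`.
-/

namespace Pool.Agent.H52.BE

open Finset

/-- ascending edges -/
private def labR {V : Type*} (G : SimpleGraph V) (ρ : V → ℕ) (u v : V) : Prop :=
  ρ u < ρ v ∧ G.Adj u v

private theorem labR_lt {V : Type*} {G : SimpleGraph V} {ρ : V → ℕ} {u v : V}
    (h : Relation.TransGen (labR G ρ) u v) : ρ u < ρ v := by
  induction h with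
  | single h => exact h.1
  | tail _ h ih => exact ih.trans h.1

private theorem lab_stepA {V : Type*} {G : SimpleGraph V} {ρ : V → ℕ}
    (hρ : Function.Injective ρ)
    (h : ∀ i j k, G.Adj i j → G.Adj i k →
      (ρ i < ρ j ∧ ρ j < ρ k) ∨ (ρ k < ρ j ∧ ρ j < ρ i) → G.Adj j k) {u v : V}
    (huv : Relation.TransGen (labR G ρ) u v) :
    ∀ w, G.Adj v w → u = w ∨ Relation.TransGen (labR G ρ) u w ∨
      Relation.TransGen (labR G ρ) w u := by
  -- closedness from above
  have key : ∀ a v w, ρ a < ρ v → G.Adj a v → G.Adj v w → ρ w < ρ v → a ≠ w → G.Adj a w := by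
    intro a v w h1 h2 h3 h4 h5
    have hne : ρ a ≠ ρ w := fun hh => h5 (hρ hh)
    rcases lt_or_gt_of_ne hne with h6 | h6
    · exact (h v w a h3 h2.symm (Or.inr ⟨h6, h4⟩)).symm
    · exact h v a w h2.symm h3 (Or.inr ⟨h6, h1⟩)
  induction huv with
  | @single b hR =>
    intro w hw
    have hne : ρ b ≠ ρ w := fun hh => hw.ne (hρ hh)
    rcases lt_or_gt_of_ne hne with h1 | h1
    · exact Or.inr (Or.inl (Relation.TransGen.tail (Relation.TransGen.single hR) ⟨h1, hw⟩))
    · by_cases huw : u = w
      · exact Or.inl huw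
      · have h2 := key u b w hR.1 hR.2 hw h1 huw
        have hne2 : ρ u ≠ ρ w := fun hh => huw (hρ hh)
        rcases lt_or_gt_of_ne hne2 with h3 | h3
        · exact Or.inr (Or.inl (Relation.TransGen.single ⟨h3, h2⟩))
        · exact Or.inr (Or.inr (Relation.TransGen.single ⟨h3, h2.symm⟩))
  | @tail b c hb hR ih =>
    intro w hw
    have hne : ρ c ≠ ρ w := fun hh => hw.ne (hρ hh)
    rcases lt_or_gt_of_ne hne with h1 | h1
    · exact Or.inr (Or.inl (Relation.TransGen.tail (Relation.TransGen.tail hb hR) ⟨h1, hw⟩))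
    · by_cases hbw : b = w
      · exact Or.inr (Or.inl (hbw ▸ hb))
      · exact ih w (key b c w hR.1 hR.2 hw h1 hbw)

private theorem lab_stepB {V : Type*} {G : SimpleGraph V} {ρ : V → ℕ}
    (hρ : Function.Injective ρ)
    (h : ∀ i j k, G.Adj i j → G.Adj i k →
      (ρ i < ρ j ∧ ρ j < ρ k) ∨ (ρ k < ρ j ∧ ρ j < ρ i) → G.Adj j k) {u v : V}
    (huv : Relation.TransGen (labR G ρ) v u) :
    ∀ w, G.Adj v w → u = w ∨ Relation.TransGen (labR G ρ) u w ∨
      Relation.TransGen (labR G ρ) w u := by
  have key : ∀ a v w, ρ v < ρ a → G.Adj a v → G.Adj v w → ρ v < ρ w → a ≠ w → G.Adj a w := by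
    intro a v w h1 h2 h3 h4 h5
    have hne : ρ a ≠ ρ w := fun hh => h5 (hρ hh)
    rcases lt_or_gt_of_ne hne with h6 | h6
    · exact h v a w h2.symm h3 (Or.inl ⟨h1, h6⟩)
    · exact (h v w a h3 h2.symm (Or.inl ⟨h4, h6⟩)).symm
  induction huv using Relation.TransGen.head_induction_on with
  | @single b hR =>
    intro w hw
    have hne : ρ b ≠ ρ w := fun hh => hw.ne (hρ hh)
    rcases lt_or_gt_of_ne hne with h1 | h1
    · by_cases huw : u = w
      · exact Or.inl huw
      · have h2 := key u b w hR.1 hR.2.symm hw h1 huw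
        have hne2 : ρ u ≠ ρ w := fun hh => huw (hρ hh)
        rcases lt_or_gt_of_ne hne2 with h3 | h3
        · exact Or.inr (Or.inl (Relation.TransGen.single ⟨h3, h2⟩))
        · exact Or.inr (Or.inr (Relation.TransGen.single ⟨h3, h2.symm⟩))
    · exact Or.inr (Or.inr (Relation.TransGen.head ⟨h1, hw.symm⟩ (Relation.TransGen.single hR)))
  | @head b c hR hb ih =>
    intro w hw
    have hne : ρ b ≠ ρ w := fun hh => hw.ne (hρ hh)
    rcases lt_or_gt_of_ne hne with h1 | h1
    · by_cases hbw : c = w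
      · exact Or.inr (Or.inr (hbw ▸ hb))
      · exact ih w (key c b w hR.1 hR.2.symm hw h1 hbw)
    · exact Or.inr (Or.inr (Relation.TransGen.head ⟨h1, hw.symm⟩ (Relation.TransGen.head hR hb)))

private theorem lab_mono {V : Type*} {G : SimpleGraph V} {ρ : V → ℕ}
    (hρ : Function.Injective ρ)
    (h : ∀ i j k, G.Adj i j → G.Adj i k →
      (ρ i < ρ j ∧ ρ j < ρ k) ∨ (ρ k < ρ j ∧ ρ j < ρ i) → G.Adj j k) {u v : V}
    (huv : G.Reachable u v) :
    u = v ∨ Relation.TransGen (labR G ρ) u v ∨ Relation.TransGen (labR G ρ) v u := by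
  rw [SimpleGraph.reachable_iff_reflTransGen] at huv
  induction huv with
  | refl => exact Or.inl rfl
  | @tail b c _ hbc ih =>
    rcases ih with h1 | h1 | h1
    · subst h1
      have hne : ρ u ≠ ρ c := fun hh => hbc.ne (hρ hh)
      rcases lt_or_gt_of_ne hne with h3 | h3
      · exact Or.inr (Or.inl (Relation.TransGen.single ⟨h3, hbc⟩))
      · exact Or.inr (Or.inr (Relation.TransGen.single ⟨h3, hbc.symm⟩))
    · exact lab_stepA hρ h h1 c hbc
    · exact lab_stepB hρ h h1 c hbc

private theorem lab_strong {V : Type*} {G : SimpleGraph V} {ρ : V → ℕ}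
    (hρ : Function.Injective ρ)
    (h : ∀ i j k, G.Adj i j → G.Adj i k →
      (ρ i < ρ j ∧ ρ j < ρ k) ∨ (ρ k < ρ j ∧ ρ j < ρ i) → G.Adj j k) {i j k : V}
    (hij : ρ i < ρ j) (hjk : ρ j < ρ k) (hik : G.Adj i k) (hr : G.Reachable i j) :
    G.Adj i j ∧ G.Adj j k := by
  have chain : ∀ v, Relation.TransGen (labR G ρ) i v → ρ v < ρ k → G.Adj v k := by
    intro v hv
    induction hv with
    | @single b hR =>
      intro hb
      exact h i b k hR.2 hik (Or.inl ⟨hR.1, hb⟩)
    | @tail b c _ hR ih =>
      intro hc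
      exact h b c k hR.2 (ih (hR.1.trans hc)) (Or.inl ⟨hR.1, hc⟩)
  have hj : G.Adj j k := by
    rcases lab_mono hρ h hr with h1 | h1 | h1
    · subst h1
      exact hik
    · exact chain j h1 hjk
    · exact absurd (labR_lt h1) (not_lt.mpr hij.le)
  exact ⟨(h k j i hj.symm hik.symm (Or.inr ⟨hij, hjk⟩)).symm, hj⟩

theorem exists_order {V : Type*} [Fintype V] (G : SimpleGraph V) (ρ : V → ℕ)
    (hρ : Function.Injective ρ)
    (h : ∀ i j k, G.Adj i j → G.Adj i k →
      (ρ i < ρ j ∧ ρ j < ρ k) ∨ (ρ k < ρ j ∧ ρ j < ρ i) → G.Adj j k) :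
    ∃ L : LinearOrder V, @CC V L G := by
  classical
  obtain ⟨e, he⟩ : ∃ e : G.ConnectedComponent → ℕ, Function.Injective e := by
    have : Finite G.ConnectedComponent := Quot.finite _
    exact ⟨fun c => (Finite.equivFin G.ConnectedComponent c : ℕ),
      fun a b hab => (Finite.equivFin G.ConnectedComponent).injective (Fin.ext hab)⟩
  let f : V → ℕ ×ₗ ℕ := fun v => toLex (e (G.connectedComponentMk v), ρ v)
  have hf : Function.Injective f := by
    intro a b hab
    have h1 : (e (G.connectedComponentMk a), ρ a) = (e (G.connectedComponentMk b), ρ b) :=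
      toLex.injective hab
    exact hρ (congrArg Prod.snd h1)
  refine ⟨LinearOrder.lift' f hf, ?_⟩
  intro i j k hij hjk hik
  have h1 : f i < f j := hij
  have h2 : f j < f k := hjk
  have hc : G.connectedComponentMk i = G.connectedComponentMk k :=
    SimpleGraph.ConnectedComponent.sound hik.reachable
  have h1' := Prod.Lex.toLex_lt_toLex.mp h1
  have h2' := Prod.Lex.toLex_lt_toLex.mp h2
  simp only at h1' h2'
  rw [hc] at h1'
  have hje : e (G.connectedComponentMk k) = e (G.connectedComponentMk j) := by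
    rcases h1' with h3 | h3
    · rcases h2' with h4 | h4
      · exact absurd (h3.trans h4) (lt_irrefl _)
      · exact h4.1.symm
    · exact h3.1
  have hij' : ρ i < ρ j := by
    rcases h1' with h3 | h3
    · exact absurd h3 (by rw [hje]; exact lt_irrefl _)
    · exact h3.2
  have hjk' : ρ j < ρ k := by
    rcases h2' with h3 | h3
    · exact absurd h3 (by rw [hje]; exact lt_irrefl _)
    · exact h3.2
  have hr : G.Reachable i j := by
    have := he hje
    rw [← hc] at this
    exact SimpleGraph.ConnectedComponent.exact this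
  exact lab_strong hρ h hij' hjk' hik hr

end Pool.Agent.H52.BE
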