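import Pool.Agent.H52.BE.Kos
import Pool.Agent.H52.BE.Mat

/-!
# Project BE: level spaces and the Koszul operators

`c ∈ Lv K H e b k` iff for every `τ` with `c τ ≠ 0`: `ind τ ≤ b` (i.e. `1 ≤ b v` for `v ∈ τ`) and
`Mt H k (b + e - ind τ)`.  `c ∈ Zv K H e b k` iff `c ∈ Lv K H e b k` and
`dd K c ∈ Lv K H e b (k+1)`.

Everything is bookkeeping: `(dd K c) τ ≠ 0` implies `c (insert v τ) ≠ 0` for some `v ∉ τ`;
`(E v c) τ ≠ 0` implies `v ∈ τ` and `c (τ.erase v) ≠ 0`.  Degrees are compared pointwise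
(`Mt_mono` with an inequality of functions, `intro w; simp [ind, dl, cnt]; split_ifs; omega`).
The statements about lists are by induction on the list with
`EE (v :: L) c = E v (EE L c)`, `DD (v :: L) c = 1 • EE L c - E v (DD L c)`.
-/

namespace Pool.Agent.H52.BE

open Finset

variable {K : Type*} [CommRing K]
variable {V : Type*} [Fintype V] [DecidableEq V] {H : V → V → Prop}
variable {e b b' : V ⊕ V → ℕ} {k j : ℕ} {c g : Finset (V ⊕ V) → K}

/-- left multiplication by `e_v` over `K` -/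
noncomputable abbrev E1 (K : Type*) [CommRing K] (v : V ⊕ V) :
    (Finset (V ⊕ V) → K) →ₗ[K] (Finset (V ⊕ V) → K) := E v

theorem mem_Lv : c ∈ Lv K H e b k ↔ ∀ τ, c τ ≠ 0 → ind τ ≤ b ∧ Mt H k (b + e - ind τ) :=
  Iff.rfl

theorem mem_Zv : c ∈ Zv K H e b k ↔ c ∈ Lv K H e b k ∧ dd K c ∈ Lv K H e b (k + 1) :=
  Iff.rfl

private theorem lev_zsmul {S : Submodule K (Finset (V ⊕ V) → K)} {x : Finset (V ⊕ V) → K}
    (n : ℤ) (hx : x ∈ S) : n • x ∈ S := zsmul_mem hx n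

theorem dd_dd (c : Finset (V ⊕ V) → K) : dd K (dd K c) = 0 := kd_kd _ c

theorem dd_E (v : V ⊕ V) (c : Finset (V ⊕ V) → K) :
    dd K (E1 K v c) = c - E1 K v (dd K c) := by
  have h := kd_E (R := K) (fun _ : V ⊕ V => (1 : K)) v c
  simp only [one_smul] at h
  exact h

theorem DD_cons (v : V ⊕ V) (L : List (V ⊕ V)) (c : Finset (V ⊕ V) → K) :
    DD K (v :: L) c = EE K L c - E1 K v (DD K L c) := by
  have h := DL_cons (R := K) (fun _ : V ⊕ V => (1 : K)) v L c
  simp only [one_smul] at h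
  exact h

theorem EE_cons (v : V ⊕ V) (L : List (V ⊕ V)) (c : Finset (V ⊕ V) → K) :
    EE K (v :: L) c = E1 K v (EE K L c) := rfl

private theorem lev_DD_nil (c : Finset (V ⊕ V) → K) : DD K [] c = 0 := rfl

private theorem lev_EE_nil (c : Finset (V ⊕ V) → K) : EE K [] c = c := rfl

theorem DD_single (v : V ⊕ V) (c : Finset (V ⊕ V) → K) : DD K [v] c = c := by
  rw [DD_cons, lev_DD_nil, lev_EE_nil, map_zero, sub_zero]

theorem dd_EE (L : List (V ⊕ V)) (c : Finset (V ⊕ V) → K) :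
    dd K (EE K L c) = DD K L c + ((-1 : ℤ) ^ L.length) • EE K L (dd K c) :=
  kd_EL _ L c

theorem dd_DD (L : List (V ⊕ V)) (c : Finset (V ⊕ V) → K) :
    dd K (DD K L c) = - (((-1 : ℤ) ^ L.length) • DD K L (dd K c)) :=
  kd_DL _ L c

/-! ### auxiliary facts on degrees -/

private theorem lev_ind_erase (v : V ⊕ V) (τ : Finset (V ⊕ V)) (h : v ∈ τ) :
    ind τ = ind (τ.erase v) + dl v := by
  funext w
  by_cases hw : w = v
  · subst hw
    simp [ind, dl, h]
  · simp [ind, dl, hw]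

private theorem lev_ind_insert (v : V ⊕ V) (τ : Finset (V ⊕ V)) :
    ind τ ≤ ind (insert v τ) := by
  intro w
  by_cases hw : w ∈ τ
  · simp [ind, hw]
  · simp [ind, hw]

private theorem lev_cnt_cons (v : V ⊕ V) (L : List (V ⊕ V)) :
    cnt (v :: L) = cnt L + dl v := by
  funext w
  by_cases hw : w = v
  · subst hw
    simp [cnt, dl]
  · have h1 : ¬ (v = w) := fun h => hw h.symm
    simp [cnt, dl, hw, List.count_cons, h1]

private theorem lev_cnt_nil : cnt ([] : List (V ⊕ V)) = 0 := by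
  funext w
  simp [cnt]

/-- comparison of level spaces -/
private theorem lev_le {e' : V ⊕ V → ℕ} {k' : ℕ}
    (h : ∀ τ : Finset (V ⊕ V), ind τ ≤ b → Mt H k (b + e - ind τ) →
      ind τ ≤ b' ∧ Mt H k' (b' + e' - ind τ)) : Lv K H e b k ≤ Lv K H e' b' k' := by
  intro c hc τ hτ
  obtain ⟨h1, h2⟩ := mem_Lv.1 hc τ hτ
  exact h τ h1 h2

theorem Lv_mono_b (h : b ≤ b') : Lv K H e b k ≤ Lv K H e b' k := by
  apply lev_le
  intro τ h1 h2
  refine ⟨le_trans h1 h, Mt_mono ?_ h2⟩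
  intro w
  have h3 : b w ≤ b' w := h w
  simp only [Pi.add_apply, Pi.sub_apply]
  omega

theorem Lv_succ : Lv K H e b (k + 1) ≤ Lv K H e b k := by
  apply lev_le
  intro τ h1 h2
  exact ⟨h1, Mt_pred h2⟩

theorem Lv_e_to_b (v : V ⊕ V) : Lv K H (e + dl v) b k ≤ Lv K H e (b + dl v) k := by
  apply lev_le
  intro τ h1 h2
  refine ⟨fun w => ?_, Mt_mono ?_ h2⟩
  · have h3 : ind τ w ≤ b w := h1 w
    simp only [Pi.add_apply]
    omega
  · intro w
    simp only [Pi.add_apply, Pi.sub_apply]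
    omega

theorem Lv_e_to_b' (v : V ⊕ V) : Lv K H (dl v) b k ≤ Lv K H 0 (b + dl v) k := by
  apply lev_le
  intro τ h1 h2
  refine ⟨fun w => ?_, Mt_mono ?_ h2⟩
  · have h3 : ind τ w ≤ b w := h1 w
    simp only [Pi.add_apply]
    omega
  · intro w
    simp only [Pi.add_apply, Pi.sub_apply, Pi.zero_apply]
    omega

theorem Lv_zero_le (e : V ⊕ V → ℕ) : Lv K H 0 b k ≤ Lv K H e b k := by
  apply lev_le
  intro τ h1 h2
  refine ⟨h1, Mt_mono ?_ h2⟩
  intro w
  simp only [Pi.add_apply, Pi.sub_apply, Pi.zero_apply]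
  omega

/-- if `1 ≤ b v` then extra exponent and exponent are the same -/
theorem Lv_e_eq_b (v : V ⊕ V) (h : 1 ≤ b v) : Lv K H (dl v) b k = Lv K H 0 (b + dl v) k := by
  apply le_antisymm (Lv_e_to_b' v)
  apply lev_le
  intro τ h1 h2
  refine ⟨fun w => ?_, Mt_mono ?_ h2⟩
  · have h3 : ind τ w ≤ b w + dl v w := h1 w
    by_cases hw : w = v
    · subst hw
      have h4 : ind τ w ≤ 1 := by
        unfold ind
        split_ifs <;> omega
      exact le_trans h4 h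
    · have h5 : dl v w = 0 := if_neg hw
      rw [h5, add_zero] at h3
      exact h3
  · intro w
    simp only [Pi.add_apply, Pi.sub_apply, Pi.zero_apply]
    omega

theorem Zv_e_eq_b (v : V ⊕ V) (h : 1 ≤ b v) : Zv K H (dl v) b k = Zv K H 0 (b + dl v) k := by
  unfold Zv
  rw [Lv_e_eq_b v h, Lv_e_eq_b v h]

theorem Lv_edge_b {v u : V ⊕ V} (h : adj H v u) :
    Lv K H e b k ≤ Lv K H e (b + dl v + dl u) (k + 1) := by
  apply lev_le
  intro τ h1 h2
  refine ⟨fun w => ?_, Mt_mono ?_ (Mt_edge h h2)⟩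
  · have h3 : ind τ w ≤ b w := h1 w
    simp only [Pi.add_apply]
    omega
  · intro w
    have h3 : ind τ w ≤ b w := h1 w
    simp only [Pi.add_apply, Pi.sub_apply]
    omega

theorem Lv_edge_e {v u : V ⊕ V} (h : adj H v u) :
    Lv K H e b k ≤ Lv K H (e + dl v) (b + dl u) (k + 1) := by
  apply lev_le
  intro τ h1 h2
  refine ⟨fun w => ?_, Mt_mono ?_ (Mt_edge h h2)⟩
  · have h3 : ind τ w ≤ b w := h1 w
    simp only [Pi.add_apply]
    omega
  · intro w
    have h3 : ind τ w ≤ b w := h1 w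
    simp only [Pi.add_apply, Pi.sub_apply]
    omega

theorem dd_Lv (h : c ∈ Lv K H e b k) : dd K c ∈ Lv K H e b k := by
  intro τ hτ
  have h0 : dd K c τ = ∑ v, if v ∈ τ then 0 else sg v τ • (1 : K) • c (insert v τ) :=
    kd_apply (fun _ : V ⊕ V => (1 : K)) c τ
  rw [h0] at hτ
  obtain ⟨v, -, hv⟩ := Finset.exists_ne_zero_of_sum_ne_zero hτ
  have hv2 : c (insert v τ) ≠ 0 := by
    intro h1
    apply hv
    rw [h1]
    simp
  obtain ⟨h1, h2⟩ := mem_Lv.1 h _ hv2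
  have h3 := lev_ind_insert v τ
  refine ⟨le_trans h3 h1, Mt_mono ?_ h2⟩
  intro w
  have h4 : ind τ w ≤ ind (insert v τ) w := h3 w
  simp only [Pi.add_apply, Pi.sub_apply]
  omega

theorem E_Lv (v : V ⊕ V) (h : c ∈ Lv K H e b k) : E1 K v c ∈ Lv K H e (b + dl v) k := by
  intro τ hτ
  have h0 : E1 K v c τ = if v ∈ τ then sg v τ • c (τ.erase v) else 0 := rfl
  rw [h0] at hτ
  by_cases hv : v ∈ τ
  · rw [if_pos hv] at hτ
    have hv2 : c (τ.erase v) ≠ 0 := by
      intro h1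
      apply hτ
      rw [h1, smul_zero]
    obtain ⟨h1, h2⟩ := mem_Lv.1 h _ hv2
    have h3 := lev_ind_erase v τ hv
    refine ⟨fun w => ?_, Mt_mono ?_ h2⟩
    · have h4 : ind (τ.erase v) w ≤ b w := h1 w
      have h5 := congrFun h3 w
      simp only [Pi.add_apply] at h5 ⊢
      omega
    · intro w
      have h5 := congrFun h3 w
      simp only [Pi.add_apply, Pi.sub_apply] at h5 ⊢
      omega
  · rw [if_neg hv] at hτ
    exact absurd rfl hτ

private theorem lev_add_cons (v : V ⊕ V) (L : List (V ⊕ V)) :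
    b + cnt L + dl v = b + cnt (v :: L) := by
  rw [lev_cnt_cons, add_assoc]

private theorem lev_add_cons_le (v : V ⊕ V) (L : List (V ⊕ V)) :
    b + cnt L ≤ b + cnt (v :: L) := by
  rw [lev_cnt_cons]
  intro w
  simp only [Pi.add_apply]
  omega

theorem EE_Lv (L : List (V ⊕ V)) (h : c ∈ Lv K H e b k) :
    EE K L c ∈ Lv K H e (b + cnt L) k := by
  induction L with
  | nil =>
    rw [lev_EE_nil, lev_cnt_nil, add_zero]
    exact h
  | cons v L ih =>
    rw [EE_cons, ← lev_add_cons]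
    exact E_Lv v ih

theorem DD_Lv (L : List (V ⊕ V)) (h : c ∈ Lv K H e b k) :
    DD K L c ∈ Lv K H e (b + cnt L) k := by
  induction L with
  | nil =>
    rw [lev_DD_nil]
    exact zero_mem _
  | cons v L ih =>
    rw [DD_cons]
    refine sub_mem (Lv_mono_b (lev_add_cons_le v L) (EE_Lv L h)) ?_
    rw [← lev_add_cons]
    exact E_Lv v ih

/-- induction on `L`: `DD (u :: L) c = EE L c - E u (DD L c)` -/
theorem DD_Lv_adj {v : V ⊕ V} (L : List (V ⊕ V)) (hL : ∀ u ∈ L, adj H v u)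
    (h : c ∈ Lv K H e b k) : DD K L c ∈ Lv K H (e + dl v) (b + cnt L) (k + 1) := by
  induction L with
  | nil =>
    rw [lev_DD_nil]
    exact zero_mem _
  | cons u L ih =>
    have ih' := ih (fun x hx => hL x (List.mem_cons_of_mem _ hx))
    have hu : adj H v u := hL u (List.mem_cons_self)
    rw [DD_cons, ← lev_add_cons]
    exact sub_mem (Lv_edge_e hu (EE_Lv L h)) (E_Lv u ih')

theorem DD_Lv_adj' {v : V ⊕ V} (L : List (V ⊕ V)) (hL : ∀ u ∈ L, adj H v u)
    (h : c ∈ Lv K H 0 b k) : DD K L c ∈ Lv K H (dl v) (b + cnt L) (k + 1) := by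
  have h1 := DD_Lv_adj L hL h
  rw [zero_add] at h1
  exact h1

/-- induction on `A`, using `DD_Lv_adj` for `B` -/
theorem DD_Lv_bip (A B : List (V ⊕ V)) (hAB : ∀ x ∈ A, ∀ y ∈ B, adj H x y)
    (h : c ∈ Lv K H e b k) : DD K A (DD K B c) ∈ Lv K H e (b + cnt A + cnt B) (k + 1) := by
  induction A with
  | nil =>
    rw [lev_DD_nil]
    exact zero_mem _
  | cons x A ih =>
    have ih' := ih (fun y hy => hAB y (List.mem_cons_of_mem _ hy))
    have hx : ∀ y ∈ B, adj H x y := hAB x (List.mem_cons_self)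
    rw [DD_cons]
    have h1 := EE_Lv A (Lv_e_to_b x (DD_Lv_adj B hx h))
    have e1 : b + cnt B + dl x + cnt A = b + cnt (x :: A) + cnt B := by
      rw [lev_cnt_cons]
      funext w
      simp only [Pi.add_apply]
      omega
    have h2 := E_Lv x ih'
    have e2 : b + cnt A + cnt B + dl x = b + cnt (x :: A) + cnt B := by
      rw [lev_cnt_cons]
      funext w
      simp only [Pi.add_apply]
      omega
    rw [e1] at h1
    rw [e2] at h2
    exact sub_mem h1 h2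

/-! ### maps on relative cycles -/

theorem Zv_boundary (w : Finset (V ⊕ V) → K) (hw : w ∈ Lv K H e b k) :
    dd K w ∈ Zv K H e b k := by
  rw [mem_Zv]
  refine ⟨dd_Lv hw, ?_⟩
  rw [dd_dd]
  exact zero_mem _

theorem Lv_Zv : Lv K H e b (k + 1) ≤ Zv K H e b k := by
  intro c hc
  rw [mem_Zv]
  exact ⟨Lv_succ hc, dd_Lv hc⟩

theorem DD_Zv_adj {v : V ⊕ V} (L : List (V ⊕ V)) (hL : ∀ u ∈ L, adj H v u)
    (h : g ∈ Zv K H 0 b j) : DD K L g ∈ Zv K H (dl v) (b + cnt L) (j + 1) := by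
  rw [mem_Zv] at h ⊢
  refine ⟨DD_Lv_adj' L hL h.1, ?_⟩
  rw [dd_DD]
  exact neg_mem (lev_zsmul _ (DD_Lv_adj' L hL h.2))

private theorem lev_comm (A B : List (V ⊕ V)) :
    b + cnt B + cnt A = b + cnt A + cnt B := by
  rw [add_assoc, add_assoc, add_comm (cnt B)]

theorem DE_Zv (A B : List (V ⊕ V)) (hAB : ∀ x ∈ A, ∀ y ∈ B, adj H x y)
    (h : g ∈ Zv K H e b k) : DD K A (EE K B g) ∈ Zv K H e (b + cnt A + cnt B) k := by
  rw [mem_Zv] at h ⊢
  obtain ⟨h1, h2⟩ := h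
  constructor
  · have h3 := DD_Lv A (EE_Lv B h1)
    rw [lev_comm] at h3
    exact h3
  · rw [dd_DD, dd_EE, map_add, map_zsmul]
    refine neg_mem (lev_zsmul _ (add_mem (DD_Lv_bip A B hAB h1) (lev_zsmul _ ?_)))
    have h3 := DD_Lv A (EE_Lv B h2)
    rw [lev_comm] at h3
    exact h3

theorem DDD_Zv (A B : List (V ⊕ V)) (hAB : ∀ x ∈ A, ∀ y ∈ B, adj H x y)
    (h : g ∈ Zv K H e b k) : DD K A (DD K B g) ∈ Zv K H e (b + cnt A + cnt B) (k + 1) := by
  rw [mem_Zv] at h ⊢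
  obtain ⟨h1, h2⟩ := h
  refine ⟨DD_Lv_bip A B hAB h1, ?_⟩
  rw [dd_DD, dd_DD, map_neg, map_zsmul]
  exact neg_mem (lev_zsmul _ (neg_mem (lev_zsmul _ (DD_Lv_bip A B hAB h2))))

/-- `v` isolated in `b`, all of `L` adjacent to `v` -/
theorem EE_Zv_iso {v : V ⊕ V} (L : List (V ⊕ V)) (hL : ∀ u ∈ L, adj H v u)
    (h : g ∈ Zv K H 0 b k) : EE K L g ∈ Zv K H (dl v) (b + cnt L) k := by
  rw [mem_Zv] at h ⊢
  obtain ⟨h1, h2⟩ := h
  refine ⟨Lv_zero_le _ (EE_Lv L h1), ?_⟩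
  rw [dd_EE]
  exact add_mem (DD_Lv_adj' L hL h1) (lev_zsmul _ (Lv_zero_le _ (EE_Lv L h2)))

end Pool.Agent.H52.BE
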