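import Pool.Agent.H52.BE.Lev

/-!
# Project BE: splitting off a vertex, corners and apices

`split_Lv`, `split_Zv`: `b u = 0` and `c = c0 + e_u c1 ∈ Lv (b + dl u)`.  For `u ∉ τ`:
`c τ = c0 τ`, `c (insert u τ) = ± c1 τ` (`split_val`), `ind (insert u τ) = ind τ + dl u`.
`dd c = (dd c0 + c1) - e_u (dd c1)` and both `dd c0 + c1`, `dd c1` are free of `e_u`
(`Fr_kd`), so the same argument applies to `dd c`.
`Fr_Lv`: a chain of `Lv e (b + dl u) k` without `e_u` only uses `τ` with `ind τ ≤ b`.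
`corner_Lv`: `Mt_corner` (note `Cor` is monotone).
`apex_corner`: `(E u c) τ ≠ 0` implies `u ∈ τ`, `c (τ.erase u) ≠ 0`,
`Mt (k+1) (b + dl v - ind (τ.erase u))`, and `Mt_corner` for `(v, u)`.
`apex_any`: `Mt_remove`.  `cone_Zv`: `c = dd (E v c) + E v (dd c)`, `Mt_iso`.
-/

namespace Pool.Agent.H52.BE

open Finset

variable {K : Type*} [CommRing K]
variable {V : Type*} [Fintype V] [DecidableEq V] {H : V → V → Prop}
variable {e b b' : V ⊕ V → ℕ} {k j : ℕ} {c g c0 c1 r : Finset (V ⊕ V) → K}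

private theorem pw_le {a b : V ⊕ V → ℕ} (h : ∀ w, a w ≤ b w) : a ≤ b := h

private theorem ind_erase {u : V ⊕ V} {τ : Finset (V ⊕ V)} (hu : u ∈ τ) (w : V ⊕ V) :
    ind τ w = ind (τ.erase u) w + dl u w := by
  by_cases hw : w = u
  · subst hw; simp [ind, dl, hu]
  · simp [ind, dl, hw]

private theorem ind_insert {u : V ⊕ V} {τ : Finset (V ⊕ V)} (hu : u ∉ τ) (w : V ⊕ V) :
    ind (insert u τ) w = ind τ w + dl u w := by
  by_cases hw : w = u
  · subst hw; simp [ind, dl, hu]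
  · simp [ind, dl, hw]

private theorem ind_out {u : V ⊕ V} {τ : Finset (V ⊕ V)} (hu : u ∉ τ) : ind τ u = 0 := by
  simp [ind, hu]

private theorem ind_in {u : V ⊕ V} {τ : Finset (V ⊕ V)} (hu : u ∈ τ) : ind τ u = 1 := by
  simp [ind, hu]

private theorem ind_le_one (u : V ⊕ V) (τ : Finset (V ⊕ V)) : ind τ u ≤ 1 := by
  unfold ind; split_ifs <;> omega

private theorem dl_self (u : V ⊕ V) : dl u u = 1 := by simp [dl]

private theorem dl_ne {u w : V ⊕ V} (h : w ≠ u) : dl u w = 0 := by simp [dl, h]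

private theorem E_ne {u : V ⊕ V} {c : Finset (V ⊕ V) → K} {τ : Finset (V ⊕ V)}
    (h : E1 K u c τ ≠ 0) : u ∈ τ ∧ c (τ.erase u) ≠ 0 := by
  have h1 : E1 K u c τ = if u ∈ τ then sg u τ • c (τ.erase u) else 0 := rfl
  rw [h1] at h
  by_cases hu : u ∈ τ
  · rw [if_pos hu] at h
    refine ⟨hu, ?_⟩
    intro h2
    apply h
    rw [h2, smul_zero]
  · rw [if_neg hu] at h
    exact absurd rfl h

private theorem le_of_free {u : V ⊕ V} {τ : Finset (V ⊕ V)} (hu : u ∉ τ)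
    (h : ind τ ≤ b + dl u) : ind τ ≤ b := by
  intro w
  have h1 := h w
  by_cases hw : w = u
  · subst hw; rw [ind_out hu]; exact Nat.zero_le _
  · simp only [Pi.add_apply, dl_ne hw, Nat.add_zero] at h1
    exact h1

private theorem le_of_one {u : V ⊕ V} {τ : Finset (V ⊕ V)} (hu : 1 ≤ b u)
    (h : ind τ ≤ b + dl u) : ind τ ≤ b := by
  intro w
  have h1 := h w
  by_cases hw : w = u
  · subst hw; exact le_trans (ind_le_one _ _) hu
  · simp only [Pi.add_apply, dl_ne hw, Nat.add_zero] at h1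
    exact h1

private theorem le_of_erase {u : V ⊕ V} {τ : Finset (V ⊕ V)} (hu : 1 ≤ b u)
    (h : ind (τ.erase u) ≤ b) : ind τ ≤ b := by
  intro w
  by_cases hw : w = u
  · subst hw; exact le_trans (ind_le_one _ _) hu
  · have h1 := h w
    have h2 : ind (τ.erase u) w = ind τ w := by simp [ind, hw]
    rw [h2] at h1
    exact h1

theorem split_Lv {u : V ⊕ V} (hb : b u = 0) (h0 : Fr u c0) (h1 : Fr u c1)
    (h : c0 + E1 K u c1 ∈ Lv K H e (b + dl u) k) :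
    c0 ∈ Lv K H e (b + dl u) k ∧ c1 ∈ Lv K H e b k := by
  constructor
  · intro τ hτ
    have hu : u ∉ τ := fun hm => hτ (h0 τ hm)
    have h2 := h τ
    rw [(split_val (R := K) u c0 c1 h0 τ).1 hu] at h2
    exact h2 hτ
  · intro τ hτ
    have hu : u ∉ τ := fun hm => hτ (h1 τ hm)
    have h2 := h (insert u τ)
    rw [(split_val (R := K) u c0 c1 h0 τ).2 hu] at h2
    have h3 : sg u τ • c1 τ ≠ 0 := by
      rcases sg_ne_zero u τ with h4 | h4 <;> rw [h4] <;> simpa using hτ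
    obtain ⟨h5, h6⟩ := h2 h3
    refine ⟨?_, Mt_mono ?_ h6⟩
    · intro w
      have h7 : ind (insert u τ) w ≤ (b + dl u) w := h5 w
      rw [ind_insert hu w, Pi.add_apply] at h7
      exact Nat.le_of_add_le_add_right h7
    · intro w
      simp only [Pi.add_apply, Pi.sub_apply, ind_insert hu w]
      omega

theorem split_Zv {u : V ⊕ V} (hb : b u = 0) (h0 : Fr u c0) (h1 : Fr u c1)
    (h : c0 + E1 K u c1 ∈ Zv K H e (b + dl u) k) :
    c0 ∈ Lv K H e (b + dl u) k ∧ c1 ∈ Zv K H e b k ∧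
      dd K c0 + c1 ∈ Lv K H e (b + dl u) (k + 1) := by
  obtain ⟨ha, hb'⟩ := h
  obtain ⟨h2, h3⟩ := split_Lv hb h0 h1 ha
  have h4 : dd K (c0 + E1 K u c1) = (dd K c0 + c1) + E1 K u (-(dd K c1)) := by
    rw [map_add, dd_E, map_neg]
    abel
  have h5 : (dd K c0 + c1) + E1 K u (-(dd K c1)) ∈ Lv K H e (b + dl u) (k + 1) := by
    rw [← h4]; exact hb'
  obtain ⟨h6, h7⟩ := split_Lv hb
    (Fr_add u _ _ (Fr_kd (fun _ => (1 : K)) u c0 h0) h1)
    (Fr_neg u _ (Fr_kd (fun _ => (1 : K)) u c1 h1)) h5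
  refine ⟨h2, ⟨h3, ?_⟩, h6⟩
  have h8 := (Lv K H e b (k + 1)).neg_mem h7
  rw [neg_neg] at h8
  exact h8

theorem Fr_Lv {u : V ⊕ V} (hr : Fr u r) (h : r ∈ Lv K H e (b + dl u) k) :
    r ∈ Lv K H (e + dl u) b k := by
  intro τ hτ
  have hu : u ∉ τ := fun hm => hτ (hr τ hm)
  obtain ⟨h1, h2⟩ := h τ hτ
  refine ⟨le_of_free hu h1, Mt_mono ?_ h2⟩
  intro w
  simp only [Pi.add_apply, Pi.sub_apply]
  omega

theorem Fr_Lv0 {u : V ⊕ V} (hr : Fr u r) (h : r ∈ Lv K H 0 (b + dl u) k) :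
    r ∈ Lv K H (dl u) b k := by
  have h1 := Fr_Lv hr h
  rwa [zero_add] at h1

theorem Fr_Zv {u : V ⊕ V} (hr : Fr u r) (h : r ∈ Zv K H e (b + dl u) k) :
    r ∈ Zv K H (e + dl u) b k := by
  exact ⟨Fr_Lv hr h.1, Fr_Lv (Fr_kd (fun _ => (1 : K)) u r hr) h.2⟩

theorem Fr_Zv0 {u : V ⊕ V} (hr : Fr u r) (h : r ∈ Zv K H 0 (b + dl u) k) :
    r ∈ Zv K H (dl u) b k := by
  have h1 := Fr_Zv hr h
  rwa [zero_add] at h1

/-- `r` is free of `e_u` if `b u = 0` -/
theorem Lv_Fr {u : V ⊕ V} (hb : b u = 0) (h : c ∈ Lv K H e b k) : Fr u c := by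
  intro τ hu
  by_contra hne
  have h1 : ind τ u ≤ b u := (h τ hne).1 u
  rw [ind_in hu, hb] at h1
  omega

/-- both ends of the corner edge `v u` are extra -/
theorem corner_Lv {v u : V ⊕ V} (h : adj H v u) (hc : Cor H (b + dl v + dl u) v u) :
    Lv K H (dl v + dl u) b (j + 1) ≤ Lv K H 0 b j := by
  intro c hcm τ hτ
  obtain ⟨h1, h2⟩ := hcm τ hτ
  refine ⟨h1, ?_⟩
  have hv1 : ind τ v ≤ b v := h1 v
  have hu1 : ind τ u ≤ b u := h1 u
  have h3 : Cor H (b + (dl v + dl u) - ind τ) v u := by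
    refine Cor_mono ?_ hc
    intro w
    simp only [Pi.add_apply, Pi.sub_apply]
    omega
  have h4 := Mt_corner h h3
    (by simp only [Pi.add_apply, Pi.sub_apply, dl_self]; omega)
    (by simp only [Pi.add_apply, Pi.sub_apply, dl_self]; omega) h2
  refine Mt_mono ?_ h4
  intro w
  have hw : ind τ w ≤ b w := h1 w
  simp only [Pi.add_apply, Pi.sub_apply, Pi.zero_apply]
  omega

theorem corner_Zv {v u : V ⊕ V} (h : adj H v u) (hc : Cor H (b + dl v + dl u) v u) :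
    Zv K H (dl v + dl u) b (j + 1) ≤ Zv K H 0 b j := by
  intro c hcm
  exact ⟨corner_Lv h hc hcm.1, corner_Lv h hc hcm.2⟩

/-- `v` is extra and `u` has exponent at least two in `b + dl u` -/
theorem corner_Zv2 {v u : V ⊕ V} (h : adj H v u) (hb : 1 ≤ b u)
    (hc : Cor H (b + dl v + dl u) v u) :
    Zv K H (dl v) (b + dl u) (j + 1) ≤ Zv K H 0 b j := by
  have key : ∀ m : ℕ, Lv K H (dl v) (b + dl u) m ≤ Lv K H (dl v + dl u) b m := by
    intro m c hcm τ hτ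
    obtain ⟨h1, h2⟩ := hcm τ hτ
    refine ⟨le_of_one hb h1, Mt_mono ?_ h2⟩
    intro w
    simp only [Pi.add_apply, Pi.sub_apply]
    omega
  intro c hcm
  exact corner_Zv h hc ⟨key _ hcm.1, key _ hcm.2⟩

/-- level 0: if both ends of an edge are extra, everything has level 1 -/
theorem level_one {v u : V ⊕ V} (h : adj H v u) :
    Lv K H (dl v + dl u) b 0 ≤ Lv K H (dl v + dl u) b 1 := by
  intro c hcm τ hτ
  obtain ⟨h1, h2⟩ := hcm τ hτ
  refine ⟨h1, Mt_mono ?_ (Mt_edge h (Mt_zero (b - ind τ)))⟩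
  intro w
  have hw : ind τ w ≤ b w := h1 w
  simp only [Pi.add_apply, Pi.sub_apply]
  omega

theorem level_one2 {v u : V ⊕ V} (h : adj H v u) (hb : 1 ≤ b u) :
    Lv K H (dl v) (b + dl u) 0 ≤ Lv K H (dl v) (b + dl u) 1 := by
  intro c hcm τ hτ
  obtain ⟨h1, h2⟩ := hcm τ hτ
  have h3 := le_of_one hb h1
  refine ⟨h1, Mt_mono ?_ (Mt_edge h (Mt_zero (b - ind τ)))⟩
  intro w
  have hw : ind τ w ≤ b w := h3 w
  simp only [Pi.add_apply, Pi.sub_apply]
  omega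

/-- the corner apex loses one edge but removes the extra vertex -/
theorem apex_corner {v u : V ⊕ V} (h : adj H v u) (hu : 1 ≤ b u)
    (hc : Cor H (b + dl v) v u) (hm : c ∈ Lv K H (dl v) b (k + 1)) :
    E1 K u c ∈ Lv K H 0 b k := by
  intro τ hτ
  obtain ⟨hut, hce⟩ := E_ne hτ
  obtain ⟨h1, h2⟩ := hm _ hce
  refine ⟨le_of_erase hu h1, ?_⟩
  have h3 : Cor H (b + dl v - ind (τ.erase u)) v u := by
    refine Cor_mono ?_ hc
    intro w
    simp only [Pi.add_apply, Pi.sub_apply]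
    omega
  have hv1 : ind (τ.erase u) v ≤ b v := h1 v
  have hu0 : ind (τ.erase u) u = 0 := ind_out (by simp)
  have h4 := Mt_corner h h3
    (by simp only [Pi.add_apply, Pi.sub_apply, dl_self]; omega)
    (by simp only [Pi.add_apply, Pi.sub_apply, hu0]; omega) h2
  refine Mt_mono ?_ h4
  intro w
  have hw : ind (τ.erase u) w ≤ b w := h1 w
  simp only [Pi.add_apply, Pi.sub_apply, Pi.zero_apply, ind_erase hut w]
  omega

theorem apex_any {v : V ⊕ V} (hv : 1 ≤ b v) (hm : c ∈ Lv K H e b (k + 1)) :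
    E1 K v c ∈ Lv K H e b k := by
  intro τ hτ
  obtain ⟨hut, hce⟩ := E_ne hτ
  obtain ⟨h1, h2⟩ := hm _ hce
  refine ⟨le_of_erase hv h1, Mt_mono ?_ (Mt_remove v h2)⟩
  intro w
  simp only [Pi.add_apply, Pi.sub_apply, ind_erase hut w]
  omega

theorem apex_iso {v : V ⊕ V} (hv : 1 ≤ b v) (hiso : ∀ u, 1 ≤ (b + e) u → ¬ adj H v u)
    (hm : c ∈ Lv K H e b k) : E1 K v c ∈ Lv K H e b k := by
  intro τ hτ
  obtain ⟨hut, hce⟩ := E_ne hτ
  obtain ⟨h1, h2⟩ := hm _ hce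
  have h3 : ∀ u, 1 ≤ (b + e - ind (τ.erase v)) u → ¬ adj H v u := by
    intro u hu
    apply hiso
    simp only [Pi.add_apply, Pi.sub_apply] at hu ⊢
    omega
  refine ⟨le_of_erase hv h1, Mt_mono ?_ (Mt_iso v h3 h2)⟩
  intro w
  simp only [Pi.add_apply, Pi.sub_apply, ind_erase hut w]
  omega

theorem cone_Zv {v : V ⊕ V} (hv : 1 ≤ b v) (hiso : ∀ u, 1 ≤ (b + e) u → ¬ adj H v u)
    (hm : c ∈ Zv K H e b k) :
    ∃ w ∈ Lv K H e b k, ∃ l ∈ Lv K H e b (k + 1), c = dd K w + l := by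
  refine ⟨E1 K v c, apex_iso hv hiso hm.1, E1 K v (dd K c), apex_iso hv hiso hm.2, ?_⟩
  rw [dd_E]
  abel

/-- an isolated extra vertex does not matter -/
theorem Lv_iso {v : V ⊕ V} (hiso : ∀ u, 1 ≤ b u → ¬ adj H v u) :
    Lv K H (dl v) b k = Lv K H 0 b k := by
  apply le_antisymm
  · intro c hcm τ hτ
    obtain ⟨h1, h2⟩ := hcm τ hτ
    refine ⟨h1, ?_⟩
    apply Mt_iso' v
    · intro u hu
      apply hiso
      simp only [Pi.add_apply, Pi.sub_apply, Pi.zero_apply] at hu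
      omega
    · refine Mt_mono ?_ h2
      intro w
      simp only [Pi.add_apply, Pi.sub_apply, Pi.zero_apply]
      omega
  · exact Lv_zero_le _

theorem Zv_iso {v : V ⊕ V} (hiso : ∀ u, 1 ≤ b u → ¬ adj H v u) :
    Zv K H (dl v) b k = Zv K H 0 b k := by
  unfold Zv
  rw [Lv_iso hiso, Lv_iso hiso]

/-- removing one vertex costs at most one edge -/
theorem Lv_remove {v : V ⊕ V} : Lv K H (dl v) b (k + 1) ≤ Lv K H 0 b k := by
  intro c hcm τ hτ
  obtain ⟨h1, h2⟩ := hcm τ hτ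
  refine ⟨h1, Mt_mono ?_ (Mt_remove v h2)⟩
  intro w
  simp only [Pi.add_apply, Pi.sub_apply, Pi.zero_apply]
  omega

private theorem DD_tail_aux (L : List (V ⊕ V)) (u : V ⊕ V) (g : Finset (V ⊕ V) → K) :
    DD K (L ++ [u]) g = DD K L (E1 K u g) + ((-1 : ℤ) ^ L.length) • EE K L g := by
  have h1 := DL_append (fun _ => (1 : K)) L [u] g
  have h2 : EL (R := K) [u] g = E1 K u g := rfl
  have h3 : DL (fun _ => (1 : K)) [u] g = g := DD_single u g
  rw [h2, h3] at h1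
  exact h1

/-- the last term of the expansion, `u` is the next neighbour of `v`; use
`DD (L ++ [u]) g = DD L (E u g) + (-1)^|L| • EE L g`, `apex_corner`, `DD_Lv_adj'` -/
theorem tail_Lv {v u : V ⊕ V} (L : List (V ⊕ V)) (hL : ∀ w ∈ L, adj H v w) (h : adj H v u)
    (hu : 1 ≤ b u) (hc : Cor H (b + dl v) v u) (hg : g ∈ Lv K H (dl v) b k) :
    DD K (L ++ [u]) g ∈ Lv K H (dl v) (b + cnt L) k := by
  rw [DD_tail_aux]
  refine Submodule.add_mem _ ?_ ?_
  · cases k with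
    | zero =>
      have h1 : E1 K u g ∈ Lv K H (dl v) b 0 := by
        intro τ hτ
        obtain ⟨hut, hce⟩ := E_ne hτ
        exact ⟨le_of_erase hu (hg _ hce).1, Mt_zero _⟩
      exact DD_Lv L h1
    | succ m => exact DD_Lv_adj' L hL (apex_corner h hu hc hg)
  · have h1 := EE_Lv L hg
    exact zsmul_mem h1 _

theorem tail_Zv {v u : V ⊕ V} (L : List (V ⊕ V)) (hL : ∀ w ∈ L, adj H v w) (h : adj H v u)
    (hu : 1 ≤ b u) (hc : Cor H (b + dl v) v u) (hg : g ∈ Zv K H (dl v) b k) :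
    DD K (L ++ [u]) g ∈ Zv K H (dl v) (b + cnt L) k := by
  refine ⟨tail_Lv L hL h hu hc hg.1, ?_⟩
  show dd K (DD K (L ++ [u]) g) ∈ Lv K H (dl v) (b + cnt L) (k + 1)
  rw [dd_DD]
  exact Submodule.neg_mem _ (zsmul_mem (tail_Lv L hL h hu hc hg.2) _)

theorem DD_tail (L : List (V ⊕ V)) (u : V ⊕ V) (g : Finset (V ⊕ V) → K) :
    DD K (L ++ [u]) g = DD K L (E1 K u g) + ((-1 : ℤ) ^ L.length) • EE K L g := by
  exact DD_tail_aux L u g

end Pool.Agent.H52.BE
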