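import Pool.Agent.H52.BE.Gam

/-!
# Project BE: leading parts

`Lf a c C`: the chain `C` has the component `c` in the degree `a` and all other components of weight
`≥ wd a` vanish.  `Low w C`: all components of weight `≥ w` vanish.

`GE_low` / `GD_low` (weight bounds): `top m L` = sum of the `wt (inl c)` of the first `m` elements of
`L`.  For an increasing list `L` (weights strictly decreasing): if `Low w C` then
`Low (w + top m L) (GE L m C)` and `Low (w + top (m+1) L) (GD L m C)` (`m : ℕ`; for `m = -1`, and `GE` for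
`m < 0`, the result is `0`).  Induction on `L`; `top m L ≤ top (m+1) L`,
`top (m+1) (c::L) = wt c + top m L`, and `top (m+1) L ≤ wt c + top m L` if `c <` all elements of `L`
(by `wt_lt`).

`GE_Lf`: `Lf (a + cl A + cr B) (EE A (EE B c)) (GE (A ++ B) |A| C)`: induction on `A`.
 `A = []`: induction on `B`: `GE (b::B) 0 = E y_b (GE B 0) + E x_b (GE B (-1))`, the second is `0`.
 `a0::A`: `GE (a0::A++B) (|A|+1) = E y_a0 (GE (A++B) (|A|+1)) + E x_a0 (GE (A++B) |A|)`: the second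
 term is the lift by induction hypothesis and `Lf_E`; the first is `Low`: `C` is
 `Low (wd a + 1)`, `GE (A++B) (|A|+1)` raises the bound by `top (|A|+1) (A++B)`, which is
 `< wt a0 + top |A| (A++B) = wt a0 + wd (cl A)`.
`GD_Lf`: `Lf (a + cl A + cr B) (DD A (EE B c)) (GD (A ++ B) (|A|-1) C)` for `A ≠ []`; more generally for
 all `A` (`A = []`: `GD B (-1) = 0`, `DD [] = 0`).  `a0::A`:
 `GD (a0::A++B) |A| = x_a0 GE (A++B) |A| - E y_a0 (GD (A++B) |A|) - E x_a0 (GD (A++B) (|A|-1))`: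
 the first is the lift of `EE A (EE B c)` (`GE_Lf`, `Lf_X`), the third the lift of
 `- E x_a0 (DD A (EE B c))`, the second is `Low` by `GD_low` (bound `top (|A|+1) (A++B)`
 as before); `DD (inl a0 :: A) g = EE A g - E (inl a0) (DD A g)`.
`B ≠ []` is assumed: `top (|A|+1) (A ++ b::B') = wd (cl A) + wt b` and `wt b < wt a0`.
(`EE (A.map inl) (EE (B.map inr) c)`; the degree `a + cl A + cr B`, `wd (cr B) = 0`.)
-/

namespace Pool.Agent.H52.BE

open Finset

variable {V : Type*} [Fintype V] [LinearOrder V] {K : Type*} [Field K] {G : SimpleGraph V}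

/-- `C` has leading component `c` in degree `a` -/
def Lf (a : V ⊕ V → ℕ) (c : Finset (V ⊕ V) → K) (C : PC V K) : Prop :=
  comp a C = c ∧ ∀ a', a' ≠ a → wd a ≤ wd a' → comp a' C = 0

/-- all components of weight `≥ w` vanish -/
def Low (w : ℕ) (C : PC V K) : Prop := ∀ a, w ≤ wd a → comp a C = 0

private theorem Lf_aux_dl (v : V ⊕ V) (a : V ⊕ V → ℕ) (h : a v ≠ 0) :
    ∃ b : V ⊕ V → ℕ, a = b + dl v := by
  refine ⟨fun w => a w - dl v w, ?_⟩
  funext w
  simp only [Pi.add_apply, dl]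
  by_cases hw : w = v
  · subst hw
    simp only [if_true]
    omega
  · simp [hw]

theorem Lf_add {a : V ⊕ V → ℕ} {c d : Finset (V ⊕ V) → K} {C D : PC V K} (h : Lf a c C)
    (h' : Lf a d D) : Lf a (c + d) (C + D) := by
  refine ⟨by rw [comp_add, h.1, h'.1], fun a' h1 h2 => ?_⟩
  rw [comp_add, h.2 a' h1 h2, h'.2 a' h1 h2, add_zero]

theorem Lf_sub {a : V ⊕ V → ℕ} {c d : Finset (V ⊕ V) → K} {C D : PC V K} (h : Lf a c C)
    (h' : Lf a d D) : Lf a (c - d) (C - D) := by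
  refine ⟨by rw [comp_sub, h.1, h'.1], fun a' h1 h2 => ?_⟩
  rw [comp_sub, h.2 a' h1 h2, h'.2 a' h1 h2, sub_zero]

theorem Lf_zsmul {a : V ⊕ V → ℕ} {c : Finset (V ⊕ V) → K} {C : PC V K} (n : ℤ) (h : Lf a c C) :
    Lf a (n • c) (n • C) := by
  refine ⟨by rw [comp_zsmul, h.1], fun a' h1 h2 => ?_⟩
  rw [comp_zsmul, h.2 a' h1 h2, smul_zero]

theorem Lf_Csmul {a : V ⊕ V → ℕ} {c : Finset (V ⊕ V) → K} {C : PC V K} (r : K)
    (h : Lf a c C) : Lf a (r • c) (MvPolynomial.C (σ := V ⊕ V) r • C) := by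
  refine ⟨by rw [comp_Csmul, h.1], fun a' h1 h2 => ?_⟩
  rw [comp_Csmul, h.2 a' h1 h2, smul_zero]

theorem Lf_low {a : V ⊕ V → ℕ} {c : Finset (V ⊕ V) → K} {C D : PC V K} (h : Lf a c C)
    (h' : Low (wd a) D) : Lf a c (C + D) := by
  refine ⟨by rw [comp_add, h.1, h' a le_rfl, add_zero], fun a' h1 h2 => ?_⟩
  rw [comp_add, h.2 a' h1 h2, h' a' h2, add_zero]

theorem Lf_Low {a : V ⊕ V → ℕ} {c : Finset (V ⊕ V) → K} {C : PC V K} (h : Lf a c C) :
    Low (wd a + 1) C := by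
  intro a' h1
  refine h.2 a' ?_ (by omega)
  rintro rfl
  omega

theorem Lf_kX {a : V ⊕ V → ℕ} {c : Finset (V ⊕ V) → K} {C : PC V K} (h : Lf a c C) :
    Lf a (dd K c) (kX C) := by
  refine ⟨by rw [comp_kd, h.1], fun a' h1 h2 => ?_⟩
  rw [comp_kd, h.2 a' h1 h2, map_zero]

theorem Lf_E {a : V ⊕ V → ℕ} {c : Finset (V ⊕ V) → K} {C : PC V K} (v : V ⊕ V)
    (h : Lf a c C) : Lf (a + dl v) (E1 K v c) (EX v C) := by
  refine ⟨by rw [comp_E, h.1], fun a' h1 h2 => ?_⟩
  by_cases hv : a' v = 0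
  · exact comp_E_zero a' v hv C
  · obtain ⟨b, rfl⟩ := Lf_aux_dl v a' hv
    rw [wd_add, wd_add] at h2
    rw [comp_E, h.2 b (fun hb => h1 (by rw [hb])) (by omega), map_zero]

theorem Lf_X {a : V ⊕ V → ℕ} {c : Finset (V ⊕ V) → K} {C : PC V K} (v : V ⊕ V)
    (h : Lf a c C) :
    Lf (a + dl v) c ((MvPolynomial.X v : MvPolynomial (V ⊕ V) K) • C) := by
  refine ⟨by rw [comp_X, h.1], fun a' h1 h2 => ?_⟩
  by_cases hv : a' v = 0
  · exact comp_X_zero a' v hv C
  · obtain ⟨b, rfl⟩ := Lf_aux_dl v a' hv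
    rw [wd_add, wd_add] at h2
    rw [comp_X, h.2 b (fun hb => h1 (by rw [hb])) (by omega)]

theorem Low_add {w : ℕ} {C D : PC V K} (h : Low w C) (h' : Low w D) : Low w (C + D) := by
  intro a ha
  rw [comp_add, h a ha, h' a ha, add_zero]

theorem Low_sub {w : ℕ} {C D : PC V K} (h : Low w C) (h' : Low w D) : Low w (C - D) := by
  intro a ha
  rw [comp_sub, h a ha, h' a ha, sub_zero]

theorem Low_neg {w : ℕ} {C : PC V K} (h : Low w C) : Low w (-C) := by
  intro a ha
  rw [comp_neg, h a ha, neg_zero]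

theorem Low_zero (w : ℕ) : Low w (0 : PC V K) := by
  intro a _
  exact comp_zero a

theorem Low_mono {w w' : ℕ} (hw : w ≤ w') {C : PC V K} (h : Low w C) : Low w' C := by
  intro a ha
  exact h a (hw.trans ha)

theorem Low_E {w : ℕ} {C : PC V K} (v : V ⊕ V) (h : Low w C) : Low (w + wt v) (EX v C) := by
  intro a ha
  by_cases hv : a v = 0
  · exact comp_E_zero a v hv C
  · obtain ⟨b, rfl⟩ := Lf_aux_dl v a hv
    rw [wd_add, wd_dl] at ha
    rw [comp_E, h b (by omega), map_zero]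

theorem Low_X {w : ℕ} {C : PC V K} (v : V ⊕ V) (h : Low w C) :
    Low (w + wt v) ((MvPolynomial.X v : MvPolynomial (V ⊕ V) K) • C) := by
  intro a ha
  by_cases hv : a v = 0
  · exact comp_X_zero a v hv C
  · obtain ⟨b, rfl⟩ := Lf_aux_dl v a hv
    rw [wd_add, wd_dl] at ha
    rw [comp_X, h b (by omega)]

theorem Low_kX {w : ℕ} {C : PC V K} (h : Low w C) : Low w (kX C) := by
  intro a ha
  rw [comp_kd, h a ha, map_zero]

/-- every chain is `Low w` for some `w` -/
theorem exists_Low (C : PC V K) : ∃ w, Low w C := by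
  obtain ⟨w, hw⟩ := ((comp_finite C).image wd).bddAbove
  refine ⟨w + 1, fun a ha => ?_⟩
  by_contra hne
  have h1 := hw (Set.mem_image_of_mem wd (show a ∈ {a | comp a C ≠ 0} from hne))
  omega

end Pool.Agent.H52.BE
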