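import Pool.Agent.H52.BE.Lf
import Pool.Agent.H52.BE.IniC

/-!
# Project BE: lifts of chains and leading components

`liftCh`: `c ∈ Lv K (GH G) 0 a k` has a lift `C ∈ InJ k`, `Lf a c C`: for every `τ` with `c τ ≠ 0`
`lead_exists` gives `g_τ ∈ J^k` with leading exponent `a - ind τ`; `C τ = C (c τ) * g_τ`.  The component
`comp a' C τ` is `c τ * cf (a' - ind τ) g_τ` (if `ind τ ≤ a'`), `wd (a' - ind τ) = wd a' - wd (ind τ)`.
`comp_lead`: `C ∈ InJ k`, `Low (w+1) C`, `wd a = w` implies `comp a C ∈ Lv K (GH G) 0 a k`: for `τ` with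
`ind τ ≤ a` and `comp a C τ ≠ 0` apply `ini` to `C τ` with the weight `wd (a - ind τ)`: an exponent `b` of
`C τ` is the component of degree `b + ind τ`, so `wd b + wd (ind τ) ≤ w`.
-/

namespace Pool.Agent.H52.BE

open Finset

variable {V : Type*} [Fintype V] [LinearOrder V] {K : Type*} [Field K] {G : SimpleGraph V}

theorem liftCh (a : V ⊕ V → ℕ) (k : ℕ) (c : Finset (V ⊕ V) → K)
    (hc : c ∈ Lv K (GH G) 0 a k) : ∃ C : PC V K, C ∈ InJ K G k ∧ Lf a c C := by
  have key : ∀ τ : Finset (V ⊕ V), ∃ g ∈ (JG K G) ^ k, cf (a - ind τ) g = c τ ∧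
      (c τ = 0 → g = 0) ∧
      ∀ b', b' ≠ a - ind τ → wd (a - ind τ) ≤ wd b' → cf b' g = 0 := by
    intro τ
    by_cases h : c τ = 0
    · refine ⟨0, Ideal.zero_mem _, ?_, fun _ => rfl, ?_⟩
      · rw [h]; simp [cf]
      · intro b' _ _; simp [cf]
    · obtain ⟨h1, h2⟩ := hc τ h
      rw [add_zero] at h2
      obtain ⟨g, hg, hg1, hg2⟩ := lead_exists (K := K) k (a - ind τ) h2
      refine ⟨MvPolynomial.C (c τ) * g, Ideal.mul_mem_left _ _ hg, ?_, fun h0 => absurd h0 h, ?_⟩
      · unfold cf at hg1 ⊢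
        rw [MvPolynomial.coeff_C_mul, hg1, mul_one]
      · intro b' hb' hw
        have := hg2 b' hb' hw
        unfold cf at this ⊢
        rw [MvPolynomial.coeff_C_mul, this, mul_zero]
  choose g hg1 hg2 hg3 hg4 using key
  refine ⟨g, hg1, ?_, ?_⟩
  · funext τ
    by_cases h : ind τ ≤ a
    · simp only [comp, h, if_true]
      exact hg2 τ
    · rw [comp_support a g τ h]
      by_contra hne
      exact h (hc τ (Ne.symm hne)).1
  · intro a' ha' hw
    funext τ
    by_cases h : ind τ ≤ a'
    · simp only [comp, h, if_true]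
      by_cases h0 : c τ = 0
      · rw [hg3 τ h0]; simp [cf]
      · have h1 := (hc τ h0).1
        apply hg4 τ
        · intro heq
          apply ha'
          have e1 : a' - ind τ + ind τ = a' := tsub_add_cancel_of_le h
          have e2 : a - ind τ + ind τ = a := tsub_add_cancel_of_le h1
          rw [← e1, ← e2, heq]
        · have e1 : a' - ind τ + ind τ = a' := tsub_add_cancel_of_le h
          have e2 : a - ind τ + ind τ = a := tsub_add_cancel_of_le h1
          have e3 := wd_add (a' - ind τ) (ind τ)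
          have e4 := wd_add (a - ind τ) (ind τ)
          rw [e1] at e3
          rw [e2] at e4
          omega
    · rw [comp_support a' g τ h]; rfl

theorem comp_lead (hC : CC G) (k w : ℕ) (C : PC V K) (h : C ∈ InJ K G k) (hl : Low (w + 1) C)
    (a : V ⊕ V → ℕ) (ha : wd a = w) : comp a C ∈ Lv K (GH G) 0 a k := by
  intro τ hne
  have hle : ind τ ≤ a := by
    by_contra hcon
    exact hne (comp_support a C τ hcon)
  refine ⟨hle, ?_⟩
  rw [add_zero]
  have hne' : cf (a - ind τ) (C τ) ≠ 0 := by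
    have : comp a C τ = cf (a - ind τ) (C τ) := by simp only [comp, hle, if_true]
    rwa [this] at hne
  refine ini hC k (wd (a - ind τ)) (C τ) (h τ) ?_ (a - ind τ) rfl hne'
  intro b hb
  have e2 : a - ind τ + ind τ = a := tsub_add_cancel_of_le hle
  have e4 := wd_add (a - ind τ) (ind τ)
  rw [e2] at e4
  have e5 := wd_add b (ind τ)
  have h1 : comp (b + ind τ) C = 0 := hl _ (by omega)
  have h2 : ind τ ≤ b + ind τ := le_add_of_nonneg_left (fun _ => Nat.zero_le _)
  have h3 : comp (b + ind τ) C τ = cf (b + ind τ - ind τ) (C τ) := by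
    simp only [comp, h2, if_true]
  rw [h1, add_tsub_cancel_right] at h3
  exact h3.symm

end Pool.Agent.H52.BE
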