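import Pool.Agent.H52.BE.GamL
import Pool.Agent.H52.BE.LiftA
import Pool.Agent.H52.BE.Bp

/-!
# Project BE: lifting relative cycles and cycles

`liftCh`: `c ∈ Lv K (GH G) 0 a k` has a lift `C ∈ InJ k`, `Lf a c C`: for every `τ` with `c τ ≠ 0`
`lead_exists` gives `g_τ ∈ J^k` with leading exponent `a - ind τ`; `C τ = C (c τ) * g_τ`.  The component
`comp a' C τ` is `c τ * cf (a' - ind τ) g_τ` (if `ind τ ≤ a'`), `wd (a' - ind τ) = wd a' - wd (ind τ)`.
`comp_lead`: `C ∈ InJ k`, `Low (w+1) C`, `wd a = w` implies `comp a C ∈ Lv K (GH G) 0 a k`: for `τ` with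
`ind τ ≤ a` and `comp a C τ ≠ 0` apply `ini` to `C τ` with the weight `w - wd (ind τ)`: an exponent `b` of
`C τ` is the component of degree `b + ind τ`, so `wd b + wd (ind τ) ≤ w`.
`liftG`: induction on `Gn`: there is `C` with `C ∈ InJ k`, `Lf a c C`, `kX C ∈ InJ (k+1)`.
 `zero`; `unit`: `C τ = C (c τ)`, `Lf 0 c C` (`c` is supported on the empty set), `kX C = 0`, and `InJ 0`
 is everything; `add`; `smul` (`Lf_Csmul`); `bd`: `liftCh w`, `C = kX B`, `kX C = 0`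
 (`kd_kd`), `Lf_kX`; `lev`: `liftCh` with `k+1`, `InJ_succ`, `InJ_kX`;
 `de`: `C = GD (A ++ B) (|A| - 1) C'`; `GD_Lf`, `InJ_GD`, and
 `kX C = GF (A++B) .. C' - (-1)^.. • GD .. (kX C')`, `GF_InJ`.  (`A ++ B` is pairwise adjacent:
 `i ∈ A`, `j ∈ B` adjacent; `i < i' ∈ A`, `j ∈ B`: `i < i' < j`, `CC` gives `i i'` adjacent; similarly in
 `B`; increasing as `H i j` includes `i < j`.)
 `dd'`: `C = s • GF (A++B) (|A|-1) C'` with a sign `s`: `Lf a (dd (DD A (EE B c')) + (-1)^(|A|+|B|) •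
 DD A (EE B (dd c'))) (GF ..)` and, by `dd_DD`, `dd_EE`:
 `dd (DD A (EE B c')) = - (-1)^|A| • DD A (DD B c' + (-1)^|B| • EE B (dd c'))`, so the leading part of
 `GF` is `- (-1)^|A| • DD A (DD B c')`.  `GF C' ∈ InJ (k+1)`; `kX (GF C') =
 (-1)^n • kX (GD (kX C')) = (-1)^n • GF (kX C')` (as `kX kX = 0`), in `InJ (k+2)`.
`liftZ`: `liftG` and `Bp`.
`liftCyc`: `c ∈ Lv 0 a k`, `dd c = 0`: there is `C ∈ InJ k`, `Lf a c C`, `kX C = 0`.  `k = 0`:
 `single a c` (`kX (single a c) = single a (dd c)`, or by `comp_ext`).  `k+1`: `a ≠ 0` or `c = 0`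
 (`Mt_pos`); `1 ≤ a v`: `b = E v c ∈ Lv 0 a k` (`apex_any`), `dd b = c`, so `b ∈ Zv 0 a k`; lift `b` to
 `B` by `liftZ`, `C = kX B`.
-/

namespace Pool.Agent.H52.BE

open Finset

variable {V : Type*} [Fintype V] [LinearOrder V] {K : Type*} [Field K] {G : SimpleGraph V}

omit [Fintype V] in
theorem Lift_pw_adj (hC : CC G) (A B : List V) (hA : A ≠ []) (hB : B ≠ [])
    (hAs : A.Pairwise (· < ·)) (hBs : B.Pairwise (· < ·))
    (hAB : ∀ i ∈ A, ∀ j ∈ B, GH G i j) : (A ++ B).Pairwise G.Adj := by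
  rw [List.pairwise_append]
  refine ⟨?_, ?_, fun i hi j hj => (hAB i hi j hj).2⟩
  · obtain ⟨j, hj⟩ := List.exists_mem_of_ne_nil B hB
    refine List.Pairwise.imp_of_mem ?_ hAs
    intro i i' hi hi' hlt
    exact (hC i i' j hlt (hAB i' hi' j hj).1 (hAB i hi j hj).2).1
  · obtain ⟨i, hi⟩ := List.exists_mem_of_ne_nil A hA
    refine List.Pairwise.imp_of_mem ?_ hBs
    intro j j' hj hj' hlt
    exact (hC i j j' (hAB i hi j hj).1 hlt (hAB i hi j' hj').2).2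

omit [Fintype V] in
theorem Lift_pw_lt (A B : List V) (hAs : A.Pairwise (· < ·)) (hBs : B.Pairwise (· < ·))
    (hAB : ∀ i ∈ A, ∀ j ∈ B, GH G i j) : (A ++ B).Pairwise (· < ·) := by
  rw [List.pairwise_append]
  exact ⟨hAs, hBs, fun i hi j hj => (hAB i hi j hj).1⟩

theorem Lift_kX_kX (C : PC V K) : kX (kX C) = 0 := kd_kd _ _

theorem Lift_single (a : V ⊕ V → ℕ) (c : Finset (V ⊕ V) → K)
    (hc : ∀ τ, c τ ≠ 0 → ind τ ≤ a) (hd : dd K c = 0) :
    Lf a c (single a c) ∧ kX (single a c : PC V K) = 0 := by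
  refine ⟨⟨comp_single a c hc, fun a' h _ => comp_single_ne a a' h c⟩, ?_⟩
  apply comp_ext
  intro a'
  rw [comp_kd]
  by_cases h : a' = a
  · subst h
    rw [comp_single _ _ hc, hd]
  · rw [comp_single_ne a a' h c, map_zero]

theorem Lift_mem0 (C : PC V K) : C ∈ InJ K G 0 := by
  intro τ
  rw [pow_zero, Ideal.one_eq_top]
  exact Submodule.mem_top

theorem Lift_dd_unit (c : Finset (V ⊕ V) → K) (hc : c ∈ Lv K (GH G) 0 0 0) : dd K c = 0 := by
  funext τ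
  unfold dd
  rw [kd_apply]
  refine Finset.sum_eq_zero fun v _ => ?_
  by_cases hv : v ∈ τ
  · rw [if_pos hv]
  · rw [if_neg hv]
    have h0 : c (insert v τ) = 0 := by
      by_contra hne
      have h1 := (hc _ hne).1 v
      simp [ind] at h1
    rw [h0, smul_zero, smul_zero]

theorem Lift_kX_GD (L : List V) (m : ℤ) (C : PC V K) :
    kX (GD K L m C) = GF K L m C - ((-1 : ℤ) ^ L.length) • GD K L m (kX C) := by
  unfold GF
  abel

theorem Lift_kX_GF (L : List V) (m : ℤ) (C : PC V K) :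
    kX (GF K L m C) = ((-1 : ℤ) ^ L.length) • GF K L m (kX C) := by
  unfold GF
  rw [map_add, Lift_kX_kX, map_zsmul, Lift_kX_kX, map_zero, smul_zero, add_zero, zero_add]

theorem Lift_sign (n : ℕ) : (-((-1 : ℤ) ^ n)) * (-((-1 : ℤ) ^ n)) = 1 := by
  rw [neg_mul_neg, ← mul_pow]
  norm_num

theorem Lift_lead (A B : List V) (g : Finset (V ⊕ V) → K) :
    dd K (DD K (A.map Sum.inl) (EE K (B.map Sum.inr) g))
      + ((-1 : ℤ) ^ (A ++ B).length) • DD K (A.map Sum.inl) (EE K (B.map Sum.inr) (dd K g))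
      = (-((-1 : ℤ) ^ A.length)) • DD K (A.map Sum.inl) (DD K (B.map Sum.inr) g) := by
  rw [dd_DD, dd_EE, List.length_map, List.length_map, List.length_append, map_add, map_zsmul,
    pow_add, smul_add, smul_smul, neg_smul]
  abel

theorem liftG (hC : CC G) (a : V ⊕ V → ℕ) (k : ℕ) (c : Finset (V ⊕ V) → K)
    (hc : Gn K (GH G) a k c) :
    ∃ C : PC V K, C ∈ InJ K G k ∧ Lf a c C ∧ kX C ∈ InJ K G (k + 1) := by
  induction hc with
  | zero a k =>
    refine ⟨0, Submodule.zero_mem _, ⟨comp_zero a, fun a' _ _ => comp_zero a'⟩, ?_⟩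
    rw [map_zero]
    exact Submodule.zero_mem _
  | unit c hc =>
    have h := Lift_single (0 : V ⊕ V → ℕ) c (fun τ hτ => (hc τ hτ).1) (Lift_dd_unit c hc)
    refine ⟨single 0 c, Lift_mem0 _, h.1, ?_⟩
    rw [h.2]
    exact Submodule.zero_mem _
  | add a k c d _ _ ihc ihd =>
    obtain ⟨C, h1, h2, h3⟩ := ihc
    obtain ⟨D, h1', h2', h3'⟩ := ihd
    refine ⟨C + D, Submodule.add_mem _ h1 h1', Lf_add h2 h2', ?_⟩
    rw [map_add]
    exact Submodule.add_mem _ h3 h3'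
  | smul a k r c _ ih =>
    obtain ⟨C, h1, h2, h3⟩ := ih
    refine ⟨MvPolynomial.C (σ := V ⊕ V) r • C, Submodule.smul_mem _ _ h1, Lf_Csmul r h2, ?_⟩
    rw [map_smul]
    exact Submodule.smul_mem _ _ h3
  | bd a k w hw =>
    obtain ⟨B, hB, hL⟩ := liftCh a k w hw
    refine ⟨kX B, InJ_kX hB, Lf_kX hL, ?_⟩
    rw [Lift_kX_kX]
    exact Submodule.zero_mem _
  | lev a k l hl =>
    obtain ⟨B, hB, hL⟩ := liftCh a (k + 1) l hl
    exact ⟨B, InJ_succ k hB, hL, InJ_kX hB⟩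
  | de A B hA hB hAs hBs hAB b k g _ a ha ih =>
    obtain ⟨C', h1, h2, h3⟩ := ih
    subst ha
    refine ⟨GD K (A ++ B) ((A.length : ℤ) - 1) C', InJ_GD _ _ h1,
      GD_Lf A B hB (Lift_pw_lt A B hAs hBs hAB) h2, ?_⟩
    rw [Lift_kX_GD]
    exact Submodule.sub_mem _ (GF_InJ _ (Lift_pw_adj hC A B hA hB hAs hBs hAB) _ h1)
      (InJ_zsmul _ (InJ_GD _ _ h3))
  | dd' A B hA hB hAs hBs hAB b k g _ a ha ih =>
    obtain ⟨C', h1, h2, h3⟩ := ih
    subst ha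
    have hadj := Lift_pw_adj hC A B hA hB hAs hBs hAB
    have hlt := Lift_pw_lt A B hAs hBs hAB
    refine ⟨(-((-1 : ℤ) ^ A.length)) • GF K (A ++ B) ((A.length : ℤ) - 1) C',
      InJ_zsmul _ (GF_InJ _ hadj _ h1), ?_, ?_⟩
    · have h4 := Lf_kX (GD_Lf A B hB hlt h2)
      have h5 := Lf_zsmul ((-1 : ℤ) ^ (A ++ B).length) (GD_Lf A B hB hlt (Lf_kX h2))
      have h6 := Lf_zsmul (-((-1 : ℤ) ^ A.length)) (Lf_add h4 h5)
      rw [Lift_lead, smul_smul, Lift_sign, one_smul] at h6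
      exact h6
    · rw [map_zsmul, Lift_kX_GF]
      exact InJ_zsmul _ (InJ_zsmul _ (GF_InJ _ hadj _ h3))

theorem liftZ (hC : CC G) (a : V ⊕ V → ℕ) (k : ℕ) (c : Finset (V ⊕ V) → K)
    (hc : c ∈ Zv K (GH G) 0 a k) :
    ∃ C : PC V K, C ∈ InJ K G k ∧ Lf a c C ∧ kX C ∈ InJ K G (k + 1) :=
  liftG hC a k c (Bp (SO_GH hC) _ a rfl k c hc)

theorem liftCyc (hC : CC G) (a : V ⊕ V → ℕ) (k : ℕ) (c : Finset (V ⊕ V) → K)
    (hc : c ∈ Lv K (GH G) 0 a k) (hd : dd K c = 0) :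
    ∃ C : PC V K, C ∈ InJ K G k ∧ Lf a c C ∧ kX C = 0 := by
  cases k with
  | zero =>
    have h := Lift_single a c (fun τ hτ => (hc τ hτ).1) hd
    exact ⟨single a c, Lift_mem0 _, h.1, h.2⟩
  | succ k =>
    by_cases h0 : c = 0
    · subst h0
      exact ⟨0, Submodule.zero_mem _, ⟨comp_zero a, fun a' _ _ => comp_zero a'⟩, map_zero _⟩
    · obtain ⟨τ, hτ⟩ := Function.ne_iff.1 h0
      obtain ⟨i, j, _, h1, _⟩ := Mt_pos (hc τ hτ).2
      have hv : 1 ≤ a (Sum.inl i) := by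
        refine h1.trans ?_
        simp
      have hb : E1 K (Sum.inl i) c ∈ Lv K (GH G) 0 a k := apex_any hv hc
      have hdb : dd K (E1 K (Sum.inl i) c) = c := by
        rw [dd_E, hd, map_zero, sub_zero]
      have hz : E1 K (Sum.inl i) c ∈ Zv K (GH G) 0 a k := by
        rw [mem_Zv, hdb]
        exact ⟨hb, hc⟩
      obtain ⟨B, _, h3, h4⟩ := liftZ hC a k _ hz
      refine ⟨kX B, h4, ?_, Lift_kX_kX B⟩
      have h5 := Lf_kX h3
      rw [hdb] at h5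
      exact h5

end Pool.Agent.H52.BE
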