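import Pool.Agent.H52.BE.Dep2
import Pool.Agent.H52.BE.Gam

/-!
# Project BE: Koszul homology of `J^k` and of `S / J^k`

`S = MvPolynomial (V ⊕ V) K`, `z = X`.
`VanJ G k p`: every cycle of degree `p` with coefficients in `J^k` is the boundary of a chain with
coefficients in `J^k`.
`VanJ_of`: let `C` be such a cycle, exponent `k+1 ≥ 1`, so the constant coefficient of `C ∅` is `0`
(`J^(k+1) ≤ J ≤` ideal of polynomials without constant term).  `exact_poly`: `C = kX B`, we may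
replace `B` by `prj (p+1) B` (`kd_prj`).  The image of `B` in `S ⧸ J^(k+1)` is a cycle of degree `p+1`, so it is
`kd` of some chain, which lifts to `D` (`Ideal.Quotient.mk_surjective`, `kd_map` with the linear map
`Submodule.mkQ` / `Ideal.Quotient.mkₐ`): `B - kX D ∈ InJ (k+1)` and `kX (B - kX D) = C`.
`Van_of`: let `c` be a cycle of degree `p+1` with coefficients in `S ⧸ J^k`; lift it to `B` of degree
`p+1`; `kX B ∈ InJ k` is a cycle of degree `p`; `kX B = kX D`, `D ∈ InJ k`, replace `D` by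
`prj (p+1) D`; `kX (B - D) = 0`, and `(B - D) ∅ = 0`, so `B - D = kX F` (`exact_poly`), and `c` is
`kd` of the image of `F`.
`not_Van_zero`: `c ∅ = 1`, otherwise `0`: a cycle of degree 0; `c = kd d` gives
`1 = ∑ ± X v * d {v}` in `S ⧸ J^(k+1)`, so `1 ∈ (X) + J^(k+1) ≤ (X)`, contradiction
(constant coefficient).
-/

namespace Pool.Agent.H52.BE

open Finset

variable {V : Type*} [Fintype V] [DecidableEq V] {K : Type*} [Field K]

/-- vanishing of the Koszul homology of `J^k` in degree `p` -/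
def VanJ (K : Type*) [Field K] (G : SimpleGraph V) (k p : ℕ) : Prop :=
  ∀ C : PC V K, C ∈ InJ K G k → (∀ τ, τ.card ≠ p → C τ = 0) → kX C = 0 →
    ∃ D : PC V K, D ∈ InJ K G k ∧ kX D = C

/-- the variables -/
noncomputable abbrev zX (V : Type*) (K : Type*) [Field K] :
    V ⊕ V → MvPolynomial (V ⊕ V) K := fun v => MvPolynomial.X v

omit [DecidableEq V] in
theorem Tran_cf_zero (p : MvPolynomial (V ⊕ V) K) :
    cf 0 p = MvPolynomial.constantCoeff p := by
  rw [MvPolynomial.constantCoeff_eq, cf]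
  congr 1
  ext v
  rfl

omit [Fintype V] [DecidableEq V] in
theorem Tran_JG_const (G : SimpleGraph V) (k : ℕ) {p : MvPolynomial (V ⊕ V) K}
    (hp : p ∈ (JG K G) ^ (k + 1)) : MvPolynomial.constantCoeff p = 0 := by
  have h1 : p ∈ JG K G := Ideal.pow_le_self (Nat.succ_ne_zero k) hp
  have h2 : JG K G ≤ RingHom.ker (MvPolynomial.constantCoeff (σ := V ⊕ V) (R := K)) := by
    unfold JG
    rw [Ideal.span_le]
    rintro q ⟨i, j, _, rfl⟩
    simp [RingHom.mem_ker, fp]
  exact h2 h1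

/-- the constant coefficient on the quotient -/
noncomputable def Tran_cc (K : Type*) [Field K] (G : SimpleGraph V) (k : ℕ) :
    (MvPolynomial (V ⊕ V) K ⧸ (JG K G) ^ (k + 1)) →+* K :=
  Ideal.Quotient.lift _ (MvPolynomial.constantCoeff (σ := V ⊕ V) (R := K))
    (fun _ ha => Tran_JG_const G k ha)

omit [Fintype V] [DecidableEq V] in
theorem Tran_cc_smul (G : SimpleGraph V) (k : ℕ) (r : MvPolynomial (V ⊕ V) K)
    (m : MvPolynomial (V ⊕ V) K ⧸ (JG K G) ^ (k + 1)) :
    Tran_cc K G k (r • m) = MvPolynomial.constantCoeff r * Tran_cc K G k m := by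
  obtain ⟨x, rfl⟩ := Ideal.Quotient.mk_surjective m
  show Tran_cc K G k (Ideal.Quotient.mk _ (r * x)) =
    MvPolynomial.constantCoeff r * Tran_cc K G k (Ideal.Quotient.mk _ x)
  rw [map_mul, map_mul]
  rfl

/-- the quotient map as a linear map -/
noncomputable abbrev Tran_q (K : Type*) [Field K] (G : SimpleGraph V) (k : ℕ) :
    MvPolynomial (V ⊕ V) K →ₗ[MvPolynomial (V ⊕ V) K] (MvPolynomial (V ⊕ V) K ⧸ (JG K G) ^ k) :=
  Algebra.linearMap (MvPolynomial (V ⊕ V) K) (MvPolynomial (V ⊕ V) K ⧸ (JG K G) ^ k)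

omit [Fintype V] [DecidableEq V] in
theorem Tran_q_zero (G : SimpleGraph V) (k : ℕ) (r : MvPolynomial (V ⊕ V) K) :
    Tran_q K G k r = 0 ↔ r ∈ (JG K G) ^ k :=
  Ideal.Quotient.eq_zero_iff_mem

omit [Fintype V] [DecidableEq V] in
theorem Tran_q_surj (G : SimpleGraph V) (k : ℕ)
    (m : MvPolynomial (V ⊕ V) K ⧸ (JG K G) ^ k) : ∃ r, Tran_q K G k r = m :=
  Ideal.Quotient.mk_surjective m

theorem Tran_q_kX (G : SimpleGraph V) (k : ℕ) (C : PC V K) (τ : Finset (V ⊕ V)) :
    kd (zX V K) (fun τ => Tran_q K G k (C τ)) τ = Tran_q K G k (kX C τ) := by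
  rw [kd_map]
  rfl

omit [Fintype V] [DecidableEq V] in
theorem Tran_prj (p : ℕ) (C : PC V K) (h : ∀ τ : Finset (V ⊕ V), τ.card ≠ p → C τ = 0) :
    prj p C = C := by
  funext τ
  unfold prj
  by_cases h1 : τ.card = p
  · rw [if_pos h1]
  · rw [if_neg h1, h τ h1]

theorem Tran_kX_prj (p : ℕ) (C : PC V K) : kX (prj (p + 1) C) = prj p (kX C) :=
  kd_prj (R := MvPolynomial (V ⊕ V) K) _ p C

theorem Tran_kX_kX (C : PC V K) : kX (kX C) = 0 :=
  kd_kd (R := MvPolynomial (V ⊕ V) K) _ C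

theorem VanJ_of (G : SimpleGraph V) (k p : ℕ)
    (h : Van (zX V K) (MvPolynomial (V ⊕ V) K ⧸ (JG K G) ^ (k + 1)) (p + 1)) :
    VanJ K G (k + 1) p := by
  intro C hC hCp hC0
  obtain ⟨B0, hB0⟩ := exact_poly C hC0 (by rw [Tran_cf_zero]; exact Tran_JG_const G k (hC ∅))
  have hB : kX (prj (p + 1) B0) = C := by
    rw [Tran_kX_prj, hB0, Tran_prj p C hCp]
  obtain ⟨d, hd⟩ := h (fun τ => Tran_q K G (k + 1) (prj (p + 1) B0 τ))
    (fun τ hτ => by
      show Tran_q K G (k + 1) (prj (p + 1) B0 τ) = 0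
      unfold prj
      rw [if_neg hτ, map_zero])
    (by
      funext τ
      rw [Tran_q_kX, hB]
      exact (Tran_q_zero G (k + 1) _).2 (hC τ))
  choose D hD using fun τ => Tran_q_surj G (k + 1) (d τ)
  have hd' : d = fun τ => Tran_q K G (k + 1) (D τ) := by
    funext τ
    exact (hD τ).symm
  refine ⟨prj (p + 1) B0 - kX D, fun τ => ?_, ?_⟩
  · show (prj (p + 1) B0 - kX D) τ ∈ (JG K G) ^ (k + 1)
    rw [← Tran_q_zero, Pi.sub_apply, map_sub, ← Tran_q_kX, ← hd', hd, sub_self]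
  · rw [map_sub, hB, Tran_kX_kX, sub_zero]

theorem Van_of (G : SimpleGraph V) (k p : ℕ) (h : VanJ K G k p) :
    Van (zX V K) (MvPolynomial (V ⊕ V) K ⧸ (JG K G) ^ k) (p + 1) := by
  intro c hcp hc0
  choose B0 hB0 using fun τ => Tran_q_surj G k (c τ)
  have hB : ∀ τ, Tran_q K G k (prj (p + 1) B0 τ) = c τ := by
    intro τ
    unfold prj
    by_cases h1 : τ.card = p + 1
    · rw [if_pos h1, hB0]
    · rw [if_neg h1, map_zero, hcp τ h1]
  have hc' : c = fun τ => Tran_q K G k (prj (p + 1) B0 τ) := by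
    funext τ
    exact (hB τ).symm
  have hkB : ∀ τ, kX (prj (p + 1) B0) τ ∈ (JG K G) ^ k := by
    intro τ
    rw [← Tran_q_zero, ← Tran_q_kX, ← hc', hc0]
    rfl
  have hdeg : ∀ τ : Finset (V ⊕ V), τ.card ≠ p → kX (prj (p + 1) B0) τ = 0 := by
    intro τ hτ
    rw [Tran_kX_prj]
    unfold prj
    rw [if_neg hτ]
  obtain ⟨D, hDJ, hD⟩ := h (kX (prj (p + 1) B0)) hkB hdeg (Tran_kX_kX _)
  have hD' : kX (prj (p + 1) D) = kX (prj (p + 1) B0) := by
    rw [Tran_kX_prj p D, hD, Tran_prj p _ hdeg]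
  obtain ⟨F, hF⟩ := exact_poly (prj (p + 1) B0 - prj (p + 1) D)
    (by rw [map_sub, hD', sub_self])
    (by
      have h1 : (prj (p + 1) B0 - prj (p + 1) D) ∅ = (0 : MvPolynomial (V ⊕ V) K) := by
        simp [prj]
      rw [h1, Tran_cf_zero, map_zero])
  refine ⟨fun τ => Tran_q K G k (F τ), ?_⟩
  funext τ
  rw [Tran_q_kX, hF, Pi.sub_apply, map_sub, hB]
  have h2 : prj (p + 1) D τ ∈ (JG K G) ^ k := by
    unfold prj
    by_cases h1 : τ.card = p + 1
    · rw [if_pos h1]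
      exact hDJ τ
    · rw [if_neg h1]
      exact Ideal.zero_mem _
  rw [(Tran_q_zero G k _).2 h2, sub_zero]

theorem not_Van_zero (G : SimpleGraph V) (k : ℕ) :
    ¬ Van (zX V K) (MvPolynomial (V ⊕ V) K ⧸ (JG K G) ^ (k + 1)) 0 := by
  intro h
  obtain ⟨d, hd⟩ := h (fun τ => if τ = ∅ then 1 else 0)
    (fun τ hτ => by
      show (if τ = ∅ then (1 : MvPolynomial (V ⊕ V) K ⧸ (JG K G) ^ (k + 1)) else 0) = 0
      rw [if_neg]
      rintro rfl
      exact hτ rfl)
    (by
      funext τ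
      rw [kd_apply]
      apply Finset.sum_eq_zero
      intro v _
      by_cases hv : v ∈ τ
      · rw [if_pos hv]
      · rw [if_neg hv, if_neg (Finset.insert_ne_empty v τ), smul_zero, smul_zero])
  have h1 := congrArg (Tran_cc K G k) (congrFun hd ∅)
  rw [kd_apply, map_sum] at h1
  rw [Finset.sum_eq_zero] at h1
  · rw [if_pos rfl, map_one] at h1
    exact zero_ne_one h1
  · intro v _
    rw [if_neg (Finset.notMem_empty v), map_zsmul, Tran_cc_smul]
    simp

/-- `𝔪 M ≠ M` for `M = S ⧸ J^(k+1)` -/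
theorem smul_top_ne (G : SimpleGraph V) (k : ℕ) :
    (Ideal.span (Set.range (zX V K))) •
      (⊤ : Submodule (MvPolynomial (V ⊕ V) K)
        (MvPolynomial (V ⊕ V) K ⧸ (JG K G) ^ (k + 1))) ≠ ⊤ := by
  intro h
  have h0 : ∀ r ∈ Ideal.span (Set.range (zX V K)), MvPolynomial.constantCoeff r = 0 := by
    intro r hr
    have h2 : Ideal.span (Set.range (zX V K)) ≤
        RingHom.ker (MvPolynomial.constantCoeff (σ := V ⊕ V) (R := K)) := by
      rw [Ideal.span_le]
      rintro q ⟨v, rfl⟩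
      simp [RingHom.mem_ker]
    exact h2 hr
  have h1 : ∀ m ∈ (Ideal.span (Set.range (zX V K))) •
      (⊤ : Submodule (MvPolynomial (V ⊕ V) K)
        (MvPolynomial (V ⊕ V) K ⧸ (JG K G) ^ (k + 1))), Tran_cc K G k m = 0 := by
    intro m hm
    refine Submodule.smul_induction_on hm (fun r hr n _ => ?_) (fun x y hx hy => ?_)
    · rw [Tran_cc_smul, h0 r hr, zero_mul]
    · rw [map_add, hx, hy, add_zero]
  have h2 := h1 1 (by rw [h]; trivial)
  rw [map_one] at h2
  exact one_ne_zero h2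

end Pool.Agent.H52.BE
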