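import Pool.Agent.H52.BE.JInj
import Pool.Agent.H52.BE.Tran
import Pool.Agent.H52.BE.Lab

/-!
# Project BE: assembly

`depth_mono`: if `G` has no edge, `J = 0` and both quotients are the same.  Otherwise `first_edge`,
`JInj` gives `VanJ (k+1) p → VanJ k p` (for `C` of degree `p`: `f • C ∈ InJ (k+1)` is a cycle of degree
`p`, `exists_Low`).  `dep_le` with: for `r` and all `p` with `N < p + r` `Van z (S/J^(k+1)) p`;
`p = 0` is impossible (`not_Van_zero`), `p = q + 1`: `VanJ_of`, the implication, `Van_of`.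
-/

namespace Pool.Agent.H52.BE

open Finset

variable {V : Type*} [Fintype V]

theorem depth_mono [LinearOrder V] (K : Type*) [Field K] (G : SimpleGraph V) (hC : CC G) (k : ℕ)
    (hk : 1 ≤ k) :
    dep (MvPolynomial (V ⊕ V) K) (MvPolynomial (V ⊕ V) K ⧸ (JG K G) ^ (k + 1))
        (Ideal.span (Set.range (zX V K))) ≤
      dep (MvPolynomial (V ⊕ V) K) (MvPolynomial (V ⊕ V) K ⧸ (JG K G) ^ k)
        (Ideal.span (Set.range (zX V K))) := by
  by_cases hE : ∃ i j, GH G i j
  · obtain ⟨x0, y0, h0, hy, hx⟩ := first_edge hC hE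
    have hV : ∀ p, VanJ K G (k + 1) p → VanJ K G k p := by
      intro p hp C hC1 hdeg hcyc
      obtain ⟨w, hw⟩ := exists_Low C
      have hf := InJ_fp x0 y0 h0.2 hC1
      obtain ⟨W, hW1, hW2⟩ := hp (fp K x0 y0 • C) hf
        (by intro τ hτ; simp [hdeg τ hτ]) (by rw [map_smul, hcyc, smul_zero])
      exact JInj hC x0 y0 h0 hy hx k w C W hw hC1 hcyc hW1 hW2
    obtain ⟨k', rfl⟩ : ∃ k', k = k' + 1 := ⟨k - 1, by omega⟩
    refine dep_le (zX V K) _ _ ?_ (smul_top_ne G k')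
    intro r hr p hp
    cases p with
    | zero => exact absurd (hr 0 hp) (not_Van_zero G (k' + 1))
    | succ q => exact Van_of G (k' + 1) q (hV q (VanJ_of G (k' + 1) q (hr (q + 1) hp)))
  · have hG : JG K G = ⊥ := by
      rw [JG, Ideal.span_eq_bot]
      rintro p ⟨i, j, hij, -⟩
      exfalso
      rcases lt_trichotomy i j with h | h | h
      · exact hE ⟨i, j, h, hij⟩
      · exact G.ne_of_adj hij h
      · exact hE ⟨j, i, h, hij.symm⟩
    have h2 : (JG K G) ^ (k + 1) = (JG K G) ^ k := by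
      rw [hG, Ideal.bot_pow (by omega), Ideal.bot_pow (by omega)]
    rw [h2]

/-- for a closed labelling `ρ` -/
theorem depth_closed (K : Type*) [Field K] (G : SimpleGraph V) (ρ : V → ℕ)
    (hρ : Function.Injective ρ)
    (h : ∀ i j k, G.Adj i j → G.Adj i k →
      (ρ i < ρ j ∧ ρ j < ρ k) ∨ (ρ k < ρ j ∧ ρ j < ρ i) → G.Adj j k) (k : ℕ) (hk : 1 ≤ k) :
    dep (MvPolynomial (V ⊕ V) K) (MvPolynomial (V ⊕ V) K ⧸ (JG K G) ^ (k + 1))
        (Ideal.span (Set.range (zX V K))) ≤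
      dep (MvPolynomial (V ⊕ V) K) (MvPolynomial (V ⊕ V) K ⧸ (JG K G) ^ k)
        (Ideal.span (Set.range (zX V K))) := by
  obtain ⟨L, hL⟩ := exists_order G ρ hρ h
  letI := L
  exact depth_mono K G hL k hk

end Pool.Agent.H52.BE
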