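import Pool.Agent.H52.BE.GnD

/-!
# Project BE: expansion along the first left / right vertex, into `Gn`

`PX`: `x` first left vertex of `a = b + dl x` and adjacent to some right vertex of the support, induction
hypothesis `IH` for all smaller degrees.
Let `Y` be the increasing list of neighbours of `x` in the support of `b` (nonempty).
CORNERS: for `y ∈ Y`, `(x, y)` is a corner after removing the smaller elements of `Y` (`cor_inl`).
CASE 1: `Y = P ++ y :: Q`, exponents of `P` equal to 1, `2 ≤ b (inr y)`: `b' = b - cr P`; `PL1` with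
`v = inl x`, `u' = inr y`, `L = P.map inr`, `N = GnS (b + dl x) k ⊓ Zt_x b k`.  Prefix terms
`DD (P1.map inr) g`, `g ∈ Z (b' + cr P2) j` are `DD [inl x] (DD (P1.map inr) g)` (`DD_single`), `Gn.dd'`
with `A = [x]`, `B = P1`, `IH`.  Tail: `k = j+1`: `corner_Zv2` (`b' = b'' + dl (inr y)`), `Gn.dd'` with
`B = P ++ [y]`; `k = 0`: `level_one2`, `tail_Lv`.
CASE 2: all exponents 1: `b' = b - cr Y`, `PL2` with `L = Y.map inr`; tail
`EE (Y.map inr) g = DD [inl x] (EE (Y.map inr) g)`: `Gn.de` with `A = [x]`, `B = Y`.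

`PY`: the mirror image, `v = inr y`, `X` = increasing list of left neighbours of `y` in the
support of `b`, `cor_inr`.  Terms `DD (A.map inl) g = DD (A.map inl) (DD [inr y] g)`: `Gn.dd'` with
`B = [y]`.  Tail in case 2 (`A = X`, `g ∈ Z b' k`, `s = (-1)^|A|`):
`s • EE A g = dd (EE A (E y g)) - DD A (EE [y] g) + s • EE A (E y (dd g))`
(`dd_EE`, `dd_E`): `Gn.bd`, `Gn.de` with `B = [y]`, `Gn.lev`.

The smaller degrees have smaller sums: `∑ (b' ..) < ∑ (b + dl x)`.
-/

namespace Pool.Agent.H52.BE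

open Finset

variable {V : Type*} [Fintype V] [LinearOrder V]
variable {K : Type*} [CommRing K] {H : V → V → Prop}

set_option linter.unusedSectionVars false

/-! ### degree bookkeeping -/

private theorem PX_cnt_cons {σ : Type*} [DecidableEq σ] (v : σ) (L : List σ) :
    cnt (v :: L) = cnt L + dl v := by
  funext w
  show cnt (v :: L) w = cnt L w + dl v w
  unfold cnt dl
  rw [List.count_cons]
  by_cases h : w = v
  · simp [h]
  · rw [if_neg h, if_neg (by simpa using fun h' => h h'.symm)]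

private theorem PX_cnt_append {σ : Type*} [DecidableEq σ] (L L' : List σ) :
    cnt (L ++ L') = cnt L + cnt L' := by
  funext w
  show cnt (L ++ L') w = cnt L w + cnt L' w
  unfold cnt
  rw [List.count_append]

private theorem PX_cnt_nil {σ : Type*} [DecidableEq σ] : cnt ([] : List σ) = 0 := by
  funext w
  simp [cnt]

private theorem PX_cnt_notMem {σ : Type*} [DecidableEq σ] (L : List σ) (w : σ) (h : w ∉ L) :
    cnt L w = 0 := by
  unfold cnt
  exact List.count_eq_zero.2 h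

private theorem PX_cnt_mem {σ : Type*} [DecidableEq σ] (L : List σ) (hL : L.Nodup) (w : σ)
    (h : w ∈ L) : cnt L w = 1 := by
  unfold cnt
  exact List.count_eq_one_of_mem hL h

private theorem PX_cr_notMem (P : List V) (u : V) (hu : u ∉ P) : cr P (Sum.inr u) = 0 := by
  refine PX_cnt_notMem _ _ ?_
  intro h
  obtain ⟨p, hp, h2⟩ := List.mem_map.1 h
  rw [Sum.inr_injective h2] at hp
  exact hu hp

private theorem PX_cr_mem (P : List V) (hP : P.Nodup) (u : V) (hu : u ∈ P) :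
    cr P (Sum.inr u) = 1 :=
  PX_cnt_mem _ (hP.map Sum.inr_injective) _ (List.mem_map_of_mem hu)

private theorem PX_cr_inl (P : List V) (u : V) : cr P (Sum.inl u : V ⊕ V) = 0 := by
  refine PX_cnt_notMem _ _ ?_
  intro h
  obtain ⟨p, hp, h2⟩ := List.mem_map.1 h
  exact absurd h2 (by simp)

private theorem PX_cl_single (x : V) : cl [x] = dl (Sum.inl x : V ⊕ V) := by
  show cnt [Sum.inl x] = _
  rw [PX_cnt_cons, PX_cnt_nil, zero_add]

private theorem PX_cr_single (x : V) : cr [x] = dl (Sum.inr x : V ⊕ V) := by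
  show cnt [Sum.inr x] = _
  rw [PX_cnt_cons, PX_cnt_nil, zero_add]

private theorem PX_cr_append (P Q : List V) : (cr (P ++ Q) : V ⊕ V → ℕ) = cr P + cr Q := by
  show cnt ((P ++ Q).map Sum.inr) = _
  rw [List.map_append, PX_cnt_append]

private theorem PX_sub_add (b : V ⊕ V → ℕ) (P : List V) (hP : P.Nodup)
    (h : ∀ u ∈ P, 1 ≤ b (Sum.inr u)) : b - cr P + cr P = b := by
  funext w
  show b w - cr P w + cr P w = b w
  have hle : cr P w ≤ b w := by
    rcases w with u | u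
    · rw [PX_cr_inl]; exact Nat.zero_le _
    · by_cases hu : u ∈ P
      · rw [PX_cr_mem P hP u hu]; exact h u hu
      · rw [PX_cr_notMem P u hu]; exact Nat.zero_le _
  omega

private theorem PX_sub_zero (b : V ⊕ V → ℕ) (P : List V) (hP : P.Nodup)
    (h : ∀ u ∈ P, b (Sum.inr u) = 1) (u : V) (hu : u ∈ P) :
    (b - cr P : V ⊕ V → ℕ) (Sum.inr u) = 0 := by
  show b (Sum.inr u) - cr P (Sum.inr u) = 0
  rw [PX_cr_mem P hP u hu, h u hu]

private theorem PX_sub_of_notMem (b : V ⊕ V → ℕ) (P : List V) (u : V) (hu : u ∉ P) :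
    (b - cr P : V ⊕ V → ℕ) (Sum.inr u) = b (Sum.inr u) := by
  show b (Sum.inr u) - cr P (Sum.inr u) = _
  rw [PX_cr_notMem P u hu]
  rfl

/-- either every element satisfies `p` or there is a first one which does not -/
private theorem PX_first (p : V → Prop) : ∀ Y : List V, (∀ y ∈ Y, p y) ∨
    ∃ P y Q, Y = P ++ y :: Q ∧ (∀ u ∈ P, p u) ∧ ¬ p y
  | [] => Or.inl (by simp)
  | y :: Y => by
    by_cases hy : p y
    · rcases PX_first p Y with h | ⟨P, z, Q, h1, h2, h3⟩
      · left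
        intro u hu
        rcases List.mem_cons.1 hu with rfl | hu
        · exact hy
        · exact h u hu
      · right
        refine ⟨y :: P, z, Q, by rw [h1]; rfl, ?_, h3⟩
        intro u hu
        rcases List.mem_cons.1 hu with rfl | hu
        · exact hy
        · exact h2 u hu
    · exact Or.inr ⟨[], y, Y, rfl, by simp, hy⟩

private theorem PX_map_split (P : List V) (P1 Q1 : List (V ⊕ V))
    (h : P.map Sum.inr = P1 ++ Q1) :
    ∃ P2 Q2 : List V, P = P2 ++ Q2 ∧ P1 = P2.map Sum.inr ∧ Q1 = Q2.map Sum.inr := by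
  obtain ⟨P2, Q2, h1, h2, h3⟩ := List.map_eq_append_iff.1 h
  exact ⟨P2, Q2, h1, h2.symm, h3.symm⟩

private theorem PX_corners (x : V) (b : V ⊕ V → ℕ) (P : List V)
    (hPs : P.Pairwise (· < ·)) (hP1 : ∀ u ∈ P, b (Sum.inr u) = 1)
    (hcor : ∀ u ∈ P, ∀ a : V ⊕ V → ℕ, a ≤ b + dl (Sum.inl x) →
      (∀ p ∈ P, p < u → a (Sum.inr p) = 0) → Cor H a (Sum.inl x) (Sum.inr u)) :
    ∀ P1 u Q1, P.map Sum.inr = P1 ++ u :: Q1 →
      Cor H (b - cr P + cnt (u :: Q1) + dl (Sum.inl x)) (Sum.inl x) u := by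
  intro P1 u Q1 h
  obtain ⟨P2, Q2, h1, h2, h3⟩ := PX_map_split P P1 (u :: Q1) h
  cases Q2 with
  | nil => simp at h3
  | cons q Q3 =>
    simp only [List.map_cons, List.cons.injEq] at h3
    obtain ⟨rfl, rfl⟩ := h3
    have hnd : P.Nodup := hPs.imp (fun h => ne_of_lt h)
    have e1 : (cnt (Sum.inr q :: Q3.map Sum.inr) : V ⊕ V → ℕ) = cr (q :: Q3) := rfl
    rw [e1]
    have hq : q ∈ P := by rw [h1]; simp
    refine hcor q hq _ ?_ ?_
    · have hb := PX_sub_add b P hnd (fun u hu => by rw [hP1 u hu])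
      have h4 : (cr (q :: Q3) : V ⊕ V → ℕ) ≤ cr P := by
        rw [h1, PX_cr_append]
        exact le_add_of_nonneg_left (fun _ => Nat.zero_le _)
      intro w
      have h6 : (b - cr P : V ⊕ V → ℕ) w + cr P w = b w := congrFun hb w
      have h5 : cr (q :: Q3) w ≤ cr P w := h4 w
      show (b - cr P : V ⊕ V → ℕ) w + cr (q :: Q3) w + dl (Sum.inl x) w ≤ b w + dl (Sum.inl x) w
      omega
    · intro p hp hpq
      have hnp : p ∉ q :: Q3 := by
        intro hp'
        have h6 := hPs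
        rw [h1, List.pairwise_append] at h6
        rcases List.mem_cons.1 hp' with rfl | hp''
        · exact lt_irrefl _ hpq
        · exact lt_irrefl _ (lt_trans hpq ((List.pairwise_cons.1 h6.2.1).1 p hp''))
      show (b - cr P : V ⊕ V → ℕ) (Sum.inr p) + cr (q :: Q3) (Sum.inr p)
        + dl (Sum.inl x) (Sum.inr p) = 0
      rw [PX_sub_zero b P hnd hP1 p hp, PX_cr_notMem _ _ hnp]
      rfl

/-- expansion with a tail of the first kind -/
private theorem PX_exp1 (x y : V) (b : V ⊕ V → ℕ) (k : ℕ) (P : List V)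
    (hPs : P.Pairwise (· < ·)) (hP1 : ∀ u ∈ P, b (Sum.inr u) = 1) (hPx : ∀ u ∈ P, H x u)
    (hcor : ∀ u ∈ P, ∀ a : V ⊕ V → ℕ, a ≤ b + dl (Sum.inl x) →
      (∀ p ∈ P, p < u → a (Sum.inr p) = 0) → Cor H a (Sum.inl x) (Sum.inr u))
    (hxy : H x y) (hby : 1 ≤ (b - cr P : V ⊕ V → ℕ) (Sum.inr y))
    (hcy : Cor H (b - cr P + dl (Sum.inl x)) (Sum.inl x) (Sum.inr y))
    (M : Submodule K (Finset (V ⊕ V) → K))
    (hbd : ∀ w ∈ Lv K H 0 (b + dl (Sum.inl x)) k, dd K w ∈ M)
    (hlev : Lv K H 0 (b + dl (Sum.inl x)) (k + 1) ≤ M)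
    (hpre : ∀ (B : List V) (b' : V ⊕ V → ℕ) (j : ℕ), B ≠ [] → B.Pairwise (· < ·) →
      (∀ u ∈ B, u ∈ P) → b = b' + cr B → k = j + 1 → ∀ g ∈ Zv K H 0 b' j,
      DD K (B.map Sum.inr) g ∈ M)
    (htail : ∀ g ∈ Zv K H (dl (Sum.inl x)) (b - cr P) k,
      DD K (P.map Sum.inr ++ [Sum.inr y]) g ∈ M) :
    Zv K H (dl (Sum.inl x)) b k ≤ M := by
  have hnd : P.Nodup := hPs.imp (fun h => ne_of_lt h)
  have hb : b - cr P + cnt (P.map Sum.inr) = b :=
    PX_sub_add b P hnd (fun u hu => by rw [hP1 u hu])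
  have hadj : ∀ u ∈ P.map (Sum.inr : V → V ⊕ V), adj H (Sum.inl x) u := by
    intro u hu
    obtain ⟨p, hp, rfl⟩ := List.mem_map.1 hu
    exact hPx p hp
  have main := PL1 (K := K) (H := H) (Sum.inl x) (Sum.inr y) (b - cr P) k hxy hby hcy
    (P.map Sum.inr) (M ⊓ Zv K H (dl (Sum.inl x)) b k)
    (hnd.map Sum.inr_injective)
    (by
      intro u hu
      obtain ⟨p, hp, rfl⟩ := List.mem_map.1 hu
      exact PX_sub_zero b P hnd hP1 p hp)
    hadj (PX_corners x b P hPs hP1 hcor)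
    (by rw [hb]; exact inf_le_right)
    (by
      rw [hb]
      intro w hw
      exact ⟨hbd w (Lv_e_to_b' _ hw), Zv_boundary w hw⟩)
    (by
      rw [hb]
      intro w hw
      exact ⟨hlev (Lv_e_to_b' _ hw), Lv_Zv hw⟩)
    (by
      intro P1 Q1 hPQ hne j hkj g hg
      obtain ⟨P2, Q2, h1, rfl, rfl⟩ := PX_map_split P P1 Q1 hPQ
      have hb2 : b = (b - cr P + cnt (Q2.map Sum.inr)) + cr P2 := by
        have h9 : cnt (P.map Sum.inr) = cr P2 + (cnt (Q2.map Sum.inr) : V ⊕ V → ℕ) := by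
          rw [h1, List.map_append, PX_cnt_append]
        rw [h9] at hb
        calc b = b - cr P + (cr P2 + cnt (Q2.map Sum.inr)) := hb.symm
          _ = _ := by rw [add_comm (cr P2), add_assoc]
      refine ⟨hpre P2 _ j (fun h => hne (by rw [h]; rfl))
        ((List.pairwise_append.1 (h1 ▸ hPs)).1) (fun u hu => by rw [h1]; simp [hu]) hb2 hkj g hg, ?_⟩
      have h7 := DD_Zv_adj (K := K) (H := H) (v := Sum.inl x) (P2.map Sum.inr)
        (fun u hu => hadj u (by rw [h1, List.map_append]; exact List.mem_append_left _ hu)) hg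
      have h8 : b - cr P + cnt (Q2.map Sum.inr) + cnt (P2.map Sum.inr) = b := hb2.symm
      rw [h8] at h7
      rw [hkj]
      exact h7)
    (by
      intro g hg
      refine ⟨htail g hg, ?_⟩
      have h7 := tail_Zv (K := K) (H := H) (P.map Sum.inr) hadj (show adj H (Sum.inl x)
        (Sum.inr y) from hxy) hby hcy hg
      rw [hb] at h7
      exact h7)
  rw [hb] at main
  exact fun c hc => (main hc).1

/-- expansion with a tail of the second kind -/
private theorem PX_exp2 (x : V) (b : V ⊕ V → ℕ) (k : ℕ) (P : List V)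
    (hPs : P.Pairwise (· < ·)) (hP1 : ∀ u ∈ P, b (Sum.inr u) = 1) (hPx : ∀ u ∈ P, H x u)
    (hcor : ∀ u ∈ P, ∀ a : V ⊕ V → ℕ, a ≤ b + dl (Sum.inl x) →
      (∀ p ∈ P, p < u → a (Sum.inr p) = 0) → Cor H a (Sum.inl x) (Sum.inr u))
    (hiso : ∀ j, H x j → 1 ≤ (b - cr P : V ⊕ V → ℕ) (Sum.inr j) → False)
    (M : Submodule K (Finset (V ⊕ V) → K))
    (hbd : ∀ w ∈ Lv K H 0 (b + dl (Sum.inl x)) k, dd K w ∈ M)
    (hlev : Lv K H 0 (b + dl (Sum.inl x)) (k + 1) ≤ M)
    (hpre : ∀ (B : List V) (b' : V ⊕ V → ℕ) (j : ℕ), B ≠ [] → B.Pairwise (· < ·) →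
      (∀ u ∈ B, u ∈ P) → b = b' + cr B → k = j + 1 → ∀ g ∈ Zv K H 0 b' j,
      DD K (B.map Sum.inr) g ∈ M)
    (htail : ∀ g ∈ Zv K H 0 (b - cr P) k, EE K (P.map Sum.inr) g ∈ M) :
    Zv K H (dl (Sum.inl x)) b k ≤ M := by
  have hnd : P.Nodup := hPs.imp (fun h => ne_of_lt h)
  have hb : b - cr P + cnt (P.map Sum.inr) = b :=
    PX_sub_add b P hnd (fun u hu => by rw [hP1 u hu])
  have hadj : ∀ u ∈ P.map (Sum.inr : V → V ⊕ V), adj H (Sum.inl x) u := by
    intro u hu
    obtain ⟨p, hp, rfl⟩ := List.mem_map.1 hu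
    exact hPx p hp
  have hiso' : ∀ u, 1 ≤ (b - cr P : V ⊕ V → ℕ) u → ¬ adj H (Sum.inl x) u := by
    intro u hu ha
    rcases u with u | u
    · exact ha
    · exact hiso u ha hu
  have main := PL2 (K := K) (H := H) (Sum.inl x) (b - cr P) k hiso'
    (P.map Sum.inr) (M ⊓ Zv K H (dl (Sum.inl x)) b k)
    (hnd.map Sum.inr_injective)
    (by
      intro u hu
      obtain ⟨p, hp, rfl⟩ := List.mem_map.1 hu
      exact PX_sub_zero b P hnd hP1 p hp)
    hadj (PX_corners x b P hPs hP1 hcor)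
    (by rw [hb]; exact inf_le_right)
    (by
      rw [hb]
      intro w hw
      exact ⟨hbd w (Lv_e_to_b' _ hw), Zv_boundary w hw⟩)
    (by
      rw [hb]
      intro w hw
      exact ⟨hlev (Lv_e_to_b' _ hw), Lv_Zv hw⟩)
    (by
      intro P1 Q1 hPQ hne j hkj g hg
      obtain ⟨P2, Q2, h1, rfl, rfl⟩ := PX_map_split P P1 Q1 hPQ
      have hb2 : b = (b - cr P + cnt (Q2.map Sum.inr)) + cr P2 := by
        have h9 : cnt (P.map Sum.inr) = cr P2 + (cnt (Q2.map Sum.inr) : V ⊕ V → ℕ) := by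
          rw [h1, List.map_append, PX_cnt_append]
        rw [h9] at hb
        calc b = b - cr P + (cr P2 + cnt (Q2.map Sum.inr)) := hb.symm
          _ = _ := by rw [add_comm (cr P2), add_assoc]
      refine ⟨hpre P2 _ j (fun h => hne (by rw [h]; rfl))
        ((List.pairwise_append.1 (h1 ▸ hPs)).1) (fun u hu => by rw [h1]; simp [hu]) hb2 hkj g hg, ?_⟩
      have h7 := DD_Zv_adj (K := K) (H := H) (v := Sum.inl x) (P2.map Sum.inr)
        (fun u hu => hadj u (by rw [h1, List.map_append]; exact List.mem_append_left _ hu)) hg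
      have h8 : b - cr P + cnt (Q2.map Sum.inr) + cnt (P2.map Sum.inr) = b := hb2.symm
      rw [h8] at h7
      rw [hkj]
      exact h7)
    (by
      intro g hg
      refine ⟨htail g hg, ?_⟩
      have h7 := EE_Zv_iso (K := K) (H := H) (v := Sum.inl x) (P.map Sum.inr) hadj hg
      rw [hb] at h7
      exact h7)
  rw [hb] at main
  exact fun c hc => (main hc).1

/-- both cases: `Y` is a list of neighbours -/
private theorem PX_exp (x : V) (b : V ⊕ V → ℕ) (k : ℕ) (Y : List V)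
    (hYs : Y.Pairwise (· < ·)) (hY1 : ∀ u ∈ Y, 1 ≤ b (Sum.inr u)) (hYx : ∀ u ∈ Y, H x u)
    (hcor : ∀ u ∈ Y, ∀ a : V ⊕ V → ℕ, a ≤ b + dl (Sum.inl x) →
      (∀ p ∈ Y, p < u → a (Sum.inr p) = 0) → Cor H a (Sum.inl x) (Sum.inr u))
    (M : Submodule K (Finset (V ⊕ V) → K))
    (hbd : ∀ w ∈ Lv K H 0 (b + dl (Sum.inl x)) k, dd K w ∈ M)
    (hlev : Lv K H 0 (b + dl (Sum.inl x)) (k + 1) ≤ M)
    (hpre : ∀ (B : List V) (b' : V ⊕ V → ℕ) (j : ℕ), B ≠ [] → B.Pairwise (· < ·) →
      (∀ u ∈ B, u ∈ Y) → b = b' + cr B → k = j + 1 → ∀ g ∈ Zv K H 0 b' j,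
      DD K (B.map Sum.inr) g ∈ M)
    (hall : (∀ u ∈ Y, b (Sum.inr u) = 1) → Zv K H (dl (Sum.inl x)) b k ≤ M) :
    Zv K H (dl (Sum.inl x)) b k ≤ M := by
  rcases PX_first (fun u => b (Sum.inr u) = 1) Y with h | ⟨P, y, Q, hYe, hP1, hy1⟩
  · exact hall h
  have hndY : Y.Nodup := hYs.imp (fun h => ne_of_lt h)
  have hyY : y ∈ Y := by rw [hYe]; simp
  have hPY : ∀ u ∈ P, u ∈ Y := fun u hu => by rw [hYe]; simp [hu]
  have hsp := hYs
  rw [hYe, List.pairwise_append] at hsp
  have hPs := hsp.1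
  have hPy : ∀ u ∈ P, u < y := fun u hu => hsp.2.2 u hu y (by simp)
  have hnd : P.Nodup := hPs.imp (fun h => ne_of_lt h)
  have hyP : y ∉ P := fun h => lt_irrefl _ (hPy y h)
  have hb2 : 2 ≤ b (Sum.inr y) := by
    have h1 := hY1 y hyY
    have h2 : b (Sum.inr y) ≠ 1 := hy1
    omega
  have hby : 2 ≤ (b - cr P : V ⊕ V → ℕ) (Sum.inr y) := by
    rw [PX_sub_of_notMem b P y hyP]; exact hb2
  have hb : b - cr P + cr P = b :=
    PX_sub_add b P hnd (fun u hu => by rw [hP1 u hu])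
  have hPless : ∀ u ∈ P, ∀ p ∈ Y, p < u → p ∈ P := by
    intro u hu p hp hpu
    rw [hYe, List.mem_append] at hp
    rcases hp with hp | hp
    · exact hp
    · exact absurd (lt_trans hpu (hsp.2.2 u hu p hp)) (lt_irrefl _)
  have hPless' : ∀ p ∈ Y, p < y → p ∈ P := by
    intro p hp hpu
    rw [hYe, List.mem_append] at hp
    rcases hp with hp | hp
    · exact hp
    · rcases List.mem_cons.1 hp with rfl | hp'
      · exact absurd hpu (lt_irrefl _)
      · exact absurd (lt_trans hpu ((List.pairwise_cons.1 hsp.2.1).1 p hp')) (lt_irrefl _)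
  have hcy : Cor H (b - cr P + dl (Sum.inl x)) (Sum.inl x) (Sum.inr y) := by
    refine hcor y hyY _ ?_ ?_
    · intro w
      show b w - cr P w + dl (Sum.inl x) w ≤ b w + dl (Sum.inl x) w
      omega
    · intro p hp hpy
      show (b - cr P : V ⊕ V → ℕ) (Sum.inr p) + dl (Sum.inl x) (Sum.inr p) = 0
      rw [PX_sub_zero b P hnd hP1 p (hPless' p hp hpy)]
      rfl
  have hxy : H x y := hYx y hyY
  refine PX_exp1 x y b k P hPs hP1 (fun u hu => hYx u (hPY u hu)) ?_ hxy (by omega) hcy M hbd hlev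
    (fun B b' j h1 h2 h3 => hpre B b' j h1 h2 (fun u hu => hPY u (h3 u hu))) ?_
  · intro u hu a ha hz
    exact hcor u (hPY u hu) a ha (fun p hp hpu => hz p (hPless u hu p hp hpu) hpu)
  · -- the tail
    have hb'' : b - cr P = (b - cr P - dl (Sum.inr y)) + dl (Sum.inr y : V ⊕ V) := by
      funext w
      show (b - cr P : V ⊕ V → ℕ) w = (b - cr P : V ⊕ V → ℕ) w - dl (Sum.inr y) w
        + dl (Sum.inr y) w
      have : dl (Sum.inr y) w ≤ (b - cr P : V ⊕ V → ℕ) w := by
        unfold dl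
        by_cases hw : w = Sum.inr y
        · rw [if_pos hw, hw]; omega
        · rw [if_neg hw]; exact Nat.zero_le _
      omega
    have hb''1 : 1 ≤ (b - cr P - dl (Sum.inr y) : V ⊕ V → ℕ) (Sum.inr y) := by
      show 1 ≤ (b - cr P : V ⊕ V → ℕ) (Sum.inr y) - dl (Sum.inr y) (Sum.inr y : V ⊕ V)
      have : dl (Sum.inr y) (Sum.inr y : V ⊕ V) = 1 := by simp [dl]
      omega
    have hadj : adj H (Sum.inl x) (Sum.inr y) := hxy
    have hcy' : Cor H ((b - cr P - dl (Sum.inr y)) + dl (Sum.inl x) + dl (Sum.inr y))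
        (Sum.inl x) (Sum.inr y) := by
      have : (b - cr P - dl (Sum.inr y)) + dl (Sum.inl x) + dl (Sum.inr y)
          = b - cr P + dl (Sum.inl x : V ⊕ V) := by
        calc _ = (b - cr P - dl (Sum.inr y)) + dl (Sum.inr y) + dl (Sum.inl x : V ⊕ V) :=
              add_right_comm _ _ _
          _ = _ := by rw [← hb'']
      rw [this]; exact hcy
    have hadjP : ∀ u ∈ P.map (Sum.inr : V → V ⊕ V), adj H (Sum.inl x) u := by
      intro u hu
      obtain ⟨p, hp, rfl⟩ := List.mem_map.1 hu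
      exact hYx p (hPY p hp)
    intro g hg
    rcases Nat.eq_zero_or_pos k with hk | hk
    · subst hk
      have h1 : g ∈ Lv K H (dl (Sum.inl x)) (b - cr P) 1 := by
        rw [hb'']
        refine level_one2 hadj hb''1 ?_
        rw [← hb'']
        exact hg.1
      have h2 := tail_Lv (K := K) (H := H) (P.map Sum.inr) hadjP hadj (by omega) hcy h1
      refine hlev ?_
      have h3 : b - cr P + cnt (P.map Sum.inr) = b := hb
      rw [h3] at h2
      exact Lv_e_to_b' _ h2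
    · obtain ⟨j, rfl⟩ : ∃ j, k = j + 1 := ⟨k - 1, by omega⟩
      rw [hb''] at hg
      have hg' := corner_Zv2 hadj hb''1 hcy' hg
      have h4 := hpre (P ++ [y]) (b - cr P - dl (Sum.inr y)) j (by simp)
        (by
          rw [List.pairwise_append]
          exact ⟨hPs, by simp, fun u hu v hv => by
            rw [List.mem_singleton] at hv; rw [hv]; exact hPy u hu⟩)
        (by
          intro u hu
          rcases List.mem_append.1 hu with hu | hu
          · exact hPY u hu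
          · rw [List.mem_singleton] at hu; rw [hu]; exact hyY)
        (by
          rw [PX_cr_append, PX_cr_single]
          calc b = b - cr P + cr P := hb.symm
            _ = (b - cr P - dl (Sum.inr y)) + dl (Sum.inr y) + cr P := by rw [← hb'']
            _ = _ := by rw [add_assoc, add_comm (dl (Sum.inr y))])
        rfl g hg'
      rw [List.map_append] at h4
      exact h4

private theorem PX_sum_lt (b b' : V ⊕ V → ℕ) (x : V) (h : ∀ w, b' w ≤ b w) :
    ∑ v, b' v < ∑ v, (b + dl (Sum.inl x) : V ⊕ V → ℕ) v := by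
  refine Finset.sum_lt_sum (fun w _ => ?_) ⟨Sum.inl x, Finset.mem_univ _, ?_⟩
  · show b' w ≤ b w + dl (Sum.inl x) w
    have := h w
    omega
  · show b' (Sum.inl x) < b (Sum.inl x) + dl (Sum.inl x) (Sum.inl x)
    have := h (Sum.inl x)
    have h2 : dl (Sum.inl x) (Sum.inl x : V ⊕ V) = 1 := by simp [dl]
    omega

theorem PX (hSO : SO H) (x : V) (b : V ⊕ V → ℕ) (k : ℕ)
    (hfirst : ∀ i, 1 ≤ b (Sum.inl i) → x ≤ i)
    (hY : ∃ y, H x y ∧ 1 ≤ b (Sum.inr y))
    (IH : ∀ a' : V ⊕ V → ℕ, ∑ v, a' v < ∑ v, (b + dl (Sum.inl x) : V ⊕ V → ℕ) v →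
      ∀ (k' : ℕ) (c' : Finset (V ⊕ V) → K), c' ∈ Zv K H 0 a' k' → Gn K H a' k' c')
    (c : Finset (V ⊕ V) → K) (hc : c ∈ Zv K H (dl (Sum.inl x)) b k) :
    Gn K H (b + dl (Sum.inl x)) k c := by
  classical
  obtain ⟨Y, hYs, hYm⟩ : ∃ Y : List V, Y.Pairwise (· < ·) ∧
      ∀ y, y ∈ Y ↔ H x y ∧ 1 ≤ b (Sum.inr y) := by
    refine ⟨(univ.filter (fun y => H x y ∧ 1 ≤ b (Sum.inr y))).sort (· ≤ ·), ?_, ?_⟩
    · exact (Finset.sortedLT_sort _).pairwise
    · intro y
      rw [Finset.mem_sort]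
      simp
  have hYne : Y ≠ [] := by
    obtain ⟨y, hy⟩ := hY
    intro h
    have := (hYm y).2 hy
    rw [h] at this
    simp at this
  have hnd : Y.Nodup := hYs.imp (fun h => ne_of_lt h)
  have hYx : ∀ u ∈ Y, H x u := fun u hu => ((hYm u).1 hu).1
  have hY1 : ∀ u ∈ Y, 1 ≤ b (Sum.inr u) := fun u hu => ((hYm u).1 hu).2
  have hcor : ∀ u ∈ Y, ∀ a : V ⊕ V → ℕ, a ≤ b + dl (Sum.inl x) →
      (∀ p ∈ Y, p < u → a (Sum.inr p) = 0) → Cor H a (Sum.inl x) (Sum.inr u) := by
    intro u hu a ha hz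
    refine cor_inl hSO (hYx u hu) ?_ ?_
    · intro i hi
      have h1 : a (Sum.inl i) ≤ b (Sum.inl i) + dl (Sum.inl x) (Sum.inl i) := ha (Sum.inl i)
      by_cases hix : i = x
      · exact le_of_eq hix.symm
      · have h2 : dl (Sum.inl x) (Sum.inl i : V ⊕ V) = 0 := by
          unfold dl
          rw [if_neg]
          intro h
          exact hix (Sum.inl_injective h)
        exact hfirst i (by omega)
    · intro j' hj' hxj'
      by_contra hlt
      have hlt' : j' < u := not_le.1 hlt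
      have h1 : a (Sum.inr j') ≤ b (Sum.inr j') + dl (Sum.inl x) (Sum.inr j') := ha (Sum.inr j')
      have h2 : dl (Sum.inl x) (Sum.inr j' : V ⊕ V) = 0 := by simp [dl]
      have h3 := hz j' ((hYm j').2 ⟨hxj', by omega⟩) hlt'
      omega
  have hpre : ∀ (B : List V) (b' : V ⊕ V → ℕ) (j : ℕ), B ≠ [] → B.Pairwise (· < ·) →
      (∀ u ∈ B, u ∈ Y) → b = b' + cr B → k = j + 1 → ∀ g ∈ Zv K H 0 b' j,
      DD K (B.map Sum.inr) g ∈ GnS K H (b + dl (Sum.inl x)) k := by
    intro B b' j hB hBs hBY hb hk g hg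
    subst hk
    have h1 := Gn.dd' (K := K) (H := H) [x] B (by simp) hB (by simp) hBs
      (fun i hi j hj => by
        rw [List.mem_singleton] at hi
        rw [hi]
        exact hYx j (hBY j hj)) b' j g
      (IH b' (PX_sum_lt b b' x (fun w => by
        have h2 : b w = b' w + cr B w := congrFun hb w
        omega)) j g hg) (b + dl (Sum.inl x))
      (by rw [hb, PX_cl_single, add_right_comm])
    have h2 : DD K ([x].map Sum.inl) (DD K (B.map Sum.inr) g) = DD K (B.map Sum.inr) g :=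
      DD_single (K := K) _ _
    rw [h2] at h1
    exact h1
  have hbd : ∀ w ∈ Lv K H 0 (b + dl (Sum.inl x)) k,
      dd K w ∈ GnS K H (b + dl (Sum.inl x)) k := fun w hw => Gn.bd _ _ w hw
  have hlev : Lv K H 0 (b + dl (Sum.inl x)) (k + 1) ≤ GnS K H (b + dl (Sum.inl x)) k :=
    fun w hw => Gn.lev _ _ w hw
  refine PX_exp x b k Y hYs hY1 hYx hcor (GnS K H (b + dl (Sum.inl x)) k) hbd hlev hpre ?_ hc
  intro hall
  have hsub : ∀ w, (b - cr Y : V ⊕ V → ℕ) w ≤ b w := fun w => Nat.sub_le _ _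
  refine PX_exp2 x b k Y hYs hall hYx hcor ?_ (GnS K H (b + dl (Sum.inl x)) k) hbd hlev hpre ?_
  · intro j hxj hj
    have h1 := PX_sub_zero b Y hnd hall j ((hYm j).2 ⟨hxj, le_trans hj (hsub _)⟩)
    omega
  · intro g hg
    have h1 := Gn.de (K := K) (H := H) [x] Y (by simp) hYne (by simp) hYs
      (fun i hi j hj => by
        rw [List.mem_singleton] at hi
        rw [hi]
        exact hYx j hj) (b - cr Y) k g
      (IH (b - cr Y) (PX_sum_lt b _ x hsub) k g hg) (b + dl (Sum.inl x))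
      (by
        have h3 := PX_sub_add b Y hnd hY1
        calc b + dl (Sum.inl x) = (b - cr Y + cr Y) + dl (Sum.inl x) := by rw [h3]
          _ = _ := by rw [PX_cl_single, add_right_comm])
    have h2 : DD K ([x].map Sum.inl) (EE K (Y.map Sum.inr) g) = EE K (Y.map Sum.inr) g :=
      DD_single (K := K) _ _
    rw [h2] at h1
    exact h1

end Pool.Agent.H52.BE
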