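import Pool.Agent.H52.BE.GnD

/-!
# Project BE: expansion along the first right vertex, into `Gn` (prove `PY`; `PX` is in `PX.lean`)

`PX`: `x` first left vertex of `a = b + dl x` and adjacent to some right vertex of the support, induction
hypothesis `IH` for all smaller degrees.
Let `Y` be the increasing list of neighbours of `x` in the support of `b` (nonempty).
CORNERS: for `y ∈ Y`, `(x, y)` is a corner after removing the smaller elements of `Y` (`cor_inl`).
CASE 1: `Y = P ++ y :: Q`, exponents of `P` equal to 1, `2 ≤ b (inr y)`: `b' = b - cr P`; `PL1` with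
`v = inl x`, `u' = inr y`, `L = P.map inr`, `N = GnS (b + dl x) k ⊓ Zt_x b k`.  Prefix terms
`DD (P1.map inr) g`, `g ∈ Z (b' + cr P2) j` are `DD [inl x] (DD (P1.map inr) g)` (`DD_single`), `Gn.dd'`
with `A = [x]`, `B = P1`, `IH`.  Tail: `k = j+1`: `corner_Zv2` (`b' = b'' + dl (inr y)`), `Gn.dd'` with
`B = P ++ [y]`; `k = 0`: `level_one2`, `tail_Lv`.
CASE 2: all exponents 1: `b' = b - cr Y`, `PL2` with `L = Y.map inr`; tail
`EE (Y.map inr) g = DD [inl x] (EE (Y.map inr) g)`: `Gn.de` with `A = [x]`, `B = Y`.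

`PY`: the mirror image, `v = inr y`, `X` = increasing list of left neighbours of `y` in the
support of `b`, `cor_inr`.  Terms `DD (A.map inl) g = DD (A.map inl) (DD [inr y] g)`: `Gn.dd'` with
`B = [y]`.  Tail in case 2 (`A = X`, `g ∈ Z b' k`, `s = (-1)^|A|`):
`s • EE A g = dd (EE A (E y g)) - DD A (EE [y] g) + s • EE A (E y (dd g))`
(`dd_EE`, `dd_E`): `Gn.bd`, `Gn.de` with `B = [y]`, `Gn.lev`.

The smaller degrees have smaller sums: `∑ (b' ..) < ∑ (b + dl x)`.
-/

namespace Pool.Agent.H52.BE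

open Finset

variable {V : Type*} [Fintype V] [LinearOrder V]
variable {K : Type*} [CommRing K] {H : V → V → Prop}

omit [Fintype V] in
private theorem PYcl_inl (P : List V) (i : V) : cl P (Sum.inl i) = P.count i := by
  induction P with
  | nil => simp [cl, cnt]
  | cons a P ih =>
    simp only [cl, cnt, List.map_cons, List.count_cons, beq_iff_eq, Sum.inl.injEq] at ih ⊢
    rw [ih]

omit [Fintype V] in
private theorem PYcl_inr (P : List V) (j : V) : cl P (Sum.inr j) = 0 := by
  induction P with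
  | nil => simp [cl, cnt]
  | cons a P ih =>
    simp only [cl, cnt, List.map_cons, List.count_cons, beq_iff_eq, reduceCtorEq, if_false,
      add_zero] at ih ⊢
    exact ih

omit [Fintype V] in
private theorem PYcr_single (y : V) : cr [y] = dl (Sum.inr y) := by
  funext w
  simp only [cr, cnt, dl, List.map_cons, List.map_nil, List.count_cons, List.count_nil,
    beq_iff_eq, zero_add]
  by_cases h : w = Sum.inr y
  · simp [h]
  · have h' : ¬ (Sum.inr y = w) := fun e => h e.symm
    simp [h, h']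

omit [Fintype V] in
private theorem PYcl_append (A B : List V) : cl (A ++ B) = cl A + cl B := by
  funext w
  simp [cl, cnt, List.map_append, List.count_append]

omit [Fintype V] in
private theorem PYcl_le (b : V ⊕ V → ℕ) (P : List V) (hn : P.Nodup)
    (h : ∀ p ∈ P, 1 ≤ b (Sum.inl p)) : cl P ≤ b := by
  intro w
  rcases w with i | j
  · rw [PYcl_inl]
    by_cases hi : i ∈ P
    · rw [List.count_eq_one_of_mem hn hi]; exact h i hi
    · rw [List.count_eq_zero.mpr hi]; exact Nat.zero_le _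
  · rw [PYcl_inr]; exact Nat.zero_le _

omit [Fintype V] in
/-- the corner condition -/
private theorem PYcor (hSO : SO H) (y : V) (b b' : V ⊕ V → ℕ) (P R : List V)
    (hfirst : ∀ j, 1 ≤ b (Sum.inr j) → y ≤ j)
    (hPR : (P ++ R).Pairwise (· < ·))
    (hX : ∀ i, H i y → 1 ≤ b (Sum.inl i) → i ∈ P ++ R)
    (hPH : ∀ p ∈ P, H p y)
    (hb : b = b' + cl P) (hb0 : ∀ p ∈ P, b' (Sum.inl p) = 0) :
    ∀ P1 u Q1, P.map Sum.inl = P1 ++ u :: Q1 →
      Cor H (b' + cnt (u :: Q1) + dl (Sum.inr y)) (Sum.inr y) u := by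
  intro P1 u Q1 hP
  obtain ⟨A, B, rfl, rfl, hB⟩ := List.map_eq_append_iff.mp hP
  obtain ⟨i, Q, rfl, rfl, rfl⟩ := List.map_eq_cons_iff.mp hB
  have hcnt : cnt (Sum.inl i :: Q.map Sum.inl : List (V ⊕ V)) = cl (i :: Q) := rfl
  have hiP : i ∈ A ++ i :: Q := by simp
  apply cor_inr hSO (hPH i hiP)
  · intro j hj
    have e : (b' + cnt (Sum.inl i :: Q.map Sum.inl) + dl (Sum.inr y) : V ⊕ V → ℕ) (Sum.inr j)
        = b' (Sum.inr j) + (if j = y then 1 else 0) := by
      rw [hcnt]
      simp only [Pi.add_apply, PYcl_inr, dl, add_zero, Sum.inr.injEq]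
    rw [e] at hj
    by_cases hjy : j = y
    · rw [hjy]
    · simp only [hjy, if_false, add_zero] at hj
      apply hfirst
      rw [hb, Pi.add_apply, PYcl_inr, add_zero]
      exact hj
  · intro i' hi' hH
    have e : (b' + cnt (Sum.inl i :: Q.map Sum.inl) + dl (Sum.inr y) : V ⊕ V → ℕ) (Sum.inl i')
        = b' (Sum.inl i') + (i :: Q).count i' := by
      rw [hcnt]
      simp only [Pi.add_apply, PYcl_inl, dl, reduceCtorEq, if_false, add_zero]
    rw [e] at hi'
    have hb1 : 1 ≤ b (Sum.inl i') := by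
      rw [hb, Pi.add_apply, PYcl_inl, List.count_append]
      omega
    have hmem := hX i' hH hb1
    have hnd : (A ++ i :: Q).Nodup :=
      (List.pairwise_append.mp hPR).1.imp (fun h => ne_of_lt h)
    rw [List.append_assoc, List.mem_append] at hmem
    rcases hmem with hA | hR
    · exfalso
      have h0 := hb0 i' (List.mem_append_left _ hA)
      have hni : i' ∉ i :: Q := fun hh => (List.disjoint_of_nodup_append hnd) hA hh
      rw [h0, List.count_eq_zero.mpr hni] at hi'
      omega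
    · rw [List.append_assoc] at hPR
      have hp := (List.pairwise_append.mp hPR).2.1
      rw [List.cons_append] at hp hR
      rcases List.mem_cons.mp hR with h1 | h1
      · rw [h1]
      · exact le_of_lt ((List.pairwise_cons.mp hp).1 i' h1)

private theorem PYsum (b b' : V ⊕ V → ℕ) (A : List V) (hA : A ≠ []) (w : V ⊕ V → ℕ)
    (h : b = b' + cl A) : ∑ v, b' v < ∑ v, (b + w : V ⊕ V → ℕ) v := by
  obtain ⟨i, hi⟩ := List.exists_mem_of_ne_nil A hA
  apply Finset.sum_lt_sum
  · intro v _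
    rw [h]; simp only [Pi.add_apply]; omega
  · refine ⟨Sum.inl i, Finset.mem_univ _, ?_⟩
    rw [h]; simp only [Pi.add_apply, PYcl_inl]
    have := List.count_pos_iff.mpr hi
    omega

/-- the submodule used in the expansion -/
private noncomputable def PYN (K : Type*) [CommRing K] (H : V → V → Prop) (y : V)
    (b : V ⊕ V → ℕ) (k : ℕ) : Submodule K (Finset (V ⊕ V) → K) :=
  GnS K H (b + dl (Sum.inr y)) k ⊓ Zv K H (dl (Sum.inr y)) b k

private theorem PYN_mem (y : V) (b : V ⊕ V → ℕ) (k : ℕ) (c : Finset (V ⊕ V) → K)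
    (h1 : Gn K H (b + dl (Sum.inr y)) k c) (h2 : c ∈ Zv K H (dl (Sum.inr y)) b k) :
    c ∈ PYN K H y b k := ⟨h1, h2⟩

private theorem PYN_bd (y : V) (b : V ⊕ V → ℕ) (k : ℕ) (w : Finset (V ⊕ V) → K)
    (hw : w ∈ Lv K H (dl (Sum.inr y)) b k) : dd K w ∈ PYN K H y b k :=
  PYN_mem y b k _ (Gn.bd _ _ _ (Lv_e_to_b' _ hw)) (Zv_boundary w hw)

private theorem PYN_lev (y : V) (b : V ⊕ V → ℕ) (k : ℕ) :
    Lv K H (dl (Sum.inr y)) b (k + 1) ≤ PYN K H y b k := by
  intro l hl
  exact PYN_mem y b k _ (Gn.lev _ _ _ (Lv_e_to_b' _ hl)) (Lv_Zv hl)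

/-- the prefix terms -/
private theorem PYN_pre (y : V) (b b' : V ⊕ V → ℕ) (k : ℕ) (P : List V)
    (hP : P.Pairwise (· < ·)) (hPH : ∀ p ∈ P, H p y) (hb : b = b' + cl P)
    (IH : ∀ a' : V ⊕ V → ℕ, ∑ v, a' v < ∑ v, (b + dl (Sum.inr y) : V ⊕ V → ℕ) v →
      ∀ (k' : ℕ) (c' : Finset (V ⊕ V) → K), c' ∈ Zv K H 0 a' k' → Gn K H a' k' c') :
    ∀ P1 Q1, P.map Sum.inl = P1 ++ Q1 → P1 ≠ [] → ∀ j, k = j + 1 →
      ∀ g ∈ Zv K H 0 (b' + cnt Q1) j, DD K P1 g ∈ PYN K H y b k := by
  intro P1 Q1 hPQ hne j hj g hg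
  obtain ⟨A, B, rfl, rfl, rfl⟩ := List.map_eq_append_iff.mp hPQ
  subst hj
  have hA : A ≠ [] := by rintro rfl; exact hne rfl
  have hbB : b = (b' + cl B) + cl A := by rw [hb, PYcl_append]; abel
  have hAH : ∀ i ∈ A, H i y := fun i hi => hPH i (List.mem_append_left _ hi)
  apply PYN_mem
  · have hgG := IH (b' + cl B) (PYsum b _ A hA _ hbB) j g hg
    have := Gn.dd' (K := K) (H := H) A [y] hA (by simp) (List.pairwise_append.mp hP).1
      (List.pairwise_singleton _ _)
      (fun i hi j' hj' => by rw [List.mem_singleton.mp hj']; exact hAH i hi)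
      (b' + cl B) j g hgG (b + dl (Sum.inr y)) (by rw [PYcr_single, hbB])
    simp only [List.map_cons, List.map_nil, DD_single] at this
    exact this
  · have := DD_Zv_adj (K := K) (H := H) (v := Sum.inr y) (b := b' + cl B) (j := j) (g := g)
      (A.map Sum.inl) (by
        intro u hu
        obtain ⟨i, hi, rfl⟩ := List.mem_map.mp hu
        exact hAH i hi) hg
    have e : b' + cl B + cnt (A.map Sum.inl) = b := by rw [hbB]
    rw [e] at this
    exact this

omit [Fintype V] [LinearOrder V] in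
private theorem PYadj (y : V) (P : List V) (hPH : ∀ p ∈ P, H p y) :
    ∀ u ∈ P.map Sum.inl, adj H (Sum.inr y) u := by
  intro u hu
  obtain ⟨i, hi, rfl⟩ := List.mem_map.mp hu
  exact hPH i hi

/-- the tail in case 1 -/
private theorem PYN_tail1 (y x : V) (b b' : V ⊕ V → ℕ) (k : ℕ) (P : List V)
    (hPx : (P ++ [x]).Pairwise (· < ·)) (hPH : ∀ p ∈ P, H p y) (hx : H x y)
    (hb : b = b' + cl P) (hbx : 2 ≤ b' (Sum.inl x))
    (hcor : Cor H (b' + dl (Sum.inr y)) (Sum.inr y) (Sum.inl x))
    (IH : ∀ a' : V ⊕ V → ℕ, ∑ v, a' v < ∑ v, (b + dl (Sum.inr y) : V ⊕ V → ℕ) v →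
      ∀ (k' : ℕ) (c' : Finset (V ⊕ V) → K), c' ∈ Zv K H 0 a' k' → Gn K H a' k' c')
    (g : Finset (V ⊕ V) → K) (hg : g ∈ Zv K H (dl (Sum.inr y)) b' k) :
    DD K (P.map Sum.inl ++ [Sum.inl x]) g ∈ PYN K H y b k := by
  have hadj : adj H (Sum.inr y) (Sum.inl x) := hx
  have hb' : b' = (b' - dl (Sum.inl x)) + dl (Sum.inl x) := by
    funext w
    simp only [Pi.add_apply, Pi.sub_apply, dl]
    split_ifs with h
    · subst h; omega
    · omega
  set b'' := b' - dl (Sum.inl x) with hb''
  have hx1 : 1 ≤ b'' (Sum.inl x) := by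
    rw [hb'']
    simp only [Pi.sub_apply, dl, if_true]
    omega
  have hcor' : Cor H (b'' + dl (Sum.inr y) + dl (Sum.inl x)) (Sum.inr y) (Sum.inl x) := by
    have e : b'' + dl (Sum.inr y) + dl (Sum.inl x) = b' + dl (Sum.inr y) := by
      rw [hb']; abel
    rw [e]; exact hcor
  have hZ : DD K (P.map Sum.inl ++ [Sum.inl x]) g ∈ Zv K H (dl (Sum.inr y)) b k := by
    have := tail_Zv (K := K) (H := H) (v := Sum.inr y) (u := Sum.inl x) (b := b') (k := k)
      (g := g) (P.map Sum.inl) (PYadj y P hPH) hadj (by omega) hcor hg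
    have e : b' + cnt (P.map Sum.inl) = b := hb.symm
    rw [e] at this
    exact this
  rcases k with _ | j
  · apply PYN_mem _ _ _ _ _ hZ
    have h1 : g ∈ Lv K H (dl (Sum.inr y)) b' 1 := by
      have h0 : g ∈ Lv K H (dl (Sum.inr y)) (b'' + dl (Sum.inl x)) 0 := by
        rw [← hb']; exact hg.1
      have := level_one2 hadj hx1 h0
      rw [← hb'] at this
      exact this
    have h2 := tail_Lv (K := K) (H := H) (v := Sum.inr y) (u := Sum.inl x) (b := b') (k := 1)
      (g := g) (P.map Sum.inl) (PYadj y P hPH) hadj (by omega) hcor h1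
    have e : b' + cnt (P.map Sum.inl) = b := hb.symm
    rw [e] at h2
    exact Gn.lev _ _ _ (Lv_e_to_b' _ h2)
  · apply PYN_mem _ _ _ _ _ hZ
    have hg' : g ∈ Zv K H 0 b'' j := by
      apply corner_Zv2 hadj hx1 hcor'
      rw [← hb']; exact hg
    have hbb : b = b'' + cl (P ++ [x]) := by
      rw [hb, PYcl_append]
      conv_lhs => rw [hb']
      have : cl [x] = dl (Sum.inl x) := by
        funext w
        simp only [cl, cnt, dl, List.map_cons, List.map_nil, List.count_cons, List.count_nil,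
          beq_iff_eq, zero_add]
        by_cases h : w = Sum.inl x
        · simp [h]
        · have h' : ¬ (Sum.inl x = w) := fun e => h e.symm
          simp [h, h']
      rw [this]; abel
    have hgG := IH b'' (PYsum b _ (P ++ [x]) (by simp) _ hbb) j g hg'
    have := Gn.dd' (K := K) (H := H) (P ++ [x]) [y] (by simp) (by simp) hPx
      (List.pairwise_singleton _ _)
      (fun i hi j' hj' => by
        rw [List.mem_singleton.mp hj']
        rcases List.mem_append.mp hi with h | h
        · exact hPH i h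
        · rw [List.mem_singleton.mp h]; exact hx)
      b'' j g hgG (b + dl (Sum.inr y)) (by rw [PYcr_single, hbb])
    simp only [List.map_cons, List.map_nil, DD_single, List.map_append] at this
    exact this

/-- the tail in case 2 -/
private theorem PYN_tail2 (y : V) (b b' : V ⊕ V → ℕ) (k : ℕ) (P : List V) (hne : P ≠ [])
    (hP : P.Pairwise (· < ·)) (hPH : ∀ p ∈ P, H p y) (hb : b = b' + cl P)
    (IH : ∀ a' : V ⊕ V → ℕ, ∑ v, a' v < ∑ v, (b + dl (Sum.inr y) : V ⊕ V → ℕ) v →
      ∀ (k' : ℕ) (c' : Finset (V ⊕ V) → K), c' ∈ Zv K H 0 a' k' → Gn K H a' k' c')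
    (g : Finset (V ⊕ V) → K) (hg : g ∈ Zv K H 0 b' k) :
    EE K (P.map Sum.inl) g ∈ PYN K H y b k := by
  have e : b' + cnt (P.map Sum.inl) = b := hb.symm
  have hZ : EE K (P.map Sum.inl) g ∈ Zv K H (dl (Sum.inr y)) b k := by
    have := EE_Zv_iso (K := K) (H := H) (v := Sum.inr y) (b := b') (k := k) (g := g)
      (P.map Sum.inl) (PYadj y P hPH) hg
    rw [e] at this
    exact this
  apply PYN_mem _ _ _ _ _ hZ
  have hgG := IH b' (PYsum b _ P hne _ hb) k g hg
  -- the three terms
  have t1 : Gn K H (b + dl (Sum.inr y)) k (dd K (EE K (P.map Sum.inl) (E1 K (Sum.inr y) g))) := by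
    apply Gn.bd
    have h1 := E_Lv (Sum.inr y) hg.1
    have h2 := EE_Lv (P.map Sum.inl) h1
    have e2 : b' + dl (Sum.inr y) + cnt (P.map Sum.inl) = b + dl (Sum.inr y) := by
      rw [← e]; abel
    rw [e2] at h2
    exact h2
  have t2 : Gn K H (b + dl (Sum.inr y)) k (DD K (P.map Sum.inl) (E1 K (Sum.inr y) g)) := by
    have := Gn.de (K := K) (H := H) P [y] hne (by simp) hP (List.pairwise_singleton _ _)
      (fun i hi j' hj' => by rw [List.mem_singleton.mp hj']; exact hPH i hi)
      b' k g hgG (b + dl (Sum.inr y)) (by rw [PYcr_single, hb])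
    exact this
  have t3 : Gn K H (b + dl (Sum.inr y)) k (EE K (P.map Sum.inl) (E1 K (Sum.inr y) (dd K g))) := by
    apply Gn.lev
    have h1 := E_Lv (Sum.inr y) hg.2
    have h2 := EE_Lv (P.map Sum.inl) h1
    have e2 : b' + dl (Sum.inr y) + cnt (P.map Sum.inl) = b + dl (Sum.inr y) := by
      rw [← e]; abel
    rw [e2] at h2
    exact h2
  have key := dd_EE (K := K) (P.map Sum.inl) (E1 K (Sum.inr y) g)
  rw [dd_E, map_sub] at key
  have hs : ((-1 : ℤ) ^ (P.map (Sum.inl : V → V ⊕ V)).length) *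
      ((-1 : ℤ) ^ (P.map (Sum.inl : V → V ⊕ V)).length) = 1 := by
    rw [← mul_pow]; simp
  set s : ℤ := (-1 : ℤ) ^ (P.map (Sum.inl : V → V ⊕ V)).length with hsdef
  have hEE : EE K (P.map Sum.inl) g = s • (dd K (EE K (P.map Sum.inl) (E1 K (Sum.inr y) g))
      - DD K (P.map Sum.inl) (E1 K (Sum.inr y) g))
      + EE K (P.map Sum.inl) (E1 K (Sum.inr y) (dd K g)) := by
    rw [key, add_sub_cancel_left, smul_smul, hs, one_smul, sub_add_cancel]
  rw [hEE]
  have t12 := Gn_sub t1 t2
  have t12s : Gn K H (b + dl (Sum.inr y)) k (s • (dd K (EE K (P.map Sum.inl)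
      (E1 K (Sum.inr y) g)) - DD K (P.map Sum.inl) (E1 K (Sum.inr y) g))) :=
    (GnS K H (b + dl (Sum.inr y)) k).toAddSubgroup.zsmul_mem t12 s
  exact Gn.add _ _ _ _ t12s t3

omit [Fintype V] [LinearOrder V] in
private theorem PYsplit (f : V → ℕ) : ∀ X : List V,
    (∃ P x Q, X = P ++ x :: Q ∧ (∀ p ∈ P, ¬ 2 ≤ f p) ∧ 2 ≤ f x) ∨ (∀ p ∈ X, ¬ 2 ≤ f p)
  | [] => Or.inr (by simp)
  | a :: X => by
    by_cases ha : 2 ≤ f a
    · exact Or.inl ⟨[], a, X, rfl, by simp, ha⟩
    · rcases PYsplit f X with ⟨P, x, Q, rfl, h1, h2⟩ | h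
      · refine Or.inl ⟨a :: P, x, Q, rfl, ?_, h2⟩
        intro p hp
        rcases List.mem_cons.mp hp with rfl | hp
        · exact ha
        · exact h1 p hp
      · refine Or.inr ?_
        intro p hp
        rcases List.mem_cons.mp hp with rfl | hp
        · exact ha
        · exact h p hp

theorem PY (hSO : SO H) (y : V) (b : V ⊕ V → ℕ) (k : ℕ)
    (hfirst : ∀ j, 1 ≤ b (Sum.inr j) → y ≤ j)
    (hX : ∃ x, H x y ∧ 1 ≤ b (Sum.inl x))
    (IH : ∀ a' : V ⊕ V → ℕ, ∑ v, a' v < ∑ v, (b + dl (Sum.inr y) : V ⊕ V → ℕ) v →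
      ∀ (k' : ℕ) (c' : Finset (V ⊕ V) → K), c' ∈ Zv K H 0 a' k' → Gn K H a' k' c')
    (c : Finset (V ⊕ V) → K) (hc : c ∈ Zv K H (dl (Sum.inr y)) b k) :
    Gn K H (b + dl (Sum.inr y)) k c := by
  classical
  suffices hN : Zv K H (dl (Sum.inr y)) b k ≤ PYN K H y b k from (hN hc).1
  set X : List V := (Finset.univ.filter (fun i => H i y ∧ 1 ≤ b (Sum.inl i))).sort with hXdef
  have hXs : X.Pairwise (· < ·) := (Finset.sortedLT_sort _).pairwise
  have hXm : ∀ i, i ∈ X ↔ (H i y ∧ 1 ≤ b (Sum.inl i)) := by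
    intro i
    rw [hXdef, Finset.mem_sort]
    simp
  have hXne : X ≠ [] := by
    obtain ⟨x, hx⟩ := hX
    intro h0
    have := (hXm x).mpr hx
    rw [h0] at this
    simp at this
  rcases PYsplit (fun i => b (Sum.inl i)) X with ⟨P, x, Q, hPQ, h1, h2⟩ | h1
  · -- case 1
    have hPX : ∀ p ∈ P, p ∈ X := fun p hp => by rw [hPQ]; exact List.mem_append_left _ hp
    have hxX : x ∈ X := by rw [hPQ]; simp
    have hPp : P.Pairwise (· < ·) := by
      rw [hPQ] at hXs; exact (List.pairwise_append.mp hXs).1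
    have hPx : (P ++ [x]).Pairwise (· < ·) := by
      rw [hPQ, List.append_cons] at hXs
      exact (List.pairwise_append.mp hXs).1
    have hPn : P.Nodup := hPp.imp (fun h => ne_of_lt h)
    have hPH : ∀ p ∈ P, H p y := fun p hp => ((hXm p).mp (hPX p hp)).1
    have hxP : x ∉ P := by
      intro hh
      have := (List.pairwise_append.mp hPx).2.2 x hh x (by simp)
      exact lt_irrefl _ this
    have hle : cl P ≤ b := PYcl_le b P hPn (fun p hp => ((hXm p).mp (hPX p hp)).2)
    have hb : b = (b - cl P) + cl P := by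
      funext w
      have h3 : cl P w ≤ b w := hle w
      simp only [Pi.add_apply, Pi.sub_apply]
      omega
    set b' := b - cl P with hb'
    have hb0 : ∀ p ∈ P, b' (Sum.inl p) = 0 := by
      intro p hp
      rw [hb', Pi.sub_apply, PYcl_inl, List.count_eq_one_of_mem hPn hp]
      have h3 : ¬ 2 ≤ b (Sum.inl p) := h1 p hp
      omega
    have hbx : 2 ≤ b' (Sum.inl x) := by
      rw [hb', Pi.sub_apply, PYcl_inl, List.count_eq_zero.mpr hxP]
      simpa using h2
    have hcorall := PYcor hSO y b b' P (x :: Q) hfirst (by rw [← hPQ]; exact hXs)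
      (fun i h3 h4 => by rw [← hPQ]; exact (hXm i).mpr ⟨h3, h4⟩) hPH hb hb0
    have hcorx : Cor H (b' + dl (Sum.inr y)) (Sum.inr y) (Sum.inl x) := by
      apply cor_inr hSO ((hXm x).mp hxX).1
      · intro j hj
        by_cases hjy : j = y
        · rw [hjy]
        · apply hfirst
          simp only [Pi.add_apply, dl, Sum.inr.injEq, hjy, if_false, add_zero] at hj
          rw [hb, Pi.add_apply]
          omega
      · intro i' hi' hH
        simp only [Pi.add_apply, dl, reduceCtorEq, if_false, add_zero] at hi'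
        have hmem : i' ∈ X := (hXm i').mpr ⟨hH, by rw [hb, Pi.add_apply]; omega⟩
        rw [hPQ, List.mem_append] at hmem
        rcases hmem with h | h
        · rw [hb0 i' h] at hi'; omega
        · rcases List.mem_cons.mp h with h | h
          · rw [h]
          · rw [hPQ] at hXs
            exact le_of_lt ((List.pairwise_cons.mp (List.pairwise_append.mp hXs).2.1).1 i' h)
    have e : b' + cnt (P.map Sum.inl) = b := hb.symm
    have := PL1 (K := K) (H := H) (Sum.inr y) (Sum.inl x) b' k ((hXm x).mp hxX).1 (by omega)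
      hcorx (P.map Sum.inl) (PYN K H y b k) (hPn.map Sum.inl_injective)
      (by
        intro u hu
        obtain ⟨i, hi, rfl⟩ := List.mem_map.mp hu
        exact hb0 i hi)
      (PYadj y P hPH) hcorall (by rw [e]; exact inf_le_right)
      (by rw [e]; exact fun w hw => PYN_bd y b k w hw)
      (by rw [e]; exact PYN_lev y b k)
      (PYN_pre y b b' k P hPp hPH hb IH)
      (fun g hg => PYN_tail1 y x b b' k P hPx hPH ((hXm x).mp hxX).1 hb hbx hcorx IH g hg)
    rw [e] at this
    exact this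
  · -- case 2
    have hXH : ∀ p ∈ X, H p y := fun p hp => ((hXm p).mp hp).1
    have hXn : X.Nodup := hXs.imp (fun h => ne_of_lt h)
    have hle : cl X ≤ b := PYcl_le b X hXn (fun p hp => ((hXm p).mp hp).2)
    have hb : b = (b - cl X) + cl X := by
      funext w
      have h3 : cl X w ≤ b w := hle w
      simp only [Pi.add_apply, Pi.sub_apply]
      omega
    set b' := b - cl X with hb'
    have hb0 : ∀ p ∈ X, b' (Sum.inl p) = 0 := by
      intro p hp
      rw [hb', Pi.sub_apply, PYcl_inl, List.count_eq_one_of_mem hXn hp]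
      have h3 : ¬ 2 ≤ b (Sum.inl p) := h1 p hp
      omega
    have hiso : ∀ u, 1 ≤ b' u → ¬ adj H (Sum.inr y) u := by
      intro u hu hadj
      rcases u with i | j
      · have hH : H i y := hadj
        have hi : i ∈ X := (hXm i).mpr ⟨hH, by rw [hb, Pi.add_apply]; omega⟩
        rw [hb0 i hi] at hu
        omega
      · exact hadj
    have hcorall := PYcor hSO y b b' X [] hfirst (by simpa using hXs)
      (fun i h3 h4 => by simpa using (hXm i).mpr ⟨h3, h4⟩) hXH hb hb0
    have e : b' + cnt (X.map Sum.inl) = b := hb.symm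
    have := PL2 (K := K) (H := H) (Sum.inr y) b' k hiso (X.map Sum.inl) (PYN K H y b k)
      (hXn.map Sum.inl_injective)
      (by
        intro u hu
        obtain ⟨i, hi, rfl⟩ := List.mem_map.mp hu
        exact hb0 i hi)
      (PYadj y X hXH) hcorall (by rw [e]; exact inf_le_right)
      (by rw [e]; exact fun w hw => PYN_bd y b k w hw)
      (by rw [e]; exact PYN_lev y b k)
      (PYN_pre y b b' k X hXs hXH hb IH)
      (fun g hg => PYN_tail2 y b b' k X hXne hXs hXH hb IH g hg)
    rw [e] at this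
    exact this

end Pool.Agent.H52.BE
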